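import Pool.Agent.P.MP_08fd93_co.FN.N8

/-! Root cells, static tops, and the colouring of a weak frame from a table of edges. -/

set_option autoImplicit false

namespace Pool.Agent.P.MP_08fd93_co.FE

open OV FB FN FU PkPrtP

section

variable {W : Type} {H : SimpleGraph W} {d : DD W} {v t : W} {e : Sym2 W}

/-- two edges over one vertex are strict -/
theorem ox_ty (hP : Pl H Set.univ) (T : TA H) (b : Bump H d v) (ab : d.a = d.b) :
    ∃ X' P, OutX H d ∅ X' P fun _ _ => True := by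
  obtain ⟨o, O⟩ := ty hP T b.disc.swap ab b.m1 b.m2
  exact ⟨_, _, (b.out1 O.swap (Or.inl rfl) (Set.empty_subset _) (Set.empty_subset _)).imp'
    fun _ _ _ _ => Or.inl (Or.inr rfl)⟩

/-- a rung from the left end of the top separates it from `e` -/
theorem ox_sep (T : TA H) (D : Disc H d) (st : H.Adj d.a' d.b') (he : e ∈ PE H d.X) (ht : t ∈ d.X)
    (r : H.Adj d.a' t) (k : ∀ x ∈ e, d.ρ x ≤ d.ρ t) : ∃ X' P, OutX H d {e} X' P fun _ _ => True := by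
  have m : s(d.a', d.b') ∈ PE H d.Y := mem_PE.2 ⟨D.py.ha, D.py.hb, st⟩
  obtain ⟨o, O⟩ := T d _ D (sep_pair (Or.inl he) (Or.inr m) ht D.py.ha r.symm
    (fun z hz => Or.inl ⟨PE.ends he hz, k z hz⟩)
    fun z hz => Or.inr ⟨PE.ends m hz, D.py.lo _ (PE.ends m hz)⟩)
  exact ⟨_, _, (out_top2 (S0 := {e}) D O st (by simp) (Set.singleton_subset_iff.2 he)).imp'
    fun _ _ _ _ => Or.inl (Or.inr rfl)⟩

theorem ox_sep' (T : TA H) (D : Disc H d) (st : H.Adj d.a' d.b') (he : e ∈ PE H d.X) (ht : t ∈ d.X)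
    (r : H.Adj d.b' t) (k : ∀ x ∈ e, d.ρ t ≤ d.ρ x) :
    ∃ X' P, OutX H d {e} X' P fun _ _ => True := by
  obtain ⟨X', P, h⟩ := ox_sep (d := rvD d) T (disc_rv D) st.symm he ht r fun x hx => by
    have := k x hx
    change 0 - _ ≤ 0 - _
    omega
  exact ⟨X', P, h.rv'⟩

end

variable {J : Type} {F : FD J} {X : XD J} {Pr : Set (Vx J)} {M : MU J} {p : PD J}
  {Ok : Un J → Prop} {d : DD (Vx J)} {S : Set (Sym2 (Vx J))} {V R : Set (Vx J)} {u : Un J}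
  {q : PQ J} {y t : Vx J} {e : Sym2 (Vx J)}

theorem sl_sep (hF : Lay F X Pr) (hM : MVal F X Pr M) (hd : MC F X M d V R) (hu : M.us = {u})
    (n : u.x = u.s) (he : e ∈ PE F.Γ d.X) (ht : t ∈ d.X) (r : F.Γ.Adj M.s t)
    (k : ∀ x ∈ e, d.ρ x ≤ d.ρ t) : Sl F p Ok M d {e} ∅ := by
  obtain ⟨X', P, h⟩ := ox_sep (all_T _ _ hF.fine.pl) hd.disc (one_edge hF hM hu hd n) he ht
    (hd.ea' ▸ r) k
  exact sl_true h (Set.empty_subset _)

theorem sl_sep' (hF : Lay F X Pr) (hM : MVal F X Pr M) (hd : MC F X M d V R) (hu : M.us = {u})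
    (n : u.x = u.s) (he : e ∈ PE F.Γ d.X) (ht : t ∈ d.X) (r : F.Γ.Adj M.s' t)
    (k : ∀ x ∈ e, d.ρ t ≤ d.ρ x) : Sl F p Ok M d {e} ∅ := by
  obtain ⟨X', P, h⟩ := ox_sep' (all_T _ _ hF.fine.pl) hd.disc (one_edge hF hM hu hd n) he ht
    (hd.eb' ▸ r) k
  exact sl_true h (Set.empty_subset _)

/-- an admissible set of edges together with a trivial top -/
theorem sl_adm (hF : Lay F X Pr) (hM : MVal F X Pr M) (hd : MC F X M d V R) (hu : M.us = {u})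
    (n : u.x = u.s) (hS : S ⊆ PE F.Γ d.X) (A : AdmP F.Γ d (insert s(d.a', d.b') S)) :
    Sl F p Ok M d S ∅ := by
  obtain ⟨o, O⟩ := tp hF.fine.pl (all_T _ _ hF.fine.pl) hd.disc A
  exact (sl_st hF hM hd hu n O (Or.inl rfl) (Set.subset_insert _ _) hS).mono subset_rfl
    (Set.empty_subset _)

/-- an admissible set of edges under a top that pays once -/
theorem sl_adm1 (hF : Lay F X Pr) (hM : MVal F X Pr M) (hd : MC F X M d V R) (hu : M.us = {u})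
    (hS : S ⊆ PE F.Γ d.X) (A : AdmP F.Γ d S) (pd : Ok u → T1 p F M u) : Sl F p Ok M d S ∅ := by
  obtain ⟨o, O⟩ := tp hF.fine.pl (all_T _ _ hF.fine.pl) hd.disc A
  exact (sl_out hF hM hd hu O hS pd).mono subset_rfl (Set.empty_subset _)

/-- The macro cell under the edge named by `y`. -/
structure C1 (F : FD J) (M : MU J) (y : Vx J) : Prop where
  la : y ∈ F.LA
  us : M.us = {Tv F y}
  es : M.s = y
  es' : M.s' = F.nx y

/-- The macro cell under the two edges that begin at `y`. -/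
structure C2 (F : FD J) (M : MU J) (y : Vx J) : Prop where
  la : y ∈ F.LA
  us : M.us = {Tv F y, Tv F (F.nx y)}
  es : M.s = y
  es' : M.s' = F.nx (F.nx y)

theorem C2.m1 (h : C2 F M y) : Tv F y ∈ M.us := by
  rw [h.us]
  exact Or.inl rfl

theorem C2.m2 (h : C2 F M y) : Tv F (F.nx y) ∈ M.us := by
  rw [h.us]
  exact Or.inr rfl

theorem C1.su (hF : Lay F X Pr) (h : C1 F M y) : q.SU F M = q.S y := by
  ext f
  refine ⟨?_, fun k => ⟨_, h.us ▸ rfl, y, cov_self (hF.tv_val h.la), k⟩⟩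
  rintro ⟨u, hu, z, c, k⟩
  rw [h.us] at hu
  subst hu
  exact hF.tv_cov h.la c ▸ k

theorem C2.su (hF : Lay F X Pr) (h : C2 F M y) : q.SU F M = q.S y ∪ q.S (F.nx y) := by
  have l := hF.la (hF.nx_mem h.la).1
  ext f
  constructor
  · rintro ⟨u, hu, z, c, k⟩
    rw [h.us] at hu
    rcases hu with rfl | rfl
    exacts [Or.inl (hF.tv_cov h.la c ▸ k), Or.inr (hF.tv_cov l c ▸ k)]
  · rintro (k | k)
    exacts [⟨_, h.m1, y, cov_self (hF.tv_val h.la), k⟩,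
      ⟨_, h.m2, _, cov_self (hF.tv_val l), k⟩]

/-- two strict edges under a static top that is monochromatic or has both tokens below -/
theorem C1.eb (hF : Lay F X Pr) (hM : MVal F X Pr M) (hd : MC F X M d V R) (h : C1 F M y)
    (hS : S ⊆ PE F.Γ d.X) (two : ∃ e e', S ⊆ {e, e'}) (pd : p.c y.1 = p.c (F.nx y).1 ∨
      (p.R F y ∧ y.1 ∈ p.dn ∧ p.Lt F (F.nx y) ∧ (F.nx y).1 ∈ p.dn)) : Sl F p Ok M d S ∅ :=
  sl_tab hF hM hd h.us hS (Or.inr (Or.inr ⟨rfl, two, fun _ => t2_dn (h.us ▸ rfl) rfl pd⟩))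

theorem C1.t1 (hF : Lay F X Pr) (h : C1 F M y) (k : p.Dn F y) : T1 p F M (Tv F y) :=
  t1_dn hF (hF.tv_val h.la) (h.us ▸ rfl) rfl k

theorem C2.bump (hF : Lay F X Pr) (hM : MVal F X Pr M) (hd : MC F X M d V R) (h : C2 F M y) :
    Bump F.Γ d (F.nx y) := by
  obtain ⟨n1, -, n3⟩ := hF.nx_mem h.la
  refine ⟨hd.disc, hd.eY ▸ ⟨_, h.m2, Or.inl rfl⟩, ?_, ?_, ?_⟩
  · rwa [hd.ea', h.es]
  · rw [hd.eb', h.es']
    exact (hF.nx_mem n1).2.2
  · rw [hd.ea', hd.eb']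
    intro e
    have := hM.lt
    rw [← e] at this
    omega

theorem C2.fol (h : C2 F M y) {c : Vx J → Col} (hc : p.FolT M c) : c y = p.c y.1 ∧
    c (F.nx y) = p.c (F.nx y).1 ∧ c (F.nx (F.nx y)) = p.c (F.nx (F.nx y)).1 :=
  ⟨(hc _ h.m1).1, (hc _ h.m2).1, (hc _ h.m2).2.1⟩

/-- the root cell over one vertex -/
theorem C2.ty (hF : Lay F X Pr) (hM : MVal F X Pr M) (hd : MC F X M d V R) (h : C2 F M y)
    (ab : d.a = d.b) (hS : S ⊆ PE F.Γ d.X) : Sl F p Ok M d S ∅ := by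
  obtain ⟨X', P, k⟩ := ox_ty hF.fine.pl (all_T _ _ hF.fine.pl) (h.bump hF hM hd) ab
  refine (sl_true k (Set.empty_subset _)).mono (fun f hf => ?_) (Set.empty_subset _)
  obtain ⟨a, ha, b, hb, l⟩ := nondeg hd.disc (Or.inl (hS hf))
  have := hd.disc.px.lo a (PE.ends (hS hf) ha)
  have := hd.disc.px.hi b (PE.ends (hS hf) hb)
  rw [← ab] at this
  omega

/-- the root cell without strict edges: one of the two edges is paid below -/
theorem C2.zero (hF : Lay F X Pr) (hM : MVal F X Pr M) (hd : MC F X M d V R) (h : C2 F M y)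
    (pd : p.Dn F y ∨ p.Dn F (F.nx y)) : Sl F p Ok M d ∅ ∅ := by
  have T := all_T _ _ hF.fine.pl
  have b := h.bump hF hM hd
  rcases pd with pd | pd
  · obtain ⟨X', P, k⟩ := ox_c0' T b
    refine ⟨X', P, _, k, Set.empty_subset _, fun _ σ c hc _ => ?_⟩
    obtain ⟨c1, c2, -⟩ := h.fol hc
    rw [hd.ea', h.es]
    rcases (t1_dn (M := M) hF (hF.tv_val h.la) h.m1 rfl pd).1 rfl with m | m | m
    exacts [Or.inl (congrArg σ (c2.trans (m.symm.trans c1.symm))), Or.inr (Or.inr m),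
      Or.inr (Or.inl m)]
  · obtain ⟨X', P, k⟩ := ox_c0 T b
    refine ⟨X', P, _, k, Set.empty_subset _, fun _ σ c hc _ => ?_⟩
    obtain ⟨-, c2, c3⟩ := h.fol hc
    rw [hd.eb', h.es']
    exact ((t1_dn (M := M) hF (hF.tv_val (hF.la (hF.nx_mem h.la).1)) h.m2 rfl
      pd).1 rfl).imp_left fun m => congrArg σ (c2.trans (m.trans c3.symm))

/-- The middle vertex differs in colour from both ends and pays below. -/
def DAp (F : FD J) (p : PD J) (y : Vx J) : Prop :=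
  p.c y.1 = p.c (F.nx (F.nx y)).1 ∧ p.c (F.nx y).1 ≠ p.c y.1 ∧
    (p.R F (F.nx y) ∨ p.Lt F (F.nx y)) ∧ (F.nx y).1 ∈ p.dn

/-- the root cell absorbs one strict edge -/
theorem C2.da (hF : Lay F X Pr) (hM : MVal F X Pr M) (hd : MC F X M d V R) (h : C2 F M y)
    (hS : S ⊆ PE F.Γ d.X) (one : S.Subsingleton) (pd : DAp F p y) : Sl F p Ok M d S ∅ := by
  obtain ⟨a1, a2, a3, a4⟩ := pd
  rcases S.eq_empty_or_nonempty with rfl | ⟨e, he⟩
  · exact h.zero hF hM hd (a3.symm.imp (fun m => Or.inr (Or.inr ⟨m, a4⟩))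
      fun m => Or.inr (Or.inl ⟨m, a4⟩))
  obtain ⟨X', P, t, t', -, k⟩ := (h.bump hF hM hd).da hF.fine.pl (all_T _ _ hF.fine.pl) (hS he)
  refine ⟨X', P, _, k.mono fun f hf => one hf he, Set.empty_subset _, fun _ σ c hc _ => Or.inl ?_⟩
  obtain ⟨c1, c2, c3⟩ := h.fol hc
  rw [hd.ea', hd.eb', h.es, h.es']
  simp only [c1, c2, c3, ne_eq, σ.apply_eq_iff_eq]
  refine ⟨a1, a2, Or.inl ?_⟩
  rcases a3 with m | m
  exacts [⟨_, h.m2, rfl, fun r => a2 (r.trans a1.symm), Or.inl ⟨rfl, m⟩, a4⟩,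
    ⟨_, h.m1, rfl, a2.symm, Or.inr ⟨rfl, m⟩, a4⟩]

/-- The three kinds of macro cells, if parentless vertices are isolated and edges that are not
ordinary are static. -/
theorem PS.kinds (hF : Lay F X Pr) (h : PS F X Pr p q) (hM : MVal F X Pr M)
    (o : ∀ u ∈ M.us, q.Ok0 F u) (iso : ∀ y ∈ F.LA, y ∈ Pr ∨ F.nx y ∈ Pr)
    (st : ∀ y ∈ F.LA, y ∈ Pr → F.nx y ∈ Pr → q.Od F p y ∨ y ∈ q.St F) :
    (∃ u, M.us = {u} ∧ ∀ y, F.Cov u y → q.Od F p y) ∨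
      (C1 F M M.s ∧ F.nx M.s ∈ Pr ∧ ¬ q.Od F p M.s) ∨ (C2 F M M.s ∧ F.nx M.s ∉ Pr) := by
  have tv : ∀ u ∈ M.us, ∀ y, F.Cov u y → y ∈ q.St F → u = Tv F y := fun u hu y c s =>
    h.stat hF (hM.val u hu).1 (o u hu) s c
  by_cases k : ∀ u ∈ M.us, u.s ∈ Pr
  · obtain ⟨u, hu⟩ := one_unit hF hM k
    have mu : u ∈ M.us := hu ▸ rfl
    obtain ⟨-, e1, e2⟩ := one_ends hF hM hu
    by_cases g : ∀ y, F.Cov u y → q.Od F p y
    · exact Or.inl ⟨u, hu, g⟩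
    simp only [not_forall] at g
    obtain ⟨y, c, n⟩ := g
    have l := hF.la c.1
    have s : y ∈ q.St F := by
      by_cases a : y ∈ Pr ∧ F.nx y ∈ Pr
      exacts [(st y l a.1 a.2).resolve_left n, h.np y l (not_and_or.1 a)]
    obtain rfl := tv u mu y c s
    obtain rfl : y = M.s := e1
    exact Or.inr (Or.inl ⟨⟨l, hu, rfl, e2.symm⟩, (show F.nx M.s = M.s' from e2) ▸ hM.ps', n⟩)
  simp only [not_forall] at k
  obtain ⟨u, mu, n⟩ := k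
  obtain ⟨vu, t1, t2⟩ := hM.val u mu
  have eu := tv u mu _ (cov_self vu) (h.np _ vu.hs (Or.inl n))
  have lt : F.ρ M.s < F.ρ u.s :=
    lt_of_le_of_ne t1.2.1 fun e => n (hF.inj hM.hs t1.1 e ▸ hM.ps)
  have lu := vlt vu
  have m := hF.l_mem (F.f M.s) (F.ρ u.s - 1)
  have t3 := t2.2.2
  have ez : F.nx (F.l (F.f M.s) (F.ρ u.s - 1)) = u.s := by
    rw [hF.nx_l, sub_add_cancel, hF.l_rho t1.1]
  obtain ⟨w, mw, cw⟩ := hM.cov _ ⟨m, by rw [hF.rho]; omega, by rw [hF.rho]; omega⟩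
    (by rw [hF.rho]; omega)
  have ew := tv w mw _ cw (h.np _ (hF.la m) (Or.inr (by rwa [ez])))
  have es : F.l (F.f M.s) (F.ρ u.s - 1) = M.s := by
    have := hM.mx w mw (by
      rw [ew]
      exact (iso _ (hF.la m)).resolve_right (by rwa [ez]))
    rwa [ew] at this
  rw [es] at ez ew
  obtain ⟨n1, n2, -⟩ := hF.nx_mem hM.hs
  obtain ⟨n3, n4, -⟩ := hF.nx_mem n1
  have e' : u.s' = F.nx (F.nx M.s) := by rw [ez, eu]; rfl
  have pr : u.s' ∈ Pr := by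
    rw [e', ez]
    exact (iso _ vu.hs).resolve_left n
  have fin : M.s' = F.nx (F.nx M.s) := by
    by_contra ne
    rw [← e'] at ne
    obtain ⟨z, mz, cz⟩ := hM.cov _ t2 (lt_of_le_of_ne t3 fun e => ne (hF.inj hM.hs' t2.1 e.symm))
    obtain ⟨vz, z1, -⟩ := hM.val z mz
    have c1 := cz.2.1
    have c2 := cz.2.2
    rcases eq_or_lt_of_le c1 with l | l
    · have := hM.mx z mz (hF.inj z1.1 t2.1 l ▸ pr)
      rw [this] at l
      omega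
    · have : z = u := hM.uni z mz u mu u.s
        ⟨(hM.lev hF mz).symm ▸ t1.1, by rw [e'] at l; rw [← ez]; omega, by omega⟩ (cov_self vu)
      rw [this] at c2
      omega
  refine Or.inr (Or.inr ⟨⟨hM.hs, ?_, rfl, fin⟩, ez ▸ n⟩)
  rw [← ew, ez, ← eu]
  ext z
  refine ⟨fun mz => ?_, by rintro (rfl | rfl) <;> assumption⟩
  obtain ⟨vz, z1, z2⟩ := hM.val z mz
  have := vlt vz
  have := z1.2.1
  have := z2.2.2
  rw [fin] at this
  by_cases a : F.ρ z.s = F.ρ M.s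
  · refine Or.inl (hM.uni z mz w mw z.s (cov_self vz) ?_)
    rw [hF.inj z1.1 hM.hs a, ew]
    exact cov_self (hF.tv_val hM.hs)
  · refine Or.inr (hM.uni z mz u mu z.s (cov_self vz) ?_)
    rw [hF.inj z1.1 n1 (by omega), ez]
    exact cov_self vu

section weak

variable {φ : Vx J → Vx J}

/-- The pins under the top edge `y`. -/
def Pn (F : FD J) (φ : Vx J → Vx J) (G : Set (Vx J)) (y : Vx J) : Set (Vx J) :=
  {g | g ∈ G ∧ g ∈ F.LA ∧ φ g = y}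

/-- The edges named by these pins. -/
def PinE (F : FD J) (φ : Vx J → Vx J) (G : Set (Vx J)) (y : Vx J) : Set (Sym2 (Vx J)) :=
  (fun g => s(g, F.nx g)) '' Pn F φ G y

/-- The system of pins given by `G` and `Vs` alone. -/
def PQ0 (F : FD J) (φ : Vx J → Vx J) (G Vs : Set (Vx J)) : PQ J :=
  ⟨G, Vs, PinE F φ G, fun _ => False, ∅⟩

variable {G Vs : Set (Vx J)}

theorem su_pin (hF : Lay F X Pr) (hφ : FK.PH F Pr φ) (hM : MVal F X Pr M) :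
    (PQ0 F φ G Vs).SU F M = PinS F M G := by
  ext f
  constructor
  · rintro ⟨u, hu, z, c, g, ⟨g1, g2, rfl⟩, rfl⟩
    obtain ⟨-, t1, t2⟩ := hM.val u hu
    exact ⟨g, g1, hφ.over' hF hM g2 (hM.lev hF hu ▸ c.1) (t1.2.1.trans c.2.1)
      (c.2.2.trans_le t2.2.2), rfl⟩
  · rintro ⟨g, g1, o, rfl⟩
    obtain ⟨u, hu, c⟩ := hφ.cov hF hM o
    exact ⟨u, hu, _, c, g, ⟨g1, (FK.over_la hF o).1, rfl⟩, rfl⟩

/-- The disc of a macro cell of a weak frame. -/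
structure WD (F : FD J) (Pr : Set (Vx J)) (M : MU J) (d : DD (Vx J)) : Prop where
  hM : MVal F (X0 F) Pr M
  mc : MC F (X0 F) M d ∅ ∅
  eX : d.X = F.Bot M.s M.s'
  ea : d.a = F.an M.s
  eb : d.b = F.an M.s'

theorem WD.cel (hF : Lay F (X0 F) Pr) (hφ : FK.PH F Pr φ) (h : WD F Pr M d) :
    Cel F (X0 F) p (PQ0 F φ G Vs) M d ∅ ∅ ∅ := by
  have e := su_pin (G := G) (Vs := Vs) hF hφ h.hM
  refine ⟨h.mc, e ▸ pinS_pe hF h.eX G, fun _ k => k.elim, fun y h1 _ h2 g _ => ?_,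
    ⟨id, fun _ _ _ _ _ k => k.elim⟩, fun _ _ k => k.elim, fun c _ _ => ⟨c, fun _ _ => rfl,
      fun _ k => k.elim, fun _ _ _ k => k.elim, fun _ _ _ k => k.elim⟩⟩
  rw [e]
  exact ⟨y, g, over_of hF (h.eX ▸ h1) (h.eX ▸ h2), rfl⟩

/-- The cell under the edge `y` has a solution. -/
def W1 (F : FD J) (Pr : Set (Vx J)) (φ : Vx J → Vx J) (p : PD J) (G Vs : Set (Vx J)) (y : Vx J) :
    Prop := ∀ M d, WD F Pr M d → C1 F M y → PinE F φ G y ⊆ PE F.Γ d.X →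
  Sl F p ((PQ0 F φ G Vs).Ok F) M d (PinE F φ G y) ∅

/-- The cell under the two edges that begin at `y` has a solution. -/
def W2 (F : FD J) (Pr : Set (Vx J)) (φ : Vx J → Vx J) (p : PD J) (G Vs : Set (Vx J)) (y : Vx J) :
    Prop := ∀ M d, WD F Pr M d → C2 F M y → PinE F φ G y ⊆ PE F.Γ d.X →
  Sl F p ((PQ0 F φ G Vs).Ok F) M d (PinE F φ G y) ∅

theorem od_none (k : ∀ g, g ∉ Pn F φ G y) : (PQ0 F φ G Vs).Od F p y :=
  ⟨fun _ ⟨g, m, _⟩ => absurd m (k g), fun ⟨_, g, m, _⟩ => absurd m (k g)⟩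

theorem od_one (k : (Pn F φ G y).Subsingleton) (pd : p.Dn F y) : (PQ0 F φ G Vs).Od F p y :=
  ⟨k.image _, fun _ => ⟨pd, fun m => m⟩⟩

theorem w1_eb (hF : Lay F (X0 F) Pr) {g g' : Vx J} (k : Pn F φ G y ⊆ {g, g'})
    (pd : p.c y.1 = p.c (F.nx y).1 ∨
      (p.R F y ∧ y.1 ∈ p.dn ∧ p.Lt F (F.nx y) ∧ (F.nx y).1 ∈ p.dn)) : W1 F Pr φ p G Vs y :=
  fun _ _ h c s => c.eb hF h.hM h.mc s ⟨s(g, F.nx g), s(g', F.nx g'), by
    rintro _ ⟨z, m, rfl⟩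
    rcases k m with rfl | rfl
    exacts [Or.inl rfl, Or.inr rfl]⟩ pd

theorem w1_of (hF : Lay F (X0 F) Pr) (one : (Pn F φ G y).Subsingleton)
    (k : ∀ M d, WD F Pr M d → C1 F M y → ∀ g ∈ Pn F φ G y, s(g, F.nx g) ∈ PE F.Γ d.X →
      Sl F p ((PQ0 F φ G Vs).Ok F) M d {s(g, F.nx g)} ∅) : W1 F Pr φ p G Vs y := by
  intro M d h c s
  rcases (PinE F φ G y).eq_empty_or_nonempty with n | ⟨_, g, m, rfl⟩
  · exact sl_tab hF h.hM h.mc c.us s (Or.inl n)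
  · refine (k M d h c g m (s ⟨g, m, rfl⟩)).mono ?_ (Set.empty_subset _)
    rintro _ ⟨z, mz, rfl⟩
    rw [one mz m]
    rfl

/-- the left end of the top sees a vertex right of the pin -/
theorem w1_sep (hF : Lay F (X0 F) Pr) (one : (Pn F φ G y).Subsingleton)
    (ht : t ∈ F.Bot y (F.nx y)) (r : F.Γ.Adj y t) (k : ∀ g ∈ Pn F φ G y, F.ρ g < F.ρ t) :
    W1 F Pr φ p G Vs y := by
  refine w1_of hF one fun M d h c g m s => ?_
  have tx : t ∈ d.X := by rwa [h.eX, c.es, c.es']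
  refine sl_sep hF h.hM h.mc c.us rfl s tx (c.es ▸ r) fun x hx => ?_
  rw [h.mc.rx x (PE.ends s hx) id, h.mc.rx t tx id]
  have := k g m
  have := (hF.nx_mem m.2.1).2.1
  rcases Sym2.mem_iff.1 hx with rfl | rfl <;> omega

/-- the right end of the top sees a vertex left of the pin -/
theorem w1_sep' (hF : Lay F (X0 F) Pr) (one : (Pn F φ G y).Subsingleton)
    (ht : t ∈ F.Bot y (F.nx y)) (r : F.Γ.Adj (F.nx y) t) (k : ∀ g ∈ Pn F φ G y, F.ρ t ≤ F.ρ g) :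
    W1 F Pr φ p G Vs y := by
  refine w1_of hF one fun M d h c g m s => ?_
  have tx : t ∈ d.X := by rwa [h.eX, c.es, c.es']
  refine sl_sep' hF h.hM h.mc c.us rfl s tx (c.es' ▸ r) fun x hx => ?_
  rw [h.mc.rx x (PE.ends s hx) id, h.mc.rx t tx id]
  have := k g m
  have := (hF.nx_mem m.2.1).2.1
  rcases Sym2.mem_iff.1 hx with rfl | rfl <;> omega

theorem w2_ty (hF : Lay F (X0 F) Pr) (e : F.an y = F.an (F.nx (F.nx y))) : W2 F Pr φ p G Vs y :=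
  fun _ _ h c s => c.ty hF h.hM h.mc (by rw [h.ea, h.eb, c.es, c.es', e]) s

theorem w2_zero (hF : Lay F (X0 F) Pr) (k : ∀ g, g ∉ Pn F φ G y)
    (pd : p.Dn F y ∨ p.Dn F (F.nx y)) : W2 F Pr φ p G Vs y :=
  fun _ _ h c _ => (c.zero hF h.hM h.mc pd).mono (fun _ ⟨g, m, _⟩ => absurd m (k g))
    (Set.empty_subset _)

theorem w2_da (hF : Lay F (X0 F) Pr) (one : (Pn F φ G y).Subsingleton) (pd : DAp F p y) :
    W2 F Pr φ p G Vs y := fun _ _ h c s => c.da hF h.hM h.mc s (one.image _) pd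

theorem st0 : y ∈ (PQ0 F φ G Vs).St F ↔ y ∈ G ∨ (y ∈ Vs ∧ F.nx y ∈ Vs) :=
  or_congr_left (and_iff_left fun k => k)

theorem ps0 (pl : Plan0 F X p) (gtr : ∀ a x, tr a x ∈ G ↔ x ∈ G) (vtr : ∀ a x, tr a x ∈ Vs ↔ x ∈ Vs)
    (up : ∀ y ∈ F.LA, y ∉ G → p.Up F y)
    (vis : ∀ v ∈ Vs, v ∈ F.LA → (∃ g ∈ G, g ∈ F.LA ∧ (v = g ∨ v = F.nx g)) ∨
      (∃ t ∈ Vs, t ∈ F.LA ∧ t ∈ Pr ∧ F.an t = v) ∨ ∃ k ∈ X.K, k ∈ F.U (F.f v + 1) ∧ F.Γ.Adj v k)
    (row : ∀ j, ∃ t ∈ F.L j, t ∈ Pr ∧ t ∈ Vs)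
    (np : ∀ y ∈ F.LA, y ∉ Pr ∨ F.nx y ∉ Pr → y ∈ G ∨ (y ∈ Vs ∧ F.nx y ∈ Vs)) :
    PS F X Pr p (PQ0 F φ G Vs) :=
  ⟨pl, gtr, vtr, fun _ _ => Iff.rfl, fun _ _ k => k, up, fun _ _ k => k.elim, vis, row,
    fun y a b => st0.2 (np y a b)⟩

/-- The colouring of a weak frame from a table of its edges. -/
theorem wmaster [Fintype J] (hW : FZ.WFrm F Pr) (hφ : FK.PH F Pr φ)
    (h : PS F (X0 F) Pr p (PQ0 F φ G Vs))
    (bar : ∀ y ∈ F.LA, ∃ n, φ^[n] y ∈ (PQ0 F φ G Vs).St F)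
    (iso : ∀ y ∈ F.LA, y ∈ Pr ∨ F.nx y ∈ Pr)
    (row : ∀ y ∈ F.LA, y ∈ Pr → F.nx y ∈ Pr → (PQ0 F φ G Vs).Od F p y ∨
      (y ∈ (PQ0 F φ G Vs).St F ∧ W1 F Pr φ p G Vs y))
    (root : ∀ y ∈ F.LA, y ∈ Pr → F.nx y ∉ Pr → W2 F Pr φ p G Vs y) : ∃ c, Col1 F.Γ ∅ c := by
  have hF := lay_of_w hW
  refine h.master hF hφ bar fun M hM o => ?_
  obtain ⟨d, d1, d2, d3, d4⟩ := mc_ex hW hM
  have w : WD F Pr M d := ⟨hM, d1, d2, d3, d4⟩
  have ce := w.cel (p := p) (G := G) (Vs := Vs) hF hφ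
  refine h.csol hF hM o ce (fun _ _ k => k) ?_
  have sub := ce.sub
  rcases PS.kinds hF h hM o iso fun y a b c => (row y a b c).imp_right And.left with
    ⟨u, hu, k⟩ | ⟨c, a, n⟩ | ⟨c, n⟩
  · exact h.ord hF hM hu (o u (hu ▸ rfl)) d1 sub k
  · rw [c.su hF] at sub ⊢
    exact ((row _ hM.hs hM.ps a).resolve_left n).2 M d w c sub
  · have e : (PQ0 F φ G Vs).SU F M = PinE F φ G M.s := by
      rw [c.su hF]
      refine Set.union_eq_left.2 ?_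
      rintro _ ⟨g, m, -⟩
      exact absurd (m.2.2 ▸ (hφ.und g m.2.1).2.1) n
    rw [e] at sub ⊢
    exact root _ hM.hs hM.ps n M d w c sub

end weak

end Pool.Agent.P.MP_08fd93_co.FE
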