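import Pool.Agent.P.MP_08fd93_co.FE.KS

/-! A cap that hides one end of an edge over two strict edges. -/

set_option autoImplicit false

namespace Pool.Agent.P.MP_08fd93_co.FE

open OV FB FN FU PkPrtP

section

variable {W : Type} {H : SimpleGraph W} {d e : DD W} {y h q t : W} {f f' : Sym2 W}
  {XL PL : Set W}

/-- The disc `e` is the part of `d` under the edge `a' h`, up to the edge `h q`. -/
structure Prt (H : SimpleGraph W) (d e : DD W) (h q : W) : Prop where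
  hu : h ∈ d.I
  hq : q ∈ d.X
  hp : H.Adj h q
  ha : H.Adj h d.a'
  de : Disc H e
  eX : ∀ x, x ∈ e.X ↔ x ∈ d.X ∧ d.ρ x ≤ d.ρ q
  eY : ∀ x, x ∈ e.Y ↔ x = d.a' ∨ x = h
  eρ : ∀ x ∈ e.X, e.ρ x = d.ρ x
  ea : e.a = d.a
  eb : e.b = q
  eZ : ∃ z ∈ e.Z, z ∈ d.Z

/-- The condition on the cap: the apex avoids the colour of the visible end and both ends have
their tokens. -/
def RΨ (H : SimpleGraph W) (a y b h t : W) (c : W → Col) (A : Set W) : Prop :=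
  c y ≠ c a ∧ a ∈ A ∧ (c y = c b ∨ (y ∈ A ∧ b ∈ A ∧ (t = a ∨ ¬ H.Adj h b)))

theorem rem_eb (U : S_Unh) (hP : Pl H Set.univ) (T : TA H) (B : Bump H d y) (P : Prt H d e h q)
    (O : OutX H e {f, f'} XL PL fun c A => c d.a' = c h ∨ t ∈ A) :
    ∃ X' P', OutX H d {f, f'} X' P' (RΨ H d.a' y d.b' h t) := by
  have D := B.disc
  have sub : ∀ g ∈ ({f, f'} : Set (Sym2 W)), g ∈ PE H d.X := fun g hg =>
    PE.mono (fun x k => ((P.eX x).1 k).1) (O.sub hg)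
  by_cases n : H.Adj q d.a'
  · obtain ⟨o, O'⟩ := FS.sp hP T D (Or.inr D.py.ha) D.px.ha P.hq D.ra.symm n.symm
      (sub f (Or.inl rfl)) (sub f' (Or.inr rfl)) fun x k => by
        have m : x ∈ e.X := k.elim (PE.ends (O.sub (Or.inl rfl))) (PE.ends (O.sub (Or.inr rfl)))
        exact ⟨D.px.lo x ((P.eX x).1 m).1, ((P.eX x).1 m).2⟩
    exact ⟨_, _, (B.unh' U hP T O' sub).imp' fun c A _ k =>
      ⟨k.1, k.2.1, k.2.2.imp_right fun m => m.1⟩⟩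
  have R : Rem H d e y h q :=
    ⟨B, P.hu, P.hq, P.hp, P.ha, fun _ _ => n, P.de, P.eX, P.eY, P.eρ, P.ea, P.eb, P.eZ⟩
  obtain ⟨XR, PR, -, k⟩ := R.mono hP T O
  refine ⟨_, _, k.imp' fun c A _ m => ⟨m.1, ⟨m.2.1, fun c1 e1 e2 => Or.inl (e1.trans e2.symm)⟩,
    m.2.2.imp_right ?_⟩⟩
  rintro ⟨m1, -, rfl | m3⟩
  · exact Or.inr (Or.inl ⟨m1, fun _ _ _ => Or.inr ⟨m.2.1, rfl⟩⟩)
  · exact Or.inl ⟨Or.inl m1, m3⟩

theorem rem_eb' (U : S_Unh) (hP : Pl H Set.univ) (T : TA H) (B : Bump H d y)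
    (P : Prt H (rvD d) (rvD e) h q)
    (O : OutX H e {f, f'} XL PL fun c A => c d.b' = c h ∨ t ∈ A) :
    ∃ X' P', OutX H d {f, f'} X' P' (RΨ H d.b' y d.a' h t) := by
  obtain ⟨X', P', k⟩ := rem_eb U hP T B.rv P O.rv
  exact ⟨X', P', k.rv'⟩

end

variable {J : Type} {F : FD J} {X : XD J} {Pr : Set (Vx J)} {M : MU J} {p : PD J}
  {Ok : Un J → Prop} {d e : DD (Vx J)} {V R : Set (Vx J)} {u : Un J} {h q t : Vx J}
  {f f' : Sym2 (Vx J)} {XL PL : Set (Vx J)}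

theorem at_ends (mu : u ∈ M.us) (n : u.x ≠ u.s) :
    (p.R F u.s → p.cx u ≠ p.c u.s.1 → u.s ∈ p.AT F M) ∧
      (p.Lt F u.s' → p.cx u ≠ p.c u.s'.1 → u.s' ∈ p.AT F M) ∧
      (p.cx u ≠ p.c u.s.1 → p.cx u ≠ p.c u.s'.1 → u.x ∈ p.AT F M) :=
  ⟨fun a b => Or.inr (Or.inl ⟨u, mu, n, Or.inl ⟨Or.inl ⟨rfl, a⟩, b⟩⟩),
    fun a b => Or.inr (Or.inl ⟨u, mu, n, Or.inl ⟨Or.inr ⟨rfl, a⟩, b⟩⟩),
    fun a b => Or.inr (Or.inl ⟨u, mu, n, Or.inr ⟨rfl, a, b⟩⟩)⟩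

/-- The cap `u` hides the right end `h` of the edge at its left end. -/
theorem sl_rem (hF : Lay F X Pr) (hM : MVal F X Pr M) (hd : MC F X M d V R) (hu : M.us = {u})
    (n : u.x ≠ u.s) (P : Prt F.Γ d e h q)
    (O : OutX F.Γ e {f, f'} XL PL fun c A => c u.s = c h ∨ t ∈ A)
    (pd : Ok u → p.R F u.s ∧ p.Lt F u.s' ∧ p.cx u ≠ p.c u.s.1 ∧
      (t = u.s ∨ p.cx u = p.c u.s'.1 ∨ ¬ F.Γ.Adj h u.s')) : Sl F p Ok M d {f, f'} ∅ := by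
  have hP := hF.fine.pl
  have mu : u ∈ M.us := hu ▸ rfl
  obtain ⟨-, e1, e2⟩ := one_ends hF hM hu
  have ea : d.a' = u.s := hd.ea'.trans e1.symm
  have eb : d.b' = u.s' := hd.eb'.trans e2.symm
  obtain ⟨X', P', k⟩ := rem_eb all_Unh hP (all_T _ _ hP) (one_cap hF hM hu hd n) P (ea ▸ O)
  refine ⟨X', P', _, k, Set.empty_subset _, fun o σ c hc _ => ?_⟩
  obtain ⟨a1, a2, a3, a4⟩ := pd (o u mu)
  obtain ⟨b1, b2, b3⟩ := at_ends (p := p) (F := F) mu n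
  rw [ea, eb]
  simp only [RΨ, (hc u mu).2.2 n, (hc u mu).1, (hc u mu).2.1, ne_eq, σ.apply_eq_iff_eq]
  refine ⟨a3, b1 a1 a3, ?_⟩
  by_cases g : p.cx u = p.c u.s'.1
  · exact Or.inl g
  · exact Or.inr ⟨b3 a3 g, b2 a2 g, a4.imp_right fun m => m.resolve_left g⟩

/-- The cap `u` hides the left end `h` of the edge at its right end. -/
theorem sl_rem' (hF : Lay F X Pr) (hM : MVal F X Pr M) (hd : MC F X M d V R) (hu : M.us = {u})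
    (n : u.x ≠ u.s) (P : Prt F.Γ (rvD d) (rvD e) h q)
    (O : OutX F.Γ e {f, f'} XL PL fun c A => c u.s' = c h ∨ t ∈ A)
    (pd : Ok u → p.R F u.s ∧ p.Lt F u.s' ∧ p.cx u ≠ p.c u.s'.1 ∧
      (t = u.s' ∨ p.cx u = p.c u.s.1 ∨ ¬ F.Γ.Adj h u.s)) : Sl F p Ok M d {f, f'} ∅ := by
  have hP := hF.fine.pl
  have mu : u ∈ M.us := hu ▸ rfl
  obtain ⟨-, e1, e2⟩ := one_ends hF hM hu
  have ea : d.a' = u.s := hd.ea'.trans e1.symm
  have eb : d.b' = u.s' := hd.eb'.trans e2.symm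
  obtain ⟨X', P', k⟩ := rem_eb' all_Unh hP (all_T _ _ hP) (one_cap hF hM hu hd n) P (eb ▸ O)
  refine ⟨X', P', _, k, Set.empty_subset _, fun o σ c hc _ => ?_⟩
  obtain ⟨a1, a2, a3, a4⟩ := pd (o u mu)
  obtain ⟨b1, b2, b3⟩ := at_ends (p := p) (F := F) mu n
  rw [ea, eb]
  simp only [RΨ, (hc u mu).2.2 n, (hc u mu).1, (hc u mu).2.1, ne_eq, σ.apply_eq_iff_eq]
  refine ⟨a3, b2 a2 a3, ?_⟩
  by_cases g : p.cx u = p.c u.s.1
  · exact Or.inl g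
  · exact Or.inr ⟨b3 g a3, b1 a1 g, a4.imp_right fun m => m.resolve_left g⟩

end Pool.Agent.P.MP_08fd93_co.FE
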