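import Pool.Agent.P.MP_08fd93_co.FE.KN
import Pool.Agent.P.MP_08fd93_co.FB.C13
import Pool.Agent.P.MP_08fd93_co.FS.SP

/-! Solutions of the disc of a macro cell that are compatible with the plan on the top. -/

set_option autoImplicit false

namespace Pool.Agent.P.MP_08fd93_co.FE

open OV FB FN PkPrtP

variable {J : Type} {F : FD J} {X : XD J} {Pr : Set (Vx J)} {M : MU J} {p : PD J}
  {Ok : Un J → Prop} {d : DD (Vx J)} {S S' : Set (Sym2 (Vx J))} {V R : Set (Vx J)} {u : Un J}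

/-- A one-sided output with strict edges `S` that keeps `B` and whose condition on the top follows
from the plan. -/
def Sl (F : FD J) (p : PD J) (Ok : Un J → Prop) (M : MU J) (d : DD (Vx J))
    (S : Set (Sym2 (Vx J))) (B : Set (Vx J)) : Prop :=
  ∃ X' P Ψ, OutX F.Γ d S X' P Ψ ∧ B ⊆ X' ∧ ((∀ u ∈ M.us, Ok u) → ∀ (σ : Col ≃ Col)
    (c : Vx J → Col), p.FolT M c → (∀ y ∈ d.Y, (σ (c y)).1 = true) →
      Ψ (fun v => σ (c v)) (p.AT F M))

/-- The corners and the ends of the strict edges. -/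
def Kp (d : DD (Vx J)) (S : Set (Sym2 (Vx J))) : Set (Vx J) :=
  {v | v = d.a ∨ v = d.b ∨ ∃ e ∈ S, v ∈ e}

theorem kp_sub {X' P : Set (Vx J)} {Ψ : (Vx J → Col) → Set (Vx J) → Prop}
    (h : OutX F.Γ d S X' P Ψ) : Kp d S ⊆ X' := by
  rintro v (rfl | rfl | ⟨e, he, m⟩)
  exacts [h.sh.ha, h.sh.hb, h.st e he v m]

variable {B B' : Set (Vx J)}

theorem Sl.mono (h : Sl F p Ok M d S B) (s : S' ⊆ S) (b : B' ⊆ B ∪ Kp d S) :
    Sl F p Ok M d S' B' := by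
  obtain ⟨X', P, Ψ, h1, h2, h3⟩ := h
  exact ⟨X', P, Ψ, h1.mono s, fun v hv => (b hv).elim (fun k => h2 k) fun k => kp_sub h1 k, h3⟩

/-- an output without a condition on the top -/
theorem sl_true {X' P : Set (Vx J)} (h : OutX F.Γ d S X' P fun _ _ => True) (b : B ⊆ X') :
    Sl F p Ok M d S B := ⟨X', P, _, h, b, fun _ _ _ _ _ => trivial⟩

theorem sl_tab (hF : Lay F X Pr) (hM : MVal F X Pr M) (hd : MC F X M d V R) (hu : M.us = {u})
    (hS : S ⊆ PE F.Γ d.X) (top : Tab p F Ok M u S) : Sl F p Ok M d S ∅ := by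
  obtain ⟨X', P, Ψ, h, k⟩ := top_table hF hM hd hu hS top
  exact ⟨X', P, Ψ, h, Set.empty_subset _, fun o σ c hc _ => k (o u (hu ▸ rfl)) σ c hc⟩

/-- any output whose strict edges lie on the first path works under a top that pays once -/
theorem sl_out (hF : Lay F X Pr) (hM : MVal F X Pr M) (hd : MC F X M d V R) (hu : M.us = {u})
    {o : OD (Vx J)} (O : Out F.Γ d S o) (hS : S ⊆ PE F.Γ d.X) (pd : Ok u → T1 p F M u) :
    Sl F p Ok M d S o.X := by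
  have hP := hF.fine.pl
  have T := all_T _ _ hP
  have mu : u ∈ M.us := hu ▸ rfl
  obtain ⟨vu, e1, e2⟩ := one_ends hF hM hu
  have ea : d.a' = u.s := hd.ea'.trans e1.symm
  have eb : d.b' = u.s' := hd.eb'.trans e2.symm
  by_cases t : u.x = u.s
  · refine ⟨_, _, _, out_top2 hd.disc O (one_edge hF hM hu hd t) subset_rfl hS, subset_rfl,
      fun o σ c hc _ => Or.inr ?_⟩
    rw [ea, eb]
    refine ((pd (o u mu)).1 t).imp_left fun q => ?_
    simp only [(hc u mu).1, (hc u mu).2.1, q]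
  · have b := one_cap hF hM hu hd t
    have xa : p.cx u ≠ p.c u.s.1 → p.cx u ≠ p.c u.s'.1 → u.x ∈ p.AT F M :=
      fun q q' => Or.inr (Or.inl ⟨u, mu, t, Or.inr ⟨rfl, q, q'⟩⟩)
    refine ⟨_, _, _, outX_or (b.unh all_Unh hP T O hS) (b.unh' all_Unh hP T O hS), subset_rfl,
      fun o σ c hc _ => ?_⟩
    rw [ea, eb]
    simp only [(hc u mu).2.2 t, (hc u mu).1, (hc u mu).2.1, ne_eq, σ.apply_eq_iff_eq]
    rcases (pd (o u mu)).2 t with ⟨m, n⟩ | ⟨m, n⟩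
    · refine Or.inr ⟨n, m, ?_⟩
      by_cases q : p.cx u = p.c u.s'.1
      exacts [Or.inl q, Or.inr (xa n q)]
    · refine Or.inl ⟨n, m, ?_⟩
      by_cases q : p.cx u = p.c u.s.1
      exacts [Or.inl q, Or.inr (xa q n)]

/-- a trivial top that is strict in the output -/
theorem sl_st (hF : Lay F X Pr) (hM : MVal F X Pr M) (hd : MC F X M d V R) (hu : M.us = {u})
    (t : u.x = u.s) {o : OD (Vx J)} (O : Out F.Γ d S' o) (m : s(d.a', d.b') ∈ S') (s : S ⊆ S')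
    (hS : S ⊆ PE F.Γ d.X) : Sl F p Ok M d S o.X :=
  sl_true ((out_top2 hd.disc O (one_edge hF hM hu hd t) s hS).imp' fun _ _ _ _ => Or.inl m)
    subset_rfl

/-- Lemma K1: a trivial top and a good edge are strict together. -/
theorem sl_k1 (hF : Lay F X Pr) (hM : MVal F X Pr M) (hd : MC F X M d V R) (hu : M.us = {u})
    (t : u.x = u.s) {e : Sym2 (Vx J)} (he : e ∈ PE F.Γ d.X) (g : ∀ z, ¬ Bad F.Γ d z e) :
    Sl F p Ok M d {e} ∅ := by
  obtain ⟨X', P, h⟩ := outX_k1 hF.fine.pl (all_T _ _ hF.fine.pl) hd.disc (one_edge hF hM hu hd t)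
    he g
  exact sl_true h (Set.empty_subset _)

/-- Lemma SP: two strict edges in the span of one vertex under a top that pays once. -/
theorem sl_sp (hF : Lay F X Pr) (hM : MVal F X Pr M) (hd : MC F X M d V R) (hu : M.us = {u})
    {w a b : Vx J} (hw : w ∈ d.I ∨ w ∈ d.Y) (ha : a ∈ d.X) (hb : b ∈ d.X) (wa : F.Γ.Adj w a)
    (wb : F.Γ.Adj w b) {e e' : Sym2 (Vx J)} (he : e ∈ PE F.Γ d.X) (he' : e' ∈ PE F.Γ d.X)
    (h : ∀ x, x ∈ e ∨ x ∈ e' → d.ρ a ≤ d.ρ x ∧ d.ρ x ≤ d.ρ b) (pd : Ok u → T1 p F M u) :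
    Sl F p Ok M d {e, e'} ∅ := by
  obtain ⟨o, O⟩ := FS.sp hF.fine.pl (all_T _ _ hF.fine.pl) hd.disc hw ha hb wa wb he he' h
  refine (sl_out hF hM hd hu O ?_ pd).mono subset_rfl (Set.empty_subset _)
  rintro _ (rfl | rfl)
  exacts [he, he']

/-- The converter for such outputs (any number of units on top). -/
theorem Sl.csol (h : Sl F p Ok M d S B) (hF : Lay F X Pr) (hp : Plan F X p Ok)
    (hM : MVal F X Pr M) (hd : MC F X M d V R) (hV : ∀ v ∈ V, v ∈ d.X → v ∈ B ∪ Kp d S)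
    (π : Vx J → Vx J)
    (hb : ∀ y ∈ d.X, y ∉ X.K → F.nx y ∈ d.X → s(y, F.nx y) ∈ S ∨ p.Up F y)
    (hk : ∀ a ∈ d.X, ∀ b ∈ d.X, F.Γ.Adj a b → a ∈ X.K → s(a, b) ∈ S ∨ p.c a.1 = p.c b.1 ∨
      (p.Sp0 F M a ∧ π a = b) ∨ (p.Sp0 F M b ∧ π b = a))
    (hkc : ∀ a ∈ d.X, a ∈ X.K → (p.c a.1).1 = p.cls (F.f M.s - 1))
    (htv : ∀ y, Over F M y → Ok (Tv F y))
    (hOk : ∀ u', Val F ∅ u' → KF F X u' → u'.x ≠ u'.s → u'.s ∈ F.Bot M.s M.s' →
      u'.s' ∈ F.Bot M.s M.s' → (∀ v ∈ u'.pk, v ∉ B ∪ Kp d S) →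
      (∀ y, F.Cov u' y → y ∈ d.X ∧ F.nx y ∈ d.X ∧ s(y, F.nx y) ∉ S ∧ p.Up F y) → Ok u')
    (hR : ∀ c : Vx J → Col, (∀ v ∈ X.K, c v = p.c v.1) →
      (∀ v ∈ F.Bot M.s M.s', (v ∉ d.X ∨ v ∈ B ∪ Kp d S) → c v = p.c v.1) →
      ∃ c', Rec F.Γ R ∅ c c') : CSol F X p Ok M := by
  obtain ⟨X', P, Ψ, h, b, k⟩ := h
  have vis : ∀ v ∈ B ∪ Kp d S, v ∈ X' := fun v hv => hv.elim (fun m => b m) fun m => kp_sub h m
  refine csol_of_outX hF hp hM hd h (fun v h1 h2 => vis v (hV v h1 h2)) π hb hk hkc htv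
    (fun u' h1 h2 h3 h4 h5 h6 => hOk u' h1 h2 h3 h4 h5 fun v hv m => h6 v hv (vis v m)) k
    fun c h1 h2 => hR c h1 fun v hv q => h2 v hv ?_
  rcases q with q | q
  · exact fun m => (h.sh.ps m).elim q fun g => botNot hv (ciU hF hM (hd.ci g))
  · exact h.sh.dis v (vis v q)

/-- The edges named by the pins under the cell. -/
def PinS (F : FD J) (M : MU J) (G : Set (Vx J)) : Set (Sym2 (Vx J)) :=
  {e | ∃ g ∈ G, Over F M g ∧ e = s(g, F.nx g)}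

theorem over_pe (hF : Lay F X Pr) (hX : d.X = F.Bot M.s M.s') {y : Vx J} (o : Over F M y) :
    s(y, F.nx y) ∈ PE F.Γ d.X := by
  rw [hX]
  exact mem_PE.2 ⟨o.1, over_nx hF o, (hF.nx_mem o.1.1).2.2⟩

theorem pinS_pe (hF : Lay F X Pr) (hX : d.X = F.Bot M.s M.s') (G : Set (Vx J)) :
    PinS F M G ⊆ PE F.Γ d.X := by
  rintro _ ⟨g, -, o, rfl⟩
  exact over_pe hF hX o

/-- The converter for a cell whose bottom is an interval of the row. -/
theorem Sl.row {G : Set (Vx J)} (h : Sl F p Ok M d (PinS F M G) B) (hF : Lay F X Pr)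
    (hp : Plan F X p Ok) (hM : MVal F X Pr M) (hd : MC F X M d V ∅) (hX : d.X = F.Bot M.s M.s')
    (hV : ∀ v ∈ V, v ∈ d.X → v ∈ B ∪ Kp d (PinS F M G))
    (up : ∀ y, Over F M y → y ∉ G → p.Up F y) (htv : ∀ y, Over F M y → Ok (Tv F y))
    (hOk : ∀ u', Val F ∅ u' → KF F X u' → u'.x ≠ u'.s → u'.s ∈ F.Bot M.s M.s' →
      u'.s' ∈ F.Bot M.s M.s' → (∀ v ∈ u'.pk, v ∉ B) → (∀ y, F.Cov u' y → Over F M y ∧ y ∉ G) →
      Ok u') : CSol F X p Ok M := by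
  have nk : ∀ a ∈ d.X, a ∉ X.K := fun a ha k => hF.k_la k (hF.la (hX ▸ ha).1)
  refine h.csol hF hp hM hd hV id (fun y h1 _ h2 => ?_)
    (fun a ha _ _ _ k => absurd k (nk a ha)) (fun a ha k => absurd k (nk a ha)) htv
    (fun u' h1 h2 h3 h4 h5 h6 h7 => hOk u' h1 h2 h3 h4 h5 (fun v hv m => h6 v hv (Or.inl m))
      fun y c => ?_)
    fun c _ _ => ⟨c, fun _ _ => rfl, fun _ k => k.elim, fun _ _ _ k => k.elim,
      fun _ _ _ k => k.elim⟩
  · have o := over_of hF (hX ▸ h1) (hX ▸ h2)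
    by_cases g : y ∈ G
    exacts [Or.inl ⟨y, g, o, rfl⟩, Or.inr (up y o g)]
  · obtain ⟨a1, a2, a3, -⟩ := h7 y c
    have o := over_of hF (hX ▸ a1) (hX ▸ a2)
    exact ⟨o, fun g => a3 ⟨y, g, o, rfl⟩⟩

end Pool.Agent.P.MP_08fd93_co.FE
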