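import Pool.Agent.P.MP_08fd93_co.FE.LZ1

/-! Depth two with a long second root: the statement. -/

set_option autoImplicit false

namespace Pool.Agent.P.MP_08fd93_co.FE

open OV FP2

variable {J : Type}

/-- `t` sees an edge `a y` of the first row; `v` sees only its end `y`. -/
def Tp (Γ : SimpleGraph (Vx J)) (v z : Vx J) (g : Vx J → ℤ) (t a y : Vx J) : Prop :=
  a ∈ LL Γ (rz v z g) 1 ∧ y ∈ LL Γ (rz v z g) 1 ∧ Γ.Adj a y ∧ Γ.Adj v y ∧ ¬ Γ.Adj v a ∧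
    Γ.Adj t a ∧ Γ.Adj t y

/-- An anchored neighbour of `v` off the first row is the apex of a side. -/
def TPv (Γ : SimpleGraph (Vx J)) (v z : Vx J) (g : Vx J → ℤ) (t : Vx J) : Prop :=
  Γ.Adj v t ∧ t ∉ LL Γ (rz v z g) 1 ∧ Rp Γ v z g t ∧ ∃ a y, Tp Γ v z g t a y

/-- The second root is the apex of a side. -/
def TPz (Γ : SimpleGraph (Vx J)) (v z : Vx J) (g : Vx J → ℤ) : Prop :=
  ∃ a y, Tp Γ v z g z a y ∧ Rp Γ v z g a

/-- The second root is long, and `u` is another anchored neighbour of `v`. -/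
def S_LongZ : Prop := ∀ (J : Type) [Fintype J] (Γ : SimpleGraph (Vx J)) (η : ℤ × ℤ →+ ℤ)
  (v z p p' u : Vx J) (g : Vx J → ℤ), NJ Γ Set.univ → Lz Γ η v z p p' g → Γ.Adj v u →
    Rp Γ v z g u → (u ∈ LL Γ (rz v z g) 1 ∨ ((∀ t, ¬ TPv Γ v z g t) ∧
      ∀ x ∈ LL Γ (rz v z g) 1, Γ.Adj z x → Γ.Adj v x ∨ Rp Γ v z g x) ∨ TPz Γ v z g) →
    ∃ c, Col1 Γ ∅ c

end Pool.Agent.P.MP_08fd93_co.FE
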