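import Pool.Agent.P.MP_08fd93_co.FE.LZ6
import Pool.Agent.P.MP_08fd93_co.FE.LZS
import Pool.Agent.P.MP_08fd93_co.FR.Ear0
import Pool.Agent.P.MP_08fd93_co.FP2.R3

/-! Depth two with a long second root: the colouring. -/

set_option autoImplicit false

namespace Pool.Agent.P.MP_08fd93_co.FE

open OV PkPrtP FB FN FZ FK FP2

variable {J : Type} {G : VD J} {v z l r x y u p q t : Vx J} {φ : Vx J → Vx J} {g : Vx J → ℤ}

theorem FrZ.mir {Γ : SimpleGraph (Vx J)} {η : ℤ × ℤ →+ ℤ} {an : Vx J → Vx J}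
    (H : FrZ Γ η v z g an G) : FrZ Γ η v z g an (FR.mir G) :=
  ⟨FR.mir_vf H.vf, H.eΓ, H.eη, H.ef, H.ea, H.eP, H.eK, H.eT, H.eV, H.eb, fun a => (H.ex a).symm,
    H.z0⟩

theorem ZR.nk_r (h : ZR G v z l r) (S : FP2.Sl G.Γ G.η) : G.an (G.nx r) ∉ G.K := fun k =>
  h.hr.2.2 (S.near3 ((h.eK _).1 k) (h.up h.r1.1).symm h.r1.2.2.symm (h.hr.2.1 ▸ h.up h.hr.1))

/-- the two edges at the second root lie under different orbits -/
theorem ZR.nowrap (h : ZR G v z l r) (S : FP2.Sl G.Γ G.η) (hφ : PH (FL G) G.Pr φ)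
    (n : (G.an (G.nx r)).1 ≠ z.1) : (φ (pv (FL G) z)).1 ≠ r.1 := fun e => by
  have R := h.rows
  obtain ⟨y1, y2, -⟩ := pv_mem h.sw.lay h.z0.1
  have y2 : G.ρ (pv (FL G) z) = G.ρ z - 1 := y2
  obtain ⟨u1, -, u3, u4⟩ := hφ.und _ (R.la y1)
  rw [show (FL G).f (pv (FL G) z) = 0 from R.uw.lf _ _ y1] at u1 u4
  have u1 : φ (pv (FL G) z) ∈ G.L 1 := u1
  have u3 : G.ρ (G.xl (G.an (φ (pv (FL G) z)))) ≤ G.ρ (pv (FL G) z) := u3
  obtain ⟨n1, n2, -⟩ := R.nx_mem u1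
  have u5 : G.ρ (pv (FL G) z) < G.ρ (G.xl (G.an (G.nx (φ (pv (FL G) z))))) :=
    u4 _ n1 (h.p1 n1) (show G.ρ _ < G.ρ _ by omega)
  have ez : G.xl (G.an (G.nx l)) = z := by rw [h.hl.2.1, h.xv]
  have a : G.ρ (φ (pv (FL G) z)) < G.ρ (G.nx l) := by
    by_contra c
    have := h.mono h.l1.1 u1 (not_lt.1 c)
    rw [ez] at this
    omega
  have b := h.mono n1 h.l1.1 (by omega)
  rw [ez] at b
  have c := R.inj (h.ft n1) h.z0.1 (by omega)
  rw [orb_eq e, R.nx_tr _ h.hr.1, h.sw.vf.atr, (h.sw.vf.xtr _ _).1,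
    (h.sw.vf.xo _ (h.nk_r S)).1] at c
  exact n (congrArg Prod.fst c :)

section

variable (H : FrZ G.Γ G.η v z g G.an G) (T : TR G.Γ G.η v z p g)
include H T

theorem FrZ.row (hx : x ∈ LL G.Γ (rz v z g) 1) : x ∈ G.L 1 := by
  rwa [← ll_odd T (by decide), ← H.ef] at hx

theorem FrZ.row' (hx : x ∈ G.L 1) : x ∈ LL G.Γ (rz v z g) 1 := by
  rwa [← ll_odd T (by decide), ← H.ef]

theorem FrZ.g0 (hx : x ∈ G.L 0) : g x = 0 := by
  have := H.vf.uw.lf _ _ hx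
  rwa [H.ef, rais_n fun k => H.vf.l_nk hx ((H.eK x).2 k)] at this

theorem FrZ.zr [Fintype J] (A : An2 G.Γ v z g G.an) : ∃ l r, ZR G v z l r := by
  have W := H.sw T
  have V := H.vf
  have R := V.toRows
  have xv : G.xl v = z := by simpa only [tr_zero] using (H.ex 0).1
  have pr : ∀ y ∈ G.L 1, y ∈ G.Pr := fun y hy => (H.eP y).2 fun c => by
    have := R.uw.lf _ _ hy
    rw [orb_eq c, R.wp.per, R.uw.lf _ _ H.z0, zero_add] at this
    exact Int.not_even_iff_odd.2 odd_one (this ▸ R.wp.ev _)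
  have n2' : ∀ y ∈ G.L 1, n2 G y = G.nx y := fun y hy => n2_p (pr _ (R.nx_mem hy).1)
  obtain ⟨y1, y2, y3⟩ := pv_mem W.lay H.z0
  have y4 := (R.nx_mem y1).2.2
  rw [show G.nx (pv (FL G) z) = z from y3] at y4
  have T' : TR G.Γ G.η v z (pv (FL G) z) g := ⟨T.toSl, T.vz, y4.symm, fun c => V.l_nk y1 ((H.eK _).2 (by rw [c])),
    T.ht, (H.g0 T y1).le, T.nb⟩
  obtain ⟨n, c, -, k, m, mK, am⟩ := z_child T' A
  rw [← H.ef] at m
  obtain ⟨s, hs, ps, s1, s2⟩ := V.far_lo 1 (min (G.ρ (tr c (G.an^[n] (pv (FL G) z)))) (G.ρ z))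
  obtain ⟨s', hs', ps', s3, s4⟩ := V.far_hi 1 (max (G.ρ (tr c (G.an^[n] (pv (FL G) z)))) (G.ρ z))
  obtain ⟨-, l, a1, -, -, -, a2, a3⟩ := W.last hs ps m (pr _ m) (by omega) fun e => by
    rw [e, am, W.sh, xv] at s2
    omega
  obtain ⟨⟨r, b1, -, -, -, -, b2, b3⟩, -⟩ := W.last m (pr _ m) hs' ps' (by omega) fun e => by
    rw [← e, am, xv] at s4
    omega
  rw [am] at a2 a3 b2 b3
  rw [n2' _ a1] at a3
  rw [n2' _ b1] at b3
  have it : ∀ i ≤ n, (ftL G)^[i] (pv (FL G) z) = G.an^[i] (pv (FL G) z) := fun i hi => by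
    induction i with
    | zero => rfl
    | succ i ih =>
      rw [Function.iterate_succ_apply', Function.iterate_succ_apply', ih (by omega)]
      exact (V.xo _ fun c => A.row _ (k i (by omega)) (Or.inl ((H.eK _).1 c))).1
  refine ⟨l, r, W, H.eK, H.eP, by rw [H.ef, rf_v T], xv, ⟨a1, a3, a2⟩, ⟨b1, b2, b3⟩,
    fun j => by have := T.toSl.n4 R rfl j; omega, n, fun i hi => ?_, ?_⟩
  · rw [it i hi, H.eP]
    rcases lt_or_eq_of_le hi with c | rfl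
    exacts [fun e => T.rp_nk (k i c) (Or.inr e), fun e => mK (Or.inr e)]
  · rw [it n le_rfl, H.eK, ← am, V.atr]
    rfl

theorem FrZ.right [Fintype J] (A : An2 G.Γ v z g G.an) (a : G.Γ.Adj v u) (pu : Rp G.Γ v z g u)
    (uU : u ∈ G.U 1) (u2 : u ∉ G.U (1 + 1)) (hq : q ∈ G.L 0) (b : G.Γ.Adj u q)
    (l1 : G.ρ z < G.ρ q) (k : u ∈ LL G.Γ (rz v z g) 1 ∨ ((∀ t, ¬ TPv G.Γ v z g t) ∧
      ∀ x ∈ LL G.Γ (rz v z g) 1, G.Γ.Adj z x → G.Γ.Adj v x ∨ Rp G.Γ v z g x) ∨ TPz G.Γ v z g) :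
    ∃ c, Col1 G.Γ ∅ c := by
  obtain ⟨l, r, h⟩ := H.zr T A
  obtain ⟨φ, hφ⟩ := ph_ex h.sw.lay H.vf.pne
  have S := T.toSl
  have V := H.vf
  have R := h.rows
  obtain ⟨a1, a2, a3⟩ := h.l1
  obtain ⟨b1, b2, b3⟩ := h.r1
  have vl : G.Γ.Adj (G.nx l) v := h.hl.2.1 ▸ h.up a1
  have vr : G.Γ.Adj r v := h.hr.2.1 ▸ h.up h.hr.1
  have zl : G.xl (G.an (G.nx l)) = z := by rw [h.hl.2.1, h.xv]
  have zr : G.xl (G.an r) = z := by rw [h.hr.2.1, h.xv]
  have xr : G.xl (G.an (G.nx r)) = G.an (G.nx r) := (V.xo _ (h.nk_r S)).1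
  by_cases c : u ∈ G.L 1
  · have n := A.row u pu
    obtain rfl : u = G.nx r := (h.nbv c a fun e => n (Or.inl (by rw [e]))).resolve_left fun e =>
      h.nc a1 (Or.inr (Or.inl ⟨c, by rw [e]; omega⟩)) (Or.inl ⟨hq, by rwa [zl]⟩) b
    have lt : G.ρ z < G.ρ (G.xl (G.an (G.nx r))) := by
      have := h.mono h.hr.1 b1 (by omega)
      rw [zr] at this
      refine lt_of_le_of_ne this fun e => n (Or.inr ?_)
      rw [← xr, ← R.inj h.z0.1 (h.ft b1) e]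
    exact h.planI hφ (h.e4 lt hφ) (h.nowrap S hφ fun e => n (Or.inr e)) (h.freeR lt (Or.inl a))
  have uS : u ∈ G.S 1 := ⟨⟨uU, fun k => k.elim c u2⟩, fun k => S.nl _ _ a ((H.eK u).1 k).symm⟩
  obtain ⟨uI, l2⟩ := h.side uS a.symm hq b l1
  have lt := l1.trans_le l2
  have e4 := h.e4 lt hφ
  rcases k with k | ⟨k1, k2⟩ | ⟨s, y, ⟨hs, hy, sy, vy, vs, zs, zy⟩, ps⟩
  · exact absurd (H.row T k) c
  · refine h.planI hφ e4 (h.nowrap S hφ fun e => ?_) (h.freeR lt ?_)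
    · obtain ⟨w, e⟩ : ∃ w, G.an (G.nx r) = tr w z := ⟨_, orb_eq e⟩
      have w0 : G.η w = 0 := by
        have := R.uw.lf _ _ (h.ft b1)
        rwa [xr, e, R.wp.per, R.uw.lf _ _ h.z0.1, zero_add] at this
      have m : tr (-w) (G.nx r) ∈ G.L 1 := by
        have := (R.uw.ltr (-w) 1 _).2 b1
        rwa [map_neg, w0, neg_zero, add_zero] at this
      have ea : G.an (tr (-w) (G.nx r)) = z := by rw [V.atr, e, tr_neg]
      rcases k2 _ (H.row' T m) (ea ▸ (h.up m).symm) with o | o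
      · have o' := S.fine.inv w _ _ o
        rw [tr_neg'] at o'
        rw [xr, e, tr_eq_self (S.near3 (x := tr w v) rfl o' b3.symm vr), tr_zero] at lt
        omega
      · exact A.row _ o (Or.inr (by rw [ea]))
    by_cases o : G.Γ.Adj v (G.nx r)
    · exact Or.inl o
    refine Or.inr ⟨⟨u, uI, a.symm, q, hq, l1, l2, b⟩, fun t ht t1 t2 t3 x hx lx tx => ?_⟩
    have tS := h.in_s ht
    have g1 := T.nb t t1.symm fun e => l_not_u' (j := 1) h.z0.1 (e ▸ tS.1.1)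
    have g2 := T.lip t1.symm
    rw [T.gv] at g2
    refine k1 t ⟨t1.symm, fun m => tS.1.2 (Or.inl (H.row T m)), ⟨x, tx, by rw [H.g0 T hx]; omega, ?_⟩,
      _, _, H.row' T b1, H.row' T h.hr.1, b3.symm, vr.symm, o, t3, t2⟩
    rintro (e | e)
    · exact V.l_nk hx ((H.eK x).2 e)
    · rw [S.near3 e tx.symm t1 T.vz] at lx
      omega
  replace hs := H.row T hs
  replace hy := H.row T hy
  have br : Brg G.toFD 1 z s ∅ := Brg.rung h.z0.1 hs zs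
  have ad := (R.adj_iff hs hy).1 sy
  have ny : G.an y ≠ v := fun e =>
    (V.pure 1 y hy (h.p1 hy) (e ▸ h.vk)).1 (by rw [e, h.xv]; exact zy.symm)
  obtain rfl : y = l := by
    refine (h.nbv hy vy ny).resolve_right fun e => ?_
    subst e
    rcases ad with o | o
    · exact vs (R.inj hs h.hr.1 (by omega) ▸ vr.symm)
    · refine (br.nc R (E := {u, v}) ?_ (Set.toFinite _) ?_ (Set.disjoint_empty _)
        (Or.inr ⟨h.hr.1, by omega⟩) (Or.inl ⟨hq, l1⟩)).2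
        ⟨⟨v, Or.inr rfl, vr⟩, ⟨u, Or.inl rfl, b.symm⟩⟩
      · rintro _ (rfl | rfl)
        exacts [uS.1, V.k_st h.vk h.fv]
      · exact (isConn_single u).union_nb (B := {v}) (by rintro _ rfl; exact ⟨u, rfl, a⟩)
  have o : G.ρ y = G.ρ s + 1 := ad.resolve_right fun o => vs (R.inj hs a1 (by omega) ▸ vl.symm)
  obtain ⟨s1, s2, -⟩ := R.nx_mem hs
  have ey : G.nx s = y := R.inj s1 hy (by omega)
  have nk : G.an y ∉ G.K := fun m => ny (h.sw.kq _ m _ h.vk y (h.up hy) vy.symm)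
  have xy := (V.xo _ nk).1
  have az : G.an y = z := by
    have m := h.mono hy a1 (by omega)
    have f := h.ft hy
    rw [zl, xy] at m
    rw [xy] at f
    refine R.inj f h.z0.1 (le_antisymm m (not_lt.1 fun c => ?_))
    exact (br.nc R (Set.empty_subset _) Set.finite_empty isConn_empty (Set.disjoint_empty _)
      (Or.inl ⟨f, c⟩) (Or.inr ⟨hy, by omega⟩)).1 (h.up hy).symm
  obtain ⟨y1, y2, -⟩ := pv_mem h.sw.lay h.z0.1
  have y2 : G.ρ (pv (FL G) z) = G.ρ z - 1 := y2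
  have e1 : φ (pv (FL G) z) = s := by
    have n := A.row s ps
    have xs := (V.xo _ fun c => n (Or.inl ((H.eK _).1 c))).1
    have m := h.mono hs a1 (by omega)
    rw [zl] at m
    have : G.ρ (G.xl (G.an s)) ≠ G.ρ z := fun e =>
      n (Or.inr (by rw [← xs, R.inj (h.ft hs) h.z0.1 e]))
    exact h.phi hφ y1 hs (by omega) (by rw [ey, xy, az]; omega)
  have n1 : (φ (pv (FL G) z)).1 ≠ r.1 := fun e => by
    rw [e1] at e
    exact vs (S.near3 e sy vy.symm vr.symm ▸ vr.symm)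
  by_cases hb : ∃ t ∈ G.In r (G.nx r), G.Γ.Adj t v ∧ G.Γ.Adj t (G.nx r) ∧ ∃ x ∈ G.L 0,
      G.ρ z < G.ρ x ∧ G.Γ.Adj t x
  · obtain ⟨t, ht, t1, t3, x, hx, lx, tx⟩ := hb
    have l3 := (h.side (h.in_s ht) t1 hx tx lx).2
    have lr := (h.kids h.hr.1).1 h.hr.2.1
    refine h.planB hφ e4 n1 (by rw [e1, ey]) (e1 ▸ S.nl _ _ sy)
      (fun e => ny (S.near2 e vy.symm vr.symm ▸ h.hr.2.1)) (fun e => ?_)
      (fun w hw e => e1 ▸ h.freeL hφ hs e1 (ey ▸ az) zs hw (e.trans e1))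
      (h.spn lt ht t1 hx lx l3 tx) fun w hw e => h.hub lt ht t1 hx lx l3 tx hφ t3 hw e
    rw [S.near3 e b3.symm vr vy] at b2
    omega
  · exact h.planI hφ e4 n1 (h.freeR lt (Or.inr ⟨⟨u, uI, a.symm, q, hq, l1, l2, b⟩,
      fun t ht t1 _ t3 x hx lx tx => hb ⟨t, ht, t1, t3, x, hx, lx, tx⟩⟩))

end

theorem long_z : S_LongZ := by
  intro J _ Γ η v z p p' u g hN L a pu k
  have T := L.t1
  obtain ⟨an0, atr, han⟩ := T.an_ex
  obtain ⟨an, A, -⟩ := T.an2 atr han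
  obtain ⟨G, H⟩ := exists_frZ hN L A
  obtain rfl := H.eΓ
  obtain rfl := H.eη
  obtain rfl := H.ea
  have R := H.vf.toRows
  have nk := T.rp_nk pu
  have g1 := T.nb u a fun e => nk (Or.inr (by rw [e]))
  have g2 := T.lip a
  rw [T.gv] at g2
  have fu : G.f u = 1 := by
    rw [H.ef, rais_n fun e => nk (Or.inl e)]
    omega
  have uU : u ∈ G.U 1 := R.uw.cl 1 v
    (H.vf.k_st ((H.eK v).2 rfl) (by rw [H.ef, rf_v T])).1 u a fu.ge
  have u2 : u ∉ G.U (1 + 1) := fun m => by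
    have := R.uw.ge _ _ m
    omega
  obtain ⟨q, b, gq, qk⟩ := id pu
  have hq : q ∈ G.L 0 := R.uw.lan 1 u uU q b (by
    rw [H.ef, rais_n fun e => qk (Or.inl e)]
    omega)
  rcases lt_trichotomy (G.ρ z) (G.ρ q) with c | c | c
  · exact H.right T A a pu uU u2 hq b c k
  · exact absurd (Or.inr (by rw [R.inj H.z0 hq c])) qk
  · exact FrZ.right (G := FR.mir G) H.mir T A a pu uU u2 hq b (neg_lt_neg c) k

end Pool.Agent.P.MP_08fd93_co.FE
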