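import Pool.Agent.P.MP_08fd93_co.FE.KX
import Pool.Agent.P.MP_08fd93_co.FN.N6
import Pool.Agent.P.MP_08fd93_co.FN.NW
import Pool.Agent.P.MP_08fd93_co.OV.All

/-! The macro cells with one unit on top. -/

set_option autoImplicit false

namespace Pool.Agent.P.MP_08fd93_co.FE

open OV FB FN PkPrtP

variable {J : Type} {F : FD J} {X : XD J} {Pr : Set (Vx J)} {M : MU J} {p : PD J}
  {Ok : Un J → Prop} {d : DD (Vx J)} {S : Set (Sym2 (Vx J))} {V R : Set (Vx J)} {u : Un J}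

/-- The top pays for one strict edge of the bottom. -/
def T1 (p : PD J) (F : FD J) (M : MU J) (u : Un J) : Prop :=
  (u.x = u.s → p.c u.s.1 = p.c u.s'.1 ∨ u.s ∈ p.AT F M ∨ u.s' ∈ p.AT F M) ∧
    (u.x ≠ u.s → (u.s ∈ p.AT F M ∧ p.cx u ≠ p.c u.s.1) ∨ (u.s' ∈ p.AT F M ∧ p.cx u ≠ p.c u.s'.1))

/-- The top edge pays for two strict edges of the bottom. -/
def T2 (p : PD J) (F : FD J) (M : MU J) (u : Un J) : Prop :=
  p.c u.s.1 = p.c u.s'.1 ∨ (u.s ∈ p.AT F M ∧ u.s' ∈ p.AT F M)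

/-- The table of strict sets that a unit can carry. -/
def Tab (p : PD J) (F : FD J) (Ok : Un J → Prop) (M : MU J) (u : Un J) (S : Set (Sym2 (Vx J))) :
    Prop :=
  S = ∅ ∨ (S.Subsingleton ∧ (Ok u → T1 p F M u)) ∨
    (u.x = u.s ∧ (∃ e e', S ⊆ {e, e'}) ∧ (Ok u → T2 p F M u))

/-- the ends of a macro cell with one unit -/
theorem one_ends (hF : Lay F X Pr) (hM : MVal F X Pr M) (hu : M.us = {u}) :
    Val F ∅ u ∧ u.s = M.s ∧ u.s' = M.s' := by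
  obtain ⟨a, ha, e1⟩ := hM.first hF
  obtain ⟨b, hb, e2⟩ := hM.last hF
  rw [hu] at ha hb
  exact ⟨(hM.val u (hu ▸ rfl)).1, ha ▸ e1, hb ▸ e2⟩

/-- a macro cell whose units all start in `Pr` has one unit -/
theorem one_unit (hF : Lay F X Pr) (hM : MVal F X Pr M) (h : ∀ u ∈ M.us, u.s ∈ Pr) :
    ∃ u, M.us = {u} := by
  obtain ⟨u, hu, e⟩ := hM.first hF
  refine ⟨u, Set.eq_singleton_iff_unique_mem.2 ⟨hu, fun t ht => ?_⟩⟩
  have et := hM.mx t ht (h t ht)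
  refine hM.uni t ht u hu t.s (cov_self (hM.val t ht).1) ?_
  rw [et, ← e]
  exact cov_self (hM.val u hu).1

theorem one_edge (hF : Lay F X Pr) (hM : MVal F X Pr M) (hu : M.us = {u}) (hd : MC F X M d V R)
    (t : u.x = u.s) : F.Γ.Adj d.a' d.b' := by
  obtain ⟨v, e1, e2⟩ := one_ends hF hM hu
  rw [hd.ea', hd.eb', ← e1, ← e2]
  exact (hF.adj_iff v.hs v.hs').2 (Or.inl (triv_of v t))

theorem one_cap (hF : Lay F X Pr) (hM : MVal F X Pr M) (hu : M.us = {u}) (hd : MC F X M d V R)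
    (t : u.x ≠ u.s) : Bump F.Γ d u.x := by
  obtain ⟨v, e1, e2⟩ := one_ends hF hM hu
  have k := cap_of v t
  refine ⟨hd.disc, hd.eY ▸ ⟨u, hu ▸ rfl, Or.inr (Or.inl rfl)⟩, ?_, ?_, ?_⟩
  · rw [hd.ea', ← e1]
    exact k.sx
  · rw [hd.eb', ← e2]
    exact k.xs
  · rw [hd.ea', hd.eb']
    intro e
    have := hM.lt
    rw [← e] at this
    omega

theorem triv_nx (hF : Lay F X Pr) (hu : Val F ∅ u) (t : u.x = u.s) : u.s' = F.nx u.s :=
  congrArg Un.s' (hF.eq_tv hu t)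

/-- a trivial unit that is paid below -/
theorem t1_dn (hF : Lay F X Pr) (hu : Val F ∅ u) (mu : u ∈ M.us) (t : u.x = u.s)
    (h : p.Dn F u.s) : T1 p F M u := by
  refine ⟨fun _ => ?_, fun n => absurd t n⟩
  unfold PD.Dn at h
  rw [← triv_nx hF hu t] at h
  by_cases q : p.c u.s.1 = p.c u.s'.1
  · exact Or.inl q
  rcases h with h | h | h
  exacts [absurd h.symm q, Or.inr (Or.inl (Or.inl ⟨u, mu, t, q, Or.inl ⟨rfl, h.1⟩, h.2⟩)),
    Or.inr (Or.inr (Or.inl ⟨u, mu, t, q, Or.inr ⟨rfl, h.1⟩, h.2⟩))]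

/-- a cap with a token inside at an end whose colour is not the colour of the apex -/
theorem t1_in (mu : u ∈ M.us) (t : u.x ≠ u.s) {v : Vx J} (i : p.In F u v)
    (n : p.cx u ≠ p.c v.1) : T1 p F M u := by
  refine ⟨fun e => absurd e t, fun _ => ?_⟩
  have m : v ∈ p.AT F M := Or.inr (Or.inl ⟨u, mu, t, Or.inl ⟨i, n⟩⟩)
  rcases In.ends i with rfl | rfl
  exacts [Or.inl ⟨m, n⟩, Or.inr ⟨m, n⟩]

/-- a cap with both tokens inside -/
theorem t1_cap (hp : Plan F X p Ok) (hu : Val F ∅ u) (o : Ok u) (mu : u ∈ M.us) (t : u.x ≠ u.s)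
    (h1 : p.R F u.s) (h2 : p.Lt F u.s') : T1 p F M u := by
  by_cases q : p.cx u = p.c u.s.1
  · exact t1_in mu t (Or.inr ⟨rfl, h2⟩) (hp.xs u hu o t q).2
  · exact t1_in mu t (Or.inl ⟨rfl, h1⟩) q

/-- a trivial unit with both tokens below -/
theorem t2_dn (mu : u ∈ M.us) (t : u.x = u.s) (h : p.c u.s.1 = p.c u.s'.1 ∨
    (p.R F u.s ∧ u.s.1 ∈ p.dn ∧ p.Lt F u.s' ∧ u.s'.1 ∈ p.dn)) : T2 p F M u := by
  by_cases q : p.c u.s.1 = p.c u.s'.1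
  · exact Or.inl q
  obtain ⟨a1, a2, a3, a4⟩ := h.resolve_left q
  exact Or.inr ⟨Or.inl ⟨u, mu, t, q, Or.inl ⟨rfl, a1⟩, a2⟩,
    Or.inl ⟨u, mu, t, q, Or.inr ⟨rfl, a3⟩, a4⟩⟩

/-- The table of tops: a one-sided output whose condition follows from the plan. -/
theorem top_table (hF : Lay F X Pr) (hM : MVal F X Pr M) (hd : MC F X M d V R) (hu : M.us = {u})
    (hS : S ⊆ PE F.Γ d.X) (top : Tab p F Ok M u S) : ∃ X' P Ψ, OutX F.Γ d S X' P Ψ ∧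
      (Ok u → ∀ (σ : Col ≃ Col) (c : Vx J → Col), p.FolT M c →
        Ψ (fun v => σ (c v)) (p.AT F M)) := by
  have hP := hF.fine.pl
  have T := all_T _ _ hP
  have mu : u ∈ M.us := hu ▸ rfl
  obtain ⟨vu, e1, e2⟩ := one_ends hF hM hu
  have ea : d.a' = u.s := hd.ea'.trans e1.symm
  have eb : d.b' = u.s' := hd.eb'.trans e2.symm
  have xa : u.x ≠ u.s → p.cx u ≠ p.c u.s.1 → p.cx u ≠ p.c u.s'.1 → u.x ∈ p.AT F M :=
    fun t q q' => Or.inr (Or.inl ⟨u, mu, t, Or.inr ⟨rfl, q, q'⟩⟩)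
  rcases S.eq_empty_or_nonempty with rfl | ⟨e, he⟩
  · by_cases t : u.x = u.s
    · obtain ⟨X', P, h⟩ := ox_e0 T hd.disc (one_edge hF hM hu hd t)
      exact ⟨X', P, _, h, fun _ _ _ _ => trivial⟩
    by_cases q : p.cx u = p.c u.s.1
    · obtain ⟨X', P, h⟩ := ox_c0' T (one_cap hF hM hu hd t)
      refine ⟨X', P, _, h, fun _ σ c hc => Or.inl ?_⟩
      simp only [ea, (hc u mu).2.2 t, (hc u mu).1, q]
    · obtain ⟨X', P, h⟩ := ox_c0 T (one_cap hF hM hu hd t)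
      refine ⟨X', P, _, h, fun _ σ c hc => ?_⟩
      by_cases q' : p.cx u = p.c u.s'.1
      · left
        simp only [eb, (hc u mu).2.2 t, (hc u mu).2.1, q']
      · exact Or.inr (Or.inl (xa t q q'))
  have mo : ∀ c, p.FolT M c → p.c u.s.1 = p.c u.s'.1 → ∀ σ : Col ≃ Col, σ (c d.a') = σ (c d.b') :=
    fun c hc q σ => by rw [ea, eb, (hc u mu).1, (hc u mu).2.1, q]
  rcases top with k | ⟨k, pd⟩ | ⟨t, ⟨g1, g2, k⟩, pd⟩
  · exact absurd (k ▸ he) (Set.notMem_empty e)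
  · have s : S ⊆ {e} := fun f hf => k hf he
    by_cases t : u.x = u.s
    · obtain ⟨X', P, h⟩ := ox_e1 T hd.disc (one_edge hF hM hu hd t) (hS he)
      refine ⟨X', P, _, h.mono s, fun o σ c hc => ?_⟩
      rw [ea, eb]
      exact ((pd o).1 t).imp_left fun q => ea ▸ eb ▸ mo c hc q σ
    · obtain ⟨X', P, h⟩ := ox_c1 all_Unh hP T (one_cap hF hM hu hd t) (hS he)
      refine ⟨X', P, _, h.mono s, fun o σ c hc => ?_⟩
      rw [ea, eb]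
      simp only [(hc u mu).2.2 t, (hc u mu).1, (hc u mu).2.1, ne_eq, σ.apply_eq_iff_eq]
      rcases (pd o).2 t with ⟨m, n⟩ | ⟨m, n⟩
      · refine Or.inr ⟨n, m, ?_⟩
        by_cases q : p.cx u = p.c u.s'.1
        exacts [Or.inl q, Or.inr (xa t n q)]
      · refine Or.inl ⟨n, m, ?_⟩
        by_cases q : p.cx u = p.c u.s.1
        exacts [Or.inl q, Or.inr (xa t q n)]
  · obtain ⟨e', he', s⟩ : ∃ e' ∈ S, S ⊆ {e, e'} := by
      by_cases a : ∀ f ∈ S, f = e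
      · exact ⟨e, he, fun f hf => Or.inl (a f hf)⟩
      simp only [not_forall] at a
      obtain ⟨e', he', n⟩ := a
      refine ⟨e', he', fun f hf => ?_⟩
      rcases k he with a | a <;> rcases k he' with b | b <;> rcases k hf with r | r
      exacts [Or.inl (r.trans a.symm), absurd (b.trans a.symm) n, Or.inl (r.trans a.symm),
        Or.inr (r.trans b.symm), Or.inr (r.trans b.symm), Or.inl (r.trans a.symm),
        absurd (b.trans a.symm) n, Or.inl (r.trans a.symm)]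
    obtain ⟨X', P, h⟩ := ox_e2 hP T hd.disc (one_edge hF hM hu hd t) (hS he) (hS he')
    refine ⟨X', P, _, h.mono s, fun o σ c hc => ?_⟩
    rw [ea, eb]
    exact (pd o).imp_left fun q => ea ▸ eb ▸ mo c hc q σ

/-- The solver of a macro cell with one unit on top and strict edges `S` on the first path. -/
theorem one_cell (hF : Lay F X Pr) (hp : Plan F X p Ok) (hM : MVal F X Pr M) (hd : MC F X M d V R)
    (hu : M.us = {u}) (hS : S ⊆ PE F.Γ d.X) (top : Tab p F Ok M u S)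
    (hV : ∀ v ∈ V, v ∈ d.X → v = d.a ∨ v = d.b ∨ ∃ e ∈ S, v ∈ e) (π : Vx J → Vx J)
    (hb : ∀ y ∈ d.X, y ∉ X.K → F.nx y ∈ d.X → s(y, F.nx y) ∈ S ∨ p.Up F y)
    (hk : ∀ a ∈ d.X, ∀ b ∈ d.X, F.Γ.Adj a b → a ∈ X.K → s(a, b) ∈ S ∨ p.c a.1 = p.c b.1 ∨
      (p.Sp0 F M a ∧ π a = b) ∨ (p.Sp0 F M b ∧ π b = a))
    (hkc : ∀ a ∈ d.X, a ∈ X.K → (p.c a.1).1 = p.cls (F.f M.s - 1))
    (htv : ∀ y, Over F M y → Ok (Tv F y))
    (hOk : ∀ u', Val F ∅ u' → KF F X u' → u'.x ≠ u'.s → u'.s ∈ F.Bot M.s M.s' →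
      u'.s' ∈ F.Bot M.s M.s' → (∀ v ∈ u'.pk, v ≠ d.a ∧ v ≠ d.b ∧ ∀ e ∈ S, v ∉ e) →
      (∀ y, F.Cov u' y → y ∈ d.X ∧ F.nx y ∈ d.X ∧ s(y, F.nx y) ∉ S ∧ p.Up F y) → Ok u')
    (hR : ∀ c : Vx J → Col, (∀ v ∈ X.K, c v = p.c v.1) →
      (∀ v ∈ F.Bot M.s M.s', (v ∉ d.X ∨ v = d.a ∨ v = d.b ∨ ∃ e ∈ S, v ∈ e) → c v = p.c v.1) →
      ∃ c', Rec F.Γ R ∅ c c') : CSol F X p Ok M := by
  obtain ⟨X', P, Ψ, h, k⟩ := top_table hF hM hd hu hS top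
  have vis : ∀ v, (v = d.a ∨ v = d.b ∨ ∃ e ∈ S, v ∈ e) → v ∈ X' := by
    rintro v (rfl | rfl | ⟨e, he, m⟩)
    exacts [h.sh.ha, h.sh.hb, h.st e he v m]
  refine csol_of_outX hF hp hM hd h (fun v h1 h2 => vis v (hV v h1 h2)) π hb hk hkc htv
    (fun u' h1 h2 h3 h4 h5 h6 => hOk u' h1 h2 h3 h4 h5 fun v hv =>
      ⟨fun e => h6 v hv (vis v (Or.inl e)), fun e => h6 v hv (vis v (Or.inr (Or.inl e))),
        fun e he m => h6 v hv (h.st e he v m)⟩)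
    (fun o σ c hc _ => k (o u (hu ▸ rfl)) σ c hc) fun c h1 h2 => hR c h1 fun v hv q => h2 v hv ?_
  rcases q with q | q
  · exact fun m => (h.sh.ps m).elim q fun g => botNot hv (ciU hF hM (hd.ci g))
  · exact h.sh.dis v (vis v q)

theorem over_nx (hF : Lay F X Pr) {y : Vx J} (hy : Over F M y) : F.nx y ∈ F.Bot M.s M.s' := by
  obtain ⟨n1, n2, -⟩ := hF.nx_mem hy.1.1
  have := hy.1.2.1
  have := hy.2
  exact ⟨n1, by omega, by omega⟩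

theorem over_of (hF : Lay F X Pr) {y : Vx J} (h1 : y ∈ F.Bot M.s M.s')
    (h2 : F.nx y ∈ F.Bot M.s M.s') : Over F M y := by
  have := (hF.nx_mem h1.1).2.1
  have := h2.2.2
  exact ⟨h1, by omega⟩

/-- The solver of an ordinary macro cell: one unit on top, the bottom is an interval of the row,
the pinned edges `G` stay trivial units. -/
theorem ord (hF : Lay F X Pr) (hp : Plan F X p Ok) (hM : MVal F X Pr M) (hd : MC F X M d V ∅)
    (hX : d.X = F.Bot M.s M.s') (hu : M.us = {u}) (G : Set (Vx J))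
    (hV : ∀ v ∈ V, v ∈ d.X → v = d.a ∨ v = d.b ∨ ∃ g ∈ G, Over F M g ∧ (v = g ∨ v = F.nx g))
    (up : ∀ y, Over F M y → y ∉ G → p.Up F y) (htv : ∀ y, Over F M y → Ok (Tv F y))
    (hOk : ∀ u', Val F ∅ u' → KF F X u' → u'.x ≠ u'.s → u'.s ∈ F.Bot M.s M.s' →
      u'.s' ∈ F.Bot M.s M.s' → (∀ y, F.Cov u' y → Over F M y ∧ y ∉ G) → Ok u')
    (top : (∀ y ∈ G, ¬ Over F M y) ∨
      ((∀ y ∈ G, ∀ y' ∈ G, Over F M y → Over F M y' → y = y') ∧ (Ok u → T1 p F M u)) ∨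
      (u.x = u.s ∧ (∃ g g', ∀ y ∈ G, Over F M y → y = g ∨ y = g') ∧ (Ok u → T2 p F M u))) :
    CSol F X p Ok M := by
  have nk : ∀ a ∈ d.X, a ∉ X.K := fun a ha k => hF.k_la k (hF.la (hX ▸ ha).1)
  refine one_cell (S := {e | ∃ g ∈ G, Over F M g ∧ e = s(g, F.nx g)}) hF hp hM hd hu ?_ ?_
    (fun v h1 h2 => (hV v h1 h2).imp_right (Or.imp_right ?_)) id (fun y h1 _ h2 => ?_)
    (fun a ha _ _ _ k => absurd k (nk a ha)) (fun a ha k => absurd k (nk a ha)) htv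
    (fun u' h1 h2 h3 h4 h5 _ h7 => hOk u' h1 h2 h3 h4 h5 fun y c => ?_)
    fun c _ _ => ⟨c, fun _ _ => rfl, fun _ k => k.elim, fun _ _ _ k => k.elim,
      fun _ _ _ k => k.elim⟩
  · rintro _ ⟨g, -, o, rfl⟩
    rw [hX]
    exact mem_PE.2 ⟨o.1, over_nx hF o, (hF.nx_mem o.1.1).2.2⟩
  · rcases top with k | ⟨k, pd⟩ | ⟨t, ⟨g1, g2, k⟩, pd⟩
    · exact Or.inl (Set.eq_empty_of_forall_notMem fun _ ⟨g, h1, h2, _⟩ => k g h1 h2)
    · refine Or.inr (Or.inl ⟨?_, pd⟩)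
      rintro _ ⟨g, h1, h2, rfl⟩ _ ⟨g', h3, h4, rfl⟩
      rw [k g h1 g' h3 h2 h4]
    · refine Or.inr (Or.inr ⟨t, ⟨s(g1, F.nx g1), s(g2, F.nx g2), ?_⟩, pd⟩)
      rintro _ ⟨g, h1, h2, rfl⟩
      rcases k g h1 h2 with rfl | rfl
      exacts [Or.inl rfl, Or.inr rfl]
  · rintro ⟨g, g1, g2, rfl | rfl⟩
    exacts [⟨_, ⟨v, g1, g2, rfl⟩, Sym2.mem_mk_left _ _⟩, ⟨_, ⟨g, g1, g2, rfl⟩, Sym2.mem_mk_right _ _⟩]
  · have o := over_of hF (hX ▸ h1) (hX ▸ h2)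
    by_cases g : y ∈ G
    exacts [Or.inl ⟨y, g, o, rfl⟩, Or.inr (up y o g)]
  · obtain ⟨a1, a2, a3, -⟩ := h7 y c
    have o := over_of hF (hX ▸ a1) (hX ▸ a2)
    exact ⟨o, fun g => a3 ⟨y, g, o, rfl⟩⟩

/-- The ordinary macro cell of a weak frame. -/
theorem ord_w (hW : FZ.WFrm F Pr) (hp : Plan F (X0 F) p Ok) (hM : MVal F (X0 F) Pr M)
    (hu : M.us = {u}) (G : Set (Vx J))
    (up : ∀ y, Over F M y → y ∉ G → p.Up F y) (htv : ∀ y, Over F M y → Ok (Tv F y))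
    (hOk : ∀ u', Val F ∅ u' → u'.x ≠ u'.s → u'.s ∈ F.Bot M.s M.s' →
      u'.s' ∈ F.Bot M.s M.s' → (∀ y, F.Cov u' y → Over F M y ∧ y ∉ G) → Ok u')
    (top : (∀ y ∈ G, ¬ Over F M y) ∨
      ((∀ y ∈ G, ∀ y' ∈ G, Over F M y → Over F M y' → y = y') ∧ (Ok u → T1 p F M u)) ∨
      (u.x = u.s ∧ (∃ g g', ∀ y ∈ G, Over F M y → y = g ∨ y = g') ∧ (Ok u → T2 p F M u))) :
    CSol F (X0 F) p Ok M := by
  obtain ⟨d, hd, hX, -⟩ := mc_ex hW hM
  exact ord (lay_of_w hW) hp hM hd hX hu G (fun _ k => k.elim) up htv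
    (fun u' h1 _ => hOk u' h1) top

end Pool.Agent.P.MP_08fd93_co.FE
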