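import Pool.Agent.P.MP_08fd93_co.FE.E1
import Pool.Agent.P.MP_08fd93_co.OV.PkQ4
import Pool.Agent.P.MP_08fd93_co.OV.PkStar1
import Pool.Agent.P.MP_08fd93_co.OV.PkStar2
import Pool.Agent.P.MP_08fd93_co.OV.PkPCol
import Pool.Agent.P.MP_08fd93_co.OV.PkTri1
import Pool.Agent.P.MP_08fd93_co.OV.PkSpl1
import Pool.Agent.P.MP_08fd93_co.OV.PkSpl2

/-! Small tools: absorbing a path, recutting a disc, triangles and four-cycles. -/

set_option autoImplicit false

namespace Pool.Agent.P.MP_08fd93_co.FE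

open OV

variable {W : Type} {H : SimpleGraph W}

/-- A coloured set `T` with at most one monochromatic edge `e0` joins the recoloured part. -/
theorem absorb {M A T Al : Set W} {c c1 c' : W → Col} (R : Rec H M A c1 c')
    (hT : ∀ x ∈ T, x ∉ M) (hc : ∀ x, x ∉ T → c1 x = c x) (e0 : Sym2 W)
    (hm : ∀ x ∈ T, ∀ y, y ∉ M → H.Adj x y → c1 y = c1 x →
      s(x, y) = e0 ∧ x ∉ A ∧ y ∉ A ∧ (y ∉ T → y ∈ Al))
    (hA : ∀ x ∈ A, x ∉ T → x ∈ Al) : Rec H (M ∪ T) Al c c' := by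
  have nb : ∀ x ∈ T, ∀ y, y ∉ M → H.Adj x y → c' y = c' x →
      s(x, y) = e0 ∧ x ∉ A ∧ y ∉ A ∧ (y ∉ T → y ∈ Al) := by
    intro x hx y hy a e
    rw [R.off y hy, R.off x (hT x hx)] at e
    exact hm x hx y hy a e
  refine ⟨fun x hx => ?_, ?_, ?_, ?_⟩
  · rw [R.off x fun k => hx (Or.inl k), hc x fun k => hx (Or.inr k)]
  · rintro x (hx | hx)
    · exact R.one x hx
    intro y z ay az ey ez
    by_cases my : y ∈ M <;> by_cases mz : z ∈ M
    · exact R.un x (hT x hx) y my z mz ay az ey ez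
    · exact absurd (R.al x (hT x hx) y my ay ey) (nb x hx z mz az ez).2.1
    · exact absurd (R.al x (hT x hx) z mz az ez) (nb x hx y my ay ey).2.1
    · exact Sym2.congr_right.1 ((nb x hx y my ay ey).1.trans (nb x hx z mz az ez).1.symm)
  · rintro x hx y (hy | hy) a e
    · exact hA x (R.al x (fun k => hx (Or.inl k)) y hy a e) fun k => hx (Or.inr k)
    · exact (nb y hy x (fun k => hx (Or.inl k)) a.symm e.symm).2.2.2 fun k => hx (Or.inr k)
  · have xm : ∀ x, x ∉ M ∪ T → x ∉ M := fun x hx k => hx (Or.inl k)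
    rintro x hx y (hy | hy) z (hz | hz) ay az ey ez
    · exact R.un x (xm x hx) y hy z hz ay az ey ez
    · exact absurd (R.al x (xm x hx) y hy ay ey) (nb z hz x (xm x hx) az.symm ez.symm).2.2.1
    · exact absurd (R.al x (xm x hx) z hz az ez) (nb y hy x (xm x hx) ay.symm ey.symm).2.2.1
    · exact Sym2.congr_left.1 ((nb y hy x (xm x hx) ay.symm ey.symm).1.trans
        (nb z hz x (xm x hx) az.symm ez.symm).1.symm)

/-- Edges of the second path whose lower ends have rungs, except for the lowest edge. -/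
theorem admY {e : DD W} (D : Disc H e) {S : Set (Sym2 W)}
    (h : ∀ f ∈ S, ∃ a ∈ e.Y, ∃ b ∈ e.Y, H.Adj a b ∧ e.ρ a < e.ρ b ∧ f = s(a, b) ∧
      ((∃ x ∈ e.X, H.Adj x a) ∨ ∀ g ∈ S, ∀ y ∈ g, e.ρ a ≤ e.ρ y)) : Adm H e S := by
  refine ⟨fun f hf => ?_, fun f hf g hg hne => ?_⟩
  · obtain ⟨a, ha, b, hb, ab, -, rfl, -⟩ := h f hf
    exact Or.inr ⟨a, ha, b, hb, ab, rfl⟩
  have key : ∀ f ∈ S, ∀ a ∈ e.Y, ∀ b ∈ e.Y, H.Adj a b → e.ρ a < e.ρ b → f = s(a, b) →
      ∀ a' ∈ e.Y, ∀ b' ∈ e.Y, e.ρ a' < e.ρ b' → e.ρ a < e.ρ a' →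
      ((∃ x ∈ e.X, H.Adj x a') ∨ ∀ g ∈ S, ∀ y ∈ g, e.ρ a' ≤ e.ρ y) →
      Sep H e s(a, b) s(a', b') := by
    rintro f hf a ha b hb ab l rfl a' ha' b' hb' l' l2 (⟨x, hx, xa⟩ | k)
    · have := D.py.nb ha hb ab ha'
      refine ⟨x, hx, a', ha', xa, fun y hy => ?_, fun y hy => ?_⟩
      · rcases Sym2.mem_iff.1 hy with rfl | rfl
        exacts [Or.inr ⟨ha, by omega⟩, Or.inr ⟨hb, by omega⟩]
      · rcases Sym2.mem_iff.1 hy with rfl | rfl
        exacts [Or.inr ⟨ha', le_rfl⟩, Or.inr ⟨hb', by omega⟩]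
    · have := k _ hf a (Sym2.mem_mk_left _ _)
      omega
  obtain ⟨a, ha, b, hb, ab, l, e1, k⟩ := h f hf
  obtain ⟨a', ha', b', hb', ab', l', e2, k'⟩ := h g hg
  rcases lt_trichotomy (e.ρ a) (e.ρ a') with q | q | q
  · exact Or.inl (e1 ▸ e2 ▸ key f hf a ha b hb ab l e1 a' ha' b' hb' l' q k')
  · obtain rfl := D.py.inj _ ha _ ha' q
    obtain rfl := D.py.up_eq ha hb hb' ab ab' l l'
    exact absurd (e1.trans e2.symm) hne
  · exact Or.inr (e1 ▸ e2 ▸ key g hg a' ha' b' hb' ab' l' e2 a ha b hb l q k)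

/-- The same boundary cut into two other paths. -/
theorem recut {e e' : DD W} (D : Disc H e) (hZ : e'.Z = e.Z) (hB : e'.X ∪ e'.Y = e.X ∪ e.Y)
    (px : Pth H e'.X e'.ρ e'.a e'.b) (py : Pth H e'.Y e'.ρ e'.a' e'.b')
    (dxy : Disjoint e'.X e'.Y) (ra : H.Adj e'.a e'.a') (rb : H.Adj e'.b e'.b') :
    Disc H e' ∧ e'.I = e.I := by
  have hI : e'.I = e.I := by rw [DD.I, DD.I, hZ, hB]
  refine ⟨⟨px, py, dxy, ra, rb, ?_, ?_, ?_, ?_, ?_, ?_⟩, hI⟩
  · rw [hZ]; exact D.zc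
  · rw [hZ, hB]; exact D.dz
  · rw [hZ, hB]; exact D.cl
  · rw [hZ, hB]; exact D.tz
  · rw [hI]; exact D.fin
  · rw [hI]; exact D.nj

theorem left_I {d : DD W} {u v : W} {IL IR : Set W} (P : Spl H d u v IL IR) :
    (d.left u v IL).I = IL := by
  ext x
  rw [DD.mem_I]
  constructor
  · rintro ⟨h1, h2, h3⟩
    have h4 : x ∈ d.Lf u v ∪ IL := not_not.1 h1
    rcases h4 with (k | k) | k
    exacts [absurd k h2, absurd k h3, k]
  · intro hx
    have := DD.mem_I.1 ((P.cov x).2 (Or.inl hx))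
    exact ⟨fun k => k (Or.inr hx), fun k => this.2.1 k.1, fun k => this.2.2 k.1⟩

theorem right_I {d : DD W} {u v : W} {IL IR : Set W} (P : Spl H d u v IL IR) :
    (d.right u v IR).I = IR := by
  ext x
  rw [DD.mem_I]
  constructor
  · rintro ⟨h1, h2, h3⟩
    have h4 : x ∈ d.Rt u v ∪ IR := not_not.1 h1
    rcases h4 with (k | k) | k
    exacts [absurd k h2, absurd k h3, k]
  · intro hx
    have := DD.mem_I.1 ((P.cov x).2 (Or.inr hx))
    exact ⟨fun k => k (Or.inr hx), fun k => this.2.1 k.1, fun k => this.2.2 k.1⟩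

/-- the left interior lies outside the right disc -/
theorem il_out {d : DD W} {u v : W} {IL IR : Set W} (P : Spl H d u v IL IR) {x : W}
    (hx : x ∈ IL) : x ∈ (d.right u v IR).Z := by
  have := DD.mem_I.1 ((P.cov x).2 (Or.inl hx))
  rintro ((k | k) | k)
  exacts [this.2.1 k.1, this.2.2 k.1, Set.disjoint_left.1 P.dis hx k]

theorem spl_nt {d : DD W} {u v : W} {IL IR : Set W} (P : Spl H d u v IL IR) {x y : W}
    (hx : x ∈ IL) (hy : y ∈ IR) : ¬ H.Adj y x :=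
  fun a => P.dr.iz (by rw [right_I P]; exact hy) a (il_out P hx)

/-- a disc whose boundary is an edge has no interior -/
theorem gad0 {K : DD W} (D : Disc H K) (h1 : K.a = K.b) (h2 : K.a' = K.b') : K.I = ∅ := by
  by_contra hI
  have e1 : K.X = {K.a} := Pth.eq_single (ρ := K.ρ) (by have := D.px; rwa [← h1] at this)
  have e2 : K.Y = {K.a'} := Pth.eq_single (ρ := K.ρ) (by have := D.py; rwa [← h2] at this)
  refine D.nj K.I subset_rfl D.fin (Set.nonempty_iff_ne_empty.2 hI) K.a K.a' (Or.inr D.ra) ?_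
  rintro x ⟨y, hy, a⟩
  rcases K.cases x with k | k | k | k
  · exact absurd k (D.iz hy a.symm)
  · rw [e1] at k
    exact Or.inr (Or.inl k)
  · rw [e2] at k
    exact Or.inr (Or.inr k)
  · exact Or.inl k

/-- a disc whose boundary is a triangle -/
theorem gad3 (hP : Pl H Set.univ) (T : TA H) {K : DD W} (D : Disc H K) (h1 : K.a = K.b)
    (h2 : H.Adj K.a' K.b') : Tri H K.I K.a K.a' K.b' := by
  have e1 : K.X = {K.a} := Pth.eq_single (ρ := K.ρ) (by have := D.px; rwa [← h1] at this)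
  have e2 : K.Y = {K.a', K.b'} := D.py.eq_pair h2
  have eB : K.X ∪ K.Y = {K.a, K.a', K.b'} := by rw [e1, e2]; rfl
  refine pk_Tri1 W H hP _ (T.tn _) K.Z K.I K.I _ _ _ D.ra h2 (h1 ▸ D.rb) D.zc (eB ▸ D.tz) ?_ ?_ ?_
    D.fin D.nj ?_ (Nat.lt_succ_self _)
  · rw [← eB, Set.disjoint_left]
    rintro x hx (k | k)
    exacts [k (Or.inl hx), Set.disjoint_left.1 D.dz hx k]
  · rw [← eB, Set.disjoint_left]
    exact fun x hx k => hx (Or.inr k)
  · rw [← eB]
    exact subset_rfl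
  · rw [← eB]
    rintro x ⟨y, hy, a⟩
    rcases K.cases x with k | k | k | k
    exacts [absurd k (D.iz hy a.symm), Or.inr (Or.inl k), Or.inr (Or.inr k), Or.inl k]

/-- a four-cycle `s t y w` with the diagonal `s y` -/
theorem gad33 (hP : Pl H Set.univ) (T : TA H) {K : DD W} (D : Disc H K) (h1 : K.a = K.b) {y : W}
    (hy : y ∈ K.Y) (a1 : H.Adj K.a' y) (a2 : H.Adj y K.b') (a3 : H.Adj K.a y) (c : W → Col)
    (k1 : c K.a' ≠ c y) (k2 : ¬ (c K.a = c y ∧ c y = c K.b')) : ∃ c', Rec H K.I ∅ c c' := by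
  obtain ⟨IL, IR, P, -⟩ := pk_Spl1 W H hP K K.a y D D.px.ha hy a3
  obtain ⟨c1, r1⟩ := gad3 hP T P.dl rfl a1 c fun k => k1 k.2
  rw [left_I P] at r1
  have o1 : ∀ x, x ∈ K.X ∨ x ∈ K.Y → c1 x = c x := fun x hx => r1.off x fun k =>
    (P.cov x).2 (Or.inl k) (Or.inr hx)
  obtain ⟨c2, r2⟩ := gad3 hP T P.dr h1 a2 c1 (by
    change ¬ (c1 K.a = c1 y ∧ c1 y = c1 K.b')
    rwa [o1 _ (Or.inl D.px.ha), o1 _ (Or.inr hy), o1 _ (Or.inr D.py.hb)])
  rw [right_I P] at r2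
  have e : K.I = IL ∪ IR := Set.ext fun x => P.cov x
  rw [e]
  exact ⟨c2, (r1.union r2 P.dis (by rintro ⟨x, hx, z, hz, a⟩; exact spl_nt P hx hz a.symm)
    fun _ _ _ k => k.elim).mono fun _ _ k => k.elim id id⟩

/-- a four-cycle `s t y w` without the diagonals -/
theorem gad4 (hP : Pl H Set.univ) (T : TA H) {K : DD W} (D : Disc H K) (h1 : K.a = K.b) {y : W}
    (hy : y ∈ K.Y) (a1 : H.Adj K.a' y) (a2 : H.Adj y K.b') (ne : K.a' ≠ K.b')
    (a3 : ¬ H.Adj K.a y) (c : W → Col) :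
    (c K.a = c K.a' → c K.b' = c y → c K.a ≠ c y → ∃ c', Rec H K.I ∅ c c') ∧
    (c K.a = c y → c K.a' = c K.b' → c K.a ≠ c K.a' → ∃ c', Rec H K.I {K.a', K.b'} c c') := by
  classical
  have e1 : K.X = {K.a} := Pth.eq_single (ρ := K.ρ) (by have := D.px; rwa [← h1] at this)
  have l1 := D.py.lo_lt hy a1.ne'
  have l2 := D.py.lt_hi hy a2.ne
  have e2 : K.Y = {K.a', y, K.b'} := by
    ext x
    constructor
    · intro hx
      have g1 := D.py.nb D.py.ha hy a1 hx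
      have g2 := D.py.nb hy D.py.hb a2 hx
      have g3 := D.py.lo x hx
      have g4 := D.py.hi x hx
      by_cases q1 : K.ρ x = K.ρ K.a'
      · exact Or.inl (D.py.inj _ hx _ D.py.ha q1)
      by_cases q2 : K.ρ x = K.ρ y
      · exact Or.inr (Or.inl (D.py.inj _ hx _ hy q2))
      · exact Or.inr (Or.inr (D.py.inj _ hx _ D.py.hb (by omega)))
    · rintro (rfl | rfl | rfl)
      exacts [D.py.ha, hy, D.py.hb]
  have n1 : K.a ≠ K.b' := fun k => D.xy D.px.ha (k ▸ D.py.hb)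
  have n2 : K.a ≠ y := fun k => D.xy D.px.ha (k ▸ hy)
  let K' : DD W := ⟨K.Z, {K.a, K.a'}, {K.b', y}, fun x => if x = K.a ∨ x = K.b' then 0 else 1,
    K.a, K.a', K.b', y⟩
  obtain ⟨D', eI⟩ := recut (e' := K') D rfl
    (by
      rw [e1, e2]
      ext x
      simp only [K', Set.mem_union, Set.mem_insert_iff, Set.mem_singleton_iff]
      tauto)
    (Pth.pair D.ra (by simp [K', D.ra.ne', ne]))
    (Pth.pair a2.symm (by simp [K', n2.symm, a2.ne]))
    (by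
      rw [Set.disjoint_left]
      rintro x (rfl | rfl) (k | k)
      exacts [n1 k, n2 k, ne k, a1.ne k])
    (h1 ▸ D.rb) a1
  constructor
  · intro k1 k2 k3
    rw [← eI]
    exact PkQ4P.mono2 T D' rfl rfl c k1 k2 (by change c K.a ≠ c K.b'; rwa [k2])
  · intro k1 k2 k3
    obtain ⟨d2, Ia, hS, f1, f2, f3⟩ := PkQ4P.star hP D' rfl rfl D.ra.ne a2.ne' a3
    obtain ⟨π, p1, -, p3⟩ := repair (c K.a) (c K.a) (c K.a') k3 k3
    obtain ⟨c0, hc0, -⟩ := pk_Star2 pk_PCol pk_Star1 W H hP T d2 K.a y Ia hS (fun x => π (c x))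
      (by simp only [k1]) (by rw [f1, f2]; change (π (c K.a')).1 = (π (c K.b')).1; rw [k2])
      (by rw [f1]; change (π (c K.a)).1 ≠ (π (c K.a')).1; rw [p1, p3]; decide)
    rw [f1, f2, f3, eI] at hc0
    exact ⟨_, hc0.perm π⟩

end Pool.Agent.P.MP_08fd93_co.FE
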