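import Pool.Agent.P.MP_08fd93_co.FE.E6
import Pool.Agent.P.MP_08fd93_co.FU.TP3

/-! Lemma EB: two strict edges under a top edge that is monochromatic or paid by a known end. -/

set_option autoImplicit false

namespace Pool.Agent.P.MP_08fd93_co.FE

open OV OV.PkIndP FU

variable {W : Type} {H : SimpleGraph W}

theorem EBo.of_out {d : DD W} {S : Set (Sym2 W)} {o : OD W} (h : Out H d S o) : EBo H d S :=
  ⟨o, h.shp, Or.inl fun c ω h1 h2 h3 _ => h.ext c ω h1 h2 h3⟩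

theorem ebo_rv {d : DD W} {S : Set (Sym2 W)} (h : EBo H (rvD d) S) : EBo H d S := by
  obtain ⟨o, s, k⟩ := h
  have D : Disc H (rvD ((rvD d).upd o)) := disc_rv s.disc
  refine ⟨rvO o, ⟨D, s.zz, s.xx, s.yy, fun u hu hu' => ?_, fun u hu hu' => ?_, s.nx,
    s.ny, s.ap, s.pk, s.st⟩, k.symm⟩
  · have : o.ρ u = 0 - d.ρ u := s.rx u hu hu'
    change 0 - o.ρ u = d.ρ u
    omega
  · have : o.ρ u = 0 - d.ρ u := s.ry u hu hu'
    change 0 - o.ρ u = d.ρ u
    omega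

/-- Lemma EB without inner rungs, edges in order. -/
theorem eb_ord (hP : Pl H Set.univ) (T : TA H) {d : DD W} (D : Disc H d) (hI : d.I.Nonempty)
    (N : NR H d) (st : H.Adj d.a' d.b') {p p' r r' : W} (hp : p ∈ d.X) (hp' : p' ∈ d.X)
    (hr : r ∈ d.X) (hr' : r' ∈ d.X) (a : H.Adj p p') (a' : H.Adj r r') (l1 : d.ρ p < d.ρ p')
    (l2 : d.ρ p' ≤ d.ρ r) (l3 : d.ρ r < d.ρ r') : EBo H d {s(p, p'), s(r, r')} := by
  obtain ⟨m, rfl, rfl, rfl, P, R, dm, -⟩ := step_ex hP D hI N hp hp' l1 a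
  have he : s(r, r') ∈ PE H m.XM := mem_PE.2 ⟨⟨hr, l2⟩, ⟨hr', by omega⟩, a'⟩
  obtain ⟨o1, O1⟩ := T m.dM {s(r, r')} dm (Adm.single (Or.inl he))
  by_cases k : m.d.a' ∈ o1.Y
  · have sY : m.d.a' ∈ m.YM := by
      rcases PkStp4aP.notZM.1 (fun q => O1.shp.yz k (O1.shp.zz q)) with (q | q | q) | q
      exacts [absurd D.py.ha (D.xy q.1), absurd q (PkStp4aP.tauY P D.py.ha), q,
        absurd D.py.ha (DD.mem_I.1 q.1).2.2]
    have g1 := sY.2
    have g2 := D.py.lo _ P.hl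
    have g3 := PkStp4aP.lj P
    have ej : m.qj = m.d.a' := D.py.inj _ P.hj _ D.py.ha (by omega)
    have el : m.ql = m.qj := D.py.inj _ P.hl _ P.hj (by omega)
    obtain ⟨u, A⟩ := pa_of_eq P R dm O1.shp (ej ▸ k) el
    obtain ⟨o, O⟩ := step_std (S := {s(m.p, m.p'), s(r, r')}) hP T A O1 (fun q => absurd el q) (by
      rintro e (rfl | rfl)
      · exact Or.inl rfl
      · exact Or.inr ⟨rfl, Or.inl (mem_PE.2 ⟨hr, hr', a'⟩)⟩)
    exact EBo.of_out O
  · have E : EC H m o1 := ⟨P, R, dm, O1.shp.mono (Set.empty_subset _), st, k, fun x hx ax =>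
      (N x hx.1 _ D.py.ha ax).elim And.left fun q => absurd q.2 st.ne⟩
    exact E.eb hP T O1 (Set.singleton_subset_iff.2 he)
      (pk_Tri2 W H m P R (pk_Tri1 W H hP _ (T.tn _))).1

theorem eb_nr (hP : Pl H Set.univ) (T : TA H) {d : DD W} (D : Disc H d) (hI : d.I.Nonempty)
    (N : NR H d) (st : H.Adj d.a' d.b') {e e' : Sym2 W} (he : e ∈ PE H d.X)
    (he' : e' ∈ PE H d.X) : EBo H d {e, e'} := by
  obtain ⟨p, hp, p', hp', a, l, rfl⟩ := pe_ord D.px he
  obtain ⟨r, hr, r', hr', a', l', rfl⟩ := pe_ord D.px he'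
  rcases lt_trichotomy (d.ρ p) (d.ρ r) with k | k | k
  · have := D.px.nb hp hp' a hr
    exact eb_ord hP T D hI N st hp hp' hr hr' a a' l (by omega) l'
  · obtain rfl : p = r := D.px.inj _ hp _ hr k
    obtain rfl : p' = r' := D.px.up_eq hp hp' hr' a a' l l'
    rw [Set.pair_eq_singleton]
    obtain ⟨o, O⟩ := T d _ D (Adm.single (Or.inl he))
    exact EBo.of_out O
  · have := D.px.nb hr hr' a' hp
    rw [Set.pair_comm]
    exact eb_ord hP T D hI N st hr hr' hp hp' a' a l' (by omega) l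

open PkSpl2P PkSpl3P in
/-- gluing at a rung from the first vertex of the second path -/
theorem glueR {d : DD W} {u : W} {IL IR : Set W} {S : Set (Sym2 W)} {oL : OD W}
    (h : Spl H d u d.a' IL IR) (hS : S ⊆ PE H d.X ∪ PE H d.Y)
    (o1 : Out H (d.left u d.a' IL) (SIn S (d.Lf u d.a')) oL)
    (k2 : EBo H (d.right u d.a' IR) (SIn S (d.Rt u d.a'))) : EBo H d S := by
  obtain ⟨oR, s2, k2⟩ := k2
  have hs := pk_Spl2 W H d u d.a' IL IR S oL oR h hS o1.shp s2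
  obtain ⟨g, g'⟩ := geo h h.nc
  obtain ⟨k, k'⟩ := glu g g' o1.shp s2
  have e : (d.upd (glue d u d.a' IL IR oL oR)).I =
      ((d.right u d.a' IR).upd oR).I ∪ ((d.left u d.a' IL).upd oL).I := by
    ext x
    refine ⟨fun hx => ?_, fun hx => hx.elim (int_sub g' s2 o1.shp k') (int_sub g o1.shp s2 k)⟩
    exact ((g.cov x (DD.mem_I.1 (hs.I_sub hx)).1).imp (int_of k hx) (int_of k' hx)).symm
  have key : ∀ x y, ExtC H ((d.right u d.a' IR).upd oR).I oR.X oR.Y
      (LE H (d.right u d.a' IR) (SIn S (d.Rt u d.a')) oR) x y →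
      ExtC H (d.upd (glue d u d.a' IL IR oL oR)).I (glue d u d.a' IL IR oL oR).X
        (glue d u d.a' IL IR oL oR).Y (LE H d S (glue d u d.a' IL IR oL oR)) x y := by
    intro x y h1 c ω c1 c2 c3 c4
    rw [e]
    have l1 := le_sub (S := S) g' k' (C := d.Rt u d.a') subset_rfl
    have l2 := le_sub (S := S) g k (C := d.Lf u d.a') subset_rfl
    obtain ⟨c', hc⟩ := h1 c ω (fun x hx => c1 x (Or.inr hx)) (fun x hx => c2 x (Or.inr hx))
      (c3.mono l1) c4
    have out : ∀ x, x ∈ oL.X ∨ x ∈ oL.Y → c' x = c x := fun x hx =>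
      hc.off x fun q => notE o1.shp hx (int_out g' s2 q)
    have eq : ∀ a b, s(a, b) ∈ LE H (d.left u d.a' IL) (SIn S (d.Lf u d.a')) oL →
        c' a = c a ∧ c' b = c b := fun a b hab =>
      ⟨out a ((LE_ends hab (Sym2.mem_mk_left a b)).imp And.right And.right),
        out b ((LE_ends hab (Sym2.mem_mk_right a b)).imp And.right And.right)⟩
    obtain ⟨c'', hc'⟩ := o1.ext c' ω
      (fun x hx => by rw [out x (Or.inl hx)]; exact c1 x (Or.inl hx))
      (fun x hx => by rw [out x (Or.inr hx)]; exact c2 x (Or.inl hx))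
      (fun a b hab => by rw [(eq a b hab).1, (eq a b hab).2]; exact c3 a b (l2 hab))
    refine ⟨c'', (hc.union hc'
      (Set.disjoint_left.2 fun x h1 h2 => (int_not o1.shp h2).1 (int_out g' s2 h1)) ?_
      fun x _ _ hx hx' => Set.disjoint_left.1 (le_dis g' g) hx.1 hx'.1).mono ?_⟩
    · rintro ⟨x, hx, y, hy, hxy⟩
      exact g'.na x y (int_not s2 hx).1 (int_not o1.shp hy).1 (int_ne g' s2 hx).1
        (int_ne g' s2 hx).2 (int_ne g o1.shp hy).1 (int_ne g o1.shp hy).2 hxy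
    · rintro x _ (hx | hx)
      · exact Pay.mono l1 hx
      · refine ⟨l2 hx.1, ?_⟩
        rw [← (eq _ _ hx.1).1, ← (eq _ _ hx.1).2]
        exact hx.2
  exact ⟨_, hs, k2.imp (key _ _) (key _ _)⟩

/-- The lemma below the bound `n`. -/
def EBN (H : SimpleGraph W) (n : ℕ) : Prop :=
  ∀ (d : DD W) (e e' : Sym2 W), Disc H d → H.Adj d.a' d.b' → e ∈ PE H d.X → e' ∈ PE H d.X →
    (d.Zᶜ).ncard < n → EBo H d {e, e'}

theorem eb_cut (hP : Pl H Set.univ) (T : TA H) {d : DD W} (D : Disc H d) (st : H.Adj d.a' d.b')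
    (ih : EBN H (d.Zᶜ).ncard) {u : W} (hu : u ∈ d.X) (a : H.Adj u d.a') (n : u ≠ d.a)
    {e e' : Sym2 W} (he : e ∈ PE H d.X) (he' : e' ∈ PE H d.X) : EBo H d {e, e'} := by
  have side : ∀ f ∈ PE H d.X, (∀ x ∈ f, d.ρ x ≤ d.ρ u) ∨ ∀ x ∈ f, d.ρ u ≤ d.ρ x := by
    intro f hf
    obtain ⟨p, hp, p', hp', b, l, rfl⟩ := pe_ord D.px hf
    have := D.px.nb hp hp' b hu
    by_cases k : d.ρ p' ≤ d.ρ u
    · exact Or.inl fun x hx => by rcases Sym2.mem_iff.1 hx with rfl | rfl <;> omega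
    · exact Or.inr fun x hx => by rcases Sym2.mem_iff.1 hx with rfl | rfl <;> omega
  have sep : ∀ f ∈ PE H d.X, ∀ f' ∈ PE H d.X, (∀ x ∈ f, d.ρ x ≤ d.ρ u) →
      (∀ x ∈ f', d.ρ u ≤ d.ρ x) → Sep H d f f' := fun f hf f' hf' k k' =>
    ⟨u, hu, d.a', D.py.ha, a, fun x hx => Or.inl ⟨PE.ends hf hx, k x hx⟩,
      fun x hx => Or.inl ⟨PE.ends hf' hx, k' x hx⟩⟩
  rcases side e he with k | k <;> rcases side e' he' with k' | k'
  · obtain ⟨o, O⟩ := tp hP T D (admP_pair (Or.inl he) (Or.inl he') (Or.inr (Or.inl (Or.inl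
      ⟨d.a, D.px.ha, u, hu, d.a', D.py.ha, D.ra, a, fun x hx => by
        have q : x ∈ d.X := hx.elim (PE.ends he) (PE.ends he')
        exact ⟨q, D.px.lo x q, hx.elim (k x) (k' x)⟩⟩))))
    exact EBo.of_out O
  · obtain ⟨o, O⟩ := T d _ D (adm_pair (Or.inl he) (Or.inl he') (Or.inl (sep e he e' he' k k')))
    exact EBo.of_out O
  · obtain ⟨o, O⟩ := T d _ D (adm_pair (Or.inl he) (Or.inl he') (Or.inr (sep e' he' e he k' k)))
    exact EBo.of_out O
  obtain ⟨IL, IR, P, -⟩ := pk_Spl1 W H hP d u d.a' D hu D.py.ha a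
  have eL : SIn {e, e'} (d.Lf u d.a') = ∅ := by
    refine Set.eq_empty_of_forall_notMem fun f hf => ?_
    have q : f ∈ PE H d.X ∧ ∀ x ∈ f, d.ρ u ≤ d.ρ x := by
      rcases hf.1 with rfl | rfl
      exacts [⟨he, k⟩, ⟨he', k'⟩]
    obtain ⟨p, hp, p', hp', b, l, rfl⟩ := pe_ord D.px q.1
    have g1 := q.2 p (Sym2.mem_mk_left _ _)
    rcases hf.2 p' (Sym2.mem_mk_right _ _) with r | r
    · have := r.2
      omega
    · exact D.xy hp' r.1
  have eR : SIn {e, e'} (d.Rt u d.a') = {e, e'} := by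
    refine Set.Subset.antisymm (fun _ hf => hf.1) ?_
    rintro f (rfl | rfl)
    · exact ⟨Or.inl rfl, fun x hx => Or.inl ⟨PE.ends he hx, k x hx⟩⟩
    · exact ⟨Or.inr rfl, fun x hx => Or.inl ⟨PE.ends he' hx, k' x hx⟩⟩
  have up : ∀ f ∈ PE H d.X, (∀ x ∈ f, d.ρ u ≤ d.ρ x) → f ∈ PE H (d.right u d.a' IR).X := by
    rintro f ⟨p, hp, p', hp', b, rfl⟩ q
    exact ⟨p, ⟨hp, q p (Sym2.mem_mk_left _ _)⟩, p', ⟨hp', q p' (Sym2.mem_mk_right _ _)⟩, b, rfl⟩
  obtain ⟨oL, OL⟩ := T _ ∅ P.dl Adm.empty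
  refine glueR (oL := oL) P ?_ (by rw [eL]; exact OL) ?_
  · rintro f (rfl | rfl)
    exacts [Or.inl he, Or.inl he']
  · rw [eR]
    exact ih _ e e' P.dr st (up e he k) (up e' he' k') (right_lt P fun q => n q.1)

/-- Lemma EB: the second path is an edge; two edges of the first path are strict if the second
path is monochromatic or paid by one end that is part of the output. -/
theorem eb (hP : Pl H Set.univ) (T : TA H) {d : DD W} (D : Disc H d) (st : H.Adj d.a' d.b')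
    {e e' : Sym2 W} (he : e ∈ PE H d.X) (he' : e' ∈ PE H d.X) : EBo H d {e, e'} := by
  have all : ∀ n, EBN H n := by
    intro n
    induction n with
    | zero => intro d _ _ _ _ _ _ k; exact absurd k (Nat.not_lt_zero _)
    | succ n ihn =>
      intro d e e' D st he he' k
      have ih : EBN H (d.Zᶜ).ncard := fun d' f f' D' s' h1 h2 k' =>
        ihn d' f f' D' s' h1 h2 (by omega)
      rcases d.I.eq_empty_or_nonempty with hI | hI
      · refine EBo.of_out (Out.triv D ?_ hI)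
        rintro f (rfl | rfl)
        exacts [Or.inl he, Or.inl he']
      by_cases N : NR H d
      · exact eb_nr hP T D hI N st he he'
      simp only [NR, not_forall, not_or] at N
      obtain ⟨u, hu, v, hv, a, n1, n2⟩ := N
      rw [D.py.eq_pair st] at hv
      rcases hv with rfl | rfl
      · exact eb_cut hP T D st ih hu a (fun q => n1 ⟨q, rfl⟩) he he'
      · exact ebo_rv (eb_cut hP T (disc_rv D) st.symm ih hu a (fun q => n2 ⟨q, rfl⟩) he he')
  exact all _ d e e' D st he he' (Nat.lt_succ_self _)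

/-- Lemma EB in the form used for cells: only the edges of the first path are assumed paid. -/
theorem eb' (hP : Pl H Set.univ) (T : TA H) {d : DD W} (D : Disc H d) (st : H.Adj d.a' d.b')
    {e e' : Sym2 W} (he : e ∈ PE H d.X) (he' : e' ∈ PE H d.X) :
    ∃ (o : OD W) (x y : W), ((x = d.a' ∧ y = d.b') ∨ (x = d.b' ∧ y = d.a')) ∧
      Shp H d {e, e'} o ∧ o.Y = d.Y ∧ ∀ (c : W → Col) (ω : W → W),
        (∀ v ∈ o.X, (c v).1 = false) → (∀ v ∈ d.Y, (c v).1 = true) →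
        Paid (PE H (d.X ∩ o.X) \ {e, e'}) c ω → (c x = c y ∨ ω x = y) →
        ∃ c', Rec H (d.upd o).I (Pay (LE H d {e, e'} o) c ω) c c' := by
  obtain ⟨o, s, k⟩ := eb hP T D st he he'
  have eY : o.Y = d.Y := (s.py.eq_pair st).trans (D.py.eq_pair st).symm
  have key : ∀ x y, ((x = d.a' ∧ y = d.b') ∨ (x = d.b' ∧ y = d.a')) → ∀ (c : W → Col) (ω : W → W),
      Paid (PE H (d.X ∩ o.X) \ {e, e'}) c ω → (c x = c y ∨ ω x = y) →
      Paid (LE H d {e, e'} o) c ω := by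
    intro x y hxy c ω h1 h2 u v huv
    rcases huv.1 with r | r
    · exact h1 u v ⟨r, huv.2⟩
    obtain ⟨r1, r2, a⟩ := mem_PE.1 r
    have q1 := r1.1
    have q2 := r2.1
    rw [D.py.eq_pair st] at q1 q2
    rcases hxy with ⟨rfl, rfl⟩ | ⟨rfl, rfl⟩ <;> rcases q1 with rfl | rfl <;>
      rcases q2 with rfl | rfl
    exacts [Or.inl rfl, h2.imp_right Or.inl, h2.imp Eq.symm Or.inr, Or.inl rfl,
      Or.inl rfl, h2.imp Eq.symm Or.inr, h2.imp_right Or.inl, Or.inl rfl]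
  rcases k with k | k
  · exact ⟨o, _, _, Or.inl ⟨rfl, rfl⟩, s, eY, fun c ω h1 h2 h3 h4 =>
      k c ω h1 (eY ▸ h2) (key _ _ (Or.inl ⟨rfl, rfl⟩) c ω h3 h4) h4⟩
  · exact ⟨o, _, _, Or.inr ⟨rfl, rfl⟩, s, eY, fun c ω h1 h2 h3 h4 =>
      k c ω h1 (eY ▸ h2) (key _ _ (Or.inr ⟨rfl, rfl⟩) c ω h3 h4) h4⟩

end Pool.Agent.P.MP_08fd93_co.FE
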