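import Pool.Agent.P.MP_08fd93_co.OV.Base

/-! Lifting the output of a disc that shares a segment of the first path. -/

set_option autoImplicit false

namespace Pool.Agent.P.MP_08fd93_co.FE

open OV

variable {W : Type} {H : SimpleGraph W}

/-- The pockets of the output `o` of `e` that hang on the first path. -/
def VX (e : DD W) (o : OD W) : Set W := {x | x ∈ o.Z ∧ x ∉ e.Z ∧ o.ax x ∈ o.X}

open Classical in
/-- The segment `e.X` of the first path of `oa` is replaced by the first path of `o`. -/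
noncomputable def lift (oa : OD W) (e : DD W) (o : OD W) : OD W :=
  ⟨oa.Z ∪ VX e o, (oa.X \ e.X) ∪ o.X, oa.Y, fun x => if x ∈ o.X then o.ρ x else oa.ρ x,
    fun x => if x ∈ oa.Z then oa.ax x else o.ax x⟩

/-- The output that changes nothing. -/
def trv (d : DD W) : OD W := ⟨d.Z, d.X, d.Y, d.ρ, id⟩

theorem shp_trv {d : DD W} (h : Disc H d) : Shp H d ∅ (trv d) :=
  ⟨h, subset_rfl, Set.subset_union_left, Set.subset_union_left, fun _ _ _ => rfl,
    fun _ _ _ => rfl, fun _ hu _ _ _ => Or.inl hu, fun _ hu _ _ _ => Or.inl hu,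
    fun _ hv hv' => absurd hv hv', fun _ hv hv' => absurd hv hv', fun _ he => he.elim⟩

/-- `e` is a disc inside the disc `d` after `oa` whose first path is an old visible segment. -/
structure Sub (H : SimpleGraph W) (d : DD W) (oa : OD W) (e : DD W) : Prop where
  dd : Disc H d
  sa : Shp H d ∅ oa
  de : Disc H e
  xd : e.X ⊆ d.X
  seg : ∀ x, x ∈ e.X ↔ x ∈ oa.X ∧ oa.ρ e.a ≤ oa.ρ x ∧ oa.ρ x ≤ oa.ρ e.b
  rho : ∀ x ∈ e.X, e.ρ x = oa.ρ x
  zz : oa.Z ⊆ e.Z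
  iI : e.I ⊆ (d.upd oa).I
  yx : ∀ x ∈ e.Y, x ∉ oa.X
  inn : ∀ x ∈ e.X, x ≠ e.a → x ≠ e.b → ∀ z ∈ e.Z, H.Adj x z → z ∈ d.Z

theorem Shp.setS {d : DD W} {S S' : Set (Sym2 W)} {o : OD W} (h : Shp H d S o)
    (hs : ∀ e ∈ S', ∀ x ∈ e, x ∉ o.Z) : Shp H d S' o :=
  ⟨h.disc, h.zz, h.xx, h.yy, h.rx, h.ry, h.nx, h.ny, h.ap, h.pk, hs⟩

variable {d e : DD W} {oa o : OD W} {S : Set (Sym2 W)}

/-- a vertex of a pocket on the first path is an old vertex of that path or interior -/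
theorem vx_cases (de : Disc H e) (so : Shp H e S o) {x : W} (hx : x ∈ VX e o) :
    x ∈ e.X ∨ x ∈ e.I := by
  rcases e.cases x with k | k | k | k
  · exact absurd k hx.2.1
  · exact Or.inl k
  · exact absurd (so.swap.hidden de.swap k hx.1).1 (so.xy hx.2.2)
  · exact Or.inr k

theorem ox_cases (so : Shp H e S o) {x : W} (hx : x ∈ o.X) : x ∈ e.X ∨ x ∈ e.I := by
  by_cases k : x ∈ e.X
  exacts [Or.inl k, Or.inr (so.new_I hx k)]

theorem hid_vx (de : Disc H e) (so : Shp H e S o) {x : W} (hx : x ∈ e.X) (hz : x ∈ o.Z) :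
    x ∈ VX e o := ⟨hz, de.xz hx, (so.hidden de hx hz).1⟩

theorem Sub.shp (h : Sub H d oa e) (so : Shp H e S o) : Shp H d ∅ (lift oa e o) := by
  have sa := h.sa
  have de := h.de
  have I1 : ∀ x ∈ e.I, x ∉ oa.Z ∧ x ∉ oa.X ∧ x ∉ oa.Y := fun x hx => DD.mem_I.1 (h.iI hx)
  have eX : ∀ x ∈ e.X, x ∈ oa.X := fun x hx => ((h.seg x).1 hx).1
  have rest : ∀ x ∈ oa.X, x ∉ e.X → x ∈ e.Z := by
    intro x hx hn
    rcases e.cases x with k | k | k | k
    exacts [k, absurd k hn, absurd hx (h.yx x k), absurd hx (I1 x k).2.1]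
  have oz : ∀ x ∈ o.X, x ∉ e.Z := fun x hx k => so.xz hx (so.zz k)
  have oaz : ∀ x ∈ o.X, x ∉ oa.Z := fun x hx k => oz x hx (h.zz k)
  have oay : ∀ x ∈ o.X, x ∉ oa.Y := fun x hx k =>
    (ox_cases so hx).elim (fun q => sa.xy (eX x q) k) fun q => (I1 x q).2.2 k
  have oax : ∀ x ∈ o.X, x ∈ oa.X → x ∈ e.X := fun x hx k =>
    (ox_cases so hx).resolve_right fun q => (I1 x q).2.1 k
  have vz : ∀ x ∈ VX e o, x ∉ oa.Z := fun x hx k => hx.2.1 (h.zz k)
  have vy : ∀ x ∈ VX e o, x ∉ oa.Y := fun x hx k =>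
    (vx_cases de so hx).elim (fun q => sa.xy (eX x q) k) fun q => (I1 x q).2.2 k
  have r1 : ∀ x ∈ o.X, (lift oa e o).ρ x = o.ρ x := fun x hx => if_pos hx
  have r2 : ∀ x, x ∉ o.X → (lift oa e o).ρ x = oa.ρ x := fun x hx => if_neg hx
  have r3 : ∀ x ∈ oa.X, (lift oa e o).ρ x = oa.ρ x := by
    intro x hx
    by_cases k : x ∈ o.X
    · rw [r1 x k, so.rx x (oax x k hx) k, h.rho x (oax x k hx)]
    · exact r2 x k
  have a1 : ∀ x ∈ oa.Z, (lift oa e o).ax x = oa.ax x := fun x hx => if_pos hx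
  have a2 : ∀ x, x ∉ oa.Z → (lift oa e o).ax x = o.ax x := fun x hx => if_neg hx
  have ea := de.px.ha
  have eb := de.px.hb
  have pa := sa.px
  have old : ∀ x ∈ oa.X, x ∉ e.X → ∀ y ∈ o.X, H.Adj y x → y ∈ e.X := fun x hx hn y hy a =>
    (ox_cases so hy).resolve_right fun q => de.iz q a (rest x hx hn)
  have lab := ((h.seg _).1 ea).2.2
  have px : Pth H (lift oa e o).X (lift oa e o).ρ d.a d.b := by
    have pA : Pth H {x | x ∈ oa.X ∧ oa.ρ x ≤ oa.ρ e.a} (lift oa e o).ρ d.a e.a :=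
      (pa.sub pa.ha (eX _ ea) (pa.lo _ (eX _ ea)) (A := {x | x ∈ oa.X ∧ oa.ρ x ≤ oa.ρ e.a}) fun x =>
        ⟨fun k => ⟨k.1, pa.lo x k.1, k.2⟩, fun k => ⟨k.1, k.2.2⟩⟩).congr fun x hx => r3 x hx.1
    have pC : Pth H {x | x ∈ oa.X ∧ oa.ρ e.b ≤ oa.ρ x} (lift oa e o).ρ e.b d.b :=
      (pa.sub (eX _ eb) pa.hb (pa.hi _ (eX _ eb)) (A := {x | x ∈ oa.X ∧ oa.ρ e.b ≤ oa.ρ x}) fun x =>
        ⟨fun k => ⟨k.1, k.2, pa.hi x k.1⟩, fun k => ⟨k.1, k.2.1⟩⟩).congr fun x hx => r3 x hx.1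
    have pB : Pth H o.X (lift oa e o).ρ e.a e.b := so.px.congr r1
    have j1 := pA.join pB (Or.inl rfl) (by
      intro x hx y hy a
      refine Or.inr ⟨rfl, ?_⟩
      by_cases k : x = e.a
      · exact Or.inl k
      have l1 := pa.lt_or hx.1 (eX _ ea) k
      have l2 := hx.2
      have hn : x ∉ e.X := fun q => by
        have := ((h.seg x).1 q).2.1
        omega
      have ye := old x hx.1 hn y hy a.symm
      have l3 := ((h.seg y).1 ye).2.1
      have l4 := pa.nb hx.1 (eX y ye) a (eX _ ea)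
      exact Or.inr (pa.inj _ (eX y ye) _ (eX _ ea) (by omega)))
    have j2 := j1.join pC (Or.inl rfl) (by
      intro x hx y hy a
      refine Or.inr ⟨rfl, ?_⟩
      by_cases k : y = e.b
      · exact Or.inr k
      have l1 := pa.lt_or hy.1 (eX _ eb) k
      have l2 := hy.2
      have hn : y ∉ e.X := fun q => by
        have := ((h.seg y).1 q).2.2
        omega
      have xa : x ∈ oa.X ∧ oa.ρ x ≤ oa.ρ e.b := by
        rcases hx with hx | hx
        · exact ⟨hx.1, hx.2.trans lab⟩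
        · have ye := old y hy.1 hn x hx a
          exact ⟨eX x ye, ((h.seg x).1 ye).2.2⟩
      have l4 := pa.nb xa.1 hy.1 a (eX _ eb)
      have l5 := xa.2
      exact Or.inl (pa.inj _ xa.1 _ (eX _ eb) (by omega)))
    have eq : (lift oa e o).X = {x | x ∈ oa.X ∧ oa.ρ x ≤ oa.ρ e.a} ∪ o.X ∪
        {x | x ∈ oa.X ∧ oa.ρ e.b ≤ oa.ρ x} := by
      ext x
      constructor
      · rintro (⟨k1, k2⟩ | k)
        · rw [h.seg] at k2
          by_cases l : oa.ρ x ≤ oa.ρ e.a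
          · exact Or.inl (Or.inl ⟨k1, l⟩)
          · refine Or.inr ⟨k1, ?_⟩
            by_contra l'
            exact k2 ⟨k1, by omega, by omega⟩
        · exact Or.inl (Or.inr k)
      · rintro ((k | k) | k)
        · by_cases q : x ∈ e.X
          · have := ((h.seg x).1 q).2.1
            have := k.2
            rw [pa.inj x k.1 _ (eX _ ea) (by omega)]
            exact Or.inr so.px.ha
          · exact Or.inl ⟨k.1, q⟩
        · exact Or.inr k
        · by_cases q : x ∈ e.X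
          · have := ((h.seg x).1 q).2.2
            have := k.2
            rw [pa.inj x k.1 _ (eX _ eb) (by omega)]
            exact Or.inr so.px.hb
          · exact Or.inl ⟨k.1, q⟩
    rw [eq]
    exact j2
  have xx1 : ∀ x ∈ oa.X, x ∈ (lift oa e o).X ∨ x ∈ (lift oa e o).Z := by
    intro x hx
    by_cases k : x ∈ e.X
    · rcases so.xx k with q | q
      exacts [Or.inl (Or.inr q), Or.inr (Or.inr (hid_vx de so k q))]
    · exact Or.inl (Or.inl ⟨hx, k⟩)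
  have ap : ∀ v ∈ (lift oa e o).Z, v ∉ d.Z →
      ((lift oa e o).ax v ∈ (lift oa e o).X ∧ (lift oa e o).ax v ∉ d.X) ∨
        ((lift oa e o).ax v ∈ (lift oa e o).Y ∧ (lift oa e o).ax v ∉ d.Y) := by
    rintro v (hv | hv) hn
    · rw [a1 v hv]
      exact (sa.ap v hv hn).imp_left fun k => ⟨Or.inl ⟨k.1, fun q => k.2 (h.xd q)⟩, k.2⟩
    · rw [a2 v (vz v hv)]
      have k := ((so.ap v hv.1 hv.2.1).resolve_right fun q => so.xy hv.2.2 q.1).2
      have kI := so.new_I hv.2.2 k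
      exact Or.inl ⟨Or.inr hv.2.2, (DD.mem_I.1 (sa.I_sub (h.iI kI))).2.1⟩
  have pk : ∀ v ∈ (lift oa e o).Z, v ∉ d.Z → ∀ z, H.Adj v z → z ∈ d.Z ∨
      (z ∈ (lift oa e o).Z ∧ (lift oa e o).ax z = (lift oa e o).ax v) ∨ z = (lift oa e o).ax v ∨
      (H.Adj z ((lift oa e o).ax v) ∧ ((z ∈ (lift oa e o).X ∧ (lift oa e o).ax v ∈ (lift oa e o).X)
        ∨ (z ∈ (lift oa e o).Y ∧ (lift oa e o).ax v ∈ (lift oa e o).Y))) := by
    rintro v (hv | hv) hn z a
    · rw [a1 v hv]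
      rcases sa.pk v hv hn z a with k | k | k | ⟨k, k' | k'⟩
      · exact Or.inl k
      · exact Or.inr (Or.inl ⟨Or.inl k.1, (a1 z k.1).trans k.2⟩)
      · exact Or.inr (Or.inr (Or.inl k))
      · have nw : oa.ax v ∉ e.X := fun q =>
          ((sa.ap v hv hn).resolve_right fun r => sa.xy k'.2 r.1).2 (h.xd q)
        refine Or.inr (Or.inr (Or.inr ⟨k, Or.inl ⟨?_, Or.inl ⟨k'.2, nw⟩⟩⟩))
        by_cases q : z ∈ e.X
        · by_cases q1 : z = e.a
          · exact Or.inr (q1 ▸ so.px.ha)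
          by_cases q2 : z = e.b
          · exact Or.inr (q2 ▸ so.px.hb)
          exact absurd (sa.zz (h.inn z q q1 q2 _ (rest _ k'.2 nw) k)) (sa.xz k'.2)
        · exact Or.inl ⟨k'.1, q⟩
      · exact Or.inr (Or.inr (Or.inr ⟨k, Or.inr k'⟩))
    · rw [a2 v (vz v hv)]
      by_cases hz : z ∈ e.Z
      · left
        have vX : v ∈ e.X := (vx_cases de so hv).resolve_right fun q => de.iz q a hz
        exact h.inn v vX (fun q => so.xz so.px.ha (q ▸ hv.1)) (fun q => so.xz so.px.hb (q ▸ hv.1))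
          z hz a
      rcases so.pk v hv.1 hv.2.1 z a with k | k | k | ⟨k, k' | k'⟩
      · exact absurd k hz
      · have zV : z ∈ VX e o := ⟨k.1, hz, k.2 ▸ hv.2.2⟩
        exact Or.inr (Or.inl ⟨Or.inr zV, (a2 z (vz z zV)).trans k.2⟩)
      · exact Or.inr (Or.inr (Or.inl k))
      · exact Or.inr (Or.inr (Or.inr ⟨k, Or.inl ⟨Or.inr k'.1, Or.inr k'.2⟩⟩))
      · exact absurd k'.2 (so.xy hv.2.2)
  have xx : d.X ⊆ (lift oa e o).X ∪ (lift oa e o).Z := fun x hx =>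
    (sa.xx hx).elim (xx1 x) fun k => Or.inr (Or.inl k)
  have yy : d.Y ⊆ (lift oa e o).Y ∪ (lift oa e o).Z := fun x hx =>
    (sa.yy hx).imp_right Or.inl
  have sub : (d.upd (lift oa e o)).I ⊆ d.I := fun x hx => by
    have hx' : x ∉ (lift oa e o).Z ∧ x ∉ (lift oa e o).X ∧ x ∉ (lift oa e o).Y := DD.mem_I.1 hx
    exact DD.mem_I.2 ⟨fun hz => hx'.1 (Or.inl (sa.zz hz)), fun k => (xx k).elim hx'.2.1 hx'.1,
      fun k => (yy k).elim hx'.2.2 hx'.1⟩
  refine ⟨⟨px, sa.py.congr fun x hx => r2 x fun k => oay x k hx, ?_, h.dd.ra, h.dd.rb, ?_, ?_, ?_,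
    ?_, h.dd.fin.subset sub, h.dd.nj.mono sub⟩, fun x hx => Or.inl (sa.zz hx), xx, yy, ?_, ?_, ?_,
    sa.ny, ap, pk, fun _ he => he.elim⟩
  · refine Set.disjoint_left.2 ?_
    rintro x (k | k) hy
    exacts [sa.xy k.1 hy, oay x k hy]
  · refine isConn_base sa.disc.zc Set.subset_union_left ?_
    rintro x (hx | hx)
    · exact ⟨x, hx, Conn.rfl'⟩
    · obtain ⟨y, c, hy, k⟩ := so.pocket de hx.1 hx.2.1
      have sb : Pk e o (o.ax x) ⊆ VX e o := fun w hw => ⟨hw.1, hw.2.1, hw.2.2 ▸ hx.2.2⟩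
      have yX : y ∈ e.X := (vx_cases de so (sb hy)).resolve_right fun q =>
        k.elim (DD.mem_I.1 q).2.1 (DD.mem_I.1 q).2.2
      obtain ⟨z, hz, a⟩ := h.dd.tz (Or.inl (h.xd yX))
      exact ⟨z, sa.zz hz, (c.up fun w hw => Or.inr (sb hw)).snoc (Or.inr (sb hy))
        (Or.inl (sa.zz hz)) a⟩
  · refine Set.disjoint_left.2 ?_
    rintro x (hx | hx) ((k | k) | k)
    exacts [sa.xz k.1 hx, oaz x k hx, sa.yz k hx, hx.2.1 (rest x k.1 k.2), so.xz k hx.1, vy x hx k]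
  · rintro x ⟨z, hz, a⟩
    change x ∈ (lift oa e o).Z ∪ ((lift oa e o).X ∪ (lift oa e o).Y)
    by_cases k : z ∈ d.Z
    · rcases h.dd.cl ⟨z, k, a⟩ with r | r | r
      · exact Or.inl (Or.inl (sa.zz r))
      · exact (xx r).elim (fun q => Or.inr (Or.inl q)) Or.inl
      · exact (yy r).elim (fun q => Or.inr (Or.inr q)) Or.inl
    · rcases pk z hz k x a.symm with r | r | r | ⟨_, r | r⟩
      · exact Or.inl (Or.inl (sa.zz r))
      · exact Or.inl r.1
      · rw [r]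
        exact Or.inr ((ap z hz k).imp And.left And.left)
      · exact Or.inr (Or.inl r.1)
      · exact Or.inr (Or.inr r.1)
  · have bd : ∀ x, x ∈ oa.X ∪ oa.Y → x ∈ Nb H (lift oa e o).Z := fun x hx => by
      obtain ⟨z, hz, a⟩ := sa.disc.tz hx
      exact ⟨z, Or.inl hz, a⟩
    rintro x ((k | k) | k)
    · exact bd x (Or.inl k.1)
    · rcases ox_cases so k with q | q
      · exact bd x (Or.inl (eX x q))
      · obtain ⟨z, hz, a⟩ := so.disc.tz (Or.inl k)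
        have zn := de.iz q a
        refine ⟨z, Or.inr ⟨hz, zn, ?_⟩, a⟩
        rcases so.pk z hz zn x a.symm with r | r | r | ⟨_, r | r⟩
        exacts [absurd r (oz x k), absurd r.1 (so.xz k), r ▸ k, r.2, absurd r.1 (so.xy k)]
    · exact bd x (Or.inr k)
  · rintro u hu (k | k)
    · rw [r3 u k.1, sa.rx u hu k.1]
    · have ue : u ∈ e.X := (ox_cases so k).resolve_right fun q =>
        (DD.mem_I.1 (sa.I_sub (h.iI q))).2.1 hu
      rw [r3 u (eX u ue), sa.rx u hu (eX u ue)]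
  · intro u hu k
    rw [r2 u fun q => oay u q k, sa.ry u hu k]
  · rintro u (hu | hu) v (hv | hv) a
    · exact sa.nx u hu.1 v hv.1 a
    · exact Or.inr (h.xd (old u hu.1 hu.2 v hv a.symm))
    · exact Or.inl (h.xd (old v hv.1 hv.2 u hu a))
    · exact (so.nx u hu v hv a).imp (fun k => h.xd k) fun k => h.xd k

/-- the interior after the lift -/
theorem Sub.mem_I (h : Sub H d oa e) (so : Shp H e S o) {x : W} :
    x ∈ (d.upd (lift oa e o)).I ↔ x ∈ (d.upd oa).I ∧ x ∉ o.X ∧ x ∉ VX e o := by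
  rw [DD.mem_I, DD.mem_I]
  change (¬ (x ∈ oa.Z ∨ x ∈ VX e o) ∧ ¬ ((x ∈ oa.X ∧ x ∉ e.X) ∨ x ∈ o.X) ∧ x ∉ oa.Y) ↔
    (x ∉ oa.Z ∧ x ∉ oa.X ∧ x ∉ oa.Y) ∧ x ∉ o.X ∧ x ∉ VX e o
  have : x ∈ e.X → x ∈ o.X ∨ x ∈ VX e o := fun k => (so.xx k).imp_right (hid_vx h.de so k)
  tauto

end Pool.Agent.P.MP_08fd93_co.FE
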