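import Pool.Agent.P.MP_08fd93_co.FE.E2
import Pool.Agent.P.MP_08fd93_co.OV.PkStp4a
import Pool.Agent.P.MP_08fd93_co.OV.PkFinB

/-! The main step under a top edge `s t` if `s` is not on the output of the right disc. -/

set_option autoImplicit false

namespace Pool.Agent.P.MP_08fd93_co.FE

open OV OV.PkStp4aP
open OV.PkFinBP (mM rgI rg_ne cases8 xLM iX iY iZ dMI)

/-- The situation after the right disc is solved. -/
structure EC {W : Type} (H : SimpleGraph W) (m : SD W) (o : OD W) : Prop where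
  stp : Stp H m
  reg : Reg H m
  dm : Disc H m.dM
  s1 : Shp H m.dM ∅ o
  st : H.Adj m.d.a' m.d.b'
  ns : m.d.a' ∉ o.Y
  na : ∀ x ∈ m.XL, H.Adj x m.d.a' → x = m.d.a

variable {W : Type} {H : SimpleGraph W} {m : SD W} {o : OD W}

open Classical in
/-- The part to the left of the new path, with `s` on the first path. -/
noncomputable def d2 (m : SD W) (o : OD W) : DD W :=
  ⟨m.d.Z ∪ VX m.dM o ∪ o.X ∪ (m.dM.upd o).I ∪ m.Rg 2, {m.d.a'} ∪ m.XL, o.Y,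
    fun x => if x = m.d.a' then m.d.ρ m.d.a - 1 else if x ∈ o.Y then 0 - o.ρ x else m.d.ρ x,
    m.d.a', m.p, m.d.b', m.z⟩

namespace EC

theorem yy (h : EC H m o) {y : W} (hy : y ∈ m.d.Y) : y = m.d.a' ∨ y = m.d.b' := by
  rw [h.stp.disc.py.eq_pair h.st] at hy
  exact hy

theorem py (h : EC H m o) : Pth H o.Y o.ρ m.z m.d.b' := h.s1.py

theorem px (h : EC H m o) : Pth H o.X o.ρ m.p' m.d.b := h.s1.px

theorem zM (h : EC H m o) {x : W} (hx : x ∈ m.d.Z) : x ∈ m.dM.Z :=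
  mM.2 ⟨fun k => h.stp.disc.xz k.1 hx, fun k => iZ (h.stp.ti k) hx,
    fun k => h.stp.disc.yz k.1 hx, fun k => iZ (rgI k) hx⟩

theorem xlM (h : EC H m o) {x : W} (hx : x ∈ m.XL) : x ∈ m.dM.Z := by
  refine mM.2 ⟨fun k => ?_, tauX h.stp hx.1, fun k => h.stp.disc.xy hx.1 k.1,
    fun k => iX (rgI k) hx.1⟩
  have := k.2
  have := hx.2
  have := h.stp.lt
  omega

theorem rgM {k : Fin 4} (hk : k ≠ 1) {x : W} (hx : x ∈ m.Rg k) : x ∈ m.dM.Z :=
  mM.2 ⟨fun q => iX (rgI hx) q.1, hx.2.1, fun q => iY (rgI hx) q.1, fun q => hk (rg_ne hx q)⟩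

theorem mI {x : W} (hx : x ∈ m.dM.I) : x ∈ m.Rg 1 := by
  obtain ⟨h1, h2, h3⟩ := DD.mem_I.1 hx
  by_contra hn
  exact h1 (mM.2 ⟨h2, fun k => h3 (Or.inl k), fun k => h3 (Or.inr k), hn⟩)

/-- the new path without its last vertex -/
theorem tI (h : EC H m o) {x : W} (hx : x ∈ o.Y) (hn : x ≠ m.d.b') : x ∈ m.τ ∨ x ∈ m.Rg 1 := by
  rcases notZM.1 (fun k => h.s1.yz hx (h.s1.zz k)) with (k | k | k) | k
  · exact absurd k (h.s1.yX hx)
  · exact Or.inl k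
  · rcases h.yy k.1 with e | e
    exacts [absurd (e ▸ hx) h.ns, absurd e hn]
  · exact Or.inr k

theorem tII (h : EC H m o) {x : W} (hx : x ∈ o.Y) (hn : x ≠ m.d.b') : x ∈ m.d.I :=
  (h.tI hx hn).elim (fun k => h.stp.ti k) rgI

theorem yX (h : EC H m o) {x : W} (hx : x ∈ o.Y) : x ∉ m.d.X := fun k => by
  by_cases e : x = m.d.b'
  exacts [h.stp.disc.xy k (e ▸ h.stp.disc.py.hb), iX (h.tII hx e) k]

theorem ox (h : EC H m o) {x : W} (hx : x ∈ o.X) : x ∈ m.XM ∨ x ∈ m.Rg 1 :=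
  (ox_cases h.s1 hx).imp_right mI

theorem vx (h : EC H m o) {x : W} (hx : x ∈ VX m.dM o) : x ∈ m.XM ∨ x ∈ m.Rg 1 :=
  (vx_cases h.dm h.s1 hx).imp_right mI

/-- what a vertex of `XM` sees outside the right disc -/
theorem xmOut (h : EC H m o) {x z : W} (hx : x ∈ m.XM) (hz : z ∈ m.dM.Z) (a : H.Adj x z) :
    z ∈ m.d.Z ∨ (x = m.p' ∧ (z ∈ m.XL ∨ z ∈ m.Rg 2)) := by
  have P := h.stp
  have R := h.reg
  have D := P.disc
  obtain ⟨z1, z2, z3, z4⟩ := mM.1 hz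
  have lt := P.lt
  have l1 := hx.2
  have nI : ∀ {y}, y ∈ m.d.I → x ≠ y := fun hy he => iX hy (he ▸ hx.1)
  have nY : ∀ {y}, y ∈ m.d.Y → x ≠ y := fun hy he => D.xy hx.1 (he ▸ hy)
  rcases cases8 m z with k | k | k | k | k | k | k | k
  · exact Or.inl k
  · have zl := (xLM P k).resolve_right z1
    have l2 := zl.2
    have := D.px.nb k hx.1 a.symm P.hp'
    exact Or.inr ⟨D.px.inj _ hx.1 _ P.hp' (by omega), Or.inl zl⟩
  · exact absurd (R.r1 x hx z k a) z3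
  · exact absurd k z2
  · rcases R.n0 ⟨z, k, a⟩ with q | (q | q) | q
    · exact absurd rfl (nI (rgI q))
    · have := q.2
      omega
    · exact absurd rfl (nY q.1)
    · exact absurd rfl (nI (P.ti q))
  · exact absurd k z4
  · rcases R.n2 ⟨z, k, a⟩ with q | q | q | q
    · exact absurd rfl (nI (rgI q))
    · rw [q] at l1
      omega
    · exact Or.inr ⟨q, Or.inr k⟩
    · exact absurd q (nI (P.ti P.pt.ha))
  · rcases R.n3 ⟨z, k, a⟩ with q | q | q | q | q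
    exacts [absurd rfl (nI (rgI q)), absurd rfl (nY q.1), absurd q (nI (P.ti P.pt.hb)),
      absurd q (nY P.hl), absurd q (nY P.hj)]

theorem sub1 (h : EC H m o) : Sub H m.d (trv m.d) m.dM :=
  ⟨h.stp.disc, shp_trv h.stp.disc, h.dm, fun _ k => k.1,
    fun x => ⟨fun k => ⟨k.1, k.2, h.stp.disc.px.hi x k.1⟩, fun k => ⟨k.1, k.2.1⟩⟩,
    fun _ k => rM_not (tauX h.stp k.1), fun _ k => h.zM k, fun _ k => dMI k,
    fun _ k q => k.elim (tauX h.stp q) fun r => h.stp.disc.xy q r.1,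
    fun _ k n _ _ hz a => (h.xmOut k hz a).resolve_right fun q => n q.1⟩

/-- the outside of the left part -/
theorem z2 (h : EC H m o) {x : W} (hx : x ∈ (d2 m o).Z) :
    x ∈ m.d.Z ∨ x ∈ m.XM ∨ x ∈ m.Rg 1 ∨ x ∈ m.Rg 2 := by
  rcases hx with (((k | k) | k) | k) | k
  · exact Or.inl k
  · exact Or.inr ((h.vx k).imp_right Or.inl)
  · exact Or.inr ((h.ox k).imp_right Or.inl)
  · exact Or.inr (Or.inr (Or.inl (mI (h.s1.I_sub k))))
  · exact Or.inr (Or.inr (Or.inr k))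

theorem r2s : (d2 m o).ρ m.d.a' = m.d.ρ m.d.a - 1 := if_pos rfl

theorem r2y (h : EC H m o) {x : W} (hx : x ∈ o.Y) : (d2 m o).ρ x = 0 - o.ρ x :=
  (if_neg fun (e : x = m.d.a') => h.ns (e ▸ hx)).trans (if_pos hx)

theorem r2x (h : EC H m o) {x : W} (hx : x ∈ m.d.X) : (d2 m o).ρ x = m.d.ρ x :=
  (if_neg fun (e : x = m.d.a') => h.stp.disc.xy hx (e ▸ h.stp.disc.py.ha)).trans
    (if_neg fun k => h.yX k hx)

theorem pxl (h : EC H m o) : Pth H m.XL m.d.ρ m.d.a m.p :=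
  h.stp.disc.px.sub h.stp.disc.px.ha h.stp.hp (h.stp.disc.px.lo _ h.stp.hp) (A := m.XL) fun x =>
    ⟨fun k => ⟨k.1, h.stp.disc.px.lo x k.1, k.2⟩, fun k => ⟨k.1, k.2.2⟩⟩

theorem i2 (h : EC H m o) {x : W} (hx : x ∈ (d2 m o).I) : x ∈ m.d.I := by
  obtain ⟨h1, h2, h3⟩ := DD.mem_I.1 hx
  refine DD.mem_I.2 ⟨fun k => h1 (Or.inl (Or.inl (Or.inl (Or.inl k)))), fun k => ?_, fun k => ?_⟩
  · rcases xLM h.stp k with q | q
    · exact h2 (Or.inr q)
    · rcases h.s1.xx q with r | r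
      exacts [h1 (Or.inl (Or.inl (Or.inr r))),
        h1 (Or.inl (Or.inl (Or.inl (Or.inr (hid_vx h.dm h.s1 q r)))))]
  · rcases h.yy k with e | e
    exacts [h2 (Or.inl e), h3 (e ▸ h.py.hb)]

/-- what a vertex of the new first path sees -/
theorem oxNb (h : EC H m o) {x y : W} (hx : x ∈ o.X) (a : H.Adj x y) :
    y ∈ (d2 m o).Z ∨ y ∈ o.Y ∨ (x = m.p' ∧ y ∈ m.XL) := by
  rcases (m.dM.upd o).cases y with k | k | k | k
  · by_cases q : y ∈ m.dM.Z
    · have xm : x ∈ m.XM := (h.dm.old (fun r => h.s1.xz hx (h.s1.zz r)) q a).resolve_right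
        (h.s1.xY hx)
      rcases h.xmOut xm q a with r | ⟨r, r' | r'⟩
      exacts [Or.inl (Or.inl (Or.inl (Or.inl (Or.inl r)))), Or.inr (Or.inr ⟨r, r'⟩),
        Or.inl (Or.inr r')]
    · refine Or.inl (Or.inl (Or.inl (Or.inl (Or.inr ⟨k, q, ?_⟩))))
      rcases h.s1.pk y k q x a.symm with r | r | r | ⟨_, r | r⟩
      exacts [absurd (h.s1.zz r) (h.s1.xz hx), absurd r.1 (h.s1.xz hx), r ▸ hx, r.2,
        absurd r.1 (h.s1.xy hx)]
  · exact Or.inl (Or.inl (Or.inl (Or.inr k)))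
  · exact Or.inr (Or.inl k)
  · exact Or.inl (Or.inl (Or.inr k))

theorem disc2 (hP : Pl H Set.univ) (h : EC H m o) : Disc H (d2 m o) := by
  have P := h.stp
  have R := h.reg
  have D := P.disc
  have sa := h.sub1.shp h.s1
  have D1 := sa.disc
  have z1 : ∀ x ∈ (lift (trv m.d) m.dM o).Z, x ∈ (d2 m o).Z := fun x hx =>
    Or.inl (Or.inl (Or.inl hx))
  have zx : ∀ x ∈ o.X, x ∈ (d2 m o).Z := fun x hx => Or.inl (Or.inl (Or.inr hx))
  have zi : (m.dM.upd o).I ⊆ (d2 m o).Z := fun x hx => Or.inl (Or.inr hx)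
  have zr : m.Rg 2 ⊆ (d2 m o).Z := fun x hx => Or.inr hx
  have oxR : ∀ x ∈ o.X, ∃ y ∈ (lift (trv m.d) m.dM o).Z, Conn H (d2 m o).Z x y := fun x hx => by
    obtain ⟨y, hy, a⟩ := D1.tz (Or.inl (Or.inr hx))
    exact ⟨y, hy, Conn.step (zx x hx) (z1 y hy) a⟩
  have bd : ∀ x, x ∈ m.d.X ∪ m.d.Y → x ∈ Nb H (d2 m o).Z := fun x hx => by
    obtain ⟨y, hy, a⟩ := D.tz hx
    exact ⟨y, z1 y (Or.inl hy), a⟩
  refine ⟨?_, (h.py.rev 0).congr fun x hx => h.r2y hx, ?_, h.st, P.zp.symm, ?_, ?_, ?_, ?_,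
    D.fin.subset fun _ k => h.i2 k, D.nj.mono fun _ k => h.i2 k⟩
  · refine (Pth.single _ _).join (h.pxl.congr fun x hx => h.r2x hx.1) (Or.inr ⟨?_, D.ra.symm⟩) ?_
    · rw [r2s, h.r2x D.px.ha]
      omega
    · rintro x rfl y hy a
      exact Or.inl ⟨rfl, h.na y hy a.symm⟩
  · refine Set.disjoint_left.2 ?_
    rintro x (rfl | k) hy
    exacts [h.ns hy, h.yX hy k.1]
  · refine isConn_base D1.zc z1 ?_
    rintro x (((k | k) | k) | k)
    · exact ⟨x, k, Conn.rfl'⟩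
    · exact oxR x k
    · obtain ⟨y, c, u, hu, a⟩ := h.s1.disc.toX hP k
      obtain ⟨w, hw, c'⟩ := oxR u hu
      exact ⟨w, hw, ((c.up zi).snoc (zi (c.mem k)) (zx u hu) a).trans c'⟩
    · obtain ⟨-, y, c, a⟩ := R.c2 x k
      obtain ⟨w, hw, c'⟩ := oxR _ h.px.ha
      exact ⟨w, hw, ((c.up zr).snoc (zr (c.mem k)) (zx _ h.px.ha) a).trans c'⟩
  · refine Set.disjoint_left.2 ?_
    rintro x hx ((rfl | k) | k)
    · rcases h.z2 hx with q | q | q | q
      exacts [D.yz D.py.ha q, D.xy q.1 D.py.ha, iY (rgI q) D.py.ha, iY (rgI q) D.py.ha]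
    · rcases h.z2 hx with q | q | q | q
      exacts [D.xz k.1 q, (mM.1 (h.xlM k)).1 q, iX (rgI q) k.1, iX (rgI q) k.1]
    · rcases hx with (((q | q) | q) | q) | q
      exacts [h.s1.yz k (h.s1.zz (h.zM q)), h.s1.yz k q.1, h.s1.xy q k, (DD.mem_I.1 q).2.2 k,
        h.s1.yz k (h.s1.zz (rgM (by decide) q))]
  · rintro x ⟨y, ((hy | hy) | hy) | hy, a⟩
    · rcases D1.cl ⟨y, hy, a⟩ with k | (k | k) | k
      · exact Or.inl (z1 x k)
      · exact Or.inr (Or.inl (Or.inr ((xLM P k.1).resolve_right k.2)))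
      · exact Or.inl (zx x k)
      · rcases h.yy k with e | e
        exacts [Or.inr (Or.inl (Or.inl e)), Or.inr (Or.inr (e ▸ h.py.hb))]
    · rcases h.oxNb hy a.symm with k | k | k
      exacts [Or.inl k, Or.inr (Or.inr k), Or.inr (Or.inl (Or.inr k.2))]
    · rcases (m.dM.upd o).cases x with k | k | k | k
      exacts [absurd k (h.s1.disc.iz hy a.symm), Or.inl (zx x k), Or.inr (Or.inr k), Or.inl (zi k)]
    · rcases R.n2 ⟨y, hy, a⟩ with k | k | k | k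
      exacts [Or.inl (zr k), Or.inr (Or.inl (Or.inr (k ▸ ⟨P.hp, le_rfl⟩))),
        Or.inl (zx x (k ▸ h.px.ha)), Or.inr (Or.inr (k ▸ h.py.ha))]
  · rintro x ((rfl | k) | k)
    · exact bd _ (Or.inr D.py.ha)
    · exact bd _ (Or.inl k.1)
    · by_cases e1 : x = m.z
      · exact ⟨m.p', zx _ h.px.ha, e1 ▸ P.zp'⟩
      by_cases e2 : x = m.d.b'
      · exact bd _ (Or.inr (e2 ▸ D.py.hb))
      obtain ⟨y, a, q | q⟩ := h.s1.disc.swap.side hP (x := x) k e1 e2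
      · rw [DD.swap_I] at q
        exact ⟨y, zi q, a⟩
      · exact ⟨y, zx y q, a⟩

/-- where the first neighbour of `s` on the new path lies -/
theorem cls (h : EC H m o) {w : W} (hw : w ∈ o.Y) (a : H.Adj m.d.a' w) :
    w = m.d.b' ∨ H.Adj w m.d.b' ∨ ∃ y ∈ o.Y, y ∉ m.dM.Y ∧ H.Adj w y ∧ H.Adj y m.d.b' := by
  have P := h.stp
  have D := P.disc
  by_cases e : w = m.d.b'
  · exact Or.inl e
  right
  by_cases q : m.d.a' ∈ m.dM.Z
  · left
    have wt : w ∈ m.τ := by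
      rcases h.dm.old (fun r => h.s1.yz hw (h.s1.zz r)) q a.symm with k | k | k
      exacts [absurd k (h.s1.yX hw), k, absurd k.1 (iY (h.tII hw e))]
    have e1 := (P.ty w wt _ D.py.ha a.symm).1
    rcases h.yy P.hj with e2 | e2
    · exact absurd ⟨D.py.ha, by rw [e2]⟩ (mM.1 q).2.2.1
    · rw [e1, ← e2]
      exact P.vj
  have sY : m.d.a' ∈ m.YM := by
    rcases notZM.1 q with (k | k | k) | k
    exacts [absurd D.py.ha (D.xy k.1), absurd k (tauY P D.py.ha), k, absurd D.py.ha (iY (rgI k))]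
  have sZ : m.d.a' ∈ o.Z := (h.s1.yy (Or.inr sY)).resolve_left h.ns
  obtain ⟨y1, y2, u, u', -, -, k1, k2, -, l, -, a2⟩ :=
    h.s1.swap.span h.dm.swap (v := m.d.a') (Or.inr sY) sZ
  have l' : m.dM.ρ m.d.a' < m.dM.ρ u' := l
  have eu : u' = m.d.b' := by
    rcases k1 with k | k
    · rw [rM_tau k, rM_not (tauY P D.py.ha)] at l'
      have := P.pt.hi _ k
      have := sY.2
      omega
    · rcases h.yy k.1 with r | r
      exacts [absurd (r ▸ k2) h.ns, r]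
  have a3 : H.Adj (o.ax m.d.a') m.d.b' := eu ▸ a2.symm
  rcases h.s1.pk _ sZ q w a with r | r | r | ⟨r, -⟩
  · exact absurd (h.s1.zz r) (h.s1.yz hw)
  · exact absurd r.1 (h.s1.yz hw)
  · exact Or.inl (r ▸ a3)
  · exact Or.inr ⟨_, y1, y2, r, a3⟩

end EC

end Pool.Agent.P.MP_08fd93_co.FE
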