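import Pool.Agent.P.MP_08fd93_co.FE.E3

/-! The left disc of the main step under a top edge, and the shape of the output. -/

set_option autoImplicit false

namespace Pool.Agent.P.MP_08fd93_co.FE

open OV OV.PkStp4aP
open OV.PkFinBP (mM rgI rg_ne cases8 xLM iX iY iZ dMI)

/-- The left part is cut at the rung `s w`; `q u` is the last strict edge of the left disc. -/
structure EL {W : Type} (H : SimpleGraph W) (m : SD W) (o : OD W) (w u q : W) (IL IR : Set W) :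
    Prop extends EC H m o where
  hw : w ∈ o.Y
  aw : H.Adj m.d.a' w
  mn : ∀ x ∈ o.Y, H.Adj m.d.a' x → o.ρ w ≤ o.ρ x
  spl : Spl H (d2 m o) m.d.a' w IL IR
  hu : u ∈ o.Y
  ub : u ≠ m.d.b'
  uq : (w = m.d.b' ∧ q = m.d.b' ∧ H.Adj u m.d.b') ∨ (q = m.d.a' ∧ u = w)

variable {W : Type} {H : SimpleGraph W} {m : SD W} {o o2 : OD W} {w u q : W} {IL IR : Set W}
  {S1 : Set (Sym2 W)}

open Classical in
/-- The left disc. -/
noncomputable def dl (m : SD W) (o : OD W) (w : W) (IR : Set W) : DD W :=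
  ⟨((d2 m o).right m.d.a' w IR).Z, m.XL, {m.d.a'} ∪ {x | x ∈ o.Y ∧ o.ρ x ≤ o.ρ w},
    fun x => if x = m.d.a' then 0 - o.ρ w - 1 else (d2 m o).ρ x, m.d.a, m.p, m.d.a', m.z⟩

/-- The strict edges of the left disc. -/
def sl (H : SimpleGraph W) (m : SD W) (o : OD W) (u q : W) : Set (Sym2 W) :=
  {f | f = s(q, u) ∨ ∃ t1 ∈ o.Y, ∃ t2 ∈ o.Y, H.Adj t2 t1 ∧ o.ρ t1 < o.ρ t2 ∧ o.ρ t2 ≤ o.ρ u ∧
    t2 ∈ m.τ ∧ f = s(t2, t1)}

/-- The output. -/
noncomputable def fin (m : SD W) (o : OD W) (w : W) (IR : Set W) (o2 : OD W) : OD W :=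
  lift (lift (trv m.d) m.dM o) (dl m o w IR) o2

namespace EL

theorem rs : (dl m o w IR).ρ m.d.a' = 0 - o.ρ w - 1 := if_pos rfl

theorem ry (h : EL H m o w u q IL IR) {x : W} (hx : x ∈ o.Y) : (dl m o w IR).ρ x = 0 - o.ρ x :=
  (if_neg fun (e : x = m.d.a') => h.ns (e ▸ hx)).trans (h.toEC.r2y hx)

theorem rx (h : EL H m o w u q IL IR) {x : W} (hx : x ∈ m.d.X) : (dl m o w IR).ρ x = m.d.ρ x :=
  (if_neg fun (e : x = m.d.a') => h.stp.disc.xy hx (e ▸ h.stp.disc.py.ha)).trans (h.toEC.r2x hx)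

theorem discL (h : EL H m o w u q IL IR) : Disc H (dl m o w IR) ∧ (dl m o w IR).I = IR := by
  have D := h.stp.disc
  have py := h.toEC.py
  have k := recut (e' := dl m o w IR) h.spl.dr rfl ?_
    (h.toEC.pxl.congr fun x hx => h.rx hx.1) ?_ ?_ D.ra h.stp.zp.symm
  · rwa [right_I h.spl] at k
  · ext x
    change x ∈ m.XL ∨ (x = m.d.a' ∨ (x ∈ o.Y ∧ o.ρ x ≤ o.ρ w)) ↔
      ((x = m.d.a' ∨ x ∈ m.XL) ∧ (d2 m o).ρ m.d.a' ≤ (d2 m o).ρ x) ∨
        (x ∈ o.Y ∧ (d2 m o).ρ w ≤ (d2 m o).ρ x)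
    constructor
    · rintro (k | rfl | k)
      · refine Or.inl ⟨Or.inr k, ?_⟩
        rw [EC.r2s, h.toEC.r2x k.1]
        have := D.px.lo x k.1
        omega
      · exact Or.inl ⟨Or.inl rfl, le_rfl⟩
      · refine Or.inr ⟨k.1, ?_⟩
        rw [h.toEC.r2y h.hw, h.toEC.r2y k.1]
        have := k.2
        omega
    · rintro (⟨k | k, -⟩ | ⟨k, l⟩)
      · exact Or.inr (Or.inl k)
      · exact Or.inl k
      · rw [h.toEC.r2y h.hw, h.toEC.r2y k] at l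
        exact Or.inr (Or.inr ⟨k, by omega⟩)
  · have p1 : Pth H {x | x ∈ o.Y ∧ o.ρ x ≤ o.ρ w} (dl m o w IR).ρ w m.z :=
      ((py.sub py.ha h.hw (py.lo _ h.hw) (A := {x | x ∈ o.Y ∧ o.ρ x ≤ o.ρ w}) fun x =>
        ⟨fun k => ⟨k.1, py.lo x k.1, k.2⟩, fun k => ⟨k.1, k.2.2⟩⟩).rev 0).congr
        fun x hx => h.ry hx.1
    refine (Pth.single _ _).join p1 (Or.inr ⟨?_, h.aw⟩) ?_
    · rw [rs, h.ry h.hw]
      omega
    · rintro x rfl y hy a
      exact Or.inl ⟨rfl, py.inj _ hy.1 _ h.hw (le_antisymm hy.2 (h.mn y hy.1 a))⟩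
  · refine Set.disjoint_left.2 ?_
    rintro x hx (rfl | k)
    exacts [D.xy hx.1 D.py.ha, h.toEC.yX k.1 hx.1]

theorem z2L (h : EL H m o w u q IL IR) {x : W} (hx : x ∈ (d2 m o).Z) : x ∈ (dl m o w IR).Z :=
  (PkSpl2P.geo h.spl h.spl.nc).2.zz hx

theorem iR (h : EL H m o w u q IL IR) {x : W} (hx : x ∈ (dl m o w IR).I) : x ∈ (d2 m o).I :=
  (h.spl.cov x).2 (Or.inr (h.discL.2 ▸ hx))

theorem i1 (h : EL H m o w u q IL IR) {x : W} : x ∈ (m.d.upd (lift (trv m.d) m.dM o)).I ↔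
    x ∈ m.d.I ∧ x ∉ o.X ∧ x ∉ VX m.dM o := h.toEC.sub1.mem_I h.s1

theorem i21 (h : EL H m o w u q IL IR) {x : W} (hx : x ∈ (d2 m o).I) :
    x ∈ (m.d.upd (lift (trv m.d) m.dM o)).I :=
  h.i1.2 ⟨h.toEC.i2 hx, fun k => hx (Or.inl (Or.inl (Or.inl (Or.inr k)))),
    fun k => hx (Or.inl (Or.inl (Or.inl (Or.inl (Or.inr k)))))⟩

theorem sub2 (h : EL H m o w u q IL IR) :
    Sub H m.d (lift (trv m.d) m.dM o) (dl m o w IR) := by
  have P := h.stp
  have D := P.disc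
  have E := h.toEC
  have lt := P.lt
  have nx : ∀ x ∈ m.XL, x ∉ o.X := fun x hx k => h.s1.xz k (h.s1.zz (E.xlM hx))
  have r1 : ∀ x ∈ m.XL, (lift (trv m.d) m.dM o).ρ x = m.d.ρ x := fun x hx => if_neg (nx x hx)
  have ha : m.d.a ∈ m.XL := E.pxl.ha
  have hp : m.p ∈ m.XL := E.pxl.hb
  refine ⟨D, E.sub1.shp h.s1, h.discL.1, fun _ k => k.1, fun x => ?_,
    fun x hx => (h.rx hx.1).trans (r1 x hx).symm,
    fun x hx => h.z2L (Or.inl (Or.inl (Or.inl hx))), fun x hx => h.i21 (h.iR hx), ?_, ?_⟩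
  · change x ∈ m.XL ↔ _ ∧ (lift (trv m.d) m.dM o).ρ m.d.a ≤ _ ∧ _ ≤ (lift (trv m.d) m.dM o).ρ m.p
    rw [r1 _ ha, r1 _ hp]
    constructor
    · intro k
      rw [r1 x k]
      exact ⟨Or.inl ⟨k.1, (mM.1 (E.xlM k)).1⟩, D.px.lo x k.1, k.2⟩
    · rintro ⟨k | k, -, l⟩
      · exact (xLM P k.1).resolve_right k.2
      · have e1 : (lift (trv m.d) m.dM o).ρ x = o.ρ x := if_pos k
        have e2 := E.px.lo x k
        have e3 : o.ρ m.p' = m.d.ρ m.p' :=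
          (h.s1.rx _ h.dm.px.ha E.px.ha).trans (rM_not (tauX P P.hp'))
        omega
  · rintro x (rfl | k) (r | r)
    exacts [D.xy r.1 D.py.ha, (E.ox r).elim (fun t => D.xy t.1 D.py.ha) fun t => iY (rgI t) D.py.ha,
      E.yX k.1 r.1, h.s1.xy r k.1]
  · intro x hx n1 n2 z hz a
    have g := (PkSpl2P.geo h.spl h.spl.nc).1
    have xM := E.xlM hx
    have z2 : z ∈ (d2 m o).Z := by
      by_contra k
      refine g.na z x ((g.cov z k).resolve_right fun r => r hz) (h.discL.1.xz hx) ?_ ?_ ?_ ?_ a.symm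
      · rintro rfl
        exact h.discL.1.yz (Or.inl rfl) hz
      · rintro rfl
        exact h.discL.1.yz (Or.inr ⟨h.hw, le_rfl⟩) hz
      · rintro rfl
        exact D.xy hx.1 D.py.ha
      · rintro rfl
        exact E.yX h.hw hx.1
    have key : ∀ z ∈ m.XM, H.Adj x z → False := by
      intro z hz a
      have l1 := hz.2
      have l2 := hx.2
      have l3 := D.px.lt_or hx.1 P.hp n2
      exact D.px.nb hx.1 hz.1 a P.hp ⟨by omega, by omega⟩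
    rcases z2 with (((k | k) | k) | k) | k
    · exact k
    · rcases vx_cases h.dm h.s1 k with r | r
      exacts [(key z r a).elim, absurd xM (h.dm.iz r a.symm)]
    · rcases ox_cases h.s1 k with r | r
      exacts [(key z r a).elim, absurd xM (h.dm.iz r a.symm)]
    · exact absurd (h.s1.zz xM) (h.s1.disc.iz k a.symm)
    · exfalso
      rcases h.reg.n2 ⟨z, k, a⟩ with r | r | r | r
      exacts [iX (rgI r) hx.1, n2 r, (mM.1 xM).1 (r ▸ h.dm.px.ha), tauX P hx.1 (r ▸ P.pt.ha)]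

theorem uw (h : EL H m o w u q IL IR) : o.ρ u ≤ o.ρ w := by
  rcases h.uq with ⟨e, -, -⟩ | ⟨-, e⟩
  · rw [e]
    exact h.toEC.py.hi _ h.hu
  · rw [e]

theorem aq (h : EL H m o w u q IL IR) : H.Adj q u := by
  rcases h.uq with ⟨-, e, a⟩ | ⟨e, e'⟩
  · exact e ▸ a.symm
  · exact e ▸ e' ▸ h.aw

theorem qY (h : EL H m o w u q IL IR) :
    q ∈ (dl m o w IR).Y ∧ (dl m o w IR).ρ q < (dl m o w IR).ρ u := by
  rw [h.ry h.hu]
  rcases h.uq with ⟨e, e', -⟩ | ⟨e, e'⟩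
  · have := h.toEC.py.lt_hi h.hu h.ub
    rw [e', h.ry h.toEC.py.hb]
    exact ⟨Or.inr ⟨h.toEC.py.hb, by rw [e]⟩, by omega⟩
  · rw [e, rs, e']
    exact ⟨Or.inl rfl, by omega⟩

/-- a vertex of the new path inside the left disc is `q` or lies before `u` -/
theorem btw (h : EL H m o w u q IL IR) {x : W} (hx : x ∈ o.Y) (l : o.ρ x ≤ o.ρ w) :
    o.ρ x ≤ o.ρ u ∨ (x = m.d.b' ∧ q = m.d.b' ∧ H.Adj u m.d.b') := by
  rcases h.uq with ⟨-, e', a⟩ | ⟨-, e'⟩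
  · by_cases k : x = m.d.b'
    · exact Or.inr ⟨k, e', a⟩
    · have := h.toEC.py.lt_hi hx k
      have := h.toEC.py.nb h.hu h.toEC.py.hb a hx
      exact Or.inl (by omega)
  · exact Or.inl (e' ▸ l)

theorem admL (h : EL H m o w u q IL IR) : Adm H (dl m o w IR) (sl H m o u q) := by
  have uw := h.uw
  refine admY h.discL.1 ?_
  rintro f (rfl | ⟨t1, h1, t2, h2, a, l1, l2, ht, rfl⟩)
  · refine ⟨q, h.qY.1, u, Or.inr ⟨h.hu, uw⟩, h.aq, h.qY.2, rfl, Or.inr ?_⟩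
    have k := h.qY.2
    rintro g (rfl | ⟨t1, h1, t2, h2, a, l1, l2, ht, rfl⟩) y hy
    · rcases Sym2.mem_iff.1 hy with rfl | rfl
      exacts [le_rfl, k.le]
    · rw [h.ry h.hu] at k
      rcases Sym2.mem_iff.1 hy with rfl | rfl
      · rw [h.ry h2]
        omega
      · rw [h.ry h1]
        omega
  · obtain ⟨x, hx, l, ax⟩ := h.stp.tn _ ht
    refine ⟨t2, Or.inr ⟨h2, by omega⟩, t1, Or.inr ⟨h1, by omega⟩, a, ?_, rfl,
      Or.inl ⟨x, ⟨hx, l⟩, ax.symm⟩⟩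
    rw [h.ry h1, h.ry h2]
    omega

/-- nothing on the second path of the left disc is hidden -/
theorem vis (h : EL H m o w u q IL IR) (s2 : Shp H (dl m o w IR) (sl H m o u q) o2) :
    o2.Y = (dl m o w IR).Y := by
  have py := h.toEC.py
  refine s2.keepY h.discL.1 ?_
  rintro x (rfl | ⟨hx, l⟩)
  · exact s2.yz s2.py.ha
  rcases h.btw hx l with k | ⟨k1, k2, -⟩
  swap
  · exact s2.st _ (Or.inl rfl) _ (k1 ▸ k2 ▸ Sym2.mem_mk_left _ _)
  by_cases ht : x ∈ m.τ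
  · by_cases e : x = m.z
    · exact e ▸ s2.yz s2.py.hb
    · obtain ⟨t, h1, l1, a, -⟩ := py.pred hx e
      exact s2.st _ (Or.inr ⟨t, h1, x, hx, a.symm, l1, k, ht, rfl⟩) _ (Sym2.mem_mk_left _ _)
  by_cases e : x = u
  · exact s2.st _ (Or.inl rfl) _ (e ▸ Sym2.mem_mk_right _ _)
  have lu := py.lt_hi h.hu h.ub
  have l2 := py.lt_or hx h.hu e
  have xb : x ≠ m.d.b' := by
    rintro rfl
    omega
  obtain ⟨t, h1, l1, a, mn⟩ := py.succ hx xb
  have l3 := mn u h.hu (by omega)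
  have tb : t ≠ m.d.b' := by
    rintro rfl
    omega
  have tt : t ∈ m.τ := by
    rcases h.s1.ny x hx t h1 a with (r | r) | (r | r)
    exacts [absurd r ht, absurd r.1 (iY (h.toEC.tII hx xb)), r, absurd r.1 (iY (h.toEC.tII h1 tb))]
  exact s2.st _ (Or.inr ⟨x, hx, t, h1, a.symm, l1, l3, tt, rfl⟩) _ (Sym2.mem_mk_right _ _)

theorem x1 (h : EL H m o w u q IL IR) {x : W} (hx : x ∈ o.X) : x ∈ (fin m o w IR o2).X :=
  Or.inl ⟨Or.inr hx, fun k => h.s1.xz hx (h.s1.zz (h.toEC.xlM k))⟩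

theorem shp (h : EL H m o w u q IL IR) (s1 : Shp H m.dM S1 o) (hS : S1 ⊆ PE H m.XM)
    (s2 : Shp H (dl m o w IR) (sl H m o u q) o2) :
    Shp H m.d (insert s(m.p, m.p') S1) (fin m o w IR o2) := by
  have k := h.sub2.shp s2
  refine Shp.setS k fun e he x hx => k.xz ?_
  rcases he with rfl | he
  · rcases Sym2.mem_iff.1 hx with rfl | rfl
    exacts [Or.inr s2.px.hb, h.x1 h.toEC.px.ha]
  · exact h.x1 ((s1.xx (PE.ends (hS he) hx)).resolve_right (s1.st e he x hx))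

/-- the interior of the output -/
theorem mid (h : EL H m o w u q IL IR) (s2 : Shp H (dl m o w IR) (sl H m o u q) o2) {x : W} :
    x ∈ (m.d.upd (fin m o w IR o2)).I ↔
      x ∈ ((m.dM.upd o).I ∪ ((dl m o w IR).upd o2).I ∪ m.Rg 2 ∪ IL) ∪
        {t | t ∈ o.Y ∧ t ≠ m.d.b'} := by
  have E := h.toEC
  have D := h.stp.disc
  have eY := h.vis s2
  rw [fin, h.sub2.mem_I s2]
  constructor
  · rintro ⟨h1, h2, h3⟩
    obtain ⟨k1, k2, k3⟩ := h.i1.1 h1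
    rcases (d2 m o).cases x with ((((k | k) | k) | k) | k) | (k | k) | k | k
    · exact absurd k (iZ k1)
    · exact absurd k k3
    · exact absurd k k2
    · exact Or.inl (Or.inl (Or.inl (Or.inl k)))
    · exact Or.inl (Or.inl (Or.inr k))
    · exact absurd (k ▸ D.py.ha) (iY k1)
    · exact absurd k.1 (iX k1)
    · exact Or.inr ⟨k, fun e => iY k1 (e ▸ D.py.hb)⟩
    · rcases (h.spl.cov x).1 k with r | r
      · exact Or.inl (Or.inr r)
      · have xI := DD.mem_I.1 (h.discL.2.symm ▸ r : x ∈ (dl m o w IR).I)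
        refine Or.inl (Or.inl (Or.inl (Or.inr (DD.mem_I.2 ⟨fun z => h3 ⟨z, xI.1, ?_⟩, h2,
          fun y => xI.2.2 (eY ▸ y)⟩))))
        exact ((s2.ap x z xI.1).resolve_right fun t => t.2 (eY ▸ t.1)).1
  · have out : x ∈ (dl m o w IR).Z → x ∉ o2.X ∧ x ∉ VX (dl m o w IR) o2 := fun k =>
      ⟨fun r => s2.xz r (s2.zz k), fun r => r.2.1 k⟩
    rintro ((((k | k) | k) | k) | k)
    · have k' := DD.mem_I.1 k
      exact ⟨h.i1.2 ⟨dMI (h.s1.I_sub k), k'.2.1, fun r => k'.1 r.1⟩,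
        out (h.z2L (Or.inl (Or.inr k)))⟩
    · have k' := DD.mem_I.1 k
      exact ⟨h.i21 (h.iR (s2.I_sub k)), k'.2.1, fun r => k'.1 r.1⟩
    · have k' := EC.rgM (by decide) k
      exact ⟨h.i1.2 ⟨rgI k, fun r => h.s1.xz r (h.s1.zz k'), fun r => r.2.1 k'⟩,
        out (h.z2L (Or.inr k))⟩
    · exact ⟨h.i21 ((h.spl.cov x).2 (Or.inl k)), out (il_out h.spl k)⟩
    · refine ⟨h.i1.2 ⟨E.tII k.1 k.2, fun r => h.s1.xy r k.1, fun r => h.s1.yz k.1 r.1⟩, ?_⟩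
      rcases (dl m o w IR).cases x with r | r | r | r
      · exact out r
      · exact absurd r.1 (E.yX k.1)
      · exact ⟨fun t => s2.xy t (eY ▸ r), fun t => s2.yz (eY ▸ r) t.1⟩
      · exact absurd k.1 (DD.mem_I.1 (h.iR r)).2.2

end EL

end Pool.Agent.P.MP_08fd93_co.FE
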