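import Pool.Agent.P.MP_08fd93_co.FE.E4
import Pool.Agent.P.MP_08fd93_co.OV.PkFinC

/-! The colouring of the main step under a top edge: the common part. -/

set_option autoImplicit false

namespace Pool.Agent.P.MP_08fd93_co.FE

open OV OV.PkStp4aP
open OV.PkFinBP (mM rgI rg_ne cases8 xLM iX iY iZ dMI)
open OV.PkFinCP (le_iff rec_union succ_ex pth_tri)

variable {W : Type} {H : SimpleGraph W} {m : SD W} {o o2 : OD W} {w u q : W} {IL IR : Set W}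
  {S1 : Set (Sym2 W)}

/-- `x` does not pay an edge of `A`: a vertex of the path pays forward, another one pays in `L`. -/
def Fr (A L : Set (Sym2 W)) (o : OD W) (t : W) (c : W → Col) (x : W) : Prop :=
  ∀ y, s(x, y) ∈ A → (x ∈ o.Y ∧ x ≠ t → y ∈ o.Y ∧ o.ρ x < o.ρ y) →
    (¬ (x ∈ o.Y ∧ x ≠ t) → s(x, y) ∈ L) → c y = c x

namespace EL

theorem leM (h : EL H m o w u q IL IR) {x y : W} (k : s(x, y) ∈ LE H m.dM S1 o) :
    (H.Adj x y ∧ x ∈ o.Y ∧ y ∈ o.Y) ∨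
      s(x, y) ∈ LE H m.d (insert s(m.p, m.p') S1) (fin m o w IR o2) := by
  obtain ⟨a, k1 | k1, k2⟩ := le_iff.1 k
  · refine Or.inr (le_iff.2 ⟨a, Or.inl ⟨k1.1.1, h.x1 k1.2.1, k1.2.2.1.1, h.x1 k1.2.2.2⟩, ?_⟩)
    rintro (e | e)
    · have l1 := k1.1.2
      have l2 := k1.2.2.1.2
      have := h.stp.lt
      rcases Sym2.eq_iff.1 e with ⟨rfl, -⟩ | ⟨-, rfl⟩ <;> omega
    · exact k2 e
  · exact Or.inl ⟨a, k1.2.1, k1.2.2.2⟩

theorem stL (h : EL H m o w u q IL IR) (hS : S1 ⊆ PE H m.XM) :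
    s(m.d.a', m.d.b') ∈ LE H m.d (insert s(m.p, m.p') S1) (fin m o w IR o2) := by
  have D := h.stp.disc
  refine le_iff.2 ⟨h.st, Or.inr ⟨D.py.ha, D.py.ha, D.py.hb, D.py.hb⟩, ?_⟩
  rintro (e | e)
  · rcases Sym2.eq_iff.1 e with ⟨e1, -⟩ | ⟨e1, -⟩
    exacts [D.xy h.stp.hp (e1 ▸ D.py.ha), D.xy h.stp.hp' (e1 ▸ D.py.ha)]
  · exact D.xy (mem_PE.1 (hS e)).1.1 D.py.ha

/-- the only neighbour of `s` on the second path of the left disc -/
theorem sw (h : EL H m o w u q IL IR) {y : W} (hy : y ∈ o.Y) (l : o.ρ y ≤ o.ρ w)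
    (a : H.Adj m.d.a' y) : y = w :=
  h.toEC.py.inj _ hy _ h.hw (le_antisymm l (h.mn y hy a))

theorem leL (h : EL H m o w u q IL IR) (hS : S1 ⊆ PE H m.XM) {x y : W}
    (k : s(x, y) ∈ LE H (dl m o w IR) (sl H m o u q) o2) :
    (H.Adj x y ∧ x ∈ o.Y ∧ y ∈ o.Y) ∨
      s(x, y) ∈ LE H m.d (insert s(m.p, m.p') S1) (fin m o w IR o2) := by
  obtain ⟨a, k1 | k1, k2⟩ := le_iff.1 k
  · refine Or.inr (le_iff.2 ⟨a, Or.inl ⟨k1.1.1, Or.inr k1.2.1, k1.2.2.1.1, Or.inr k1.2.2.2⟩, ?_⟩)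
    rintro (e | e)
    · have l1 := k1.1.2
      have l2 := k1.2.2.1.2
      have := h.stp.lt
      rcases Sym2.eq_iff.1 e with ⟨-, rfl⟩ | ⟨rfl, -⟩ <;> omega
    · exact (mM.1 (h.toEC.xlM k1.1)).1 (mem_PE.1 (hS e)).1
  · have key : ∀ y ∈ o.Y, o.ρ y ≤ o.ρ w → H.Adj m.d.a' y → s(m.d.a', y) ∉ sl H m o u q →
        s(m.d.a', y) ∈ LE H m.d (insert s(m.p, m.p') S1) (fin m o w IR o2) := by
      intro y hy l a n
      have e := h.sw hy l a
      rcases h.uq with ⟨e1, -, -⟩ | ⟨e1, e2⟩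
      · rw [e, e1]
        exact h.stL hS
      · exact absurd (Or.inl (by rw [e, e1, e2])) n
    rcases k1.1 with e1 | r1 <;> rcases k1.2.2.1 with e2 | r2
    · exact absurd (e1.trans e2.symm) a.ne
    · obtain rfl : x = m.d.a' := e1
      exact Or.inr (key y r2.1 r2.2 a k2)
    · obtain rfl : y = m.d.a' := e2
      have e : s(x, m.d.a') = s(m.d.a', x) := Sym2.eq_swap
      rw [e] at k2 ⊢
      exact Or.inr (key x r1.1 r1.2 a.symm k2)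
    · exact Or.inl ⟨a, r1.1, r2.1⟩

theorem leD (h : EL H m o w u q IL IR) {x y : W} (k1 : s(x, y) ∈ LE H m.dM S1 o)
    (k2 : s(x, y) ∈ LE H (dl m o w IR) (sl H m o u q) o2) : False := by
  have E := h.toEC
  have D := h.stp.disc
  obtain ⟨a, a1, -⟩ := le_iff.1 k1
  obtain ⟨-, a2, n⟩ := le_iff.1 k2
  have key : ∀ x ∈ o.Y, ∀ y ∈ o.Y, H.Adj x y → o.ρ x < o.ρ y → o.ρ y ≤ o.ρ w → y ∈ m.dM.Y →
      s(y, x) ∈ sl H m o u q := by
    intro x hx y hy a l1 l2 yM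
    rcases h.btw hy l2 with r | ⟨r1, r2, r3⟩
    · have := E.py.lt_hi h.hu h.ub
      have yb : y ≠ m.d.b' := by
        rintro rfl
        omega
      exact Or.inr ⟨x, hx, y, hy, a.symm, l1, r,
        yM.resolve_right fun t => iY (E.tII hy yb) t.1, rfl⟩
    · subst r1
      rw [E.py.dn_eq hy hx h.hu a.symm r3.symm l1 (E.py.lt_hi h.hu h.ub), r2]
      exact Or.inl rfl
  rcases a1 with b1 | b1 <;> rcases a2 with b2 | b2
  · exact (mM.1 (E.xlM b2.1)).1 b1.1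
  · rcases b2.1 with e | r
    exacts [D.xy b1.1.1 (e ▸ D.py.ha), E.yX r.1 b1.1.1]
  · exact E.yX b1.2.1 b2.1.1
  · have r1 := b2.1.resolve_left fun (e : x = m.d.a') => h.ns (e ▸ b1.2.1)
    have r2 := b2.2.2.1.resolve_left fun (e : y = m.d.a') => h.ns (e ▸ b1.2.2.2)
    rcases pth_tri E.py r1.1 r2.1 a with l | l
    · exact n (Sym2.eq_swap ▸ key x r1.1 y r2.1 a l r2.2 b1.2.2.1)
    · exact n (key y r2.1 x r1.1 a.symm l r1.2 b1.1)

/-- The assembly of the colouring. -/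
theorem asm (h : EL H m o w u q IL IR) (O1 : Out H m.dM S1 o) (hS : S1 ⊆ PE H m.XM)
    (O2 : Out H (dl m o w IR) (sl H m o u q) o2) (T2 : Tri H (m.Rg 2) m.p m.p' m.z)
    {L A : Set (Sym2 W)} (hL : L = LE H m.d (insert s(m.p, m.p') S1) (fin m o w IR o2))
    (hA : A = LE H m.dM S1 o ∪ LE H (dl m o w IR) (sl H m o u q) o2)
    {c c1 cK : W → Col} {ω : W → W} (hX : ∀ x ∈ (fin m o w IR o2).X, (c x).1 = false)
    (hs : (c m.d.a').1 = true) (hpd : Paid L c ω)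
    (h1 : ∀ x, ¬ (x ∈ o.Y ∧ x ≠ m.d.b') → c1 x = c x) (h2 : ∀ x ∈ o.Y, (c1 x).1 = true)
    {AK : Set W} (hK : Rec H IL AK c1 cK) (e0 : Sym2 W)
    (hAK : ∀ x ∈ AK, Fr A L o m.d.b' c1 x ∧ (¬ (x ∈ o.Y ∧ x ≠ m.d.b') → x ∈ Pay L c ω))
    (hm : ∀ x ∈ o.Y, x ≠ m.d.b' → ∀ y, y = m.d.a' ∨ y ∈ o.Y → H.Adj x y → c1 y = c1 x →
      s(x, y) = e0 ∧ x ∉ AK ∧ y ∉ AK ∧ Fr A L o m.d.b' c1 x ∧ Fr A L o m.d.b' c1 y ∧
        (¬ (y ∈ o.Y ∧ y ≠ m.d.b') → y ∈ Pay L c ω)) :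
    ∃ c', Rec H (m.d.upd (fin m o w IR o2)).I (Pay L c ω) c c' := by
  classical
  have E := h.toEC
  have P := h.stp
  have D := P.disc
  have py := E.py
  have s2 := O2.shp
  have sh := h.shp O1.shp hS s2
  have eY := h.vis s2
  obtain ⟨f, hf⟩ := succ_ex py
  obtain ⟨o', oT, oL, oN⟩ : ∃ o' : W → W, (∀ t, t ∈ o.Y ∧ t ≠ m.d.b' → o' t = f t) ∧
      (∀ x, ¬ (x ∈ o.Y ∧ x ≠ m.d.b') → s(x, ω x) ∈ L → o' x = ω x) ∧
      ∀ x, ¬ (x ∈ o.Y ∧ x ≠ m.d.b') → s(x, ω x) ∉ L → o' x = x :=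
    ⟨fun x => if x ∈ o.Y ∧ x ≠ m.d.b' then f x else if s(x, ω x) ∈ L then ω x else x,
      fun t ht => if_pos ht, fun x hx k => (if_neg hx).trans (if_pos k),
      fun x hx k => (if_neg hx).trans (if_neg k)⟩
  have LT : ∀ x y, s(x, y) ∈ L → ¬ (x ∈ o.Y ∧ x ≠ m.d.b') := by
    intro x y k t
    rw [hL] at k
    exact (LE_ends k (Sym2.mem_mk_left _ _)).elim (fun r => iX (E.tII t.1 t.2) r.1)
      fun r => iY (E.tII t.1 t.2) r.1
  have LT' : ∀ x y, s(x, y) ∈ L → ¬ (y ∈ o.Y ∧ y ≠ m.d.b') := fun x y k =>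
    LT y x (Sym2.eq_swap ▸ k)
  have paid : ∀ x y, (H.Adj x y ∧ x ∈ o.Y ∧ y ∈ o.Y) ∨ s(x, y) ∈ L →
      c1 x = c1 y ∨ o' x = y ∨ o' y = x := by
    have up : ∀ x ∈ o.Y, ∀ y ∈ o.Y, H.Adj x y → o.ρ x < o.ρ y → o' x = y := by
      intro x hx y hy a l
      have := py.hi y hy
      rw [oT x ⟨hx, by rintro rfl; omega⟩]
      exact hf x hx y hy a l
    rintro x y (⟨a, hx, hy⟩ | k)
    · rcases pth_tri py hx hy a with l | l
      exacts [Or.inr (Or.inl (up x hx y hy a l)), Or.inr (Or.inr (up y hy x hx a.symm l))]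
    · rcases hpd x y k with r | r | r
      · exact Or.inl (by rw [h1 x (LT x y k), h1 y (LT' x y k), r])
      · exact Or.inr (Or.inl ((oL x (LT x y k) (r ▸ k)).trans r))
      · exact Or.inr (Or.inr ((oL y (LT' x y k) (by rw [r, Sym2.eq_swap]; exact k)).trans r))
  have clX : ∀ x ∈ (fin m o w IR o2).X, (c1 x).1 = false := fun x hx => by
    rw [h1 x fun t => (DD.mem_I.1 ((h.mid s2).2 (Or.inr t))).2.1 hx]
    exact hX x hx
  have cs : (c1 m.d.a').1 = true := by rw [h1 _ fun t => h.ns t.1, hs]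
  obtain ⟨g1, r1⟩ := O1.ext c1 o' (fun x hx => clX x (h.x1 hx)) h2
    fun x y k => paid x y (hL ▸ h.leM k)
  obtain ⟨g2, r2⟩ := O2.ext c1 o' (fun x hx => clX x (Or.inr hx))
    (by
      rw [eY]
      rintro x (rfl | k)
      exacts [cs, h2 x k.1])
    fun x y k => paid x y (hL ▸ h.leL hS k)
  obtain ⟨g3, r3⟩ := T2 c1 (by
    rintro ⟨-, k⟩
    have k1 := clX _ (h.x1 E.px.ha)
    rw [k, h2 _ py.ha] at k1
    exact Bool.noConfusion k1)
  have nZ : ∀ x ∈ (m.dM.upd o).I, x ∈ (d2 m o).Z := fun x hx => Or.inl (Or.inr hx)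
  have lI : ∀ x ∈ ((dl m o w IR).upd o2).I, x ∈ (dl m o w IR).I := fun x hx => s2.I_sub hx
  have kI : ∀ x ∈ IL, x ∈ (d2 m o).I := fun x hx => (h.spl.cov x).2 (Or.inl hx)
  have D2 := h.spl.disc
  have i2z : ∀ x ∈ (d2 m o).I, x ∉ (d2 m o).Z := fun x hx => (DD.mem_I.1 hx).1
  obtain ⟨g4, r4⟩ := rec_union r1 r2 (fun x k1 k2 => i2z x (h.iR (lI x k2)) (nZ x k1))
    (fun x k1 y k2 a => D2.iz (h.iR (lI y k2)) a.symm (nZ x k1))
    fun x k1 k2 => h.leD k1.1 k2.1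
  obtain ⟨g5, r5⟩ := rec_union r4 r3
    (by
      rintro x (k1 | k1) k2
      exacts [(DD.mem_I.1 k1).1 (h.s1.zz (EC.rgM (by decide) k2)),
        i2z x (h.iR (lI x k1)) (Or.inr k2)])
    (by
      rintro x (k1 | k1) y k2 a
      exacts [h.s1.disc.iz k1 a (h.s1.zz (EC.rgM (by decide) k2)),
        D2.iz (h.iR (lI x k1)) a (Or.inr k2)])
    fun _ _ k => k
  have fr : ∀ x, Fr A L o m.d.b' c1 x → x ∉ Pay (LE H m.dM S1 o) c1 o' ∪
      Pay (LE H (dl m o w IR) (sl H m o u q) o2) c1 o' ∪ ∅ := by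
    intro x hx k
    have k1 : s(x, o' x) ∈ A ∧ c1 (o' x) ≠ c1 x := by
      rw [hA]
      rcases k with (k | k) | k
      exacts [⟨Or.inl k.1, k.2⟩, ⟨Or.inr k.1, k.2⟩, k.elim]
    refine k1.2 (hx _ k1.1 (fun t => ?_) fun t => ?_)
    · obtain ⟨y, hy, l, a, -⟩ := py.succ t.1 t.2
      rw [oT x t, hf x t.1 y hy a l]
      exact ⟨hy, l⟩
    · by_cases r : s(x, ω x) ∈ L
      · rw [oL x t r]
        exact r
      · exact absurd (by rw [oN x t r]) k1.2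
  obtain ⟨c', R⟩ := rec_union r5 hK
    (by
      rintro x ((k1 | k1) | k1) k2
      exacts [i2z x (kI x k2) (nZ x k1), (DD.mem_I.1 (lI x k1)).1 (il_out h.spl k2),
        i2z x (kI x k2) (Or.inr k1)])
    (by
      rintro x ((k1 | k1) | k1) y k2 a
      exacts [D2.iz (kI y k2) a.symm (nZ x k1), h.discL.1.iz (lI x k1) a (il_out h.spl k2),
        D2.iz (kI y k2) a.symm (Or.inr k1)])
    fun x k1 k2 => fr x (hAK x k2).1 k1
  have eI : (m.d.upd (fin m o w IR o2)).I =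
      ((m.dM.upd o).I ∪ ((dl m o w IR).upd o2).I ∪ m.Rg 2 ∪ IL) ∪ {t | t ∈ o.Y ∧ t ≠ m.d.b'} :=
    Set.ext fun x => h.mid s2
  refine ⟨c', ?_⟩
  rw [eI]
  refine absorb R ?_ h1 e0 ?_ ?_
  · rintro x hx (((k | k) | k) | k)
    exacts [(DD.mem_I.1 k).2.2 hx.1, (DD.mem_I.1 (h.iR (lI x k))).2.2 hx.1,
      h.s1.yz hx.1 (h.s1.zz (EC.rgM (by decide) k)), (DD.mem_I.1 (kI x k)).2.2 hx.1]
  · intro x hx y hy a e
    have xI : x ∈ (m.d.upd (fin m o w IR o2)).I := (h.mid s2).2 (Or.inr hx)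
    have yc : y = m.d.a' ∨ y ∈ o.Y := by
      rcases (m.d.upd (fin m o w IR o2)).cases y with k | k | k | k
      · exact absurd k (sh.disc.iz xI a)
      · have k1 := clX y k
        rw [e, h2 x hx.1] at k1
        exact Bool.noConfusion k1
      · exact (E.yy k).imp_right fun (r : y = m.d.b') => r ▸ py.hb
      · exact Or.inr (((h.mid s2).1 k).resolve_left hy).1
    obtain ⟨b1, b2, b3, b4, b5, b6⟩ := hm x hx.1 hx.2 y yc a e
    exact ⟨b1, fun k => k.elim (fr x b4) b2, fun k => k.elim (fr y b5) b3, b6⟩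
  · rintro x (k | k) hx
    · have k1 : c1 (o' x) ≠ c1 x := by
        rcases k with (k | k) | k
        exacts [k.2, k.2, k.elim]
      by_cases r : s(x, ω x) ∈ L
      · rw [oL x hx r, h1 x hx, h1 _ (LT' _ _ r)] at k1
        exact ⟨r, k1⟩
      · exact absurd (by rw [oN x hx r]) k1
    · exact (hAK x k).2 hx

end EL

end Pool.Agent.P.MP_08fd93_co.FE
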