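import Pool.Agent.P.MP_08fd93_co.FE.E5

/-! The colouring of the main step under a top edge: the three cases. -/

set_option autoImplicit false

namespace Pool.Agent.P.MP_08fd93_co.FE

open OV OV.PkStp4aP
open OV.PkFinBP (mM rgI rg_ne cases8 xLM iX iY iZ dMI)
open OV.PkFinCP (le_iff two_col pth_tri)

variable {W : Type} {H : SimpleGraph W}

/-- The extension property if the edge `x y` is monochromatic or paid by `x`. -/
def ExtC (H : SimpleGraph W) (M A B : Set W) (L : Set (Sym2 W)) (x y : W) : Prop :=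
  ∀ (c : W → Col) (ω : W → W), (∀ v ∈ A, (c v).1 = false) → (∀ v ∈ B, (c v).1 = true) →
    Paid L c ω → (c x = c y ∨ ω x = y) → ∃ c', Rec H M (Pay L c ω) c c'

/-- An output that works if the top edge is monochromatic or paid by one known end. -/
def EBo (H : SimpleGraph W) (d : DD W) (S : Set (Sym2 W)) : Prop :=
  ∃ o, Shp H d S o ∧ (ExtC H (d.upd o).I o.X o.Y (LE H d S o) d.a' d.b' ∨
    ExtC H (d.upd o).I o.X o.Y (LE H d S o) d.b' d.a')

theorem cn (k : Col) : k ≠ (true, !k.2) := by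
  revert k
  decide

theorem co (k k' : Col) (h : k.1 = true) (h' : k'.1 = true) (n : k ≠ k') : k' = (true, !k.2) := by
  revert k k'
  decide

theorem ce (k k' : Col) (h : k.1 = true) (h' : k'.1 = true)
    (n : ((true, !k.2) : Col) = (true, !k'.2)) : k = k' := by
  revert k k'
  decide

/-- colours on a path: alternating up to `u`, constant after it -/
theorem col {P : Set W} {ρ : W → ℤ} {z t u : W} (py : Pth H P ρ z t) (hu : u ∈ P) (ub : u ≠ t)
    (c : W → Col) (ht : (c t).1 = true) (β γ : Bool) :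
    ∃ c1 : W → Col, (∀ x, ¬ (x ∈ P ∧ x ≠ t) → c1 x = c x) ∧ (∀ x ∈ P, (c1 x).1 = true) ∧
      c1 u = (true, β) ∧ (∀ x ∈ P, x ≠ t → ρ u < ρ x → c1 x = (true, γ)) ∧
      ∀ x ∈ P, ∀ y ∈ P, H.Adj x y → ρ x ≤ ρ u → ρ y ≤ ρ u → c1 y ≠ c1 x := by
  classical
  obtain ⟨g, gu, ga⟩ := two_col (T := {x | x ∈ P ∧ ρ x ≤ ρ u}) (v := u) py (fun _ k => k.1)
    (fun _ k => k.2) β
  have lu := py.lt_hi hu ub
  have e1 : ∀ x ∈ P, ρ x ≤ ρ u → (if x ∈ P ∧ x ≠ t then (if ρ x ≤ ρ u then ((true, g x) : Col)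
      else (true, γ)) else c x) = (true, g x) := fun x hx l =>
    (if_pos ⟨hx, by rintro rfl; omega⟩).trans (if_pos l)
  refine ⟨fun x => if x ∈ P ∧ x ≠ t then (if ρ x ≤ ρ u then (true, g x) else (true, γ)) else c x,
    fun x hx => if_neg hx, fun x hx => ?_, (e1 u hu le_rfl).trans (by rw [gu]),
    fun x hx n l => (if_pos ⟨hx, n⟩).trans (if_neg (by omega)), fun x hx y hy a l l' e => ?_⟩
  · beta_reduce
    by_cases k : x = t
    · rw [if_neg fun (r : x ∈ P ∧ x ≠ t) => r.2 k, k]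
      exact ht
    · rw [if_pos (⟨hx, k⟩ : x ∈ P ∧ x ≠ t)]
      split_ifs <;> rfl
  · beta_reduce at e
    rw [e1 x hx l, e1 y hy l'] at e
    exact ga x ⟨hx, l⟩ y ⟨hy, l'⟩ a (congrArg Prod.snd e).symm

variable {m : SD W} {o o2 : OD W} {w u q : W} {IL IR : Set W} {S1 : Set (Sym2 W)}

namespace EL

/-- `s` sees only `t` on the new path -/
theorem caseB (h : EL H m o m.d.b' u m.d.b' IL IR) (au : H.Adj u m.d.b') (O1 : Out H m.dM S1 o)
    (hS : S1 ⊆ PE H m.XM) (O2 : Out H (dl m o m.d.b' IR) (sl H m o u m.d.b') o2)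
    (T2 : Tri H (m.Rg 2) m.p m.p' m.z) : EBo H m.d (insert s(m.p, m.p') S1) := by
  refine ⟨_, h.shp O1.shp hS O2.shp, Or.inl fun c ω hX hY hpd _ => ?_⟩
  have D := h.stp.disc
  have py := h.toEC.py
  obtain ⟨c1, h1, h2, h3, -, h5⟩ := col py h.hu h.ub c (hY _ D.py.hb) (!(c m.d.b').2) true
  have eI : IL = ∅ := (left_I h.spl).symm.trans (gad0 h.spl.dl rfl rfl)
  refine h.asm O1 hS O2 T2 rfl rfl hX (hY _ D.py.ha) hpd h1 h2 (AK := ∅) (cK := c1)
    (by rw [eI]; exact Rec.empty _ _) s(u, u) (fun _ k => k.elim) ?_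
  intro x hx n y hy a e
  exfalso
  have l := py.lt_hi hx n
  have l1 := (h.btw hx (py.hi x hx)).resolve_right fun r => n r.1
  rcases hy with rfl | hy
  · have := h.mn x hx a.symm
    omega
  rcases h.btw hy (py.hi y hy) with l2 | ⟨rfl, -⟩
  · exact h5 x hx y hy a l1 l2 e
  · rw [py.dn_eq hy hx h.hu a.symm au.symm l (py.lt_hi h.hu h.ub), h3, h1 _ fun r => r.2 rfl] at e
    exact cn _ e

theorem frY (h : EL H m o w u q IL IR) (hw : w ≠ m.d.b') (c : W → Col) {x : W} (hx : x ∈ m.d.Y) :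
    Fr (LE H m.dM S1 o ∪ LE H (dl m o w IR) (sl H m o u q) o2)
      (LE H m.d (insert s(m.p, m.p') S1) (fin m o w IR o2)) o m.d.b' c x := by
  have D := h.stp.disc
  have E := h.toEC
  intro y k _ k2
  exfalso
  obtain ⟨a, r | r, -⟩ := le_iff.1 (k2 fun t => iY (E.tII t.1 t.2) hx)
  · exact D.xy r.1 hx
  have e : s(x, y) = s(m.d.a', m.d.b') := by
    rcases E.yy hx with rfl | rfl <;> rcases E.yy r.2.2.1 with rfl | rfl
    exacts [absurd rfl a.ne, rfl, Sym2.eq_swap, absurd rfl a.ne]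
  rw [e] at k
  rcases k with k | k
  · rcases LE_ends k (Sym2.mem_mk_left _ _) with t | t
    exacts [D.xy t.1.1 D.py.ha, h.ns t.2]
  · rcases LE_ends k (Sym2.mem_mk_right _ _) with t | ⟨t | t, -⟩
    · exact D.xy t.1.1 D.py.hb
    · exact h.st.ne' t
    · have := E.py.lt_hi h.hw hw
      have := t.2
      omega

theorem adjA {x y : W}
    (k : s(x, y) ∈ LE H m.dM S1 o ∪ LE H (dl m o w IR) (sl H m o u q) o2) : H.Adj x y :=
  k.elim (fun r => (le_iff.1 r).1) fun r => (le_iff.1 r).1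

/-- the part under the top edge is a triangle -/
theorem caseC (hP : Pl H Set.univ) (T : TA H) (h : EL H m o w w m.d.a' IL IR)
    (aw : H.Adj w m.d.b') (O1 : Out H m.dM S1 o)
    (hS : S1 ⊆ PE H m.XM) (O2 : Out H (dl m o w IR) (sl H m o w m.d.a') o2)
    (T2 : Tri H (m.Rg 2) m.p m.p' m.z) : EBo H m.d (insert s(m.p, m.p') S1) := by
  refine ⟨_, h.shp O1.shp hS O2.shp, Or.inr fun c ω hX hY hpd hc => ?_⟩
  have D := h.stp.disc
  have py := h.toEC.py
  obtain ⟨c1, h1, h2, h3, -, h5⟩ := col py h.hu h.ub c (hY _ D.py.hb) (!(c m.d.a').2) true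
  have cs : c1 m.d.a' = c m.d.a' := h1 _ fun r => h.ns r.1
  have ct : c1 m.d.b' = c m.d.b' := h1 _ fun r => r.2 rfl
  have sw : c1 m.d.a' ≠ c1 w := by
    rw [cs, h3]
    exact cn _
  obtain ⟨cK, hK⟩ := gad3 hP T h.spl.dl rfl aw.symm c1 fun k => sw (k.1.trans k.2)
  rw [left_I h.spl] at hK
  have lw := py.lt_hi h.hw h.ub
  have pos : ∀ x ∈ o.Y, x ≠ m.d.b' → o.ρ x ≤ o.ρ w := fun x hx n => by
    have := py.lt_hi hx n
    have := py.nb h.hw py.hb aw hx
    omega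
  refine h.asm O1 hS O2 T2 rfl rfl hX (hY _ D.py.ha) hpd h1 h2 hK s(w, m.d.b')
    (fun _ k => k.elim) ?_
  intro x hx n y hy a e
  rcases hy with rfl | hy
  · exact absurd (h.sw hx (pos x hx n) a.symm ▸ e) sw
  by_cases k : y = m.d.b'
  swap
  · exact absurd e (h5 x hx y hy a (pos x hx n) (pos y hy k))
  subst k
  obtain rfl : x = w := py.dn_eq hy hx h.hw a.symm aw.symm (py.lt_hi hx n) lw
  refine ⟨rfl, id, id, fun y' k1 k2 _ => ?_, h.frY n c1 D.py.hb, fun _ => ?_⟩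
  · rw [py.up_eq hx (k2 ⟨hx, n⟩).1 hy (adjA k1) a (k2 ⟨hx, n⟩).2 lw]
    exact e
  · have ne : c m.d.a' ≠ c m.d.b' := fun r => sw (by rw [cs, r, ← ct, e])
    have e1 := hc.resolve_left ne.symm
    exact ⟨by rw [e1, Sym2.eq_swap (a := m.d.b')]; exact h.stL hS, by rwa [e1]⟩

/-- the part under the top edge is a four-cycle -/
theorem caseD (hP : Pl H Set.univ) (T : TA H) (h : EL H m o w w m.d.a' IL IR) {y : W}
    (hy : y ∈ o.Y) (yn : y ∉ m.dM.Y) (wy : H.Adj w y) (yt : H.Adj y m.d.b') (O1 : Out H m.dM S1 o)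
    (hS : S1 ⊆ PE H m.XM) (O2 : Out H (dl m o w IR) (sl H m o w m.d.a') o2)
    (T2 : Tri H (m.Rg 2) m.p m.p' m.z) : EBo H m.d (insert s(m.p, m.p') S1) := by
  have D := h.stp.disc
  have E := h.toEC
  have py := E.py
  have wb := h.ub
  have l2 := py.lt_hi hy yt.ne
  have l1 : o.ρ w < o.ρ y := (pth_tri py h.hw hy wy).resolve_right fun l =>
    wb (py.up_eq hy h.hw py.hb wy.symm yt l l2)
  have pos : ∀ x ∈ o.Y, o.ρ x ≤ o.ρ w ∨ x = y ∨ x = m.d.b' := by
    intro x hx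
    have g1 := py.nb h.hw hy wy hx
    have g2 := py.nb hy py.hb yt hx
    have g3 := py.hi x hx
    by_cases k1 : o.ρ x = o.ρ y
    · exact Or.inr (Or.inl (py.inj _ hx _ hy k1))
    by_cases k2 : o.ρ x = o.ρ m.d.b'
    · exact Or.inr (Or.inr (py.inj _ hx _ py.hb k2))
    · exact Or.inl (by omega)
  have yK : y ∈ ((d2 m o).left m.d.a' w IL).Y := ⟨hy, by rw [E.r2y hy, E.r2y h.hw]; omega⟩
  have nA : ∀ x, s(y, x) ∉ LE H m.dM S1 o ∪ LE H (dl m o w IR) (sl H m o w m.d.a') o2 := by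
    rintro x (k | k)
    · rcases LE_ends k (Sym2.mem_mk_left _ _) with t | t
      exacts [E.yX hy t.1.1, yn t.1]
    · rcases LE_ends k (Sym2.mem_mk_left _ _) with t | ⟨t | t, -⟩
      · exact E.yX hy t.1.1
      · exact h.ns (t ▸ hy)
      · have := t.2
        omega
  have main : ∀ (c : W → Col) (ω : W → W), (∀ x ∈ (fin m o w IR o2).X, (c x).1 = false) →
      (∀ x ∈ (fin m o w IR o2).Y, (c x).1 = true) →
      Paid (LE H m.d (insert s(m.p, m.p') S1) (fin m o w IR o2)) c ω →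
      (c m.d.a' ≠ c m.d.b' → (H.Adj m.d.a' y → ω m.d.a' = m.d.b') ∧
        (¬ H.Adj m.d.a' y → ω m.d.b' = m.d.a')) →
      ∃ c', Rec H (m.d.upd (fin m o w IR o2)).I
        (Pay (LE H m.d (insert s(m.p, m.p') S1) (fin m o w IR o2)) c ω) c c' := by
    intro c ω hX hY hpd hc
    have k1 := hY _ D.py.ha
    have k2 := hY _ D.py.hb
    obtain ⟨c1, h1, h2, h3, h4, h5⟩ := col py h.hu wb c k2 (!(c m.d.a').2) (!(c m.d.b').2)
    have cs : c1 m.d.a' = c m.d.a' := h1 _ fun r => h.ns r.1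
    have ct : c1 m.d.b' = c m.d.b' := h1 _ fun r => r.2 rfl
    have cy := h4 y hy yt.ne l1
    have sw : c1 m.d.a' ≠ c1 w := by
      rw [cs, h3]
      exact cn _
    have ty : c1 m.d.b' ≠ c1 y := by
      rw [ct, cy]
      exact cn _
    have fy : Fr (LE H m.dM S1 o ∪ LE H (dl m o w IR) (sl H m o w m.d.a') o2)
        (LE H m.d (insert s(m.p, m.p') S1) (fin m o w IR o2)) o m.d.b' c1 y :=
      fun x k _ _ => absurd k (nA x)
    have fw : Fr (LE H m.dM S1 o ∪ LE H (dl m o w IR) (sl H m o w m.d.a') o2)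
        (LE H m.d (insert s(m.p, m.p') S1) (fin m o w IR o2)) o m.d.b' c1 w := by
      intro x k k' _
      rw [py.up_eq h.hw (k' ⟨h.hw, wb⟩).1 hy (adjA k) wy (k' ⟨h.hw, wb⟩).2 l1, Sym2.eq_swap] at k
      exact absurd k (nA w)
    have cand : ∀ x ∈ o.Y, x ≠ m.d.b' → ∀ y', y' = m.d.a' ∨ y' ∈ o.Y → H.Adj x y' →
        c1 y' = c1 x → (((x = w ∧ y' = y) ∨ (x = y ∧ y' = w)) ∧ c m.d.a' = c m.d.b') ∨
          (x = y ∧ y' = m.d.a' ∧ c m.d.a' ≠ c m.d.b') := by
      intro x hx n y' hy' a e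
      have wye : c1 w = c1 y → c m.d.a' = c m.d.b' := fun r => ce _ _ k1 k2 (by rw [← h3, r, cy])
      rcases pos x hx with r | rfl | r
      · rcases hy' with rfl | hy'
        · exact absurd (h.sw hx r a.symm ▸ e) sw
        rcases pos y' hy' with r' | rfl | rfl
        · exact absurd e (h5 x hx y' hy' a r r')
        · obtain rfl : x = w := py.dn_eq hy hx h.hw a.symm wy.symm (by omega) l1
          exact Or.inl ⟨Or.inl ⟨rfl, rfl⟩, wye e.symm⟩
        · exact absurd ⟨by omega, l2⟩ (py.nb hx hy' a hy)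
      · rcases hy' with rfl | hy'
        · exact Or.inr ⟨rfl, rfl, fun r => ty (by rw [ct, ← r, ← cs, e])⟩
        rcases pos y' hy' with r' | rfl | rfl
        · obtain rfl : y' = w := py.dn_eq hy hy' h.hw a wy.symm (by omega) l1
          exact Or.inl ⟨Or.inr ⟨rfl, rfl⟩, wye e⟩
        · exact absurd rfl a.ne
        · exact absurd e ty
      · exact absurd r n
    by_cases mono : c m.d.a' = c m.d.b'
    · obtain ⟨cK, hK⟩ : ∃ cK, Rec H ((d2 m o).left m.d.a' w IL).I ∅ c1 cK := by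
        by_cases sy : H.Adj m.d.a' y
        · exact gad33 hP T h.spl.dl rfl yK yt.symm wy.symm sy c1 ty fun k => sw (k.1.trans k.2)
        · refine (gad4 hP T h.spl.dl rfl yK yt.symm wy.symm wb.symm sy c1).1
            (cs.trans (mono.trans ct.symm)) (h3.trans (by rw [cy, mono])) ?_
          change c1 m.d.a' ≠ c1 y
          rwa [cs, mono, ← ct]
      rw [left_I h.spl] at hK
      refine h.asm O1 hS O2 T2 rfl rfl hX k1 hpd h1 h2 hK s(w, y) (fun _ k => k.elim) ?_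
      intro x hx n y' hy' a e
      rcases cand x hx n y' hy' a e with ⟨⟨rfl, rfl⟩ | ⟨rfl, rfl⟩, -⟩ | ⟨-, -, r⟩
      · exact ⟨rfl, id, id, fw, fy, fun r => absurd ⟨hy, yt.ne⟩ r⟩
      · exact ⟨Sym2.eq_swap, id, id, fy, fw, fun r => absurd ⟨h.hw, wb⟩ r⟩
      · exact absurd mono r
    by_cases sy : H.Adj m.d.a' y
    · obtain ⟨cK, hK⟩ :=
        gad33 hP T h.spl.dl rfl yK yt.symm wy.symm sy c1 ty fun k => sw (k.1.trans k.2)
      rw [left_I h.spl] at hK
      refine h.asm O1 hS O2 T2 rfl rfl hX k1 hpd h1 h2 hK s(y, m.d.a') (fun _ k => k.elim) ?_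
      intro x hx n y' hy' a e
      rcases cand x hx n y' hy' a e with ⟨-, r⟩ | ⟨rfl, rfl, -⟩
      · exact absurd r mono
      · have e1 := (hc mono).1 sy
        exact ⟨rfl, id, id, fy, h.frY wb c1 D.py.ha, fun _ =>
          ⟨by rw [e1]; exact h.stL hS, by rw [e1]; exact Ne.symm mono⟩⟩
    · obtain ⟨cK, hK⟩ := (gad4 hP T h.spl.dl rfl yK yt.symm wy.symm wb.symm sy c1).2
        (cs.trans ((co _ _ k2 k1 (Ne.symm mono)).trans cy.symm))
        (ct.trans ((co _ _ k1 k2 mono).trans h3.symm))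
        (by change c1 m.d.a' ≠ c1 m.d.b'; rwa [cs, ct])
      rw [left_I h.spl] at hK
      refine h.asm O1 hS O2 T2 rfl rfl hX k1 hpd h1 h2 hK s(y, y) ?_ ?_
      · rintro x (rfl | rfl)
        · have e1 := (hc mono).2 sy
          exact ⟨h.frY wb c1 D.py.hb, fun _ =>
            ⟨by
              change s(m.d.b', ω m.d.b') ∈ _
              rw [e1, Sym2.eq_swap (a := m.d.b')]
              exact h.stL hS,
              by change c (ω m.d.b') ≠ c m.d.b'; rwa [e1]⟩⟩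
        · exact ⟨fw, fun r => absurd ⟨h.hw, wb⟩ r⟩
      · intro x hx n y' hy' a e
        rcases cand x hx n y' hy' a e with ⟨-, r⟩ | ⟨rfl, rfl, -⟩
        exacts [absurd r mono, absurd a.symm sy]
  refine ⟨_, h.shp O1.shp hS O2.shp, ?_⟩
  by_cases sy : H.Adj m.d.a' y
  · exact Or.inl fun c ω hX hY hpd hc => main c ω hX hY hpd fun n =>
      ⟨fun _ => hc.resolve_left n, fun r => absurd sy r⟩
  · exact Or.inr fun c ω hX hY hpd hc => main c ω hX hY hpd fun n =>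
      ⟨fun r => absurd r sy, fun _ => hc.resolve_left (Ne.symm n)⟩

end EL

/-- The main step if `s` is not on the output of the right disc. -/
theorem EC.eb (hP : Pl H Set.univ) (T : TA H) (h : EC H m o) (O1 : Out H m.dM S1 o)
    (hS : S1 ⊆ PE H m.XM) (T2 : Tri H (m.Rg 2) m.p m.p' m.z) :
    EBo H m.d (insert s(m.p, m.p') S1) := by
  have py := h.py
  obtain ⟨w, ⟨hw, aw⟩, mn⟩ := Set.exists_min_image {x | x ∈ o.Y ∧ H.Adj m.d.a' x} o.ρ
    (py.fin.subset fun _ k => k.1) ⟨_, py.hb, h.st⟩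
  obtain ⟨IL, IR, P, -⟩ := pk_Spl1 W H hP (d2 m o) m.d.a' w (h.disc2 hP) (Or.inl rfl) hw aw
  by_cases e : w = m.d.b'
  · subst e
    obtain ⟨u, hu, l, a, -⟩ := py.pred py.hb fun k =>
      tauY h.stp h.stp.disc.py.hb (k ▸ h.stp.pt.ha)
    have L : EL H m o m.d.b' u m.d.b' IL IR :=
      ⟨h, hw, aw, fun x k1 k2 => mn x ⟨k1, k2⟩, P, hu, a.ne, Or.inl ⟨rfl, rfl, a⟩⟩
    obtain ⟨o2, O2⟩ := T _ _ L.discL.1 L.admL
    exact L.caseB a O1 hS O2 T2
  have L : EL H m o w w m.d.a' IL IR :=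
    ⟨h, hw, aw, fun x k1 k2 => mn x ⟨k1, k2⟩, P, hw, e, Or.inr ⟨rfl, rfl⟩⟩
  obtain ⟨o2, O2⟩ := T _ _ L.discL.1 L.admL
  rcases (h.cls hw aw).resolve_left e with k | ⟨y, hy, yn, a1, a2⟩
  exacts [L.caseC hP T k O1 hS O2 T2, L.caseD hP T hy yn a1 a2 O1 hS O2 T2]

end Pool.Agent.P.MP_08fd93_co.FE
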