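import Pool.Agent.P.MP_08fd93_co.FB.C12

/-! One-sided outputs for the ordinary cells: the second path is an edge or a cap. -/

set_option autoImplicit false

namespace Pool.Agent.P.MP_08fd93_co.FE

open OV FB

variable {W : Type} {H : SimpleGraph W} {d : DD W} {S : Set (Sym2 W)} {X' P : Set W} {v : W}
  {e : Sym2 W} {Ψ Ψ' : (W → Col) → Set W → Prop}

theorem outX_or (h : OutX H d S X' P Ψ) (h' : OutX H d S X' P Ψ') :
    OutX H d S X' P fun c A => Ψ c A ∨ Ψ' c A :=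
  ⟨h.sh, h.sub, h.st, fun c c0 ω A h1 h2 h3 h4 h5 =>
    h5.elim (h.ext c c0 ω A h1 h2 h3 h4) (h'.ext c c0 ω A h1 h2 h3 h4)⟩

/-- an edge on top, no strict edge below -/
theorem ox_e0 (T : TA H) (D : Disc H d) (st : H.Adj d.a' d.b') :
    ∃ X' P, OutX H d ∅ X' P fun _ _ => True := by
  obtain ⟨o, O⟩ := T d {s(d.a', d.b')} D (Adm.single (Or.inr (mem_PE.2 ⟨D.py.ha, D.py.hb, st⟩)))
  exact ⟨_, _, (out_top2 D O st (Set.empty_subset _) (Set.empty_subset _)).imp'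
    fun _ _ _ _ => Or.inl rfl⟩

/-- an edge on top, one strict edge below -/
theorem ox_e1 (T : TA H) (D : Disc H d) (st : H.Adj d.a' d.b') (he : e ∈ PE H d.X) :
    ∃ X' P, OutX H d {e} X' P fun c A => c d.a' = c d.b' ∨ d.a' ∈ A ∨ d.b' ∈ A := by
  obtain ⟨o, O⟩ := T d {e} D (Adm.single (Or.inl he))
  exact ⟨_, _, (out_top2 D O st subset_rfl (Set.singleton_subset_iff.2 he)).imp'
    fun _ _ _ k => Or.inr k⟩

/-- an edge on top, two strict edges below -/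
theorem ox_e2 (hP : Pl H Set.univ) (T : TA H) (D : Disc H d) (st : H.Adj d.a' d.b') {e' : Sym2 W}
    (he : e ∈ PE H d.X) (he' : e' ∈ PE H d.X) :
    ∃ X' P, OutX H d {e, e'} X' P fun c A => c d.a' = c d.b' ∨ (d.a' ∈ A ∧ d.b' ∈ A) := by
  obtain ⟨X', P, t, ht, h⟩ := outX_eb hP T D st he he'
  refine ⟨X', P, h.imp' fun c A _ k => k.imp_right fun m => ?_⟩
  rcases ht with rfl | rfl
  exacts [m.1, m.2]

/-- a cap on top, no strict edge below, the last edge is paid -/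
theorem ox_c0 (T : TA H) (h : Bump H d v) :
    ∃ X' P, OutX H d ∅ X' P fun c A => c v = c d.b' ∨ v ∈ A ∨ d.b' ∈ A := by
  obtain ⟨o, O⟩ := T d {s(v, d.a')} h.disc (Adm.single (Or.inr h.m1))
  exact ⟨_, _, (h.out1 O rfl (Set.empty_subset _) (Set.empty_subset _)).imp'
    fun _ _ _ k => Or.inr k⟩

/-- a cap on top, no strict edge below, the first edge is paid -/
theorem ox_c0' (T : TA H) (h : Bump H d v) :
    ∃ X' P, OutX H d ∅ X' P fun c A => c v = c d.a' ∨ v ∈ A ∨ d.a' ∈ A := by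
  obtain ⟨X', P, k⟩ := ox_c0 T h.rv
  exact ⟨X', P, k.rv'⟩

/-- a cap on top, one strict edge below -/
theorem ox_c1 (U : S_Unh) (hP : Pl H Set.univ) (T : TA H) (h : Bump H d v) (he : e ∈ PE H d.X) :
    ∃ X' P, OutX H d {e} X' P fun c A =>
      (c v ≠ c d.b' ∧ d.b' ∈ A ∧ (c v = c d.a' ∨ v ∈ A)) ∨
        (c v ≠ c d.a' ∧ d.a' ∈ A ∧ (c v = c d.b' ∨ v ∈ A)) := by
  obtain ⟨o, O⟩ := T d {e} h.disc (Adm.single (Or.inl he))
  have s := Set.singleton_subset_iff.2 he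
  exact ⟨_, _, outX_or (h.unh U hP T O s) (h.unh' U hP T O s)⟩

/-- The extension property of a one-sided output with the classes as a parameter. -/
theorem outX_cls (h : OutX H d S X' P Ψ) (β : Bool) (c : W → Col) (ω : W → W) (A : Set W)
    (h1 : ∀ x ∈ X', (c x).1 = β) (h2 : ∀ y ∈ d.Y, (c y).1 = !β)
    (h3 : Paid (PE H (d.X ∩ X') \ S) c ω) (h4 : ∀ π : Col ≃ Col, Ψ (fun x => π (c x)) A) :
    ∃ c', Rec H (d.I \ (X' ∪ P)) (Pay (PE H (d.X ∩ X') \ S) c ω ∪ (A ∩ d.Y)) c c' := by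
  cases β
  · exact h.ext c c ω A h1 h2 (fun _ _ => rfl) h3 (h4 (Equiv.refl _))
  · obtain ⟨c', k⟩ := h.ext (fun x => flipC (c x)) _ ω A (fun x hx => by simp [flipC, h1 x hx])
      (fun x hx => by simp [flipC, h2 x hx]) (fun _ _ => rfl) (h3.perm flipC) (h4 flipC)
    rw [Pay.perm] at k
    exact ⟨_, k.perm flipC⟩

end Pool.Agent.P.MP_08fd93_co.FE
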