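import Pool.Agent.P.MP_08fd93_co.FP2.R2
import Pool.Agent.P.MP_08fd93_co.FZ.R2

/-! Depth two with a long second root: only the first root is raised. -/

set_option autoImplicit false

namespace Pool.Agent.P.MP_08fd93_co.FE

open OV FZ FP2

variable {J : Type} {Γ : SimpleGraph (Vx J)} {η : ℤ × ℤ →+ ℤ} {v z p p' x y : Vx J}
  {f g : Vx J → ℤ} {an : Vx J → Vx J} {w : ℤ × ℤ} {j : ℤ}

/-- a level vertex between two distant level neighbours touches the lower part -/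
theorem tch_two (hP : WP Γ η f w) (hU : UW Γ η f w) (hN : NJ Γ Set.univ) (hL : NL Γ)
    (vL : v ∈ LL Γ f 0) (row : ∀ x ∈ LL Γ f 0, x.1 ≠ v.1 → x ∈ Nb Γ (LW Γ f 0))
    (uq : ∀ x a, Γ.Adj x (tr a v) → Γ.Adj x v → tr a v = v) {x1 x2 : Vx J} (s1 : Γ.Adj x1 v)
    (s2 : Γ.Adj x2 v) (f1 : f x1 = 0) (f2 : f x2 = 0) (p1 : Hp Γ f x1) (p2 : Hp Γ f x2)
    (n12 : x1 ≠ x2) (na : ¬ Γ.Adj x1 x2) : v ∈ Nb Γ (LW Γ f 0) := by
  classical
  by_contra hc
  have nl : ∀ x ∈ LL Γ f 0, x ∉ LW Γ f 0 := fun x hx k => hU.lw_bl 0 k (Or.inr hx)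
  have fl : ∀ x, Γ.Adj x v → f x = 0 → Hp Γ f x → x ∈ LL Γ f 0 := by
    rintro x s e ⟨y, a, hy⟩
    by_contra k
    refine hc ⟨x, hU.lw_step (low_lw (x := y) (by omega)) ?_ a.symm, s.symm⟩
    rintro (c | c)
    · have := hU.ge _ _ c
      omega
    · exact k c
  have l1 := fl x1 s1 f1 p1
  have l2 := fl x2 s2 f2 p2
  have three : ∀ D : Set (Vx J), IsConn Γ D → (∀ u ∈ D, u.1 = v.1 ∧ u ∈ LL Γ f 0 ∨
      u ∈ BL Γ f 0 ∧ u ∉ LW Γ f 0) → ∀ a b e : Vx J, (∀ x, x = a ∨ x = b ∨ x = e →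
      x ∈ LL Γ f 0 ∧ x.1 ≠ v.1 ∧ x ∈ Nb Γ D) → a = b ∨ a = e ∨ b = e := by
    intro D cD hD a b e hx
    refine no_three hP hU (j := 0) cD (Set.disjoint_left.2 fun u hu k => ?_)
      (Set.disjoint_left.2 fun u hu k => ?_) fun x k => ⟨(hx x k).1, row x (hx x k).1 (hx x k).2.1,
        fun c => ?_, (hx x k).2.2⟩
    · exact (hD u hu).elim (fun c => c.2.2 k) fun c => c.1 (Or.inl k)
    · exact (hD u hu).elim (fun c => nl u c.2 k) fun c => c.2 k
    · exact (hD x c).elim (fun c => (hx x k).2.1 c.1) fun c => c.1 (Or.inr (hx x k).1)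
  have sg : ∀ (D : Set (Vx J)) x, v ∈ D → Γ.Adj x v → x ∈ LL Γ f 0 →
      x ∈ LL Γ f 0 ∧ x.1 ≠ v.1 ∧ x ∈ Nb Γ D := fun D x hv s l => ⟨l, hL _ _ s, v, hv, s⟩
  have two : ∀ x, Γ.Adj x v → x ∈ LL Γ f 0 → x = x1 ∨ x = x2 := fun x s l => by
    rcases three {v} (isConn_single v) (by rintro _ rfl; exact Or.inl ⟨rfl, vL⟩) x1 x2 x (by
      rintro _ (rfl | rfl | rfl)
      exacts [sg _ _ rfl s1 l1, sg _ _ rfl s2 l2, sg _ _ rfl s l]) with k | k | k
    exacts [absurd k n12, Or.inl k.symm, Or.inr k.symm]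
  have o : ∀ x, Γ.Adj x v → x ∈ LL Γ f 0 → x ∉ UU Γ f (0 + 1) ∪ {v} := fun x s l k =>
    k.elim l.2 s.ne
  have oL : LW Γ f 0 ⊆ (UU Γ f (0 + 1) ∪ {v})ᶜ := by
    rintro x hx (k | rfl)
    exacts [hU.lw_bl 0 hx (Or.inl k), nl _ vL hx]
  obtain ⟨b1, hb1, e1⟩ := row x1 l1 (hL _ _ s1)
  obtain ⟨b2, hb2, e2⟩ := row x2 l2 (hL _ _ s2)
  obtain ⟨z, ⟨⟨v', hv', zv⟩, hz⟩, ez⟩ := (tim hP.fine.pl (Set.disjoint_singleton_right.2 vL.2)
    (hU.conn _) (isConn_single v) (Set.finite_singleton v) ⟨v, rfl, s1⟩ ⟨v, rfl, s2⟩ (o x1 s1 l1)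
    (((Conn.step (o x1 s1 l1) (oL hb1) e1).trans ((hU.lw_conn 0 _ hb1 _ hb2).up oL)).snoc (oL hb2)
      (o x2 s2 l2) e2.symm)).first n12
  rw [Set.mem_singleton_iff.1 hv'] at zv
  have zB : z ∈ BL Γ f 0 := by
    rintro (k | k)
    · exact hz (Or.inl k)
    · rcases two z zv k with rfl | rfl
      exacts [ez.ne rfl, na ez]
  set D : Set (Vx J) := {y | Conn Γ (BL Γ f 0) z y} with hD
  have sD : ∀ u ∈ D, u ∈ BL Γ f 0 ∧ u ∉ LW Γ f 0 := fun u hu => ⟨Conn.mem hu zB,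
    fun ⟨y, hy, c⟩ => hc ⟨z, ⟨y, hy, c.trans (Conn.symm hu)⟩, zv.symm⟩⟩
  have cD : IsConn Γ (D ∪ {v}) := (isConn_comp _ z).union_nb
    (by rintro _ rfl; exact ⟨z, Conn.rfl', zv.symm⟩)
  have bD : Nb Γ D \ D ⊆ {x1, v} ∪ {x2} := by
    rintro r ⟨hr, hr'⟩
    obtain ⟨y, hy, e⟩ := id hr
    have rL := (bl_nb (sD y hy).1 e.symm).resolve_left fun k => hr' (comp_nb zB hr k)
    by_cases c : r.1 = v.1
    · refine Or.inl (Or.inr ?_)
      by_contra n
      obtain ⟨a, rfl⟩ : ∃ a, r = tr a v := ⟨_, orb_eq c⟩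
      have a0 : η a = 0 := by
        have := hU.lf 0 _ rL
        rwa [hP.per, hU.lf 0 v vL, zero_add] at this
      have ad := hP.fine.inv a _ _ s1
      have m : tr a x1 ∈ LL Γ f 0 := by
        have := (hU.ltr a 0 x1).2 l1
        rwa [a0, add_zero] at this
      have nx : ∀ x, Γ.Adj x v → x ≠ tr a x1 := fun x s k => n (uq x a (k ▸ ad) s)
      rcases three (D ∪ {v} ∪ {tr a v}) (cD.union_nb (by
        rintro _ rfl; exact ⟨y, Or.inl hy, e⟩)) (by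
          rintro u ((k | rfl) | rfl)
          exacts [Or.inr (sD u k), Or.inl ⟨rfl, vL⟩, Or.inl ⟨rfl, rL⟩]) x1 x2 (tr a x1) (by
        rintro _ (rfl | rfl | rfl)
        exacts [sg _ _ (Or.inl (Or.inr rfl)) s1 l1, sg _ _ (Or.inl (Or.inr rfl)) s2 l2,
          ⟨m, hL x1 _ s1, _, Or.inr rfl, ad⟩]) with k | k | k
      exacts [n12 k, nx _ s1 k, nx _ s2 k]
    · rcases three (D ∪ {v}) cD (by
          rintro u (k | rfl)
          exacts [Or.inr (sD u k), Or.inl ⟨rfl, vL⟩]) x1 x2 r (by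
        rintro _ (rfl | rfl | rfl)
        exacts [sg _ _ (Or.inr rfl) s1 l1, sg _ _ (Or.inr rfl) s2 l2,
          ⟨rL, c, y, Or.inl hy, e⟩]) with k | k | k
      exacts [absurd k n12, Or.inl (Or.inl k.symm), Or.inr k.symm]
  have hT : Pth Γ ({x1, v} ∪ {x2}) (fun u => if u = x1 then 0 else if u = v then 1 else 2) x1 x2 := by
    refine (Pth.pair s1 ?_).join (Pth.single x2 _) (Or.inr ⟨?_, s2.symm⟩) ?_
    · rw [if_pos rfl, if_neg s1.ne', if_pos rfl]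
      omega
    · rw [if_neg s1.ne', if_pos rfl, if_neg n12.symm, if_neg s2.ne]
      omega
    · rintro x (rfl | rfl) _ rfl a
      exacts [absurd a na, Or.inl ⟨rfl, rfl⟩]
  have sT : ∀ u ∈ ({x1, v} ∪ {x2} : Set (Vx J)), u ∈ LL Γ f 0 := by
    rintro u ((rfl | rfl) | rfl)
    exacts [l1, vL, l2]
  have dU : Disjoint D (UU Γ f (0 + 1)) := Set.disjoint_left.2 fun u hu k => (sD u hu).1 (Or.inl k)
  exact no_hang hP.fine.pl hN hT (fin_of_bd hP.fine.oe (hT.fin.subset bD) (hU.u_inf _) dU)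
    ⟨z, Conn.rfl'⟩ (isConn_comp _ z) bD (hU.conn _) dU.symm
    (Set.disjoint_right.2 fun u hu => (sT u hu).2) fun u hu => (sT u hu).1

section

variable (h : TR Γ η v z p g)
include h

theorem kt_even (hx : x ∈ Kt v z) : Even (g x) := by
  obtain ⟨a, rfl | rfl⟩ := kt_ex hx
  · rw [h.per, h.gv, zero_add]
    exact h.ev a
  · rw [h.per, h.gz, zero_add]
    exact h.ev a

theorem rf_per (a : ℤ × ℤ) (x : Vx J) : rais g v (tr a x) = rais g v x + η a := by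
  by_cases e : x.1 = v.1
  · rw [rais_k e, rais_k (x := tr a x) e, h.per]
    ring
  · rw [rais_n e, rais_n (x := tr a x) e, h.per]

theorem rf_lip (x y : Vx J) (e : Γ.Adj x y) : rais g v y ≤ rais g v x + 1 := by
  have := rais_ge (f := g) (v := v) x
  by_cases c : y.1 = v.1
  · have := h.nolow (Or.inl c) e.symm
    rw [rais_k c]
    omega
  · have := h.lip e
    rw [rais_n c]
    omega

theorem rf_v : rais g v v = 1 := by
  rw [rais_k rfl, h.gv]
  rfl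

theorem rf_z : rais g v z = 0 := by rw [rais_n h.ne1.symm, h.gz]

theorem rf_p : rais g v p = 0 := by rw [rais_n fun k => h.pk (Or.inl k), h.g0]

theorem hp_p : Hp Γ (rais g v) p := by
  obtain ⟨q, e, hq⟩ := h.par h.pk
  refine ⟨q, e, ?_⟩
  rw [rf_p h, rais_n fun k => ?_, hq, h.g0]
  obtain ⟨r, hr⟩ := kt_even h (Or.inl k)
  have := h.g0
  omega

/-- under a translate of `v` lies a translate of `z` -/
theorem v_dn (e : x.1 = v.1) : ∃ y, Γ.Adj x y ∧ rais g v y = rais g v x - 1 := by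
  obtain ⟨a, rfl⟩ : ∃ a, x = tr a v := ⟨_, orb_eq e⟩
  exact ⟨tr a z, h.fine.inv a _ _ h.vz, by rw [rf_per h, rf_per h, rf_v h, rf_z h]; ring⟩

/-- the neighbours of a translate of `v` -/
theorem v_nb {a : ℤ × ℤ} (e : Γ.Adj (tr a v) y) :
    y = tr a z ∨ rais g v y = rais g v (tr a v) := by
  obtain ⟨y, rfl⟩ : ∃ y', y = tr a y' := ⟨tr (-a) y, (tr_neg' a y).symm⟩
  have e' := (h.fine.adj_tr a _ _).1 e
  by_cases c : y = z
  · exact Or.inl (c ▸ rfl)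
  · have h1 := h.nb y e' c
    have h2 := h.lip e'
    rw [h.gv] at h2
    rw [rf_per h, rf_per h, rf_v h, rais_n (h.toSl.nl _ _ e').symm]
    omega

theorem off_par (hx : x ∉ Kt v z) : Hp Γ (rais g v) x ∨
    ∃ q, Γ.Adj x q ∧ q.1 = v.1 ∧ rais g v q = rais g v x := by
  obtain ⟨q, e, hq⟩ := h.par hx
  have n : x.1 ≠ v.1 := fun k => hx (Or.inl k)
  by_cases c : q.1 = v.1
  · exact Or.inr ⟨q, e, c, by rw [rais_k c, rais_n n]; omega⟩
  · exact Or.inl ⟨q, e, by rw [rais_n c, rais_n n, hq]⟩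

theorem rf_wp [Fintype J] : ∃ w, WP Γ η (rais g v) w := by
  obtain ⟨w, hw⟩ := h.wp
  refine ⟨w, h.fine, h.ev, rf_per h, rf_lip h, hw.w0, hw.ker, hw.gen, fun x => ?_⟩
  have one : Hp Γ (rais g v) x → ∃ y, rais g v y < rais g v x ∧
      Conn Γ {u | rais g v u ≤ rais g v x} x y := fun ⟨y, a, hy⟩ =>
    ⟨y, by omega, Conn.step (le_refl (rais g v x)) (by show rais g v y ≤ _; omega) a⟩
  have two : ∀ q, Γ.Adj x q → rais g v q = rais g v x → Hp Γ (rais g v) q →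
      ∃ y, rais g v y < rais g v x ∧ Conn Γ {u | rais g v u ≤ rais g v x} x y :=
    fun q a e ⟨y, a', hy⟩ => ⟨y, by omega, (Conn.step (A := {u | rais g v u ≤ rais g v x})
      (le_refl (rais g v x)) e.le a).snoc e.le (by show rais g v y ≤ _; omega) a'⟩
  by_cases c : x ∈ Kt v z
  · obtain ⟨a, rfl | rfl⟩ := kt_ex c
    · exact one (v_dn h rfl)
    · exact two (tr a p) (h.fine.inv a _ _ h.zp) (by rw [rf_per h, rf_per h, rf_p h, rf_z h])
        ((Hp.tr h.fine (rf_per h) a p).2 (hp_p h))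
  · rcases off_par h c with k | ⟨q, e, k1, k2⟩
    exacts [one k, two q e k2 (v_dn h k1)]

theorem v_nl (hU : UW Γ η (rais g v) w) (e : x.1 = v.1) : x ∉ LL Γ (rais g v) j := fun k => by
  obtain ⟨a, rfl⟩ : ∃ a, x = tr a v := ⟨_, orb_eq e⟩
  obtain ⟨u, hu, a'⟩ := k.1
  have h1 := hU.ge _ _ hu
  have h2 := hU.lf _ _ k
  rcases v_nb h a' with rfl | m
  · rw [rf_per h, rf_v h] at h2
    rw [rf_per h, rf_z h] at h1
    omega
  · omega

theorem row_tch (hU : UW Γ η (rais g v) w) (hx : x ∈ LL Γ (rais g v) j) (n : x.1 ≠ z.1) :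
    x ∈ Nb Γ (LW Γ (rais g v) j) := by
  rcases off_par h (x := x) (fun k => k.elim (fun k => v_nl h hU k hx) n) with k | ⟨q, e, k1, k2⟩
  · exact tch_of_hp hU hx k
  · obtain ⟨y, a, hy⟩ := v_dn h k1
    have h1 := hU.lf j x hx
    refine ⟨q, hU.lw_step (low_lw (x := y) (by omega)) ?_ a.symm, e⟩
    rintro (k | k)
    · have := hU.ge _ _ k
      omega
    · exact v_nl h hU k1 k

theorem rf_rz (x : Vx J) : rais g v x = rz v z g x ∨
    (x.1 = z.1 ∧ rais g v x + 1 = rz v z g x ∧ Even (rais g v x)) := by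
  by_cases c : x.1 = v.1
  · exact Or.inl (by rw [rais_k c, rz_k (Or.inl c)])
  by_cases c' : x.1 = z.1
  · exact Or.inr ⟨c', by rw [rais_n c, rz_k (Or.inr c')], by
      rw [rais_n c]
      exact kt_even h (Or.inr c')⟩
  · exact Or.inl (by rw [rais_n c, rz_n fun k => k.elim c c'])

/-- the even upper parts are those of the frame with two raised roots -/
theorem uu_even (ev : Even j) : UU Γ (rais g v) j = UU Γ (rz v z g) j := by
  have e : {u | j ≤ rais g v u} = {u | j ≤ rz v z g u} := by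
    ext u
    simp only [Set.mem_ofPred_eq]
    obtain ⟨r, hr⟩ := ev
    rcases rf_rz h u with k | ⟨-, k, t, ht⟩ <;> omega
  ext x
  simp only [UU, Set.mem_ofPred_eq, e]
  refine ⟨fun k t => ?_, fun k t => ?_⟩
  · obtain ⟨y, hy, c⟩ := k t
    exact ⟨y, by rcases rf_rz h y with m | m <;> omega, c⟩
  · obtain ⟨y, hy, c⟩ := k (t + 1)
    exact ⟨y, by rcases rf_rz h y with m | m <;> omega, c⟩

theorem ll_odd (ev : Even (j + 1)) : LL Γ (rais g v) j = LL Γ (rz v z g) j := by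
  unfold LL
  rw [uu_even h ev]

/-- `v` has a child on the line one; it is an ancestor of a translate of `p` -/
theorem z_child [Fintype J] (A : An2 Γ v z g an) : ∃ (n : ℕ) (c : ℤ × ℤ), η c = n + 1 ∧
    (∀ i, i < n → Rp Γ v z g (an^[i] p)) ∧ tr c (an^[n] p) ∈ LL Γ (rais g v) 1 ∧
    tr c (an^[n] p) ∉ Kt v z ∧ an (tr c (an^[n] p)) = v := by
  obtain ⟨w, hw⟩ := h.wp
  have hU := hw.uw ⟨v.1⟩
  obtain ⟨n, c, e, k, yL, yv, yz, yp⟩ := h.child hU (A.rp h)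
  have yK : tr c (an^[n] p) ∉ Kt v z := fun k => h.k_nl hU k yL
  refine ⟨n, c, e, k, by rwa [ll_odd h (by decide)], yK, ?_⟩
  obtain ⟨k1, k2⟩ := A.adj _ yK
  have k3 : an (tr c (an^[n] p)) ∈ Kt v z := by
    by_contra k
    refine yp ⟨tr (-c) (an (tr c (an^[n] p))), ?_, ?_, k⟩
    · simpa only [tr_neg] using h.fine.inv (-c) _ _ k1
    · rw [h.per, k2, h.per, map_neg]
      ring
  obtain ⟨a, e | e⟩ := kt_ex k3
  · exact h.toSl.near2 (by rw [e]; rfl) k1.symm yv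
  · have : an (tr c (an^[n] p)) = z := h.toSl.near3 (by rw [e]; rfl) k1.symm yv h.vz
    exact absurd (this ▸ k1) yz

end

/-- The second root has two distant flat neighbours. -/
structure Lz (Γ : SimpleGraph (Vx J)) (η : ℤ × ℤ →+ ℤ) (v z p p' : Vx J) (g : Vx J → ℤ) :
    Prop where
  t1 : TR Γ η v z p g
  t2 : TR Γ η v z p' g
  ne : p ≠ p'
  na : ¬ Γ.Adj p p'

/-- The frame in which `v` is a spike over the parentless level vertex `z`. -/
structure FrZ (Γ : SimpleGraph (Vx J)) (η : ℤ × ℤ →+ ℤ) (v z : Vx J) (g : Vx J → ℤ)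
    (an : Vx J → Vx J) (G : VD J) : Prop where
  vf : VFrm G
  eΓ : G.Γ = Γ
  eη : G.η = η
  ef : G.f = rais g v
  ea : G.an = an
  eP : ∀ x, x ∈ G.Pr ↔ x.1 ≠ z.1
  eK : ∀ x, x ∈ G.K ↔ x.1 = v.1
  eT : ∀ u ∈ G.K, G.T u = {u}
  eV : ∀ u ∈ G.K, u ∈ G.V
  eb : ∀ u, G.bt u = u
  ex : ∀ a, G.xl (tr a v) = tr a z ∧ G.xr (tr a v) = tr a z
  z0 : z ∈ G.L 0

theorem exists_frZ [Fintype J] (hN : NJ Γ Set.univ) (H : Lz Γ η v z p p' g)
    (A : An2 Γ v z g an) : ∃ G, FrZ Γ η v z g an G := by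
  classical
  have h := H.t1
  have hL := h.toSl.nl
  obtain ⟨w, hP⟩ := rf_wp h
  have hU := hP.uw ⟨v.1⟩
  obtain ⟨n, c, -, -, hy, yK, ay⟩ := z_child h A
  set y := tr c (an^[n] p)
  have vU : v ∈ UU Γ (rais g v) 1 :=
    hU.cl 1 y (hU.lu 1 hy) v (ay ▸ (A.adj y yK).1) (rf_v h).ge
  have zL : z ∈ LL Γ (rais g v) 0 := by
    simpa using hU.lan 1 v vU z h.vz (by rw [rf_z h]; omega)
  obtain ⟨l, ρ, nn, hR⟩ := exists_rows hP hU hL hN fun j x hx => by
    by_cases c : x.1 = z.1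
    · obtain ⟨a, rfl⟩ : ∃ a, x = tr a z := ⟨_, orb_eq c⟩
      obtain ⟨b, hb, e⟩ := tch_two hP hU hN hL zL (fun x hx => row_tch h hU hx)
        (fun x a e e' => h.toSl.near2 rfl e.symm e') h.zp.symm H.t2.zp.symm (rf_p h) (rf_p H.t2)
        (hp_p h) (hp_p H.t2) H.ne H.na
      have := hU.lf j _ hx
      rw [rf_per h, rf_z h] at this
      exact ⟨tr a b, this ▸ lw_tr hP hU a hb, h.fine.inv a _ _ e⟩
    · exact row_tch h hU hx c
  have hR := hR an
  have fk : ∀ u : Vx J, u.1 = v.1 → rais g v u = 1 + η (u.2 - v.2) := fun u hu => by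
    conv_lhs => rw [orb_eq hu]
    rw [rf_per h, rf_v h]
  set G : VD J := ⟨⟨Γ, η, rais g v, an, w, l, ρ, nn⟩, {x | x.1 ≠ z.1}, {x | x.1 = v.1},
    fun x => tr (x.2 - v.2) y, id, fun x => if x.1 = v.1 then tr (x.2 - v.2) z else x,
    fun x => if x.1 = v.1 then tr (x.2 - v.2) z else x, fun _ => 0⟩ with hG
  have ac : ∀ u : Vx J, u.1 = v.1 → an (tr (u.2 - v.2) y) = u := fun u hu => by
    rw [A.atr, ay, ← orb_eq hu]
  have eT : ∀ u ∈ G.K, G.T u = {u} := by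
    intro u hu
    ext z
    refine ⟨fun k => ?_, by rintro rfl; exact t_self hu⟩
    have := congrArg an k.2.2
    rwa [show G.ch z = tr (z.2 - v.2) y from rfl, show G.ch u = tr (u.2 - v.2) y from rfl,
      ac z k.1, ac u hu] at this
  have ft : ∀ u : Vx J, u.1 = v.1 → (if u.1 = v.1 then tr (u.2 - v.2) z else u) ∈
      LL Γ (rais g v) (rais g v u - 1) ∧ Γ.Adj u (if u.1 = v.1 then tr (u.2 - v.2) z else u) := by
    intro u hu
    rw [if_pos hu]
    refine ⟨?_, ?_⟩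
    · have := (hU.ltr (u.2 - v.2) 0 z).2 zL
      rwa [fk u hu, show 1 + η (u.2 - v.2) - 1 = 0 + η (u.2 - v.2) by ring]
    · have := h.fine.inv (u.2 - v.2) _ _ h.vz
      rwa [← orb_eq hu] at this
  have eq : ∀ a (x : Vx J), (if (tr a x).1 = v.1 then tr ((tr a x).2 - v.2) z
      else tr a x) = tr a (if x.1 = v.1 then tr (x.2 - v.2) z else x) := by
    intro a x
    by_cases c : x.1 = v.1
    · rw [if_pos c, if_pos (show (tr a x).1 = v.1 from c), tr_sub]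
    · rw [if_neg c, if_neg (show ¬ (tr a x).1 = v.1 from c)]
  have off : ∀ j, ∀ x ∈ LL Γ (rais g v) j, x.1 ≠ z.1 → x ∉ Kt v z := fun j x hx n k =>
    k.elim (fun k => v_nl h hU k hx) n
  have ex : ∀ a, (if (tr a v).1 = v.1 then tr ((tr a v).2 - v.2) z else tr a v) = tr a z :=
    fun a => by rw [eq, if_pos rfl, sub_self, tr_zero]
  refine ⟨G, ⟨hR, A.atr, fun _ _ k => k, fun a u hu => hu,
    fun a x => ⟨eq a x, eq a x, tr_sub a x v y⟩, fun u hu => ?_,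
    fun u hu u' hu' a => absurd (hu.trans (Eq.symm hu')) (hL _ _ a),
    fun u hu => ⟨?_, fun k => yK (Or.inr k), ?_⟩,
    fun u hu => ?_, fun u hu => ⟨if_neg hu, if_neg hu⟩, fun u hu => ft u hu.1, fun u hu => ft u hu.1,
    fun u hu u' hu' t ht a => ?_, fun j x hx px => ⟨(A.adj x (off j x hx px)).1, ?_⟩,
    fun j x hx px hK => ?_, fun j => ?_⟩, rfl, rfl, rfl, rfl, fun _ => Iff.rfl, fun _ => Iff.rfl,
    eT, fun u hu => ⟨hu, ac u hu⟩, fun _ => rfl, fun a => ⟨ex a, ex a⟩, zL⟩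
  · refine ⟨?_, ?_⟩
    · have := (hU.utr (u.2 - v.2) 1 v).2 vU
      rwa [← orb_eq hu, ← fk u hu] at this
    · rintro (k | k)
      · exact v_nl h hU hu k
      · have := hU.ge _ _ k
        exact absurd this (by show ¬ rais g v u + 1 ≤ _; omega)
  · have := (hU.ltr (u.2 - v.2) 1 y).2 hy
    rwa [← fk u hu] at this
  · show an (tr (u.2 - v.2) y) ∈ G.T u
    rw [ac u hu]
    exact t_self hu
  · rw [eT u hu.1]
    exact Pth.single _ _
  · rw [eT u hu.1] at hu'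
    obtain rfl : u' = u := hu'
    obtain ⟨b, rfl⟩ : ∃ b, u' = tr b v := ⟨_, orb_eq hu.1⟩
    have ht' : rais g v t = rais g v (tr b v) - 1 := hU.lf _ _ ht
    obtain rfl : t = tr b z := (v_nb h a).resolve_right (by omega)
    exact ⟨rfl, (congrArg ρ (ex b)).le, (congrArg ρ (ex b)).ge⟩
  · have h1 := hU.lf j x hx
    obtain ⟨k1, k2⟩ := A.adj x (off j x hx px)
    rw [rais_n fun k => v_nl h hU k hx] at h1
    by_cases c : (an x).1 = v.1
    · exact Or.inr ⟨⟨c, ac _ c⟩, (rais_k c).trans (by omega)⟩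
    · exact Or.inl (hU.lan j x (hU.lu j hx) (an x) k1 (by rw [rais_n c]; omega))
  · obtain ⟨b, e⟩ : ∃ b, an x = tr b v := ⟨_, orb_eq hK⟩
    have k2 := (A.adj x (off j x hx px)).2
    have no : ¬ Γ.Adj x (tr b z) := fun a => h.ne1 (by
      have := A.nz x (off j x hx px) (Or.inl hK) b a (by rw [← k2, e, h.per, h.per, h.gv, h.gz])
      rw [e] at this
      exact (congrArg Prod.fst this :))
    refine ⟨?_, ?_, fun u hu _ => by rwa [eT _ hK] at hu⟩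
    all_goals
      show ¬ Γ.Adj x (if (an x).1 = v.1 then tr ((an x).2 - v.2) z else an x)
      rwa [e, ex]
  · by_cases c : (l j 0).1 = z.1
    · exact ⟨l j 1, hR.l_mem j 1, fun k => hL _ _ ((hR.adj j 0 1).2 (Or.inl rfl)) (c.trans k.symm)⟩
    · exact ⟨l j 0, hR.l_mem j 0, c⟩

end Pool.Agent.P.MP_08fd93_co.FE
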