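import Pool.Agent.P.MP_08fd93_co.FN.N10
import Pool.Agent.P.MP_08fd93_co.FE.LZ1

/-! Frames with spikes and isolated parentless level vertices: geometry of the cells. -/

set_option autoImplicit false

namespace Pool.Agent.P.MP_08fd93_co.FE

open OV PkPrtP FB FN FZ

variable {J : Type} {G : VD J} {j : ℤ} {s s' t e y a b k : Vx J}

/-- Stems are single vertices with one foot; parentless level vertices are isolated. -/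
structure SW (G : VD J) : Prop where
  vf : VFrm G
  iso : ∀ y ∈ G.LA, y ∈ G.Pr ∨ G.nx y ∈ G.Pr
  eT : ∀ u ∈ G.K, G.T u = {u}
  eV : ∀ u ∈ G.K, u ∈ G.V
  eb : ∀ u, G.bt u = u
  kq : ∀ k ∈ G.K, ∀ k' ∈ G.K, ∀ x, G.Γ.Adj x k → G.Γ.Adj x k' → k = k'
  sh : ∀ k, G.xr k = G.xl k

open Classical in
/-- The next cut vertex. -/
noncomputable def n2 (G : VD J) (e : Vx J) : Vx J :=
  if G.nx e ∈ G.Pr then G.nx e else G.nx (G.nx e)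

theorem n2_p (h : G.nx e ∈ G.Pr) : n2 G e = G.nx e := if_pos h

theorem n2_n (h : G.nx e ∉ G.Pr) : n2 G e = G.nx (G.nx e) := if_neg h

theorem SW.fts (h : SW G) : Fts G (ftL G) := h.vf.fts_l

theorem SW.lay (h : SW G) : Lay (FL G) (XL G) G.Pr := h.vf.lay h.fts

theorem SW.n2_mem (h : SW G) (he : e ∈ G.L j) : n2 G e ∈ G.L j ∧ n2 G e ∈ G.Pr ∧
    G.ρ e < G.ρ (n2 G e) ∧ ∀ t ∈ G.L j, t ∈ G.Pr → G.ρ e < G.ρ t → G.ρ (n2 G e) ≤ G.ρ t := by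
  have R := h.vf.toRows
  obtain ⟨n1, n2, -⟩ := R.nx_mem he
  obtain ⟨n3, n4, -⟩ := R.nx_mem n1
  by_cases c : G.nx e ∈ G.Pr
  · rw [n2_p c]
    exact ⟨n1, c, by omega, fun t _ _ l => by omega⟩
  · rw [n2_n c]
    refine ⟨n3, (h.iso _ (R.la n1)).resolve_left c, by omega, fun t ht pt l => ?_⟩
    by_contra m
    exact c (R.inj ht n1 (by omega) ▸ pt)

theorem SW.t_mem (h : SW G) (m : a ∈ G.T b) : a = b := by
  rwa [h.eT b m.2.1] at m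

theorem SW.foot (h : SW G) (hk : k ∈ G.K) : G.xl k ∈ G.L (G.f k - 1) ∧ G.Γ.Adj k (G.xl k) ∧
    ∀ z ∈ G.L (G.f k - 1), G.Γ.Adj k z → z = G.xl k := by
  have v := h.eV k hk
  have l := h.vf.vl k v
  rw [h.eb] at l
  refine ⟨l.1, l.2, fun z hz e => ?_⟩
  have := (h.vf.vx k v k (t_self hk) z hz e).2
  rw [h.sh] at this
  exact h.vf.toRows.inj hz l.1 (le_antisymm this.2 this.1)

theorem SW.bt_k (h : SW G) (ha : a ∈ G.Bt s s') (hk : a ∈ G.K) : a = G.an s ∨ a = G.an s' := by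
  rcases ha with e | ⟨-, m | m | m⟩
  exacts [Or.inl e, Or.inl (h.t_mem m), Or.inr (h.t_mem m), absurd hk (h.vf.l_nk m.1)]

theorem SW.bt_of (h : SW G) (hs : s ∈ G.L j) (ne : G.an s ≠ G.an s') (hy : y ∈ G.L (j - 1))
    (l1 : G.ρ (G.xl (G.an s)) ≤ G.ρ y) (l2 : G.ρ y ≤ G.ρ (G.xl (G.an s'))) : y ∈ G.Bt s s' :=
  Or.inr ⟨ne, Or.inr (Or.inr ⟨by rwa [h.vf.uw.lf j s hs], by rwa [h.sh], l2⟩)⟩

section

variable (h : SW G) (hs : s ∈ G.L j) (ps : s ∈ G.Pr) (hs' : s' ∈ G.L j) (ps' : s' ∈ G.Pr)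
include h hs ps hs' ps'

theorem SW.bt_b (l : G.ρ s ≤ G.ρ s') : G.an s' ∈ G.Bt s s' := (h.vf.bt_pth hs ps hs' ps' l).hb

theorem SW.line (l : G.ρ s ≤ G.ρ s') (hy : y ∈ G.Bt s s') (hk : y ∉ G.K) :
    y ∈ G.L (j - 1) ∧ G.ρ (G.xl (G.an s)) ≤ G.ρ y ∧ G.ρ y ≤ G.ρ (G.xl (G.an s')) :=
  h.sh _ ▸ h.vf.bt_line hs ps hs' ps' l hy hk

theorem SW.mono (l : G.ρ s ≤ G.ρ s') : G.ρ (G.xl (G.an s)) ≤ G.ρ (G.xl (G.an s')) :=
  (h.vf.mono' hs ps hs' ps' l).1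

theorem SW.kin (hN : G.NoV s s') (ht : t ∈ G.L j) (pt : t ∈ G.Pr) (l1 : G.ρ s ≤ G.ρ t)
    (l2 : G.ρ t ≤ G.ρ s') (hk : G.an t ∈ G.K) : G.an t = G.an s ∨ G.an t = G.an s' := by
  obtain ⟨c1, c2, c3⟩ := h.vf.kc _ hk
  rw [(h.vf.an_v ht pt hk).2] at c1
  have c4 := h.t_mem c3
  by_cases a : G.ρ (G.ch (G.an t)) < G.ρ s
  · exact Or.inl ((h.vf.btw c1 c2 hs ps ht pt a.le l1 c4 (c4.symm ▸ hk)).trans c4).symm
  by_cases b : G.ρ s' < G.ρ (G.ch (G.an t))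
  · exact Or.inr (h.vf.btw ht pt hs' ps' c1 c2 l2 b.le c4.symm hk).symm
  exact (hN _ hk ⟨by rwa [h.vf.uw.lf j s hs], by omega, by omega⟩).imp h.t_mem h.t_mem

theorem SW.bt_sub (hN : G.NoV s s') {t' : Vx J} (ht : t ∈ G.L j) (pt : t ∈ G.Pr) (ht' : t' ∈ G.L j)
    (pt' : t' ∈ G.Pr) (l1 : G.ρ s ≤ G.ρ t) (l : G.ρ t ≤ G.ρ t') (l2 : G.ρ t' ≤ G.ρ s') :
    G.Bt t t' ⊆ G.Bt s s' := by
  intro z hz
  by_cases c : z ∈ G.K
  · have : z = G.an s ∨ z = G.an s' := by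
      rcases h.bt_k hz c with e | e
      · exact e ▸ h.kin hs ps hs' ps' hN ht pt l1 (l.trans l2) (e ▸ c)
      · exact e ▸ h.kin hs ps hs' ps' hN ht' pt' (l1.trans l) l2 (e ▸ c)
    rcases this with rfl | rfl
    exacts [Or.inl rfl, h.bt_b hs ps hs' ps' (by omega)]
  obtain ⟨z1, z2, z3⟩ := h.line ht pt ht' pt' l hz c
  have m1 := h.mono hs ps ht pt l1
  have m2 := h.mono ht' pt' hs' ps' l2
  by_cases e : G.an s = G.an s'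
  · by_cases g : G.an s ∈ G.K
    · have e1 := h.vf.btw hs ps ht pt hs' ps' l1 (l.trans l2) e g
      have e2 := h.vf.btw hs ps ht' pt' hs' ps' (l1.trans l) l2 e g
      rw [bt_single (e1.trans e2.symm), e1] at hz
      exact Or.inl hz
    · rw [(h.vf.xo _ g).1] at m1
      rw [← e, (h.vf.xo _ g).1] at m2
      exact Or.inl (h.vf.toRows.inj z1 (h.vf.an_l hs ps g) (by omega))
  · exact h.bt_of hs e z1 (by omega) (by omega)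

/-- the last cut vertex with a property -/
theorem SW.top_ex (lt : G.ρ s < G.ρ s') {Q : Vx J → Prop} (q : Q s) :
    ∃ e ∈ G.L j, e ∈ G.Pr ∧ G.ρ s ≤ G.ρ e ∧ G.ρ e < G.ρ s' ∧ Q e ∧ G.ρ (n2 G e) ≤ G.ρ s' ∧
      (n2 G e = s' ∨ ¬ Q (n2 G e)) := by
  have R := h.vf.toRows
  obtain ⟨i, ⟨i1, i2, i3, i4⟩, m⟩ := Int.exists_greatest_of_bdd
    (P := fun i => G.l j i ∈ G.Pr ∧ G.ρ s ≤ i ∧ i < G.ρ s' ∧ Q (G.l j i))
    ⟨G.ρ s', fun z hz => hz.2.2.1.le⟩ ⟨G.ρ s, by rw [R.l_rho hs]; exact ⟨ps, le_rfl, lt, q⟩⟩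
  obtain ⟨n1, n2', n3, n4⟩ := h.n2_mem (R.l_mem j i)
  rw [R.rho] at n3 n4
  have l := n4 s' hs' ps' i3
  refine ⟨_, R.l_mem j i, i1, by rwa [R.rho], by rwa [R.rho], i4, l, ?_⟩
  rcases eq_or_lt_of_le l with c | c
  · exact Or.inl (R.inj n1 hs' c)
  · refine Or.inr fun g => ?_
    have := m (G.ρ (n2 G (G.l j i))) (by rw [R.l_rho n1]; exact ⟨n2', by omega, c, g⟩)
    omega

/-- an edge of the row on the bottom lies under one basic cell -/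
theorem SW.row_ex (lt : G.ρ s < G.ρ s') (h1 : y ∈ G.Bt s s') (hk : y ∉ G.K)
    (h2 : G.nx y ∈ G.Bt s s') : ∃ e ∈ G.L j, e ∈ G.Pr ∧ G.ρ s ≤ G.ρ e ∧ G.ρ e < G.ρ s' ∧
      y ∈ G.Bt e (n2 G e) ∧ G.nx y ∈ G.Bt e (n2 G e) := by
  have R := h.vf.toRows
  obtain ⟨y1, y2, -⟩ := h.line hs ps hs' ps' lt.le h1 hk
  obtain ⟨n1, n2', -⟩ := R.nx_mem y1
  obtain ⟨-, -, y3⟩ := h.line hs ps hs' ps' lt.le h2 (h.vf.l_nk n1)
  obtain ⟨e, e1, e2, e3, e4, e5, -, e7⟩ := h.top_ex hs ps hs' ps' lt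
    (Q := fun e => G.ρ (G.xl (G.an e)) ≤ G.ρ y) y2
  have key : G.ρ y + 1 ≤ G.ρ (G.xl (G.an (n2 G e))) := by
    rcases e7 with c | c
    · rw [c]
      omega
    · omega
  have ne : G.an e ≠ G.an (n2 G e) := fun r => by
    rw [← r] at key
    omega
  exact ⟨e, e1, e2, e3, e4, h.bt_of e1 ne y1 e5 (by omega),
    h.bt_of e1 ne n1 (by omega) (by omega)⟩

theorem SW.stem (l : G.ρ s ≤ G.ρ s') (ha : a ∈ G.Bt s s') (hb : b ∈ G.Bt s s') (e : G.Γ.Adj a b)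
    (hk : a ∈ G.K) : (a = G.an s ∨ a = G.an s') ∧ b = G.xl a := by
  have nb : b ∉ G.K := fun c => e.ne (h.t_mem ⟨hk, c, h.vf.kn a hk b c e⟩)
  have r := h.bt_k ha hk
  refine ⟨r, (h.foot hk).2.2 b ?_ e⟩
  rw [show G.f a = j from r.elim (fun r => r ▸ (h.vf.an_v hs ps (r ▸ hk)).2)
    fun r => r ▸ (h.vf.an_v hs' ps' (r ▸ hk)).2]
  exact (h.line hs ps hs' ps' l hb nb).1

theorem SW.feet_bt (l : G.ρ s ≤ G.ρ s') (ne : G.an s ≠ G.an s') :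
    G.xl (G.an s) ∈ G.Bt s s' ∧ G.xl (G.an s') ∈ G.Bt s s' := by
  have m := h.mono hs ps hs' ps' l
  exact ⟨h.bt_of hs ne (h.vf.feet hs ps).1 le_rfl m, h.bt_of hs ne (h.vf.feet hs' ps').1 m le_rfl⟩

theorem SW.last (lt : G.ρ s < G.ρ s') (ne : G.an s ≠ G.an s') :
    (∃ e ∈ G.L j, e ∈ G.Pr ∧ G.ρ s ≤ G.ρ e ∧ G.ρ e < G.ρ s' ∧ G.ρ (n2 G e) ≤ G.ρ s' ∧
      G.an e = G.an s ∧ G.an (n2 G e) ≠ G.an s) ∧
    ∃ e ∈ G.L j, e ∈ G.Pr ∧ G.ρ s ≤ G.ρ e ∧ G.ρ e < G.ρ s' ∧ G.an e ≠ G.an s' ∧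
      G.an (n2 G e) = G.an s' := by
  constructor
  · obtain ⟨e, e1, e2, e3, e4, e5, e6, e7⟩ := h.top_ex hs ps hs' ps' lt
      (Q := fun e => G.an e = G.an s) rfl
    exact ⟨e, e1, e2, e3, e4, e6, e5, e7.elim (fun c => c ▸ ne.symm) id⟩
  · obtain ⟨e, e1, e2, e3, e4, e5, -, e7⟩ := h.top_ex hs ps hs' ps' lt
      (Q := fun e => G.an e ≠ G.an s') ne
    exact ⟨e, e1, e2, e3, e4, e5, e7.elim (fun c => by rw [c]) not_not.1⟩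

theorem SW.rest : G.R (ftL G) s s' = ∅ :=
  Set.eq_empty_of_forall_notMem fun _ hz => (h.vf.r_sub h.fts hs ps hs' ps' hz).elim
    (fun c => c.2.1 (h.sh _).symm) fun c => c.2.1 rfl

end

open FP2 in
theorem FrZ.sw {Γ : SimpleGraph (Vx J)} {η : ℤ × ℤ →+ ℤ} {v z p : Vx J} {g : Vx J → ℤ}
    {an : Vx J → Vx J} (H : FrZ Γ η v z g an G) (h : TR Γ η v z p g) : SW G := by
  refine ⟨H.vf, fun y hy => ?_, H.eT, H.eV, H.eb, fun k hk k' hk' x a a' => ?_, fun k => ?_⟩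
  · have a := (H.vf.toRows.nx_mem hy).2.2
    rw [H.eP, H.eP]
    by_contra c
    rw [not_or, not_not, not_not] at c
    exact h.toSl.nl _ _ (H.eΓ ▸ a) (c.1.trans c.2.symm)
  · exact h.toSl.near2 (((H.eK k).1 hk).trans ((H.eK k').1 hk').symm) (H.eΓ ▸ a.symm) (H.eΓ ▸ a')
  · by_cases c : k ∈ G.K
    · obtain ⟨a, rfl⟩ : ∃ a, k = tr a v := ⟨_, orb_eq ((H.eK k).1 c)⟩
      rw [(H.ex a).1, (H.ex a).2]
    · rw [(H.vf.xo k c).1, (H.vf.xo k c).2]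

end Pool.Agent.P.MP_08fd93_co.FE
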