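import Pool.Agent.P.MP_08fd93_co.FE.LZ2

/-! The colouring of a frame with spikes and isolated parentless level vertices. -/

set_option autoImplicit false

namespace Pool.Agent.P.MP_08fd93_co.FE

open OV PkPrtP FB FN FZ

variable {J : Type} {G : VD J} {j : ℤ} {s s' t e y k : Vx J} {P Vs : Set (Vx J)} {pL pR : Prop}
  {p : PD J} {M : MU J} {d : DD (Vx J)} {u : Un J} {φ : Vx J → Vx J}

/-- The strict edges of the basic cell that begins at `e`. -/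
def SS2 (G : VD J) (P : Set (Vx J)) (pL pR : Prop) (e : Vx J) : Set (Sym2 (Vx J)) :=
  {f | e ∈ G.Pr ∧ f ∈ PE G.Γ (G.Bt e (n2 G e)) ∧ ((∃ g ∈ P, g ∈ G.LA ∧ f = s(g, G.nx g)) ∨
    (pL ∧ G.an (n2 G e) ∈ G.K ∧ f = s(G.an (n2 G e), G.xl (G.an (n2 G e)))) ∨
    (pR ∧ G.an e ∈ G.K ∧ f = s(G.an e, G.xl (G.an e))))}

/-- The system of pins `P` with the visible vertices `Vs`. -/
def PQ2 (G : VD J) (P Vs : Set (Vx J)) (pL pR : Prop) : PQ J :=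
  ⟨P, Vs, SS2 G P pL pR, fun _ => False, ∅⟩

/-- `e` begins at the last child of a stem. -/
def IsR2 (G : VD J) (e : Vx J) : Prop :=
  e ∈ G.LA ∧ e ∈ G.Pr ∧ G.an e ∈ G.K ∧ G.an (n2 G e) ≠ G.an e

/-- The cell that begins at `e` ends at the first child of a stem. -/
def IsL2 (G : VD J) (e : Vx J) : Prop :=
  e ∈ G.LA ∧ e ∈ G.Pr ∧ G.an (n2 G e) ∈ G.K ∧ G.an e ≠ G.an (n2 G e)

/-- The conditions at the stems. -/
structure StC2 (G : VD J) (p : PD J) (Vs : Set (Vx J)) (pL pR : Prop) : Prop where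
  kid : ∀ k ∈ G.K, ∃ t ∈ G.LA, t ∈ G.Pr ∧ t ∈ Vs ∧ G.an t = k
  kc : ∀ k ∈ G.K, (p.c k.1).1 = p.cls (G.f k - 1)
  payR : ∀ e, IsR2 G e → pR ∨ PayK p e (G.an e) (G.xl (G.an e))
  payL : ∀ e, IsL2 G e → pL ∨ PayK p e (G.an (n2 G e)) (G.xl (G.an (n2 G e)))

/-- The feet are ends of strict edges. -/
def VisZ (G : VD J) (P : Set (Vx J)) (pL pR : Prop) : Prop :=
  ∀ k ∈ G.K, (pR ∨ G.xl k ∈ P) ∧ (pL ∨ ∃ g ∈ P, g ∈ G.LA ∧ G.nx g = G.xl k)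

theorem SW.vc (h : SW G) (st : StC2 G p Vs pL pR) (hM : MVal (FL G) (XL G) G.Pr M)
    (o : ∀ u ∈ M.us, (PQ2 G P Vs pL pR).Nv (FL G) u) : ∃ d, VC G M d := by
  have hN : G.NoV M.s M.s' := h.vf.nov' hM.hs hM.ps hM.hs' hM.ps' fun k hk e => by
    obtain ⟨t, t1, t0, t2, t3⟩ := st.kid k hk.1
    have : t ∈ G.L (G.f M.s) := by
      have := (h.vf.an_v t1 t0 (t3 ▸ hk.1)).2
      rwa [← show G.f k = G.f M.s from e, ← t3, this]
    exact ⟨t, this, t0, t3, vis_out h.lay hM o this t2 t0⟩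
  obtain ⟨d, a, b, c, e, f, g⟩ := h.vf.mc h.fts hM hN
  exact ⟨d, hM, a, hN, b, c, e, f, g⟩

theorem su2 (hd : VC G M d) (he : e ∈ G.L (G.f M.s)) (l1 : G.ρ M.s ≤ G.ρ e)
    (l2 : G.ρ e < G.ρ M.s') : SS2 G P pL pR e ⊆ (PQ2 G P Vs pL pR).SU (FL G) M := fun _ k =>
  let ⟨u, hu, c⟩ := hd.hM.cov e ⟨he, l1, l2.le⟩ l2
  ⟨u, hu, e, c, k⟩

theorem SW.rng (h : SW G) (hd : VC G M d) (hu : u ∈ M.us) (c : (FL G).Cov u e) :
    e ∈ G.L (G.f M.s) ∧ G.ρ M.s ≤ G.ρ e ∧ G.ρ e < G.ρ M.s' :=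
  let ⟨_, t1, t2⟩ := hd.hM.val u hu
  ⟨(hd.hM.lev h.lay hu : G.f u.s = G.f M.s) ▸ c.1, t1.2.1.trans c.2.1, c.2.2.trans_le t2.2.2⟩

theorem SW.bt (h : SW G) (hd : VC G M d) (hu : u ∈ M.us) (c : (FL G).Cov u e) (pe : e ∈ G.Pr) :
    G.Bt e (n2 G e) ⊆ d.X := by
  obtain ⟨a, b, r⟩ := h.rng hd hu c
  obtain ⟨n1, n2', n3, n4⟩ := h.n2_mem a
  rw [hd.eX]
  exact h.bt_sub hd.hM.hs hd.hM.ps hd.hM.hs' hd.hM.ps' hd.nov a pe n1 n2' b n3.le
    (n4 _ hd.hM.hs' hd.hM.ps' r)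

theorem SW.hb (h : SW G) (hd : VC G M d) (h1 : y ∈ d.X) (hk : y ∉ G.K) (h2 : G.nx y ∈ d.X)
    (g : y ∈ P) : s(y, G.nx y) ∈ (PQ2 G P Vs pL pR).SU (FL G) M := by
  rw [hd.eX] at h1 h2
  obtain ⟨e, a, pe, b, c, m1, m2⟩ :=
    h.row_ex hd.hM.hs hd.hM.ps hd.hM.hs' hd.hM.ps' hd.hM.lt h1 hk h2
  have l := (h.vf.bt_line hd.hM.hs hd.hM.ps hd.hM.hs' hd.hM.ps' hd.hM.lt.le h1 hk).1
  exact su2 hd a b c ⟨pe, mem_PE.2 ⟨m1, m2, (h.vf.toRows.nx_mem l).2.2⟩,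
    Or.inl ⟨y, g, h.vf.toRows.la l, rfl⟩⟩

theorem SW.ssR (h : SW G) (i : IsR2 G e) (r : pR) :
    s(G.an e, G.xl (G.an e)) ∈ SS2 G P pL pR e := by
  obtain ⟨n1, n2', n3, -⟩ := h.n2_mem i.1
  exact ⟨i.2.1, mem_PE.2 ⟨Or.inl rfl, (h.feet_bt i.1 i.2.1 n1 n2' n3.le i.2.2.2.symm).1,
    (h.foot i.2.2.1).2.1⟩, Or.inr (Or.inr ⟨r, i.2.2.1, rfl⟩)⟩

theorem SW.ssL (h : SW G) (i : IsL2 G e) (r : pL) :
    s(G.an (n2 G e), G.xl (G.an (n2 G e))) ∈ SS2 G P pL pR e := by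
  obtain ⟨n1, n2', n3, -⟩ := h.n2_mem i.1
  exact ⟨i.2.1, mem_PE.2 ⟨h.bt_b i.1 i.2.1 n1 n2' n3.le,
    (h.feet_bt i.1 i.2.1 n1 n2' n3.le i.2.2.2).2, (h.foot i.2.2.1).2.1⟩,
    Or.inr (Or.inl ⟨r, i.2.2.1, rfl⟩)⟩

/-- the conditions of the plan on the bottom of a macro cell -/
theorem SW.cel (h : SW G) (hd : VC G M d) (st : StC2 G p Vs pL pR) :
    Cel (FL G) (XL G) p (PQ2 G P Vs pL pR) M d (G.Vis M.s M.s') (G.R (ftL G) M.s M.s')
      (G.Vis M.s M.s') := by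
  classical
  have hs : M.s ∈ G.L (G.f M.s) := hd.hM.hs
  have hs' : M.s' ∈ G.L (G.f M.s) := hd.hM.hs'
  have ps := hd.hM.ps
  have ps' := hd.hM.ps'
  have lt : G.ρ M.s < G.ρ M.s' := hd.hM.lt
  have R := h.vf.toRows
  refine ⟨hd.mc, ?_, fun v hv _ => Or.inl hv, fun y a b c g _ => h.hb hd a b c g,
    ⟨fun x => if x ∈ G.K then G.xl x else
      (if G.an M.s ∈ G.K ∧ x = G.xl (G.an M.s) then G.an M.s else G.an M.s'),
      fun a ha b hb e hk => ?_⟩, fun a ha hk => ?_, fun c _ _ => ?_⟩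
  · rintro f ⟨u, hu, e, c, k⟩
    exact PE.mono (h.bt hd hu c k.1) k.2.1
  · rw [hd.eX] at ha hb
    have hk : a ∈ G.K := hk
    have ne := bt_ne ha hb e.ne
    have nb : b ∉ G.K := fun c => e.ne (h.t_mem ⟨hk, c, h.vf.kn a hk b c e⟩)
    obtain ⟨⟨x, x1, x0, x2, x3, -, x4, x5⟩, z, z1, z0, z2, z3, z4, z5⟩ :=
      h.last hs ps hs' ps' lt ne
    obtain ⟨rfl | rfl, rfl⟩ := h.stem hs ps hs' ps' lt.le ha hb e hk
    · have i : IsR2 G x := ⟨R.la x1, x0, x4 ▸ hk, x4 ▸ x5⟩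
      have cv := hd.hM.cov x ⟨x1, x2, x3.le⟩ x3
      rcases st.payR x i with m | m | m | m
      · exact Or.inl (su2 hd x1 x2 x3 (x4 ▸ h.ssR i m))
      · exact Or.inr (Or.inl (x4 ▸ m))
      · rw [x4] at m
        exact Or.inr (Or.inr (Or.inl ⟨⟨m.1, m.2 ▸ cv⟩, if_pos hk⟩))
      · rw [x4] at m
        exact Or.inr (Or.inr (Or.inr ⟨⟨m.1, m.2 ▸ cv⟩, (if_neg nb).trans (if_pos ⟨hk, rfl⟩)⟩))
    · have i : IsL2 G z := ⟨R.la z1, z0, z5 ▸ hk, z5 ▸ z4⟩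
      have cv := hd.hM.cov z ⟨z1, z2, z3.le⟩ z3
      rcases st.payL z i with m | m | m | m
      · exact Or.inl (su2 hd z1 z2 z3 (z5 ▸ h.ssL i m))
      · exact Or.inr (Or.inl (z5 ▸ m))
      · rw [z5] at m
        exact Or.inr (Or.inr (Or.inl ⟨⟨m.1, m.2 ▸ cv⟩, if_pos hk⟩))
      · rw [z5] at m
        refine Or.inr (Or.inr (Or.inr ⟨⟨m.1, m.2 ▸ cv⟩, (if_neg nb).trans
          (if_neg fun c => ne (h.kq _ c.1 _ hk _ ?_ e.symm))⟩))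
        rw [c.2]
        exact (h.foot c.1).2.1.symm
  · rw [hd.eX] at ha
    have hk : a ∈ G.K := hk
    rw [st.kc a hk]
    rcases h.bt_k ha hk with r | r
    · exact congrArg (fun i => p.cls (i - 1)) (r ▸ (h.vf.an_v hs ps (r ▸ hk)).2)
    · exact congrArg (fun i => p.cls (i - 1)) (r ▸ (h.vf.an_v hs' ps' (r ▸ hk)).2)
  · rw [h.rest hs ps hs' ps']
    exact ⟨c, Rec.empty _ _⟩

/-- the feet are kept -/
theorem SW.vis (h : SW G) (hd : VC G M d) (hv : VisZ G P pL pR) :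
    G.Vis M.s M.s' ⊆ Kp d ((PQ2 G P Vs pL pR).SU (FL G) M) := by
  have hs : M.s ∈ G.L (G.f M.s) := hd.hM.hs
  have hs' : M.s' ∈ G.L (G.f M.s) := hd.hM.hs'
  have ps := hd.hM.ps
  have ps' := hd.hM.ps'
  have lt : G.ρ M.s < G.ρ M.s' := hd.hM.lt
  have R := h.vf.toRows
  have f := h.vf.feet hs ps
  have f' := h.vf.feet hs' ps'
  have m := h.mono hs ps hs' ps' lt.le
  have both : G.an M.s ≠ G.an M.s' → G.xl (G.an M.s) = G.xl (G.an M.s') → G.an M.s ∈ G.K →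
      G.an M.s' ∉ G.K := fun ne e a b =>
    ne (h.kq _ a _ b _ (h.foot a).2.1.symm (e ▸ (h.foot b).2.1.symm))
  rintro v ⟨hb, k | ⟨k, rfl⟩ | ⟨k, rfl⟩⟩
  · exact (h.bt_k hb k).elim (fun r => Or.inl (r.trans hd.ea.symm))
      fun r => Or.inr (Or.inl (r.trans hd.eb.symm))
  · rw [h.sh] at hb ⊢
    have ne := bt_ne hb (Or.inl rfl) fun r => h.vf.l_nk f.1 (by rwa [r])
    obtain ⟨⟨x, x1, x0, x2, x3, -, x4, x5⟩, -⟩ := h.last hs ps hs' ps' lt ne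
    rcases (hv _ k).1 with r | r
    · exact Or.inr (Or.inr ⟨_, su2 hd x1 x2 x3 (h.ssR ⟨R.la x1, x0, x4 ▸ k, x4 ▸ x5⟩ r),
        x4 ▸ Sym2.mem_mk_right _ _⟩)
    · rcases eq_or_lt_of_le m with l | l
      · have e := R.inj f.1 f'.1 l
        exact Or.inr (Or.inl ((e.trans (h.vf.xo _ (both ne e k)).1).trans hd.eb.symm))
      · obtain ⟨m1, m2, -⟩ := R.nx_mem f.1
        exact Or.inr (Or.inr ⟨_, h.hb hd (hd.eX ▸ hb) (h.vf.l_nk f.1)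
          (hd.eX ▸ h.bt_of hs ne m1 (by omega) (by omega)) r, Sym2.mem_mk_left _ _⟩)
  · have ne := bt_ne hb (h.bt_b hs ps hs' ps' lt.le) fun r => h.vf.l_nk f'.1 (by rwa [r])
    obtain ⟨-, x, x1, x0, x2, x3, x4, x5⟩ := h.last hs ps hs' ps' lt ne
    rcases (hv _ k).2 with r | ⟨g, g1, g2, r⟩
    · exact Or.inr (Or.inr ⟨_, su2 hd x1 x2 x3 (h.ssL ⟨R.la x1, x0, x5 ▸ k, x5 ▸ x4⟩ r),
        x5 ▸ Sym2.mem_mk_right _ _⟩)
    · rcases eq_or_lt_of_le m with l | l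
      · have e := R.inj f.1 f'.1 l
        exact Or.inl ((e.symm.trans (h.vf.xo _ fun a => both ne e a k).1).trans hd.ea.symm)
      · obtain ⟨m1, m2, -⟩ := R.nx_mem g2
        rw [r] at m1 m2
        have gl : g ∈ G.L (G.f M.s - 1) := by
          rw [← R.uw.lf _ _ f'.1, R.uw.lf _ _ m1]
          exact g2
        exact Or.inr (Or.inr ⟨_, h.hb hd (hd.eX ▸ h.bt_of hs ne gl (by omega) (by omega))
          (h.vf.l_nk gl) (by rw [r, hd.eX]; exact hb) g1, r ▸ Sym2.mem_mk_right _ _⟩)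

theorem C2.act {F : FD J} {X : XD J} {Pr : Set (Vx J)} (hF : Lay F X Pr) (c : C2 F M y)
    (a : ℤ × ℤ) : C2 F (M.act a) (tr a y) := by
  have l := hF.la (hF.nx_mem c.la).1
  refine ⟨(hF.la_tr a _).2 c.la, ?_, congrArg (tr a) c.es, ?_⟩
  · rw [MU.act, c.us, Set.image_pair, hF.nx_tr a c.la, hF.tv_tr a c.la, hF.tv_tr a l]
  · rw [hF.nx_tr a c.la, hF.nx_tr a l, ← c.es']
    rfl

/-- Every macro cell with one unit over the top edge `e` has a solution of its disc. -/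
def Sp1 (G : VD J) (p : PD J) (q : PQ J) (e : Vx J) : Prop :=
  ∀ M d u, VC G M d → M.us = {u} → q.Ok0 (FL G) u → (FL G).Cov u e →
    q.SU (FL G) M ⊆ PE G.Γ d.X → Sl (FL G) p (q.Ok (FL G)) M d (q.SU (FL G) M) ∅

/-- The root cell under the two edges that begin at `e` has a solution of its disc. -/
def Sp2 (G : VD J) (p : PD J) (q : PQ J) (e : Vx J) : Prop :=
  ∀ M d, VC G M d → C2 (FL G) M e → q.S e ⊆ PE G.Γ d.X →
    Sl (FL G) p (q.Ok (FL G)) M d (q.S e) ∅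

theorem SW.sp2_da (h : SW G) {q : PQ J} (one : (q.S e).Subsingleton) (pd : DAp (FL G) p e) :
    Sp2 G p q e := fun _ _ hd c s => c.da h.lay hd.hM hd.mc s one pd

theorem SW.sp2_ty (h : SW G) {q : PQ J} (a : G.an e = G.an (G.nx (G.nx e))) : Sp2 G p q e :=
  fun _ _ hd c s => c.ty h.lay hd.hM hd.mc (by rw [hd.ea, hd.eb, c.es, c.es']; exact a) s

theorem SW.sp2_zero (h : SW G) {q : PQ J} (n : q.S e = ∅)
    (pd : p.Dn (FL G) e ∨ p.Dn (FL G) (G.nx e)) : Sp2 G p q e := fun _ _ hd c _ =>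
  n ▸ c.zero h.lay hd.hM hd.mc pd

/-- a static special edge: only the cell under the edge itself has to be solved -/
theorem SW.sp1_st (h : SW G) {q : PQ J} (hp : PS (FL G) (XL G) G.Pr p q) (he : e ∈ q.St (FL G))
    (k : ∀ M d, VC G M d → C1 (FL G) M e → q.S e ⊆ PE G.Γ d.X →
      Sl (FL G) p (q.Ok (FL G)) M d (q.S e) ∅) : Sp1 G p q e := by
  intro M d u hd hu o c s
  obtain rfl := hp.stat h.lay (hd.hM.val u (hu ▸ rfl)).1 o he c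
  obtain ⟨-, e1, e2⟩ := one_ends h.lay hd.hM hu
  have c1 : C1 (FL G) M e := ⟨h.lay.la c.1, hu, e1.symm, e2.symm⟩
  rw [c1.su h.lay] at s ⊢
  exact k M d hd c1 s

variable (h : SW G) (hp : PS (FL G) (XL G) G.Pr p (PQ2 G P Vs pL pR)) (st : StC2 G p Vs pL pR)
  (hv : VisZ G P pL pR)
include h hp st hv

theorem SW.csol (hd : VC G M d) (o : ∀ u ∈ M.us, (PQ2 G P Vs pL pR).Ok0 (FL G) u)
    (k : Sl (FL G) p ((PQ2 G P Vs pL pR).Ok (FL G)) M d ((PQ2 G P Vs pL pR).SU (FL G) M) ∅) :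
    CSol (FL G) (XL G) p ((PQ2 G P Vs pL pR).Ok (FL G)) M :=
  hp.csol h.lay hd.hM o (h.cel hd st) (fun _ _ m => m)
    (k.mono subset_rfl fun _ m => Or.inr (h.vis hd hv m))

/-- The colouring: every top edge between cut vertices is ordinary or a translate of it is
special, and a translate of every root cell has a solution. -/
theorem SW.master [Fintype J] (hφ : FK.PH (FL G) G.Pr φ)
    (bar : ∀ y ∈ G.LA, ∃ n, φ^[n] y ∈ (PQ2 G P Vs pL pR).St (FL G))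
    (top : ∀ e ∈ G.LA, e ∈ G.Pr → G.nx e ∈ G.Pr → (PQ2 G P Vs pL pR).Od (FL G) p e ∨
      ∃ a, Sp1 G p (PQ2 G P Vs pL pR) (tr a e))
    (root : ∀ e ∈ G.LA, e ∈ G.Pr → G.nx e ∉ G.Pr → ∃ a, Sp2 G p (PQ2 G P Vs pL pR) (tr a e)) :
    ∃ c, Col1 G.Γ ∅ c := by
  have hF := h.lay
  refine PS.master (F := FL G) hF hp hφ bar fun M hM o => ?_
  have act : ∀ a, ∀ t ∈ (M.act a).us, (PQ2 G P Vs pL pR).Ok0 (FL G) t := by
    rintro a _ ⟨t, ht, rfl⟩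
    exact (hp.act hF a (hM.val t ht).1).1 (o t ht)
  have back : ∀ a, (∀ d, VC G (M.act a) d → Sl (FL G) p ((PQ2 G P Vs pL pR).Ok (FL G)) (M.act a) d
      ((PQ2 G P Vs pL pR).SU (FL G) (M.act a)) ∅) →
      CSol (FL G) (XL G) p ((PQ2 G P Vs pL pR).Ok (FL G)) M := fun a k => by
    have hM' := hF.mval_tr a hM
    obtain ⟨d, hd⟩ := h.vc (P := P) st hM' fun t ht => (act a t ht).nv
    have := csol_tr hF (hp.plan hF) (fun a u hu => (hp.act hF a hu).2) (-a) hM'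
      (h.csol hp st hv hd (act a) (k d hd))
    rwa [MU.act_act, add_neg_cancel, MU.act_zero] at this
  have hq : PS (FL G) (XL G) G.Pr p ⟨P, Vs, fun _ => ∅, fun _ => False, ∅⟩ :=
    ⟨hp.pl, hp.gtr, hp.vtr, hp.htr, hp.ctr, hp.up, hp.cc, hp.vis, hp.row, hp.np⟩
  have od : ∀ y, PQ.Od ⟨P, Vs, fun _ => ∅, fun _ => False, ∅⟩ (FL G) p y := fun _ =>
    ⟨Set.subsingleton_empty, fun n => absurd n Set.not_nonempty_empty⟩
  rcases PS.kinds hF hq hM o h.iso fun y _ _ _ => Or.inl (od y) with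
    ⟨u, hu, -⟩ | ⟨-, -, n⟩ | ⟨c, n⟩
  · have mu : u ∈ M.us := hu ▸ rfl
    have vu := (hM.val u mu).1
    obtain ⟨-, e1, e2⟩ := one_ends hF hM hu
    have pr : ∀ e, (FL G).Cov u e → e ∈ G.Pr ∧ G.nx e ∈ G.Pr := fun e c => by
      by_contra n
      have := hp.stat hF vu (o u mu) (hp.np e (hF.la c.1) (not_and_or.1 n)) c
      subst this
      exact n ⟨(show e = M.s from e1) ▸ hM.ps, (show G.nx e = M.s' from e2) ▸ hM.ps'⟩
    by_cases c : ∃ e, (FL G).Cov u e ∧ ∃ a, Sp1 G p (PQ2 G P Vs pL pR) (tr a e)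
    · obtain ⟨e, c, a, k⟩ := c
      have us : (M.act a).us = {u.act a} := by rw [MU.act, hu, Set.image_singleton]
      exact back a fun d hd => k _ d _ hd us (act a _ (us ▸ rfl)) ((hF.cov_tr a e vu).2 c)
        (h.cel hd st).sub
    · obtain ⟨d, hd⟩ := h.vc (P := P) st hM fun t ht => (o t ht).nv
      exact h.csol hp st hv hd o (hp.ord hF hM hu (o u mu) hd.mc (h.cel hd st).sub fun e m =>
        (top e (hF.la m.1) (pr e m).1 (pr e m).2).resolve_right fun g => c ⟨e, m, g⟩)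
  · exact absurd (od _) n
  · obtain ⟨a, k⟩ := root _ hM.hs hM.ps n
    refine back a fun d hd => ?_
    have e : (PQ2 G P Vs pL pR).SU (FL G) (M.act a) = (PQ2 G P Vs pL pR).S (tr a M.s) := by
      rw [(c.act hF a).su hF]
      refine Set.union_eq_left.2 fun f m => absurd m.1 ?_
      rw [hF.nx_tr a c.la, hF.p_tr]
      exact n
    have s := (h.cel (P := P) hd st).sub
    rw [e] at s ⊢
    exact k _ d hd (c.act hF a) s

end Pool.Agent.P.MP_08fd93_co.FE
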