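import Pool.Agent.P.MP_08fd93_co.FE.LZ3
import Pool.Agent.P.MP_08fd93_co.FK.K4
import Pool.Agent.P.MP_08fd93_co.FR.Fun

/-! The frame of a long second root: a system of pins gives the colouring. -/

set_option autoImplicit false

namespace Pool.Agent.P.MP_08fd93_co.FE

open OV PkPrtP FB FN FZ FK

variable {J : Type} {G : VD J} {j : ℤ} {v z l r e g k t x y : Vx J} {P Vs Src Snk : Set (Vx J)}
  {pL pR : Prop} {p : PD J} {M : MU J} {d : DD (Vx J)} {u : Un J} {φ : Vx J → Vx J}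
  {f : Sym2 (Vx J)} {A : Set (Sym2 (Vx J))}

theorem SW.und_iff (h : SW G) (hφ : PH (FL G) G.Pr φ) (he : e ∈ G.LA) (pe : e ∈ G.Pr)
    (hg : g ∈ G.LA) : s(g, G.nx g) ∈ PE G.Γ (G.Bt e (n2 G e)) ↔ φ g = e := by
  have R := h.vf.toRows
  replace he : e ∈ G.L (G.f e) := he
  replace hg : g ∈ G.L (G.f g) := hg
  obtain ⟨n1, n2', n3, n4⟩ := h.n2_mem he
  obtain ⟨m1, m2, m3⟩ := R.nx_mem hg
  rw [mem_PE]
  constructor
  · rintro ⟨a, b, -⟩
    obtain ⟨a1, a2, -⟩ := h.line he pe n1 n2' n3.le a (h.vf.l_nk hg)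
    obtain ⟨-, -, b3⟩ := h.line he pe n1 n2' n3.le b (h.vf.l_nk m1)
    have lv : G.f g + 1 = G.f e := by rw [R.uw.lf _ _ a1, sub_add_cancel]
    refine (hφ.uni g hg e ⟨?_, pe, a2, fun t ht pt l => ?_⟩).symm
    · show e ∈ G.L (G.f g + 1)
      rwa [lv]
    · have ht : t ∈ G.L (G.f e) := lv ▸ ht
      have := h.mono n1 n2' ht pt (n4 t ht pt l)
      show G.ρ g < G.ρ (G.xl (G.an t))
      omega
  · rintro rfl
    obtain ⟨u1, -, u3, u4⟩ := hφ.und g hg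
    have lv : G.f (φ g) = G.f g + 1 := R.uw.lf _ _ u1
    have u3 : G.ρ (G.xl (G.an (φ g))) ≤ G.ρ g := u3
    have u5 : G.ρ g < G.ρ (G.xl (G.an (n2 G (φ g)))) :=
      u4 _ (show _ ∈ G.L (G.f g + 1) from lv ▸ n1) n2' n3
    have gl : g ∈ G.L (G.f (φ g) - 1) := by rwa [lv, add_sub_cancel_right]
    have ml : G.nx g ∈ G.L (G.f (φ g) - 1) := by rwa [lv, add_sub_cancel_right]
    have ne : G.an (φ g) ≠ G.an (n2 G (φ g)) := fun c => by
      rw [← c] at u5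
      omega
    exact ⟨h.bt_of he ne gl u3 u5.le, h.bt_of he ne ml (by omega) (by omega), m3⟩

/-- the strict edges under `e` -/
theorem SW.ss_iff (h : SW G) (hφ : PH (FL G) G.Pr φ) (he : e ∈ G.LA) (pe : e ∈ G.Pr) :
    f ∈ SS2 G P pL pR e ↔ (∃ g ∈ P, g ∈ G.LA ∧ φ g = e ∧ f = s(g, G.nx g)) ∨
      (pL ∧ IsL2 G e ∧ f = s(G.an (n2 G e), G.xl (G.an (n2 G e)))) ∨
      (pR ∧ IsR2 G e ∧ f = s(G.an e, G.xl (G.an e))) := by
  constructor
  · rintro ⟨-, a, ⟨g, g1, g2, rfl⟩ | ⟨r, m, rfl⟩ | ⟨r, m, rfl⟩⟩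
    · exact Or.inl ⟨g, g1, g2, (h.und_iff hφ he pe g2).1 a, rfl⟩
    · have := mem_PE.1 a
      exact Or.inr (Or.inl ⟨r, ⟨he, pe, m, bt_ne this.1 this.2.1 this.2.2.ne⟩, rfl⟩)
    · have := mem_PE.1 a
      exact Or.inr (Or.inr ⟨r, ⟨he, pe, m, (bt_ne this.1 this.2.1 this.2.2.ne).symm⟩, rfl⟩)
  · rintro (⟨g, g1, g2, g3, rfl⟩ | ⟨r, i, rfl⟩ | ⟨r, i, rfl⟩)
    exacts [⟨pe, (h.und_iff hφ he pe g2).2 g3, Or.inl ⟨g, g1, g2, rfl⟩⟩, h.ssL i r, h.ssR i r]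

/-- The cell under the static edge `e` has an output with the strict edges `A`. -/
def St1 (G : VD J) (e : Vx J) (A : Set (Sym2 (Vx J))) (Ψ : (Vx J → Col) → Set (Vx J) → Prop) :
    Prop := ∀ M d, VC G M d → C1 (FL G) M e → ∃ X' Q, OutX G.Γ d A X' Q Ψ

/-- In every macro cell over `e` the edges of `A` lie in the span of one vertex. -/
def Spn (G : VD J) (e : Vx J) (A : Set (Sym2 (Vx J))) : Prop :=
  ∃ f f', A ⊆ {f, f'} ∧ ∀ M d u, VC G M d → u ∈ M.us → (FL G).Cov u e →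
    f ∈ PE G.Γ d.X ∧ f' ∈ PE G.Γ d.X ∧ ∃ w, (w ∈ d.I ∨ w ∈ d.Y) ∧ ∃ a ∈ d.X, ∃ b ∈ d.X,
      G.Γ.Adj w a ∧ G.Γ.Adj w b ∧ ∀ x, x ∈ f ∨ x ∈ f' → d.ρ a ≤ d.ρ x ∧ d.ρ x ≤ d.ρ b

theorem St1.mono {Ψ : (Vx J → Col) → Set (Vx J) → Prop} {A' : Set (Sym2 (Vx J))}
    (h : St1 G e A Ψ) (s : A' ⊆ A) : St1 G e A' Ψ := fun M d hd c =>
  let ⟨X', Q, k⟩ := h M d hd c
  ⟨X', Q, k.mono s⟩

theorem Spn.mono {A' : Set (Sym2 (Vx J))} (h : Spn G e A) (s : A' ⊆ A) : Spn G e A' :=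
  let ⟨f, f', a, b⟩ := h
  ⟨f, f', s.trans a, b⟩

theorem st2 : e ∈ (PQ2 G P Vs pL pR).St (FL G) ↔ e ∈ P ∨ (e ∈ Vs ∧ G.nx e ∈ Vs) :=
  or_congr_left (and_iff_left fun k => k)

/-- an edge that is paid below over two edges in the span of one vertex; caps are allowed -/
theorem SW.sp1_sp (h : SW G) (hp : PS (FL G) (XL G) G.Pr p (PQ2 G P Vs pL pR))
    (sp : Spn G e (SS2 G P pL pR e)) (d0 : p.Dn (FL G) e)
    (dn : ∀ y ∈ G.LA, y ∉ P → (SS2 G P pL pR y).Nonempty → p.Dn (FL G) y) :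
    Sp1 G p (PQ2 G P Vs pL pR) e := by
  intro M d u hd hu o c _
  have hF := h.lay
  have mu : u ∈ M.us := hu ▸ rfl
  have vu := (hd.hM.val u mu).1
  obtain ⟨f, f', sub, k⟩ := sp
  obtain ⟨m, m', w, hw, a, ha, b, hb, wa, wb, r⟩ := k M d u hd mu c
  have key := fun pd => sl_sp (p := p) (Ok := (PQ2 G P Vs pL pR).Ok (FL G)) hF hd.hM hd.mc hu
    hw ha hb wa wb m m' r pd
  have mem : (∀ y, (FL G).Cov u y → (SS2 G P pL pR y).Nonempty → y = e) →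
      (PQ2 G P Vs pL pR).SU (FL G) M ⊆ {f, f'} := by
    rintro one f ⟨t, ht, y, m, k⟩
    rw [hu] at ht
    subst ht
    exact sub (one y m ⟨f, k⟩ ▸ k)
  by_cases n : u.x = u.s
  · have one : ∀ y, (FL G).Cov u y → y = u.s := fun y c => hF.tv_cov vu.hs (hF.eq_tv vu n ▸ c)
    exact (key fun _ => t1_dn hF vu mu n (one e c ▸ d0)).mono
      (mem fun y m _ => (one y m).trans (one e c).symm) (Set.empty_subset _)
  · have os := o.resolve_right fun k => k.2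
    have pt := hp.pt hF os n
    have db := fun y (m : (FL G).Cov u y) =>
      hp.pl.up_dn hF (hF.la m.1) (hp.up y (hF.la m.1) (os.2 n y m))
    obtain ⟨k1, k2⟩ := chain_dbl hF vu pt c (db e c d0)
    exact (key fun ok => t1_cap (hp.plan hF) vu ok mu n k1 k2).mono
      (mem fun y m s => chain_uni hF pt m c (db y m (dn y (hF.la m.1) (os.2 n y m) s))
        (db e c d0)) (Set.empty_subset _)

/-- The frame: the stems are the translates of the spike `v` over the parentless vertex `z`;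
`l` and `r` name the edges at the ends of the children of `v`. -/
structure ZR (G : VD J) (v z l r : Vx J) : Prop where
  sw : SW G
  eK : ∀ x, x ∈ G.K ↔ x.1 = v.1
  eP : ∀ x, x ∈ G.Pr ↔ x.1 ≠ z.1
  fv : G.f v = 1
  xv : G.xl v = z
  hl : l ∈ G.L 1 ∧ G.an (G.nx l) = v ∧ G.an l ≠ v
  hr : r ∈ G.L 1 ∧ G.an r = v ∧ G.an (G.nx r) ≠ v
  n3 : ∀ j, 3 ≤ G.nn j
  kid : ∃ n : ℕ, (∀ i ≤ n, (ftL G)^[i] (pv (FL G) z) ∈ G.Pr) ∧
    G.an ((ftL G)^[n] (pv (FL G) z)) ∈ G.K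

section

variable (h : ZR G v z l r)
include h

theorem ZR.rows : Rows G.toFD := h.sw.vf.toRows

theorem ZR.vk : v ∈ G.K := (h.eK v).2 rfl

theorem ZR.z0 : z ∈ G.L 0 ∧ G.Γ.Adj v z := by
  have := h.sw.foot h.vk
  rw [h.fv, h.xv] at this
  exact ⟨this.1, this.2.1⟩

theorem ZR.k_tr (hk : k ∈ G.K) : ∃ a, k = tr a v ∧ G.xl k = tr a z := by
  obtain ⟨a, rfl⟩ : ∃ a, k = tr a v := ⟨_, orb_eq ((h.eK k).1 hk)⟩
  exact ⟨a, rfl, by rw [(h.sw.vf.xtr a v).1, h.xv]⟩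

theorem ZR.la_nk (hy : y ∈ G.LA) : y.1 ≠ v.1 := fun c => h.sw.vf.l_nk hy ((h.eK y).2 c)

theorem ZR.odd (hk : k ∈ G.K) : Odd (G.f k) := by
  obtain ⟨a, rfl, -⟩ := h.k_tr hk
  rw [h.rows.wp.per, h.fv]
  exact (h.rows.wp.ev a).one_add

/-- odd rows consist of cut vertices -/
theorem ZR.pr (hy : y ∈ G.L j) (o : Odd j) : y ∈ G.Pr := (h.eP y).2 fun c => by
  have := h.rows.uw.lf _ _ hy
  rw [orb_eq c, h.rows.wp.per, h.rows.uw.lf _ _ h.z0.1, zero_add] at this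
  exact Int.not_even_iff_odd.2 o (this ▸ h.rows.wp.ev _)

theorem ZR.n2 (hy : y ∈ G.L j) (o : Odd j) : n2 G y = G.nx y :=
  n2_p (h.pr (h.rows.nx_mem hy).1 o)

theorem ZR.isL (i : IsL2 G e) : ∃ a, e = tr a l ∧ G.an (FE.n2 G e) = tr a v := by
  obtain ⟨he, pe, i1, i2⟩ := i
  replace he : e ∈ G.L (G.f e) := he
  obtain ⟨a, ha, -⟩ := h.k_tr i1
  have R := h.rows
  have V := h.sw.vf
  obtain ⟨q1, q2, -⟩ := h.sw.n2_mem he
  have f1 := (V.an_v q1 q2 i1).2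
  have o : Odd (G.f e) := f1 ▸ h.odd i1
  rw [ha, R.wp.per, h.fv] at f1
  have m : tr a l ∈ G.L (G.f e) := f1 ▸ (R.uw.ltr a 1 l).2 h.hl.1
  have e1 : G.an (G.nx (tr a l)) = tr a v := by rw [R.nx_tr a h.hl.1, V.atr, h.hl.2.1]
  obtain ⟨n1, n2', -⟩ := R.nx_mem he
  obtain ⟨m1, m2, -⟩ := R.nx_mem m
  refine ⟨a, R.inj he m ?_, ha⟩
  rw [h.n2 he o] at ha i1 i2
  by_contra c
  rcases lt_or_gt_of_ne c with c | c
  · have := V.btw n1 (h.pr n1 o) m (h.pr m o) m1 (h.pr m1 o) (by omega) (by omega)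
      (ha.trans e1.symm) i1
    rw [ha, V.atr] at this
    exact h.hl.2.2 (tr_inj a this)
  · exact i2 ((V.btw m1 (h.pr m1 o) he pe n1 (h.pr n1 o) (by omega) (by omega)
      (e1.trans ha.symm) (e1.symm ▸ ha ▸ i1)).trans (e1.trans ha.symm))

theorem ZR.isR (i : IsR2 G e) : ∃ a, e = tr a r ∧ G.an e = tr a v := by
  obtain ⟨he, pe, i1, i2⟩ := i
  replace he : e ∈ G.L (G.f e) := he
  obtain ⟨a, ha, -⟩ := h.k_tr i1
  have R := h.rows
  have V := h.sw.vf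
  have f1 := (V.an_v he pe i1).2
  have o : Odd (G.f e) := f1 ▸ h.odd i1
  rw [ha, R.wp.per, h.fv] at f1
  have m : tr a r ∈ G.L (G.f e) := f1 ▸ (R.uw.ltr a 1 r).2 h.hr.1
  have e1 : G.an (tr a r) = tr a v := by rw [V.atr, h.hr.2.1]
  obtain ⟨n1, n2', -⟩ := R.nx_mem he
  obtain ⟨m1, m2, -⟩ := R.nx_mem m
  refine ⟨a, R.inj he m ?_, ha⟩
  rw [h.n2 he o] at i2
  by_contra c
  rcases lt_or_gt_of_ne c with c | c
  · exact i2 (V.btw he pe n1 (h.pr n1 o) m (h.pr m o) (by omega) (by omega)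
      (ha.trans e1.symm) i1)
  · have := V.btw m (h.pr m o) m1 (h.pr m1 o) he pe (by omega) (by omega)
      (e1.trans ha.symm) (e1.symm ▸ ha ▸ i1)
    rw [e1, R.nx_tr a h.hr.1, V.atr] at this
    exact h.hr.2.2 (tr_inj a this)

/-- The plan: the root differs from its foot and pays in the cell under `e0`. -/
theorem ZR.plan {D : ED J} (hE : EOk (FL G) D) (e0 : Vx J) :
    ∃ p : PD J, RP (FL G) D p.c p.o p.dn ∧ Plan0 (FL G) (XL G) p ∧
      (∀ k ∈ G.K, (p.c k.1).1 = p.cls (G.f k - 1)) ∧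
      ∀ a, p.o (tr a v) = tr a v ∧ p.kc (tr a v) = tr a e0 := by
  classical
  have hF := h.sw.lay
  have R := h.rows
  have V := h.sw.vf
  obtain ⟨c0, o0, dn, hR⟩ := rp_ex hF R.wp.ev hE
  let c : J → Col := fun i => if i = v.1 then ((c0 z.1).1, !(c0 z.1).2) else c0 i
  let o : Vx J → Vx J := fun x => if x.1 = v.1 then x else o0 x
  let p1 : PD J := ⟨c, o, dn, fun _ => c0 z.1, fun j => decide (Even j), fun x => tr (x.2 - v.2) e0⟩
  let p : PD J := { p1 with cx := cxS (FL G) p1 }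
  have ec : ∀ x ∈ G.LA, p.c x.1 = c0 x.1 := fun x hx => if_neg (h.la_nk hx)
  replace hR : RP (FL G) D p.c p.o p.dn :=
    hR.congr hF ec (fun x hx => if_neg (h.la_nk hx)) fun _ _ => Iff.rfl
  have zl := R.la h.z0.1
  have cv : p.c v.1 = ((p.c z.1).1, !(p.c z.1).2) := by
    rw [ec z zl]
    exact if_pos rfl
  have kc : ∀ k ∈ G.K, (p.c k.1).1 = decide (Even (G.f k - 1)) := fun k hk => by
    have e1 : (p.c z.1).1 = decide (Even (G.f z)) := hR.cl z zl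
    rw [R.uw.lf _ _ h.z0.1] at e1
    rw [(h.eK k).1 hk, cv, decide_eq_true ((h.odd hk).sub_odd odd_one)]
    simpa using e1
  refine ⟨p, hR, ⟨fun j => ?_, hR.cl, fun a x hx => ?_, fun a x _ => tr_sub a x v e0,
    fun k hk y hy a e => ?_, fun y hy => hR.mono hF hE hy, fun _ => rfl⟩, kc,
    fun a => ⟨if_pos rfl, ?_⟩⟩
  · simp only [p, p1, ne_eq, decide_eq_decide, Int.even_add_one]
    tauto
  · rcases hx with hx | hx
    · exact hR.otr hF hE a hx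
    · have k1 := (h.eK x).1 hx
      exact (if_pos (show (tr a x).1 = v.1 from k1)).trans (congrArg _ (if_pos k1).symm)
  · exfalso
    have hk : k ∈ G.K := hk
    have hy : y ∈ G.LA := hy.resolve_right fun b =>
      a.ne (h.sw.t_mem ⟨hk, b, V.kn k hk y b a⟩)
    rcases R.att (V.kst k hk) a with q | q | q
    · have := R.uw.ge _ _ q.1
      rcases eq_or_lt_of_le this with c | c
      exacts [q.2 (Or.inl (c ▸ hy)), q.2 (Or.inr (R.uw.mono _ _ c (R.l_u hy)))]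
    · obtain ⟨b, rfl, e'⟩ := h.k_tr hk
      rw [(h.sw.foot hk).2.2 y q a, e'] at e
      exact flip_ne _ (cv.symm.trans e.symm)
    · have c2 : (p.c y.1).1 = decide (Even (G.f y)) := hR.cl y hy
      rw [e, kc k hk, R.uw.lf _ _ q, decide_eq_decide, Int.even_sub_one] at c2
      tauto
  · show tr ((tr a v).2 - v.2) e0 = _
    rw [tr_sub, sub_self, tr_zero]

end

/-- The special entries of the table of top edges. -/
def Tb1 (G : VD J) (φ : Vx J → Vx J) (P Src Snk : Set (Vx J)) (e : Vx J)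
    (A : Set (Sym2 (Vx J))) : Prop :=
  (e ∈ P ∧ St1 G e A fun _ _ => True) ∨
    (e ∈ P ∧ G.nx e ∉ AS (FL G) Src Snk ∧ St1 G e A fun c B => c e = c (G.nx e) ∨ G.nx e ∈ B) ∨
    ((e ∈ Snk ∨ (e ∈ P ∧ e ∉ Src)) ∧ (∃ n, φ^[n] e ∈ P) ∧ Spn G e A)

/-- A system of pins `P` with sources and sinks. -/
structure ZS (G : VD J) (φ : Vx J → Vx J) (z : Vx J) (P Src Snk : Set (Vx J)) (pL pR : Prop) :
    Prop where
  ig : ∀ a, ∀ x ∈ P, tr a x ∈ P
  is : ∀ a, ∀ x ∈ Src, tr a x ∈ Src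
  ik : ∀ a, ∀ x ∈ Snk, tr a x ∈ Snk
  la : P ⊆ G.LA
  sg : Src ⊆ P
  dis : ∀ x ∈ Src, x ∉ Snk
  exs : ∀ j, ∃ g ∈ G.L j, g ∈ Src
  exk : ∀ j, ∃ g ∈ G.L j, g ∈ Snk
  uni : ∀ j, ∀ s ∈ G.L j, ∀ t ∈ G.L j, s ∈ Snk → t ∈ Snk → s.1 = t.1
  fl : pL ∨ pR
  z1 : pv (FL G) z ∈ Src
  z2 : z ∈ P
  z3 : z ∉ Snk
  root : ∀ g ∈ P, ∀ g' ∈ P, φ g = pv (FL G) z → φ g' = pv (FL G) z → g = g'
  top : ∀ e ∈ G.LA, e ∈ G.Pr → G.nx e ∈ G.Pr → SS2 G P pL pR e = ∅ ∨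
    ((SS2 G P pL pR e).Subsingleton ∧ (e ∈ Snk ∨ (e ∈ P ∧ e ∉ Src))) ∨
    (e ∈ Snk ∧ e ∈ P ∧ ∃ f f', SS2 G P pL pR e ⊆ {f, f'}) ∨
    ∃ a, Tb1 G φ P Src Snk (tr a e) (SS2 G P pL pR (tr a e))

theorem col3 : ∀ a b c : Col, a.1 = b.1 → b.1 = c.1 → b ≠ a → c ≠ b → a = c := by decide

theorem ZS.col [Fintype J] (h : ZR G v z l r) (hφ : PH (FL G) G.Pr φ)
    (H : ZS G φ z P Src Snk pL pR) : ∃ c, Col1 G.Γ ∅ c := by
  classical
  have hF := h.sw.lay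
  have R := h.rows
  have V := h.sw.vf
  have zl := R.la h.z0.1
  obtain ⟨y1, -, y3⟩ := pv_mem hF h.z0.1
  obtain ⟨W, rk, N, hw⟩ := pw_ex (fun a x k => (hF.la_tr a x).2 k) H.ig hφ.eqv
  have hE : EOk (FL G) ⟨Src, Snk, Snk, ∅, P ∪ W, ∅⟩ := by
    refine ⟨H.is, H.ik, H.ik, fun _ _ k => k, fun a x k => k.imp (H.ig a x) (hw.inv a x).2,
      fun _ _ k => k, H.dis, fun _ k => k, fun _ k => k.elim, H.exk, fun j x hx y hy a b l => ?_⟩
    obtain ⟨k, -, e⟩ := same_cls hF hx hy (H.uni j x hx y hy a b)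
    obtain ⟨g, hg, m⟩ := H.exs j
    obtain ⟨t, t1, t2⟩ := window hF hg ((FL G).ρ x)
    have m1 := (hF.w_mem t hg).1
    have m2 := H.is (t • (FL G).w) g m
    have n2 := hF.n2 j
    refine ⟨_, m1, m2, lt_of_le_of_ne t1 fun q => H.dis _ m2 (hF.inj hx m1 q ▸ a), ?_⟩
    rcases le_or_gt k 0 with c | c <;> nlinarith
  obtain ⟨p, hR, pl, kc, pay⟩ := h.plan hE (if pL then r else l)
  let En : Set (Vx J) := {x | ∃ g ∈ P, x = g ∨ x = G.nx g}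
  let Vs : Set (Vx J) :=
    {x | ∃ n : ℕ, ∃ y ∈ En, (∀ i < n, (ftL G)^[i] y ∈ G.Pr) ∧ x = (ftL G)^[n] y}
  have ie : ∀ a, ∀ x ∈ En, tr a x ∈ En := by
    rintro a x ⟨g, hg, e⟩
    refine ⟨_, H.ig a g hg, ?_⟩
    rw [R.nx_tr a (H.la hg)]
    exact e.imp (congrArg _) (congrArg _)
  have itr : ∀ a y (n : ℕ), (ftL G)^[n] (tr a y) = tr a ((ftL G)^[n] y) := fun a y n =>
    (Function.Semiconj.iterate_right (f := tr a) (ga := ftL G) (gb := ftL G) (fun x => by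
      rw [ftL, ftL, V.atr, (V.xtr a _).1]) n y).symm
  have ila : ∀ y ∈ G.LA, ∀ n : ℕ, (∀ i < n, (ftL G)^[i] y ∈ G.Pr) → (ftL G)^[n] y ∈ G.LA := by
    intro y hy n
    induction n with
    | zero => exact fun _ => hy
    | succ n ih =>
      intro k
      rw [Function.iterate_succ_apply']
      exact hF.la (hF.anL _ _ (ih fun i l => k i (by omega)) (k n (by omega)))
  have le : ∀ x ∈ En, x ∈ G.LA := by
    rintro x ⟨g, hg, rfl | rfl⟩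
    exacts [H.la hg, nx_la hF (H.la hg)]
  have iv : ∀ a, ∀ x ∈ Vs, tr a x ∈ Vs := by
    rintro a x ⟨n, y, hy, k, rfl⟩
    exact ⟨n, _, ie a y hy, fun i l => by rw [itr]; exact V.ptr a _ (k i l), (itr a y n).symm⟩
  have np : ∀ y ∈ G.LA, y ∉ G.Pr → ∃ a, y = tr a z := fun y _ n =>
    ⟨_, orb_eq (not_not.1 fun c => n ((h.eP y).2 c))⟩
  have np' : ∀ y ∈ G.LA, G.nx y ∉ G.Pr → ∃ a, y = tr a (pv (FL G) z) := fun y hy n => by
    obtain ⟨a, e⟩ := np _ (nx_la hF hy) n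
    exact ⟨a, by rw [← pv_tr hF a zl, ← e]; exact (pv_nx hF (j := G.f y) hy).symm⟩
  have hp : PS (FL G) (XL G) G.Pr p (PQ2 G (P ∪ W) Vs pL pR) := by
    refine ⟨pl, inv_iff hE.ipin, inv_iff iv, fun _ _ => Iff.rfl, fun _ _ k => k,
      fun y hy m => Or.inr (hR.up hF hE hy (fun k => m (Or.inl (H.sg k))) m), fun _ _ k => k.elim,
      ?_, fun j => ?_, fun y hy k => st2.2 (Or.inl (Or.inl ?_))⟩
    · rintro x ⟨_ | n, y, hy, k, rfl⟩ -
      · obtain ⟨g, hg, e⟩ := hy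
        exact Or.inl ⟨g, Or.inl hg, H.la hg, e⟩
      · exact Or.inr (Or.inl ⟨_, ⟨n, y, hy, fun i l => k i (by omega), rfl⟩,
          ila y (le y hy) n fun i l => k i (by omega), k n (by omega),
          (Function.iterate_succ_apply' _ _ _).symm⟩)
    · obtain ⟨g, hg, m⟩ := H.exs j
      rcases h.sw.iso g (R.la hg) with c | c
      exacts [⟨g, hg, c, 0, g, ⟨g, H.sg m, Or.inl rfl⟩, fun _ l => absurd l (Nat.not_lt_zero _), rfl⟩,
        ⟨_, (R.nx_mem hg).1, c, 0, _, ⟨g, H.sg m, Or.inr rfl⟩,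
          fun _ l => absurd l (Nat.not_lt_zero _), rfl⟩]
    · rcases k with k | k
      · obtain ⟨a, rfl⟩ := np y hy k
        exact H.ig a _ H.z2
      · obtain ⟨a, rfl⟩ := np' y hy k
        exact H.ig a _ (H.sg H.z1)
  have st : StC2 G p Vs pL pR := by
    refine ⟨fun k hk => ?_, kc, fun e i => ?_, fun e i => ?_⟩
    · obtain ⟨n, k1, k2⟩ := h.kid
      have k3 : ∀ i < n, (ftL G)^[i] (pv (FL G) z) ∈ G.Pr := fun i l => k1 i l.le
      refine ⟨tr (k.2 - (G.an ((ftL G)^[n] (pv (FL G) z))).2) ((ftL G)^[n] (pv (FL G) z)),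
        (hF.la_tr _ _).2 (ila _ (hF.la y1) n k3), V.ptr _ _ (k1 n le_rfl),
        iv _ _ ⟨n, _, ⟨_, H.sg H.z1, Or.inl rfl⟩, k3, rfl⟩, ?_⟩
      rw [V.atr]
      exact (orb_eq (((h.eK k).1 hk).trans ((h.eK _).1 k2).symm)).symm
    · by_cases c : pL
      · obtain ⟨a, rfl, e⟩ := h.isR i
        rw [if_pos c] at pay
        exact Or.inr (Or.inr (Or.inl (e ▸ pay a)))
      · exact Or.inl (H.fl.resolve_left c)
    · by_cases c : pL
      · exact Or.inl c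
      · obtain ⟨a, rfl, e⟩ := h.isL i
        rw [if_neg c] at pay
        exact Or.inr (Or.inr (Or.inl (e ▸ pay a)))
  have hv : VisZ G (P ∪ W) pL pR := fun k hk => by
    obtain ⟨a, -, e⟩ := h.k_tr hk
    rw [e]
    exact ⟨Or.inr (Or.inl (H.ig a _ H.z2)), Or.inr ⟨_, Or.inl (H.ig a _ (H.sg H.z1)),
      (hF.la_tr a _).2 (hF.la y1), (hF.nx_tr a y1).trans (congrArg _ y3)⟩⟩
  have ss : ∀ e ∈ G.LA, ∀ f ∈ SS2 G (P ∪ W) pL pR e, f ∈ SS2 G P pL pR e ∨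
      ∃ g ∈ W, φ g = e ∧ f = s(g, G.nx g) := by
    rintro e he f ⟨pe, m, ⟨g, g1 | g1, g2, rfl⟩ | k⟩
    exacts [Or.inl ⟨pe, m, Or.inl ⟨g, g1, g2, rfl⟩⟩,
      Or.inr ⟨g, g1, (h.sw.und_iff hφ he pe g2).1 m, rfl⟩, Or.inl ⟨pe, m, Or.inr k⟩]
  have nw : ∀ e ∈ G.LA, e ∉ W → SS2 G (P ∪ W) pL pR e ⊆ SS2 G P pL pR e := fun e he n f m =>
    (ss e he f m).resolve_right fun ⟨g, a, b, _⟩ => n (b ▸ hw.up g a)
  have pd : ∀ e ∈ G.LA, e ∈ Snk ∨ (e ∈ P ∧ e ∉ Src) → p.Dn (FL G) e := fun e he k =>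
    Or.inr (k.elim (hR.snk_down hF hE he) fun k => hR.down hF he k.2 (Or.inl k.1))
  have t2 : ∀ e ∈ G.LA, e ∈ Snk → e ∈ P ∪ W → (∃ f f', SS2 G (P ∪ W) pL pR e ⊆ {f, f'}) →
      ∃ a, Sp1 G p (PQ2 G (P ∪ W) Vs pL pR) (tr a e) := fun e he s m two =>
    have a := hR.snk hF hE he s
    have b := hR.snk_dn hF hE he s
    ⟨0, (tr_zero e).symm ▸ h.sw.sp1_st hp (st2.2 (Or.inl m)) fun M d hd c k =>
      c.eb hF hd.hM hd.mc k two (Or.inr ⟨a.1, b.1.2 (Or.inl m), a.2, b.2.2 (Or.inl m)⟩)⟩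
  have wn : ∀ e ∈ W, ∀ n : ℕ, φ^[n] e ∈ W := fun e he n => by
    induction n with
    | zero => exact he
    | succ n ih =>
      rw [Function.iterate_succ_apply']
      exact hw.up _ ih
  have dn : ∀ y ∈ G.LA, y ∉ P ∪ W → (SS2 G (P ∪ W) pL pR y).Nonempty → p.Dn (FL G) y := by
    rintro y hy n ⟨f, m⟩
    have m' := nw y hy (fun k => n (Or.inr k)) m
    have pn : G.nx y ∈ G.Pr := by
      by_contra c
      obtain ⟨a, rfl⟩ := np' y hy c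
      exact n (Or.inl (H.ig a _ (H.sg H.z1)))
    rcases H.top y hy m.1 pn with k | k | k | ⟨a, k | k | k⟩
    exacts [(k ▸ m').elim, pd y hy k.2, absurd (Or.inl k.2.1) n,
      absurd (Or.inl ((inv_iff H.ig a y).1 k.1)) n, absurd (Or.inl ((inv_iff H.ig a y).1 k.1)) n,
      pd y hy (Or.inl ((inv_iff H.ik a y).1 (k.1.resolve_right fun q =>
        n (Or.inl ((inv_iff H.ig a y).1 q.1)))))]
  refine h.sw.master hp st hv hφ (fun y hy => ?_) (fun e he pe pn => ?_) fun e he pe pn => ?_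
  · induction hn : rk y using Nat.strong_induction_on generalizing y with
    | _ n ih =>
      by_cases k : y ∈ P ∪ W
      · exact ⟨0, st2.2 (Or.inl k)⟩
      · obtain ⟨m, hm⟩ := ih _ (hn ▸ hw.lt y hy (fun g => k (Or.inl g)) fun g => k (Or.inr g)) _
          (hφ.la hF hy) rfl
        exact ⟨m + 1, hm⟩
  · by_cases ew : e ∈ W
    · obtain ⟨w, w1, w2⟩ := hw.dn e ew
      have one : ∀ f ∈ SS2 G (P ∪ W) pL pR e, f ∈ SS2 G P pL pR e ∨ f = s(w, G.nx w) :=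
        fun f m => (ss e he f m).imp_right fun ⟨g, a, b, c⟩ => hw.inj g a w w1 (b.trans w2.symm) ▸ c
      have nP := hw.ng e ew
      rcases H.top e he pe pn with k | k | k | ⟨a, k | k | k⟩
      · rw [k] at one
        exact Or.inl ⟨fun a ha b hb => ((one a ha).resolve_left id).trans
          ((one b hb).resolve_left id).symm,
          fun _ => ⟨Or.inr (hR.down hF he (fun s => nP (H.sg s)) (Or.inr ew)), id⟩⟩
      · refine Or.inr (t2 e he (k.2.resolve_right fun q => nP q.1) (Or.inr ew) ?_)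
        rcases k.1.eq_empty_or_singleton with q | ⟨a, q⟩ <;> rw [q] at one
        exacts [⟨_, s(w, G.nx w), fun f m => Or.inl ((one f m).resolve_left id)⟩, ⟨a, _, one⟩]
      · exact absurd k.2.1 nP
      · exact absurd ((inv_iff H.ig a e).1 k.1) nP
      · exact absurd ((inv_iff H.ig a e).1 k.1) nP
      · obtain ⟨n, q⟩ := k.2.1
        exact absurd q (hw.ng _ (wn _ ((hw.inv a e).2 ew) n))
    have sub := nw e he ew
    rcases H.top e he pe pn with k | k | k | ⟨a, k⟩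
    · rw [k] at sub
      exact Or.inl ⟨fun _ m => (sub m).elim, fun ⟨_, m⟩ => (sub m).elim⟩
    · exact Or.inl ⟨k.1.anti sub, fun _ => ⟨pd e he k.2, id⟩⟩
    · obtain ⟨f, f', q⟩ := k.2.2
      exact Or.inr (t2 e he k.1 (Or.inl k.2.1) ⟨f, f', sub.trans q⟩)
    have he' := (hF.la_tr a e).2 he
    have sub := nw _ he' fun q => ew ((hw.inv a e).1 q)
    refine Or.inr ⟨a, ?_⟩
    rcases k with k | k | k
    · refine h.sw.sp1_st hp (st2.2 (Or.inl (Or.inl k.1))) fun M d hd c _ => ?_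
      obtain ⟨X', Q, o⟩ := k.2 M d hd c
      exact sl_true (o.mono sub) (Set.empty_subset _)
    · refine h.sw.sp1_st hp (st2.2 (Or.inl (Or.inl k.1))) fun M d hd c _ => ?_
      obtain ⟨X', Q, o⟩ := k.2.2 M d hd c
      refine ⟨X', Q, _, o.mono sub, Set.empty_subset _, fun _ σ c' hc _ => ?_⟩
      have mu : Tv (FL G) (tr a e) ∈ M.us := c.us ▸ rfl
      obtain ⟨c1, c2, -⟩ := hc _ mu
      by_cases m : p.c (tr a e).1 = p.c (G.nx (tr a e)).1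
      · exact Or.inl (congrArg σ (c1.trans (m.trans c2.symm)))
      · exact Or.inr (Or.inl ⟨_, mu, rfl, m, Or.inr ⟨rfl, hR.lt hF (nx_la hF he') k.2.1⟩,
          (hR.dL _ he' k.2.1).2 (Or.inl (Or.inl k.1))⟩)
    · exact h.sw.sp1_sp hp (k.2.2.mono sub) (pd _ he' k.1) dn
  · obtain ⟨a, rfl⟩ := np' e he pn
    refine ⟨-a, ?_⟩
    rw [tr_neg]
    have yl := hF.la y1
    have yp : pv (FL G) z ∈ G.Pr := (hF.p_tr a _).1 pe
    have c1 : p.c z.1 ≠ p.c (pv (FL G) z).1 := fun k =>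
      H.dis _ H.z1 (hR.mono_snk hE yl (y3.symm ▸ k))
    refine h.sw.sp2_da (fun f m f' m' => ?_) ?_
    · have key : ∀ f ∈ SS2 G (P ∪ W) pL pR (pv (FL G) z), ∃ g ∈ P, φ g = pv (FL G) z ∧
          f = s(g, G.nx g) := fun f m => by
        rcases (h.sw.ss_iff hφ yl yp).1 (nw _ yl (fun q => hw.ng _ q (H.sg H.z1)) m) with
          ⟨g, g1, -, g2⟩ | ⟨-, i, -⟩ | ⟨-, i, -⟩
        · exact ⟨g, g1, g2⟩
        · obtain ⟨b, q, -⟩ := h.isL i
          exact (FR.odd_orb R ((R.uw.lf _ _ h.hl.1).trans (by rw [R.uw.lf _ _ y1]; rfl))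
            (by rw [q]; rfl)).elim
        · obtain ⟨b, q, -⟩ := h.isR i
          exact (FR.odd_orb R ((R.uw.lf _ _ h.hr.1).trans (by rw [R.uw.lf _ _ y1]; rfl))
            (by rw [q]; rfl)).elim
      obtain ⟨g, g1, g2, rfl⟩ := key f m
      obtain ⟨g', g3, g4, rfl⟩ := key f' m'
      rw [H.root g g1 g' g3 g2 g4]
    · unfold DAp
      rw [y3]
      refine ⟨col3 _ _ _ (by rw [hR.cl _ yl, hR.cl _ zl, hF.lf _ _ y1, hF.lf _ _ h.z0.1])
        (by rw [hR.cl _ zl, hR.cl _ (nx_la hF zl), f_nx hF]) c1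
        fun k => H.z3 (hR.mono_snk hE zl k), c1, ?_⟩
      by_cases k : z ∈ AS (FL G) Src Snk
      exacts [⟨Or.inl (hR.oR _ zl k), (hR.dR _ zl k).2 (Or.inl (Or.inl H.z2))⟩,
        ⟨Or.inr (hR.lt hF zl k), y3 ▸ (hR.dL _ yl (y3.symm ▸ k)).2 (Or.inl (Or.inl (H.sg H.z1)))⟩]

end Pool.Agent.P.MP_08fd93_co.FE
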