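import Pool.Agent.P.MP_08fd93_co.FE.LZ4
import Pool.Agent.P.MP_08fd93_co.FA.F1

/-! The frame of a long second root: flows give a system of pins. -/

set_option autoImplicit false

namespace Pool.Agent.P.MP_08fd93_co.FE

open OV PkPrtP FB FN FZ FK FL FA

variable {J : Type} {G : VD J} {v z l r x y e σ π τ : Vx J} {pL pR : Prop} {φ : Vx J → Vx J}
  {b : ℤ × ℤ} {s p t : ℕ → Vx J} {F : FD J} {X : XD J} {Pr : Set (Vx J)}

/-- Sources `s`, passes `p` and sinks `t` on the rows of one period; arrivals on `y` are free. -/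
structure ZQ (F : FD J) (φ : Vx J → Vx J) (q : ℤ) (z y : Vx J) (s p t : ℕ → Vx J) : Prop where
  ls : ∀ k : ℕ, (k : ℤ) < q → Lv F q k (s k)
  lp : ∀ k : ℕ, (k : ℤ) < q → Lv F q k (p k)
  lt : ∀ k : ℕ, (k : ℤ) < q → Lv F q k (t k)
  s0 : s 0 = y
  dis : ∀ k : ℕ, (k : ℤ) < q → (s k).1 ≠ (t k).1
  tz : (t 0).1 ≠ z.1
  top : ∀ k : ℕ, (k : ℤ) < q → k ≠ 0 → ∀ g, g = s k ∨ g = p k → (φ g).1 = (t (nk q k)).1 ∨
    ((φ g).1 = (p (nk q k)).1 ∧ (p (nk q k)).1 ≠ (s (nk q k)).1) ∨ (φ g).1 = y.1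
  fib : ∀ k : ℕ, (k : ℤ) < q → k ≠ 0 → (φ (s k)).1 = (φ (p k)).1 → (s k).1 = (p k).1 ∨
    ((φ (s k)).1 = (t (nk q k)).1 ∧ (t (nk q k)).1 = (p (nk q k)).1)

/-- The strict edges under the edges of the first row. -/
def Gn (G : VD J) (φ : Vx J → Vx J) (v z l r x : Vx J) (pL pR : Prop) (e : Vx J) :
    Set (Sym2 (Vx J)) :=
  {f | (∃ g, (g = pv (FL G) z ∨ g = z ∨ g = x) ∧ e = φ g ∧ f = s(g, G.nx g)) ∨
    (((pL ∧ e = l) ∨ (pR ∧ e = r)) ∧ f = s(v, z))}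

/-- The table of the first row: source `σ`, pass `π`, sink `τ`. -/
def Tb2 (G : VD J) (φ : Vx J → Vx J) (y σ π τ e : Vx J) (A : Set (Sym2 (Vx J))) : Prop :=
  (A.Subsingleton ∧ e = τ) ∨ (e = σ ∧ St1 G e A fun _ _ => True) ∨
    (e = π ∧ τ = G.nx σ ∧ (G.nx e).1 ≠ τ.1 ∧
      St1 G e A fun c B => c e = c (G.nx e) ∨ G.nx e ∈ B) ∨
    (((e = τ ∧ ∃ n, (φ^[n] e).1 = y.1) ∨ (e = π ∧ π.1 ≠ σ.1)) ∧ Spn G e A)

theorem nk_one {q : ℤ} {k : ℕ} (q2 : 2 ≤ q) : nk q k = 1 ↔ k = 0 := by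
  by_cases c : (k : ℤ) + 1 < q
  · rw [nk_a c]
    omega
  · rw [nk_b c]
    omega

theorem ZQ.col [Fintype J] (h : ZR G v z l r) (H : LB (FL G) (XL G) G.Pr φ b)
    (Q : ZQ (FL G) φ (G.η b) z (pv (FL G) z) s p t) (hx : x ∈ G.LA) (ex : x.1 = (p 0).1)
    (fl : pL ∨ pR) (al : ∀ e e', (Gn G φ v z l r x pL pR e).Nonempty →
      (Gn G φ v z l r x pL pR e').Nonempty → e.1 = e'.1 → e = e')
    (tab : ∀ e, (Gn G φ v z l r x pL pR e).Nonempty →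
      Tb2 G φ (pv (FL G) z) (s 1) (p 1) (t 1) e (Gn G φ v z l r x pL pR e)) :
    ∃ c, Col1 G.Γ ∅ c := by
  have hF := H.lay
  have hφ := H.ph
  have b2 : 2 ≤ G.η b := H.b2
  have R := h.rows
  have l0 : ((0 : ℕ) : ℤ) < G.η b := by omega
  have l1 : ((1 : ℕ) : ℤ) < G.η b := by omega
  have zl := R.la h.z0.1
  obtain ⟨y1, -, y3⟩ := pv_mem hF h.z0.1
  have yl := hF.la y1
  have lz : Lv (FL G) (G.η b) 0 z := H.lv_l (k := 0) h.z0.1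
  let P : Set (Vx J) := Orb (G.η b) s ∪ Orb (G.η b) p ∪ {g | g.1 = z.1}
  have rep : ∀ g ∈ P, ∃ k : ℕ, (k : ℤ) < G.η b ∧ Lv (FL G) (G.η b) k g ∧
      ((∃ x, (x = s k ∨ x = p k) ∧ g.1 = x.1) ∨ (k = 0 ∧ g.1 = z.1)) := by
    rintro g ((⟨k, c, e⟩ | ⟨k, c, e⟩) | e)
    exacts [⟨k, c, H.lv_orb (Q.ls k c) e, Or.inl ⟨_, Or.inl rfl, e⟩⟩,
      ⟨k, c, H.lv_orb (Q.lp k c) e, Or.inl ⟨_, Or.inr rfl, e⟩⟩, ⟨0, l0, H.lv_orb lz e, Or.inr ⟨rfl, e⟩⟩]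
  have ms : ∀ k : ℕ, (k : ℤ) < G.η b → ∀ g : Vx J, g.1 = (s k).1 → g ∈ P :=
    fun k c g e => Or.inl (Or.inl ⟨k, c, e⟩)
  have mp : ∀ k : ℕ, (k : ℤ) < G.η b → ∀ g : Vx J, g.1 = (p k).1 → g ∈ P :=
    fun k c g e => Or.inl (Or.inr ⟨k, c, e⟩)
  have ns : ∀ k : ℕ, (k : ℤ) < G.η b → ∀ g : Vx J, g.1 = (p k).1 → (p k).1 ≠ (s k).1 →
      g ∉ Orb (G.η b) s := by
    rintro k c g e n ⟨k', c', e'⟩
    obtain rfl := H.lv_eq (Q.lp k c) (Q.ls k' c') (e.symm.trans e') c c'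
    exact n (e.symm.trans e')
  have two : ∀ g ∈ P, ∀ g' ∈ P, φ g = φ g' → ¬ Lv (FL G) (G.η b) 1 (φ g) → g = g' ∨
      ∃ k : ℕ, (k : ℤ) < G.η b ∧ (φ g).1 = (t k).1 ∧ (t k).1 = (p k).1 := by
    intro g m g' m' e n
    obtain ⟨k, c, a, o⟩ := rep g m
    obtain ⟨k', c', a', o'⟩ := rep g' m'
    obtain rfl := lv_uni a a' (by
      have := hφ.lev hF a.1
      rw [e, hφ.lev hF a'.1] at this
      omega) c c'
    have k0 : k ≠ 0 := fun q => n ((nk_one b2).2 q ▸ H.lv_phi a c)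
    obtain ⟨u, cu, eu⟩ := o.resolve_right fun q => k0 q.1
    obtain ⟨u', cu', eu'⟩ := o'.resolve_right fun q => k0 q.1
    by_cases q : u.1 = u'.1
    · exact Or.inl (hφ.inj1 a.1 (eu.trans (q.trans eu'.symm)) e)
    have f1 := hφ.fst a.1 eu
    have e3 := f1.symm.trans ((congrArg Prod.fst e).trans (hφ.fst a'.1 eu'))
    have key : (φ (s k)).1 = (φ (p k)).1 ∧ (s k).1 ≠ (p k).1 ∧ (φ g).1 = (φ (s k)).1 := by
      rcases cu with rfl | rfl <;> rcases cu' with rfl | rfl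
      exacts [absurd rfl q, ⟨e3, q, f1⟩, ⟨e3.symm, Ne.symm q, f1.trans e3⟩, absurd rfl q]
    obtain ⟨o1, o2⟩ := (Q.fib k c k0 key.1).resolve_left key.2.1
    exact Or.inr ⟨_, nk_lt (by omega) k, key.2.2.trans o1, o2⟩
  have ly : ¬ Lv (FL G) (G.η b) 1 (pv (FL G) z) := fun k =>
    absurd (lv_uni k (H.lv_l (k := 0) y1) rfl l1 l0) one_ne_zero
  have gen : ∀ e ∈ G.LA, e ∈ G.Pr → ∀ f ∈ SS2 G P pL pR e, (¬ Lv (FL G) (G.η b) 1 e ∧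
      ∃ g ∈ P, φ g = e ∧ f = s(g, G.nx g)) ∨ (Lv (FL G) (G.η b) 1 e ∧ ∃ a e0, e = tr a e0 ∧
        ∃ f0 ∈ Gn G φ v z l r x pL pR e0, f = f0.map (tr a)) := by
    intro e he pe f m
    have xz : ∀ a, G.xl (tr a v) = tr a z := fun a => by rw [(h.sw.vf.xtr a v).1, h.xv]
    rcases (h.sw.ss_iff hφ he pe).1 m with ⟨g, g1, g2, rfl, rfl⟩ | ⟨c, i, rfl⟩ | ⟨c, i, rfl⟩
    · by_cases n : Lv (FL G) (G.η b) 1 (φ g)
      swap
      · exact Or.inl ⟨n, g, g1, rfl, rfl⟩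
      obtain ⟨k, c, a, o⟩ := rep g g1
      obtain rfl := (nk_one b2).1 (lv_uni (H.lv_phi a c) n rfl (nk_lt (by omega) k) l1)
      obtain ⟨u, cu, ul, eu⟩ : ∃ u, (u = pv (FL G) z ∨ u = z ∨ u = x) ∧ u ∈ G.LA ∧ g.1 = u.1 := by
        rcases o with ⟨_, rfl | rfl, e⟩ | e
        exacts [⟨_, Or.inl rfl, yl, Q.s0 ▸ e⟩, ⟨_, Or.inr (Or.inr rfl), hx, e.trans ex.symm⟩,
          ⟨_, Or.inr (Or.inl rfl), zl, e.2⟩]
      obtain ⟨w, rfl⟩ : ∃ a, g = tr a u := ⟨_, orb_eq eu⟩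
      exact Or.inr ⟨n, w, _, hφ.eqv w u ul, _, Or.inl ⟨u, cu, rfl, rfl⟩, by
        rw [Sym2.map_mk, R.nx_tr w ul]⟩
    · obtain ⟨a, rfl, q⟩ := h.isL i
      exact Or.inr ⟨H.lv_orb (H.lv_l (k := 1) h.hl.1) rfl, a, _, rfl, _,
        Or.inr ⟨Or.inl ⟨c, rfl⟩, rfl⟩, by rw [q, xz, Sym2.map_mk]⟩
    · obtain ⟨a, rfl, q⟩ := h.isR i
      exact Or.inr ⟨H.lv_orb (H.lv_l (k := 1) h.hr.1) rfl, a, _, rfl, _,
        Or.inr ⟨Or.inr ⟨c, rfl⟩, rfl⟩, by rw [q, xz, Sym2.map_mk]⟩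
  refine ZS.col h hφ (P := P) (Src := Orb (G.η b) s) (Snk := Orb (G.η b) t) (pL := pL) (pR := pR)
    ⟨fun _ _ k => k, fun _ _ k => k, fun _ _ k => k, fun g m => ?_,
      fun g m => Or.inl (Or.inl m), ?_, fun j => ?_, fun j => ?_, ?_, fl,
      ⟨0, l0, by rw [Q.s0]⟩, Or.inr rfl, ?_, fun g m g' m' e e' => ?_, fun e he pe pn => ?_⟩
  · obtain ⟨k, -, a, -⟩ := rep g m
    exact a.1
  · rintro g ⟨k, c, e⟩ ⟨k', c', e'⟩
    obtain rfl := H.lv_eq (Q.ls k c) (Q.lt k' c') (e.symm.trans e') c c'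
    exact Q.dis k c (e.symm.trans e')
  · obtain ⟨k, c, d⟩ := H.lv_of j
    obtain ⟨g, hg, e⟩ := H.lv_ex (Q.ls k c) d
    exact ⟨g, hg, k, c, e⟩
  · obtain ⟨k, c, d⟩ := H.lv_of j
    obtain ⟨g, hg, e⟩ := H.lv_ex (Q.lt k c) d
    exact ⟨g, hg, k, c, e⟩
  · rintro j g hg g' hg' ⟨k, c, e⟩ ⟨k', c', e'⟩
    obtain rfl := lv_uni (H.lv_orb (Q.lt k c) e) (H.lv_orb (Q.lt k' c') e')
      ((hF.lf _ _ hg).trans (hF.lf _ _ hg').symm) c c'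
    exact e.trans e'.symm
  · rintro ⟨k, c, e⟩
    obtain rfl := H.lv_eq lz (Q.lt k c) e l0 c
    exact Q.tz e.symm
  · refine (two g m g' m' (e.trans e'.symm) (e ▸ ly)).resolve_right ?_
    rintro ⟨k, c, o, -⟩
    rw [e] at o
    obtain rfl := H.lv_eq (H.lv_l (k := 0) y1) (Q.lt k c) o l0 c
    exact Q.dis 0 l0 (Q.s0 ▸ o)
  rcases (SS2 G P pL pR e).eq_empty_or_nonempty with n | ⟨f, m⟩
  · exact Or.inl n
  refine Or.inr ?_
  rcases gen e he pe f m with ⟨n, g, g1, rfl, rfl⟩ | ⟨n, a, e0, rfl, f0, m0, -⟩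
  · have all : ∀ f ∈ SS2 G P pL pR (φ g), ∃ g' ∈ P, φ g' = φ g ∧ f = s(g', G.nx g') :=
      fun f m => ((gen _ he pe f m).resolve_right fun q => n q.1).2
    by_cases c : ∀ g' ∈ P, φ g' = φ g → g' = g
    · refine Or.inl ⟨fun f m f' m' => ?_, ?_⟩
      · obtain ⟨u, u1, u2, rfl⟩ := all f m
        obtain ⟨u', u3, u4, rfl⟩ := all f' m'
        rw [c u u1 u2, c u' u3 u4]
      obtain ⟨k, c, a, o⟩ := rep g g1
      have k0 : k ≠ 0 := fun q => n ((nk_one b2).2 q ▸ H.lv_phi a c)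
      obtain ⟨u, cu, eu⟩ := o.resolve_right fun q => k0 q.1
      have f1 := hφ.fst a.1 eu
      have c' := nk_lt (show 0 < G.η b by omega) k
      rcases Q.top k c k0 u cu with o | o | o
      · exact Or.inl ⟨_, c', f1.trans o⟩
      · exact Or.inr ⟨mp _ c' _ (f1.trans o.1), ns _ c' _ (f1.trans o.1) o.2⟩
      · refine absurd ?_ ((h.eP _).1 pn)
        rw [orb_eq (f1.trans o), R.nx_tr _ yl]
        exact (congrArg Prod.fst y3 :)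
    · simp only [not_forall] at c
      obtain ⟨g', m', e', ne⟩ := c
      obtain ⟨k, c, o1, o2⟩ := (two g g1 g' m' e'.symm n).resolve_left (Ne.symm ne)
      refine Or.inr (Or.inl ⟨⟨k, c, o1⟩, mp k c _ (o1.trans o2), s(g, G.nx g), s(g', G.nx g'),
        fun f m => ?_⟩)
      obtain ⟨u, u1, u2, rfl⟩ := all f m
      obtain ⟨i, ci, a, o⟩ := rep g g1
      obtain ⟨i', ci', a', o'⟩ := rep g' m'
      obtain ⟨i'', ci'', a'', o''⟩ := rep u u1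
      have lev : ∀ w ∈ G.LA, φ w = φ g → G.f w = G.f g := fun w hw q => by
        have := hφ.lev hF hw
        rw [q, hφ.lev hF a.1] at this
        exact add_right_cancel this.symm
      obtain rfl := lv_uni a' a (lev _ a'.1 e') ci' ci
      obtain rfl := lv_uni a'' a (lev _ a''.1 u2) ci'' ci
      have k0 : i'' ≠ 0 := fun q => n ((nk_one b2).2 q ▸ H.lv_phi a ci)
      obtain ⟨w, cw, ew⟩ := o.resolve_right fun q => k0 q.1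
      obtain ⟨w', cw', ew'⟩ := o'.resolve_right fun q => k0 q.1
      obtain ⟨w'', cw'', ew''⟩ := o''.resolve_right fun q => k0 q.1
      have nw : w ≠ w' := fun q => ne (hφ.inj1 a'.1 (ew'.trans (q ▸ ew.symm)) e')
      have : w'' = w ∨ w'' = w' := by
        rcases cw with rfl | rfl <;> rcases cw' with q | q
        exacts [absurd q.symm nw, q ▸ cw'', q ▸ cw''.symm, absurd q.symm nw]
      rcases this with q | q
      · exact Or.inl (by rw [hφ.inj1 a''.1 (ew''.trans (q ▸ ew.symm)) u2])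
      · exact Or.inr (by rw [hφ.inj1 a''.1 (ew''.trans (q ▸ ew'.symm)) (u2.trans e'.symm)]; rfl)
  have all : ∀ a', tr a' e0 ∈ G.LA → tr a' e0 ∈ G.Pr → ∀ f ∈ SS2 G P pL pR (tr a' e0),
      ∃ f0 ∈ Gn G φ v z l r x pL pR e0, f = f0.map (tr a') := fun a' he pe f m => by
    obtain ⟨-, c, e1, q, f1, m1, rfl⟩ := (gen _ he pe f m).resolve_left fun q =>
      q.1 (H.lv_orb n rfl)
    obtain rfl := al e0 e1 ⟨f0, m0⟩ ⟨f1, m1⟩ (congrArg Prod.fst q :)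
    exact ⟨f1, m1, by rw [tr_eq_tr q]⟩
  have he0 := (hF.la_tr a e0).1 he
  have sub : SS2 G P pL pR e0 ⊆ Gn G φ v z l r x pL pR e0 := fun f m => by
    obtain ⟨f1, m1, rfl⟩ := all 0 ((hF.la_tr 0 e0).2 he0)
      ((hF.p_tr 0 e0).2 ((hF.p_tr a e0).1 pe)) f ((tr_zero e0).symm ▸ m)
    rwa [show tr 0 = (id : Vx J → Vx J) from funext tr_zero, Sym2.map_id]
  rcases tab e0 ⟨f0, m0⟩ with k | k
  · refine Or.inl ⟨fun f m f' m' => ?_, Or.inl ⟨1, l1, (congrArg Prod.fst k.2 :)⟩⟩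
    obtain ⟨u, u1, rfl⟩ := all a he pe f m
    obtain ⟨u', u2, rfl⟩ := all a he pe f' m'
    rw [k.1 u1 u2]
  refine Or.inr (Or.inr ⟨-a, ?_⟩)
  rw [tr_neg]
  rcases k with k | k | k
  · exact Or.inl ⟨ms 1 l1 _ (congrArg Prod.fst k.1), k.2.mono sub⟩
  · refine Or.inr (Or.inl ⟨mp 1 l1 _ (congrArg Prod.fst k.1), ?_, k.2.2.2.mono sub⟩)
    rintro ⟨i, ⟨k1, c, q⟩, o⟩
    have n1 : G.nx e0 ∈ (FL G).LA := nx_la hF he0
    have n2 : (FL G).f (G.nx e0) = (FL G).f e0 := f_nx hF e0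
    have n0 := H.lv_orb n (show e0.1 = (tr a e0).1 from rfl)
    have lv : ∀ i, Lv (FL G) (G.η b) 1 (FK.sh (FL G) (G.nx e0) i) := fun i =>
      ⟨hF.la (sh_mem hF _ i).1, by rw [hF.lf _ _ (sh_mem hF _ i).1, n2]; exact n0.2⟩
    obtain rfl := H.lv_eq (Q.lt k1 c) (lv i) q.symm c l1
    rcases i with _ | i
    · rw [sh_zero hF n1] at q
      exact k.2.2.1 q
    · refine o i (Nat.lt_succ_self i) ⟨1, l1, ?_⟩
      have sl := (Q.ls 1 l1).1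
      obtain ⟨m1, m2⟩ := sh_mem hF (G.nx e0) i
      obtain ⟨m3, m4⟩ := sh_mem hF (G.nx e0) (i + 1)
      obtain ⟨m5, m6, -⟩ := hF.nx_mem m1
      rw [← hF.inj m5 m3 (by push_cast at m4; omega), k.2.1] at q
      have := orb_eq q
      rw [← R.nx_tr _ sl] at this
      rw [nx_inj hF (hF.la m1) ((hF.la_tr _ _).2 sl) this]
      rfl
  · refine Or.inr (Or.inr ⟨?_, ?_, k.2.mono sub⟩)
    · exact k.1.imp (fun q => ⟨1, l1, congrArg Prod.fst q.1⟩) fun q =>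
        ⟨mp 1 l1 _ (congrArg Prod.fst q.1), ns 1 l1 _ (congrArg Prod.fst q.1) q.2⟩
    · exact k.1.elim (fun ⟨_, n, q⟩ => ⟨n, ms 0 l0 _ (Q.s0 ▸ q)⟩)
        fun q => ⟨0, mp 1 l1 _ (congrArg Prod.fst q.1)⟩

section

variable (H : LB F X Pr φ b)
include H

theorem zq_of {m : ℕ} (hm : F.η b = m + 2) (hy : y ∈ F.L 0) {S P T : ℕ → Vx J} {t0 : Vx J}
    (mem : ∀ k : ℕ, S k ∈ F.L (k + 1 : ℕ) ∧ P k ∈ F.L (k + 1 : ℕ) ∧ T k ∈ F.L (k + 1 : ℕ) ∧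
      (S k).1 ≠ (T k).1)
    (step : ∀ k, T (k + 1) = φ (S k) ∧
      (P k = S k ∨ (P (k + 1) = φ (P k) ∧ (P (k + 1)).1 ≠ (S (k + 1)).1)))
    (lx : Lv F (F.η b) 0 x) (lt : Lv F (F.η b) 0 t0) (n1 : y.1 ≠ t0.1) (n2 : t0.1 ≠ z.1)
    (top : ∀ g, g = S m ∨ g = P m → (φ g).1 = t0.1 ∨ ((φ g).1 = x.1 ∧ x.1 ≠ y.1) ∨ (φ g).1 = y.1)
    (fib : (φ (S m)).1 = (φ (P m)).1 → (S m).1 = (P m).1 ∨ ((φ (S m)).1 = t0.1 ∧ t0.1 = x.1)) :
    ZQ F φ (F.η b) z y (fun k => Nat.casesOn k y S) (fun k => Nat.casesOn k x P)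
      fun k => Nat.casesOn k t0 T := by
  refine ⟨?_, ?_, ?_, rfl, ?_, n2, ?_, ?_⟩
  · rintro (_ | k) -
    exacts [H.lv_l (k := 0) hy, H.lv_l (mem k).1]
  · rintro (_ | k) -
    exacts [lx, H.lv_l (mem k).2.1]
  · rintro (_ | k) -
    exacts [lt, H.lv_l (mem k).2.2.1]
  · rintro (_ | k) -
    exacts [n1, (mem k).2.2.2]
  · rintro (_ | k) c n g hg
    · exact absurd rfl n
    by_cases e : ((k + 1 : ℕ) : ℤ) + 1 < F.η b
    · rw [nk_a e]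
      obtain ⟨o1, o2⟩ := step k
      have o3 := congrArg Prod.fst o1.symm
      rcases hg with rfl | rfl
      · exact Or.inl o3
      · exact o2.imp (fun q => (congrArg (fun u => (φ u).1) q).trans o3)
          fun q => Or.inl ⟨congrArg Prod.fst q.1.symm, q.2⟩
    · rw [nk_b e]
      obtain rfl : k = m := by omega
      exact top g hg
  · rintro (_ | k) c n q
    · exact absurd rfl n
    by_cases e : ((k + 1 : ℕ) : ℤ) + 1 < F.η b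
    · rw [nk_a e]
      obtain ⟨o1, o2⟩ := step k
      have o3 := congrArg Prod.fst o1
      exact o2.imp (fun o => congrArg Prod.fst o.symm) fun o =>
        ⟨o3.symm, o3.trans (q.trans (congrArg Prod.fst o.1.symm))⟩
    · rw [nk_b e]
      obtain rfl : k = m := by omega
      exact fib q

/-- One flow. -/
theorem flow1 (hy : y ∈ F.L 0) (nz : ∀ g ∈ F.LA, (φ g).1 ≠ z.1) (hσ : σ ∈ F.L 1)
    (hτ : τ ∈ F.L 1) (ne : σ.1 ≠ τ.1) :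
    ∃ s p t, ZQ F φ (F.η b) z y s p t ∧ s 1 = σ ∧ p 1 = σ ∧ t 1 = τ ∧ p 0 = y := by
  have b2 := H.b2
  obtain ⟨m, hm⟩ : ∃ m : ℕ, F.η b = m + 2 := ⟨(F.η b - 2).toNat, by omega⟩
  obtain ⟨g, e0, hg⟩ := seq_ex (fun k x => x ∈ F.L (k + 1 : ℕ)) (fun x y => y.1 ≠ (φ x).1) σ hσ
    fun k x _ => let ⟨z, h1, h2, _⟩ := H.off (k + 1 + 1 : ℕ) (φ x) (φ x); ⟨z, h1, h2⟩
  have lc : Lv F (F.η b) 0 (φ (g m)) := by
    have := H.lv_phi (H.lv_l (hg m).1) (by push_cast; omega)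
    rwa [nk_b (by push_cast; omega)] at this
  obtain ⟨t0, a1, a2, a3, a4⟩ : ∃ t0, Lv F (F.η b) 0 t0 ∧ y.1 ≠ t0.1 ∧ t0.1 ≠ z.1 ∧
      ((φ (g m)).1 = t0.1 ∨ (φ (g m)).1 = y.1) := by
    by_cases c : (φ (g m)).1 = y.1
    · obtain ⟨u, u1, u2, u3⟩ := H.off 0 y z
      exact ⟨u, H.lv_l (k := 0) u1, u2.symm, u3, Or.inr c⟩
    · exact ⟨_, lc, Ne.symm c, nz _ (H.lay.la (hg m).1), Or.inl rfl⟩
  refine ⟨_, _, _, zq_of H hm hy (S := g) (P := g) (T := fun k => Nat.casesOn k τ fun k => φ (g k))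
    ?_ (fun k => ⟨rfl, Or.inl rfl⟩) (H.lv_l (k := 0) hy) a1 a2 a3
    (fun u hu => hu.elim id id ▸ a4.imp_right Or.inr) (fun _ => Or.inl rfl), e0, e0, rfl, rfl⟩
  rintro (_ | k)
  exacts [⟨(hg 0).1, (hg 0).1, hτ, e0 ▸ ne⟩,
    ⟨(hg _).1, (hg _).1, H.up (hg k).1, (hg k).2⟩]

/-- Two flows; the passes follow the chain of `π`. -/
theorem flow2 (hy : y ∈ F.L 0) (nz : ∀ g ∈ F.LA, (φ g).1 ≠ z.1) (hσ : σ ∈ F.L 1)
    (hπ : π ∈ F.L 1) (no : ∀ n, (φ^[n] π).1 ≠ y.1) : ∃ x ∈ F.L 0, ∀ τ ∈ F.L 1, σ.1 ≠ τ.1 →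
      ∃ s p t, ZQ F φ (F.η b) z y s p t ∧ s 1 = σ ∧ p 1 = π ∧ t 1 = τ ∧ x.1 = (p 0).1 := by
  have b2 := H.b2
  obtain ⟨m, hm⟩ : ∃ m : ℕ, F.η b = m + 2 := ⟨(F.η b - 2).toNat, by omega⟩
  obtain ⟨g, e0, hg⟩ := seq_ex (fun k x => x ∈ F.L (k + 1 : ℕ) ∧ (k ≠ 0 → x.1 ≠ (φ^[k] π).1))
    (fun x y => y.1 ≠ (φ x).1) σ ⟨hσ, fun n => absurd rfl n⟩ fun k x _ =>
      let ⟨z, h1, h2, h3⟩ := H.off (k + 1 + 1 : ℕ) (φ x) (φ^[k + 1] π); ⟨z, ⟨h1, fun _ => h3⟩, h2⟩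
  have pm : ∀ k : ℕ, φ^[k] π ∈ F.L (k + 1 : ℕ) := fun k => by
    induction k with
    | zero => exact hπ
    | succ k ih =>
      rw [Function.iterate_succ_apply']
      exact H.up ih
  have lc : ∀ u ∈ F.L (m + 1 : ℕ), Lv F (F.η b) 0 (φ u) := fun u hu => by
    have := H.lv_phi (H.lv_l hu) (by push_cast; omega)
    rwa [nk_b (by push_cast; omega)] at this
  have na : (φ (φ^[m] π)).1 ≠ y.1 := Function.iterate_succ_apply' φ m π ▸ no (m + 1)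
  obtain ⟨u, t0, a0, a1, a2, a3, a4, a5⟩ : ∃ u t0, Lv F (F.η b) 0 u ∧ Lv F (F.η b) 0 t0 ∧
      y.1 ≠ t0.1 ∧ t0.1 ≠ z.1 ∧ (∀ w, w = g m ∨ w = φ^[m] π → (φ w).1 = t0.1 ∨
        ((φ w).1 = u.1 ∧ u.1 ≠ y.1) ∨ (φ w).1 = y.1) ∧ ((φ (g m)).1 = (φ (φ^[m] π)).1 →
          (φ (g m)).1 = t0.1 ∧ t0.1 = u.1) := by
    by_cases c : (φ (g m)).1 = y.1
    · refine ⟨y, _, H.lv_l (k := 0) hy, lc _ (pm m), na.symm, nz _ (H.lay.la (pm m)), ?_,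
        fun q => absurd (q.symm.trans c) na⟩
      rintro w (rfl | rfl)
      exacts [Or.inr (Or.inr c), Or.inl rfl]
    · refine ⟨_, _, lc _ (pm m), lc _ (hg m).1.1, Ne.symm c, nz _ (H.lay.la (hg m).1.1), ?_,
        fun q => ⟨rfl, q⟩⟩
      rintro w (rfl | rfl)
      exacts [Or.inl rfl, Or.inr (Or.inl ⟨rfl, na⟩)]
  obtain ⟨x, hx, ex⟩ := H.lv_ex a0 (j := 0) (by simp)
  refine ⟨x, hx, fun τ hτ ne => ⟨_, _, _, zq_of H hm hy (S := g) (P := fun k => φ^[k] π)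
    (T := fun k => Nat.casesOn k τ fun k => φ (g k)) ?_ (fun k => ⟨rfl, Or.inr
      ⟨Function.iterate_succ_apply' φ k π, ((hg (k + 1)).1.2 k.succ_ne_zero).symm⟩⟩)
    a0 a1 a2 a3 a4 fun q => Or.inr (a5 q), e0, rfl, rfl, ex⟩⟩
  rintro (_ | k)
  exacts [⟨(hg 0).1.1, hπ, hτ, e0 ▸ ne⟩, ⟨(hg _).1.1, pm _, H.up (hg k).1.1, (hg k).2⟩]

end

theorem gn_of (h : ZR G v z l r) (e4 : φ z = r) {f : Sym2 (Vx J)}
    (m : f ∈ Gn G φ v z l r x pL pR e) : (e = φ (pv (FL G) z) ∧ f = s(pv (FL G) z, z)) ∨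
      (e = r ∧ (f = s(z, G.nx z) ∨ (pR ∧ f = s(v, z)))) ∨ (e = φ x ∧ f = s(x, G.nx x)) ∨
      (pL ∧ e = l ∧ f = s(v, z)) := by
  rcases m with ⟨g, rfl | rfl | rfl, a, c⟩ | ⟨a | a, c⟩
  · exact Or.inl ⟨a, c.trans (congrArg _ (pv_mem h.sw.lay h.z0.1).2.2)⟩
  · exact Or.inr (Or.inl ⟨a.trans e4, Or.inl c⟩)
  · exact Or.inr (Or.inr (Or.inl ⟨a, c⟩))
  · exact Or.inr (Or.inr (Or.inr ⟨a.1, a.2, c⟩))
  · exact Or.inr (Or.inl ⟨a.2, Or.inr ⟨a.1, c⟩⟩)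

section

variable [Fintype J] (h : ZR G v z l r) (hφ : PH (FL G) G.Pr φ) (e4 : φ z = r)
  (n1 : (φ (pv (FL G) z)).1 ≠ r.1)
include h hφ e4 n1

/-- The right edge of the root is strict, and nothing else lies under `r`. -/
theorem ZR.colR (H : LB (FL G) (XL G) G.Pr φ b) (Q : ZQ (FL G) φ (G.η b) z (pv (FL G) z) s p t)
    (hx : x ∈ G.LA) (ex : x.1 = (p 0).1) (k : φ x = φ (pv (FL G) z) ∨
      ((φ x).1 ≠ (φ (pv (FL G) z)).1 ∧ (φ x).1 ≠ r.1 ∧ φ x = t 1))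
    (t1 : ∀ A, (∀ f ∈ A, f = s(pv (FL G) z, z) ∨ (φ x = φ (pv (FL G) z) ∧ f = s(x, G.nx x))) →
      Tb2 G φ (pv (FL G) z) (s 1) (p 1) (t 1) (φ (pv (FL G) z)) A)
    (t2 : ∀ A ⊆ {s(z, G.nx z), s(v, z)}, Tb2 G φ (pv (FL G) z) (s 1) (p 1) (t 1) r A) :
    ∃ c, Col1 G.Γ ∅ c := by
  have n2 : (φ x).1 ≠ r.1 := k.elim (fun k => k ▸ n1) fun k => k.2.1
  have cs : ∀ e, (Gn G φ v z l r x False True e).Nonempty → e = φ (pv (FL G) z) ∨ e = r ∨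
      (e = φ x ∧ (φ x).1 ≠ (φ (pv (FL G) z)).1 ∧ φ x = t 1) := by
    rintro e ⟨f, m⟩
    rcases gn_of h e4 m with a | a | a | a
    exacts [Or.inl a.1, Or.inr (Or.inl a.1),
      k.imp (fun k => a.1.trans k) fun k => Or.inr ⟨a.1, k.1, k.2.2⟩, a.1.elim]
  refine Q.col h H hx ex (pL := False) (pR := True) (Or.inr trivial) (fun e e' m m' q => ?_)
    fun e m => ?_
  · rcases cs e m with rfl | rfl | ⟨rfl, a, -⟩ <;> rcases cs e' m' with c | c | ⟨c, a', -⟩ <;>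
      rw [c] at q ⊢
    exacts [absurd q n1, absurd q.symm a', absurd q.symm n1, absurd q.symm n2, absurd q a,
      absurd q n2]
  · rcases cs e m with rfl | rfl | ⟨rfl, a, c⟩
    · refine t1 _ fun f m => ?_
      rcases gn_of h e4 m with a | a | a | a
      exacts [Or.inl a.2, absurd (congrArg Prod.fst a.1) n1, Or.inr ⟨a.1.symm, a.2⟩, a.1.elim]
    · refine t2 _ fun f m => ?_
      rcases gn_of h e4 m with a | a | a | a
      exacts [absurd (congrArg Prod.fst a.1).symm n1, a.2.imp_right And.right,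
        absurd (congrArg Prod.fst a.1).symm n2, a.1.elim]
    · have : ∀ f ∈ Gn G φ v z l r x False True (φ x), f = s(x, G.nx x) := fun f m => by
        rcases gn_of h e4 m with q | q | q | q
        exacts [absurd (congrArg Prod.fst q.1) a, absurd (congrArg Prod.fst q.1) n2, q.2, q.1.elim]
      exact Or.inl ⟨fun f m f' m' => (this f m).trans (this f' m').symm, c⟩

/-- The cell under `r` takes both edges for free. -/
theorem ZR.planI (fr : St1 G r {s(z, G.nx z), s(v, z)} fun _ _ => True) : ∃ c, Col1 G.Γ ∅ c := by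
  obtain ⟨b, H⟩ := lb_ex h.sw.lay hφ h.n3 h.rows.wp.ev
  have y1 := (pv_mem H.lay h.z0.1).1
  obtain ⟨s, p, t, Q, s1, -, t1, p0⟩ := flow1 (z := z) H y1
    (fun g hg => (h.eP _).1 (hφ.und g hg).2.1) h.hr.1 (H.up (k := 0) y1) n1.symm
  refine h.colR hφ e4 n1 H Q (H.lay.la y1) (by rw [p0]) (Or.inl rfl) (fun A k => ?_)
    fun A k => Or.inr (Or.inl ⟨s1.symm, fr.mono k⟩)
  have : ∀ f ∈ A, f = s(pv (FL G) z, z) := fun f m => (k f m).elim id fun q =>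
    q.2.trans (congrArg _ (pv_mem H.lay h.z0.1).2.2)
  exact Or.inl ⟨fun f m f' m' => (this f m).trans (this f' m').symm, t1.symm⟩

/-- The second root sees both ends of the edge before `l`; a hub lies under `r`. -/
theorem ZR.planB (el : l = G.nx (φ (pv (FL G) z))) (n0 : (φ (pv (FL G) z)).1 ≠ l.1)
    (n2 : l.1 ≠ r.1) (n3 : (G.nx r).1 ≠ l.1) (fr : ∀ g ∈ G.LA, φ g = φ (pv (FL G) z) →
      St1 G (φ (pv (FL G) z)) {s(pv (FL G) z, z), s(g, G.nx g)} fun _ _ => True)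
    (sp : Spn G r {s(z, G.nx z), s(v, z)}) (hb : ∀ g ∈ G.LA, φ g = r →
      St1 G r {s(z, G.nx z), s(g, G.nx g)} fun c B => c r = c (G.nx r) ∨ G.nx r ∈ B) :
    ∃ c, Col1 G.Γ ∅ c := by
  obtain ⟨b, H⟩ := lb_ex h.sw.lay hφ h.n3 h.rows.wp.ev
  have y1 := (pv_mem H.lay h.z0.1).1
  have yl := H.lay.la y1
  have nz : ∀ g ∈ (FL G).LA, (φ g).1 ≠ z.1 := fun g hg => (h.eP _).1 (hφ.und g hg).2.1
  have σ1 : φ (pv (FL G) z) ∈ (FL G).L 1 := H.up (k := 0) y1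
  have free : ∀ {s p t : ℕ → Vx J} {x}, x ∈ G.LA → s 1 = φ (pv (FL G) z) → ∀ A,
      (∀ f ∈ A, f = s(pv (FL G) z, z) ∨ (φ x = φ (pv (FL G) z) ∧ f = s(x, G.nx x))) →
      Tb2 G φ (pv (FL G) z) (s 1) (p 1) (t 1) (φ (pv (FL G) z)) A := fun {s p t x} hx e A k => by
    refine Or.inr (Or.inl ⟨e.symm, ?_⟩)
    by_cases c : φ x = φ (pv (FL G) z)
    exacts [(fr x hx c).mono fun f m => (k f m).imp_right And.right,
      (fr _ yl rfl).mono fun f m => Or.inl ((k f m).resolve_right fun q => c q.1)]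
  by_cases c : ∃ n, (φ^[n] r).1 = (pv (FL G) z).1
  · obtain ⟨s, p, t, Q, s1, -, t1, p0⟩ := flow1 H y1 nz σ1 h.hr.1 n1
    exact h.colR hφ e4 n1 H Q yl (by rw [p0]) (Or.inl rfl) (free yl s1)
      fun A k => Or.inr (Or.inr (Or.inr ⟨Or.inl ⟨t1.symm, c⟩, sp.mono k⟩))
  obtain ⟨x, hx, K⟩ := flow2 H y1 nz σ1 h.hr.1 fun n q => c ⟨n, q⟩
  have xl := H.lay.la hx
  have al : ∀ e : Vx J, (φ x).1 = e.1 → ∃ x' ∈ G.LA, x'.1 = x.1 ∧ φ x' = e := fun e q =>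
    ⟨_, (H.lay.la_tr _ _).2 xl, rfl, (hφ.eqv _ _ xl).trans (orb_eq q.symm).symm⟩
  have pass : ∀ {s p t : ℕ → Vx J}, s 1 = φ (pv (FL G) z) → p 1 = r →
      ∀ A ⊆ {s(z, G.nx z), s(v, z)}, Tb2 G φ (pv (FL G) z) (s 1) (p 1) (t 1) r A :=
    fun e e' A k => Or.inr (Or.inr (Or.inr ⟨Or.inr ⟨e'.symm, by rw [e, e']; exact n1.symm⟩,
      sp.mono k⟩))
  by_cases c1 : (φ x).1 = (φ (pv (FL G) z)).1
  · obtain ⟨x', a1, a2, a3⟩ := al _ c1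
    obtain ⟨s, p, t, Q, s1, p1, -, p0⟩ := K l h.hl.1 n0
    exact h.colR hφ e4 n1 H Q a1 (a2.trans p0) (Or.inl a3) (free a1 s1) (pass s1 p1)
  by_cases c2 : (φ x).1 = r.1
  swap
  · obtain ⟨s, p, t, Q, s1, p1, t1, p0⟩ := K _ (H.up (k := 0) hx) (Ne.symm c1)
    exact h.colR hφ e4 n1 H Q xl p0 (Or.inr ⟨c1, c2, t1.symm⟩) (free xl s1) (pass s1 p1)
  obtain ⟨x', a1, a2, a3⟩ := al _ c2
  obtain ⟨s, p, t, Q, s1, p1, t1, p0⟩ := K l h.hl.1 n0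
  have cs : ∀ e, ∀ f ∈ Gn G φ v z l r x' True False e,
      (e = φ (pv (FL G) z) ∧ f = s(pv (FL G) z, z)) ∨
      (e = r ∧ (f = s(z, G.nx z) ∨ f = s(x', G.nx x'))) ∨ (e = l ∧ f = s(v, z)) := fun e f m => by
    rcases gn_of h e4 m with a | a | a | a
    exacts [Or.inl a, Or.inr (Or.inl ⟨a.1, Or.inl (a.2.resolve_right And.left)⟩),
      Or.inr (Or.inl ⟨a.1.trans a3, Or.inr a.2⟩), Or.inr (Or.inr a.2)]
  refine Q.col h H a1 (a2.trans p0) (pL := True) (pR := False) (Or.inl trivial) ?_ ?_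
  · rintro e e' ⟨f, m⟩ ⟨f', m'⟩ q
    rcases cs e f m with ⟨c, -⟩ | ⟨c, -⟩ | ⟨c, -⟩ <;>
      rcases cs e' f' m' with ⟨c', -⟩ | ⟨c', -⟩ | ⟨c', -⟩ <;> rw [c, c'] at q ⊢
    exacts [absurd q n1, absurd q n0, absurd q.symm n1, absurd q.symm n2, absurd q.symm n0,
      absurd q n2]
  · rintro e ⟨f, m⟩
    rcases cs e f m with ⟨c, -⟩ | ⟨c, -⟩ | ⟨c, -⟩ <;> rw [c]
    · refine free yl s1 _ fun f m => Or.inl ?_
      rcases cs _ f m with a | a | a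
      exacts [a.2, absurd (congrArg Prod.fst a.1) n1, absurd (congrArg Prod.fst a.1) n0]
    · refine Or.inr (Or.inr (Or.inl ⟨p1.symm, by rw [t1, s1, ← el], t1 ▸ n3,
        (hb x' a1 a3).mono fun f m => ?_⟩))
      rcases cs _ f m with a | a | a
      exacts [absurd (congrArg Prod.fst a.1).symm n1, a.2, absurd (congrArg Prod.fst a.1).symm n2]
    · have : ∀ f ∈ Gn G φ v z l r x' True False l, f = s(v, z) := fun f m => by
        rcases cs _ f m with a | a | a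
        exacts [absurd (congrArg Prod.fst a.1).symm n0, absurd (congrArg Prod.fst a.1) n2, a.2]
      exact Or.inl ⟨fun f m f' m' => (this f m).trans (this f' m').symm, t1.symm⟩

end

end Pool.Agent.P.MP_08fd93_co.FE
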