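import Pool.Agent.P.MP_08fd93_co.FE.LZ5
import Pool.Agent.P.MP_08fd93_co.FP.L6
import Pool.Agent.P.MP_08fd93_co.FH.H1

/-! The frame of a long second root: the cells at the root. -/

set_option autoImplicit false

namespace Pool.Agent.P.MP_08fd93_co.FE

open OV PkPrtP FB FN FZ FK

variable {J : Type} {G : VD J} {v z l r x y e u q g t : Vx J} {φ : Vx J → Vx J} {M : MU J}
  {d : DD (Vx J)}

theorem c1_cell (hd : VC G M d) (c : C1 (FL G) M e) : d.X = G.Bt e (G.nx e) ∧ d.a = G.an e ∧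
    d.b = G.an (G.nx e) ∧ d.a' = e ∧ d.b' = G.nx e ∧ d.I = G.In e (G.nx e) := by
  have e2 : M.s' = G.nx e := c.es'
  refine ⟨by rw [hd.eX, c.es, e2], by rw [hd.ea, c.es], by rw [hd.eb, e2], hd.mc.ea'.trans c.es,
    hd.mc.eb'.trans e2, ?_⟩
  rw [hd.eI, c.es, e2]
  refine Set.union_eq_right.2 ?_
  rintro x ⟨u, hu, m⟩
  rw [c.us] at hu
  subst hu
  exact m.elim

section

variable (h : ZR G v z l r)
include h

theorem ZR.p1 (hy : y ∈ G.L 1) : y ∈ G.Pr := h.pr hy odd_one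

theorem ZR.l1 : G.nx l ∈ G.L 1 ∧ G.ρ (G.nx l) = G.ρ l + 1 ∧ G.Γ.Adj l (G.nx l) :=
  h.rows.nx_mem h.hl.1

theorem ZR.r1 : G.nx r ∈ G.L 1 ∧ G.ρ (G.nx r) = G.ρ r + 1 ∧ G.Γ.Adj r (G.nx r) :=
  h.rows.nx_mem h.hr.1

theorem ZR.up (hy : y ∈ G.L 1) : G.Γ.Adj y (G.an y) := (h.sw.vf.aa 1 y hy (h.p1 hy)).1

/-- the children of the root -/
theorem ZR.kids (hy : y ∈ G.L 1) : G.an y = v ↔ G.ρ l < G.ρ y ∧ G.ρ y ≤ G.ρ r := by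
  have V := h.sw.vf
  obtain ⟨a1, a2, -⟩ := h.l1
  obtain ⟨b1, b2, -⟩ := h.r1
  refine ⟨fun e => ⟨?_, ?_⟩, fun k => ?_⟩
  · by_contra c
    exact h.hl.2.2 ((V.btw hy (h.p1 hy) h.hl.1 (h.p1 h.hl.1) a1 (h.p1 a1) (by omega) (by omega)
      (e.trans h.hl.2.1.symm) (e ▸ h.vk)).trans e)
  · by_contra c
    exact h.hr.2.2 ((V.btw h.hr.1 (h.p1 h.hr.1) b1 (h.p1 b1) hy (h.p1 hy) (by omega) (by omega)
      (h.hr.2.1.trans e.symm) (h.hr.2.1.symm ▸ h.vk)).trans h.hr.2.1)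
  · exact (V.btw a1 (h.p1 a1) hy (h.p1 hy) h.hr.1 (h.p1 h.hr.1) (by omega) k.2
      (h.hl.2.1.trans h.hr.2.1.symm) (h.hl.2.1.symm ▸ h.vk)).trans h.hl.2.1

theorem ZR.ch : G.ρ l < G.ρ (G.ch v) ∧ G.ρ (G.ch v) ≤ G.ρ r :=
  (h.kids (h.fv ▸ (h.sw.vf.kc v h.vk).1)).1 (h.sw.eV v h.vk).2

theorem ZR.v_lf : G.Lf 1 x (G.nx r) v :=
  Or.inr (Or.inr ⟨h.vk, h.fv, fun k => h.hr.2.2 (h.sw.t_mem k).symm, by
    have := h.ch.2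
    have := h.r1.2.1
    omega⟩)

/-- nothing crosses the cut at a vertex of the first row -/
theorem ZR.nc (hy : y ∈ G.L 1) {a b : Vx J} (ha : G.Lf 1 (G.xl (G.an y)) y a)
    (hb : G.Rg 1 (G.xl (G.an y)) y b) : ¬ G.Γ.Adj a b :=
  (h.sw.vf.ncv (h.sw.vf.brg hy (h.p1 hy) (Or.inl rfl)) (Set.empty_subset _) Set.finite_empty
    isConn_empty ha hb).1

/-- the other neighbours of the root on the first row -/
theorem ZR.nbv (hx : x ∈ G.L 1) (a : G.Γ.Adj v x) (n : G.an x ≠ v) : x = l ∨ x = G.nx r := by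
  obtain ⟨b1, b2, -⟩ := h.r1
  have k := mt (h.kids hx).2 n
  by_cases c : G.ρ x < G.ρ l
  · exact absurd a.symm (h.nc h.hl.1 (Or.inr (Or.inl ⟨hx, c⟩)) (Or.inr (Or.inr
      ⟨h.vk, h.fv, fun k => h.hl.2.2 (h.sw.t_mem k).symm, h.ch.1⟩)))
  by_cases c' : G.ρ (G.nx r) < G.ρ x
  · exact absurd a (h.nc b1 h.v_lf (Or.inr (Or.inl ⟨hx, c'⟩)))
  by_cases c'' : G.ρ x = G.ρ l
  exacts [Or.inl (h.rows.inj hx h.hl.1 c''), Or.inr (h.rows.inj hx b1 (by omega))]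

/-- an inner neighbour of the root with a foot on the right -/
theorem ZR.side (hu : u ∈ G.S 1) (a : G.Γ.Adj u v) (hq : q ∈ G.L 0) (b : G.Γ.Adj u q)
    (lt : G.ρ z < G.ρ q) : u ∈ G.In r (G.nx r) ∧ G.ρ q ≤ G.ρ (G.xl (G.an (G.nx r))) := by
  have V := h.sw.vf
  have b1 := h.r1.1
  have k : ∀ w ∈ Nb G.Γ (G.Cp 1 u), ¬ G.Rg 1 (G.xl (G.an (G.nx r))) (G.nx r) w := fun w hw m =>
    V.side b1 (h.p1 b1) (Or.inl rfl) hu (cpv_nb a) hw h.v_lf m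
  refine ⟨?_, not_lt.1 fun c => k q (cpv_nb b) (Or.inl ⟨hq, c⟩)⟩
  rw [VD.In, h.rows.uw.lf _ _ h.hr.1]
  refine ⟨hu, fun w hw => ⟨fun m => V.side h.hr.1 (h.p1 h.hr.1) (Or.inr rfl) hu hw (cpv_nb b) m
    (Or.inl ⟨hq, ?_⟩), k w hw⟩⟩
  rwa [h.sw.sh, h.hr.2.1, h.xv]

theorem ZR.in_s (ht : t ∈ G.In r (G.nx r)) : t ∈ G.S 1 := by
  rw [VD.In, h.rows.uw.lf _ _ h.hr.1] at ht
  exact ht.1

theorem ZR.ft (hy : y ∈ G.L 1) : G.xl (G.an y) ∈ G.L 0 := (h.sw.vf.feet hy (h.p1 hy)).1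

theorem ZR.mono (hx : x ∈ G.L 1) (hy : y ∈ G.L 1) (k : G.ρ x ≤ G.ρ y) :
    G.ρ (G.xl (G.an x)) ≤ G.ρ (G.xl (G.an y)) := h.sw.mono hx (h.p1 hx) hy (h.p1 hy) k

theorem ZR.phi (hφ : PH (FL G) G.Pr φ) (hg : g ∈ G.L 0) (he : e ∈ G.L 1)
    (k1 : G.ρ (G.xl (G.an e)) ≤ G.ρ g) (k2 : G.ρ g < G.ρ (G.xl (G.an (G.nx e)))) : φ g = e := by
  have f0 : (FL G).f g = 0 := h.rows.uw.lf _ _ hg
  obtain ⟨n1, n2, -⟩ := h.rows.nx_mem he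
  refine (hφ.uni g (h.rows.la hg) e ⟨by rwa [f0], h.p1 he, k1, fun t ht _ c => ?_⟩).symm
  rw [f0] at ht
  have c : G.ρ e < G.ρ t := c
  exact k2.trans_le (h.mono n1 ht (by omega))

/-- an edge under an edge of the first row -/
theorem ZR.pe (hφ : PH (FL G) G.Pr φ) (he : e ∈ G.L 1) (hg : g ∈ G.LA) (k : φ g = e) :
    g ∈ G.L 0 ∧ s(g, G.nx g) ∈ PE G.Γ (G.Bt e (G.nx e)) := by
  have a := hφ.lev h.sw.lay hg
  have b : (FL G).f e = 1 := h.rows.uw.lf _ _ he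
  rw [k, b] at a
  have a : G.f g = 0 := by
    change 1 = G.f g + 1 at a
    omega
  exact ⟨a ▸ hg, h.n2 he odd_one ▸ (h.sw.und_iff hφ (h.rows.la he) (h.p1 he) hg).2 k⟩

/-- the second root sees both ends of the top -/
theorem ZR.freeL (hφ : PH (FL G) G.Pr φ) (he : e ∈ G.L 1) (e1 : φ (pv (FL G) z) = e)
    (e2 : G.an (G.nx e) = z) (a : G.Γ.Adj z e) (hg : g ∈ G.LA) (k : φ g = e) :
    St1 G e {s(pv (FL G) z, z), s(g, G.nx g)} fun _ _ => True := fun M d hd c => by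
  obtain ⟨c1, -, c3, c4, c5, -⟩ := c1_cell hd c
  obtain ⟨y1, -, y3⟩ := pv_mem h.sw.lay h.z0.1
  have y3 : G.nx (pv (FL G) z) = z := y3
  have m := (h.pe hφ he (h.rows.la y1) e1).2
  rw [y3] at m
  exact FP.oxV h.rows.wp.fine.pl (all_T _ _ h.rows.wp.fine.pl) hd.mc.disc
    (by rw [c4, c5]; exact (h.rows.nx_mem he).2.2) (Or.inr (by rwa [c3, c4, e2])) (c1 ▸ m)
    (c1 ▸ (h.pe hφ he hg k).2)

variable (lt : G.ρ z < G.ρ (G.xl (G.an (G.nx r))))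
include lt

theorem ZR.e4 (hφ : PH (FL G) G.Pr φ) : φ z = r :=
  h.phi hφ h.z0.1 h.hr.1 (by rw [h.hr.2.1, h.xv]) lt

theorem ZR.btR (hy : y ∈ G.L 0) (l1 : G.ρ z ≤ G.ρ y) (l2 : G.ρ y ≤ G.ρ (G.xl (G.an (G.nx r)))) :
    y ∈ G.Bt r (G.nx r) :=
  h.sw.bt_of h.hr.1 (h.hr.2.1 ▸ h.hr.2.2.symm) hy (by rwa [h.hr.2.1, h.xv]) l2

theorem ZR.peR : v ∈ G.Bt r (G.nx r) ∧ z ∈ G.Bt r (G.nx r) ∧ G.nx z ∈ G.Bt r (G.nx r) := by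
  obtain ⟨n1, n2, -⟩ := h.rows.nx_mem h.z0.1
  exact ⟨Or.inl h.hr.2.1.symm, h.btR lt h.z0.1 le_rfl lt.le, h.btR lt n1 (by omega) (by omega)⟩

/-- the cell under `r` takes the edge of the root and the next edge -/
theorem ZR.freeR (k : G.Γ.Adj v (G.nx r) ∨ ((∃ u ∈ G.In r (G.nx r), G.Γ.Adj u v ∧ ∃ q ∈ G.L 0,
    G.ρ z < G.ρ q ∧ G.ρ q ≤ G.ρ (G.xl (G.an (G.nx r))) ∧ G.Γ.Adj u q) ∧
    ∀ t ∈ G.In r (G.nx r), G.Γ.Adj t v → G.Γ.Adj t r → G.Γ.Adj t (G.nx r) → ∀ x ∈ G.L 0,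
      G.ρ z < G.ρ x → ¬ G.Γ.Adj t x)) : St1 G r {s(z, G.nx z), s(v, z)} fun _ _ => True := by
  intro M d hd c
  obtain ⟨c1, c2, -, c4, c5, c6⟩ := c1_cell hd c
  rw [h.hr.2.1] at c2
  obtain ⟨n1, n2, n3⟩ := h.rows.nx_mem h.z0.1
  obtain ⟨-, m2, m3⟩ := h.peR lt
  rw [← c1] at m2 m3
  have V := h.sw.vf
  have r2 : d.ρ z = G.ρ z := hd.mc.rx _ m2 (V.l_nk h.z0.1)
  have r3 : d.ρ (G.nx z) = G.ρ (G.nx z) := hd.mc.rx _ m3 (V.l_nk n1)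
  have T : FP.Tl G.Γ d z z (G.nx z) := ⟨hd.mc.disc, by rw [c4, c5]; exact h.r1.2.2, m2,
    c2 ▸ h.z0.2, m2, m3, n3, le_rfl, by omega⟩
  have l0 := T.l0
  obtain ⟨X', Q, O⟩ := FP.rightX h.rows.wp.fine.pl (all_T _ _ h.rows.wp.fine.pl) T (by
    rcases k with k | ⟨⟨u, hu, a, q, hq, l1, l2, b⟩, k⟩
    · exact Or.inl (by rwa [c2, c5])
    have mq : q ∈ d.X := c1 ▸ h.btR lt hq l1.le l2
    have rq : d.ρ q = G.ρ q := hd.mc.rx _ mq (V.l_nk hq)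
    refine Or.inr (Or.inr (Or.inr (Or.inr ⟨⟨u, c6 ▸ hu, c2 ▸ a, q, mq, by omega, b⟩,
      fun t ht a1 a2 a3 x hx lx ax => ?_⟩)))
    have nk : x ∉ G.K := fun m => by
      rw [h.sw.kq x m v h.vk t ax (c2 ▸ a1), ← c2] at lx
      omega
    have rx : d.ρ x = G.ρ x := hd.mc.rx _ hx nk
    exact k t (c6 ▸ ht) (c2 ▸ a1) (c4 ▸ a2) (c5 ▸ a3) x (h.sw.line h.hr.1 (h.p1 h.hr.1) h.r1.1
      (h.p1 h.r1.1) (by have := h.r1.2.1; omega) (c1 ▸ hx) nk).1 (by omega) ax)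
  exact ⟨X', Q, O.mono (by rw [c2, Set.pair_comm])⟩

variable (hu : u ∈ G.In r (G.nx r)) (a : G.Γ.Adj u v) (hq : q ∈ G.L 0) (l1 : G.ρ z < G.ρ q)
  (l2 : G.ρ q ≤ G.ρ (G.xl (G.an (G.nx r)))) (b : G.Γ.Adj u q)
include hu a hq l1 l2 b

/-- both edges lie in the span of an inner neighbour of the root -/
theorem ZR.spn : Spn G r {s(z, G.nx z), s(v, z)} := by
  refine ⟨_, _, subset_rfl, fun M d w hd hw c => ?_⟩
  have V := h.sw.vf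
  have D := hd.mc.disc
  have sub := h.sw.bt hd hw c (h.p1 h.hr.1)
  rw [h.n2 h.hr.1 odd_one] at sub
  obtain ⟨a1, a2, a3⟩ := h.sw.rng hd hw c
  have f1 : G.f M.s = 1 := (h.rows.uw.lf _ _ a1).symm.trans (h.rows.uw.lf _ _ h.hr.1)
  have hs : M.s ∈ G.L 1 := f1 ▸ hd.hM.hs
  have hs' : M.s' ∈ G.L 1 := f1 ▸ hd.hM.hs'
  obtain ⟨b1, b2, -⟩ := h.r1
  obtain ⟨n1, n2, n3⟩ := h.rows.nx_mem h.z0.1
  obtain ⟨m1, m2, m3⟩ := h.peR lt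
  have mq := sub (h.btR lt hq l1.le l2)
  have ea : v = d.a := by
    refine ((h.sw.bt_k (hd.eX ▸ sub m1) h.vk).resolve_right fun k => ?_).trans hd.ea.symm
    have := (h.kids hs').1 k.symm
    omega
  have r2 : d.ρ z = G.ρ z := hd.mc.rx _ (sub m2) (V.l_nk h.z0.1)
  have r3 : d.ρ (G.nx z) = G.ρ (G.nx z) := hd.mc.rx _ (sub m3) (V.l_nk n1)
  have rq : d.ρ q = G.ρ q := hd.mc.rx _ mq (V.l_nk hq)
  refine ⟨mem_PE.2 ⟨sub m2, sub m3, n3⟩, mem_PE.2 ⟨sub m1, sub m2, h.z0.2⟩, u, Or.inl ?_, v, sub m1,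
    q, mq, a, b, fun x hx => ?_⟩
  · rw [hd.eI]
    rw [VD.In, h.rows.uw.lf _ _ h.hr.1] at hu
    refine Or.inr ?_
    rw [VD.In, f1]
    exact V.cl_mono hs (h.p1 hs) hs' (h.p1 hs') h.hr.1 (h.p1 h.hr.1) b1 (h.p1 b1) a2 (by omega)
      (V.mono' hs (h.p1 hs) h.hr.1 (h.p1 h.hr.1) a2).2 (h.mono b1 hs' (by omega)) hu
  · have k1 := D.px.lo _ (sub m2)
    have k2 := D.px.lo _ mq
    rw [← ea] at k1 k2
    simp only [Sym2.mem_iff] at hx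
    rcases hx with (rfl | rfl) | rfl | rfl <;> omega

/-- the hub sees the right end of the top, which pays -/
theorem ZR.hub (hφ : PH (FL G) G.Pr φ) (ub : G.Γ.Adj u (G.nx r)) (hg : g ∈ G.LA) (k : φ g = r) :
    St1 G r {s(z, G.nx z), s(g, G.nx g)} fun c B => c r = c (G.nx r) ∨ G.nx r ∈ B := by
  intro M d hd c
  obtain ⟨c1, c2, -, c4, c5, c6⟩ := c1_cell hd c
  rw [h.hr.2.1] at c2
  have V := h.sw.vf
  have D := hd.mc.disc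
  have hP := h.rows.wp.fine.pl
  have T := all_T _ _ hP
  obtain ⟨n1, n2, n3⟩ := h.rows.nx_mem h.z0.1
  obtain ⟨-, m2, m3⟩ := h.peR lt
  obtain ⟨g0, pg⟩ := h.pe hφ h.hr.1 hg k
  have mq := h.btR lt hq l1.le l2
  rw [← c1] at m2 m3 pg mq
  obtain ⟨g1, g2, -⟩ := h.rows.nx_mem g0
  have pz : s(z, G.nx z) ∈ PE G.Γ d.X := mem_PE.2 ⟨m2, m3, n3⟩
  have r2 : d.ρ z = G.ρ z := hd.mc.rx _ m2 (V.l_nk h.z0.1)
  have r3 : d.ρ (G.nx z) = G.ρ (G.nx z) := hd.mc.rx _ m3 (V.l_nk n1)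
  have rq : d.ρ q = G.ρ q := hd.mc.rx _ mq (V.l_nk hq)
  have r4 : d.ρ g = G.ρ g := hd.mc.rx _ (mem_PE.1 pg).1 (V.l_nk g0)
  have r5 : d.ρ (G.nx g) = G.ρ (G.nx g) := hd.mc.rx _ (mem_PE.1 pg).2.1 (V.l_nk g1)
  have st : G.Γ.Adj d.a' d.b' := by rw [c4, c5]; exact h.r1.2.2
  have kz : ∀ x ∈ s(z, G.nx z), d.ρ x ≤ d.ρ q := FP.both (by omega) (by omega)
  have fin : (∃ o, Out G.Γ d {s(z, G.nx z), s(g, G.nx g)} o) → ∃ X' Q, OutX G.Γ d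
      {s(z, G.nx z), s(g, G.nx g)} X' Q fun c B => c r = c (G.nx r) ∨ G.nx r ∈ B := fun ⟨o, O⟩ =>
    ⟨_, _, (out_top2 D O st subset_rfl (FP.pair_sub pz pg)).imp' fun _ _ _ m =>
      Or.inr (by rw [c4, c5]; exact m.imp_right Or.inr)⟩
  by_cases c : G.ρ g < G.ρ q
  · refine fin (FS.sp hP T D (Or.inl (c6 ▸ hu)) D.px.ha mq (c2 ▸ a) b pz pg fun x hx =>
      ⟨D.px.lo x (hx.elim (PE.ends pz) (PE.ends pg)), hx.elim (kz x) fun m => ?_⟩)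
    exact FP.both (p := fun x => d.ρ x ≤ d.ρ q) (by omega) (by omega) x m
  have kg : ∀ x ∈ s(g, G.nx g), d.ρ q ≤ d.ρ x := FP.both (by omega) (by omega)
  by_cases c' : G.Γ.Adj q d.b'
  · exact fin (T d _ D (FU.adm_pair (Or.inl pz) (Or.inl pg) (Or.inl ⟨q, mq, _, D.py.hb, c',
      fun x m => Or.inl ⟨PE.ends pz m, kz x m⟩, fun x m => Or.inl ⟨PE.ends pg m, kg x m⟩⟩)))
  have U : FH.HU G.Γ d u q q {s(z, G.nx z)} ∅ {s(g, G.nx g)} :=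
    ⟨D, c6 ▸ hu, c2 ▸ a, c5 ▸ ub, mq, mq, b, b, le_rfl, c', Set.singleton_subset_iff.2 pz,
      Set.empty_subset _, Set.singleton_subset_iff.2 pg, FH.tw_one _,
      (FH.tw_one s(z, z)).mono (Set.empty_subset _), by rintro _ rfl; exact kz,
      fun _ m => m.elim, by rintro _ rfl; exact kg⟩
  obtain ⟨X', Q, O⟩ := U.triv hP T st False (Or.inr ⟨id, Set.subsingleton_singleton⟩)
  refine ⟨X', Q, (O.mono ?_).imp' fun _ _ _ m => ⟨False.elim, Or.inr (by rwa [c4, c5])⟩⟩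
  rintro _ (rfl | rfl)
  exacts [Or.inl (Or.inl rfl), Or.inr rfl]

end

end Pool.Agent.P.MP_08fd93_co.FE
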